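import Pool.Agent.MR3.Size

set_option autoImplicit false

/-!
# Low complexity does not depend on the generators
-/

namespace Pool.Agent.MR3

open MvPolynomial

namespace Change

/-- every polynomial has a size -/
theorem exists_sz {σ : Type} (P : MvPolynomial σ ℤ) : ∃ lam, Sz lam P :=
  ⟨max P.totalDegree (nrm P), le_max_left _ _,
    (Nat.lt_two_pow_self (n := nrm P)).le.trans
      (Nat.pow_le_pow_right (by norm_num) (le_max_right _ _))⟩

/-- common denominators -/
theorem common_denom {σ τ F : Type} [Field F] [Finite τ] (x : σ → F) (y : τ → F) (h : GenBy x) :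
    ∃ (lam : ℕ), RatT x lam y := by
  classical
  have := Fintype.ofFinite τ
  choose P Q hQ hP using fun t => h (y t)
  have hne : aeval x (∏ t, Q t) ≠ 0 := by
    rw [map_prod]
    exact Finset.prod_ne_zero_iff.mpr fun t _ => hQ t
  have hex : ∀ t : τ, ∃ R : MvPolynomial σ ℤ, y t * aeval x (∏ t, Q t) = aeval x R := by
    intro t
    refine ⟨P t * ∏ t' ∈ Finset.univ.erase t, Q t', ?_⟩
    rw [← Finset.mul_prod_erase Finset.univ Q (Finset.mem_univ t), map_mul, map_mul, ← mul_assoc,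
      hP t]
  choose R hR using hex
  choose l hl using fun t => exists_sz (R t)
  obtain ⟨l0, hl0⟩ := exists_sz (∏ t, Q t)
  refine ⟨max l0 (Finset.univ.sup l), ∏ t, Q t, R, hl0.mono (le_max_left _ _), ?_, hne, hR⟩
  intro t
  exact (hl t).mono ((Finset.le_sup (f := l) (Finset.mem_univ t)).trans (le_max_right _ _))

theorem map_aeval' {σ F F' : Type} [Field F] [Field F'] (e : F →+* F') (x : σ → F)
    (P : MvPolynomial σ ℤ) : e (aeval x P) = aeval (fun i => e (x i)) P := by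
  have h := MvPolynomial.map_aeval x e P
  rw [h]
  rw [aeval_def, coe_eval₂Hom]
  congr 1
  exact RingHom.ext_int _ _

/-- transitivity of `RatT` -/
theorem RatT.trans {σ τ ρ F : Type} [Field F] (x : σ → F) (y : τ → F) (z : ρ → F) (lam mu : ℕ)
    (h1 : RatT x lam y) (h2 : RatT y mu z) : RatT x (mu * lam + mu) z := by
  obtain ⟨q, p, hq, hp, hq0, hpq⟩ := h1
  obtain ⟨Q, P, hQ, hP, hQ0, hPQ⟩ := h2
  obtain ⟨R, hR, hR'⟩ := Subst_proof τ σ lam mu Q p q hQ hp hq
  choose Rk hRk hRk' using fun k => Subst_proof τ σ lam mu (P k) p q (hP k) hp hq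
  have e1 := hR' F x y hpq
  refine ⟨R, Rk, hR, hRk, ?_, ?_⟩
  · rw [e1]
    exact mul_ne_zero (pow_ne_zero _ hq0) hQ0
  · intro k
    have e2 := hRk' k F x y hpq
    rw [e1, e2, ← hPQ k]
    ring

/-- automorphisms transport `RatT` -/
theorem RatT.map {σ τ F : Type} [Field F] (x : σ → F) (y : τ → F) (lam : ℕ) (h : RatT x lam y)
    (s : F →+* F) : RatT (fun i => s (x i)) lam (fun i => s (y i)) := by
  obtain ⟨Q, P, hQ, hP, hQ0, hPQ⟩ := h
  refine ⟨Q, P, hQ, hP, ?_, ?_⟩
  · rw [← map_aeval']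
    exact fun h => hQ0 ((map_eq_zero s).mp h)
  · intro k
    rw [← map_aeval', ← map_aeval', ← map_mul, hPQ]

end Change

theorem Change_proof : Stmt_Change := by
  intro F _ σ τ _ _ x y hx hy s ⟨K, hK⟩
  obtain ⟨a, ha⟩ := Change.common_denom x y hx
  obtain ⟨b, hb⟩ := Change.common_denom y x hy
  refine ⟨(2 * a * (b + 1) + 1) * (K + 1), ?_⟩
  intro j n hn
  have h1 := hK j n hn
  have h2 : RatT (fun i => (s ^ n) (x i)) a (fun i => (s ^ n) (y i)) :=
    Change.RatT.map x y a ha ((s ^ n : RingAut F) : F →+* F)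
  have h3 := Change.RatT.trans _ _ _ _ _ (Change.RatT.trans _ _ _ _ _ hb h1) h2
  obtain ⟨Q, P, hQ, hP, hQ0, hPQ⟩ := h3
  have hle : a * (K ^ (j + 1) * b + K ^ (j + 1)) + a ≤
      ((2 * a * (b + 1) + 1) * (K + 1)) ^ (j + 1) := by
    have e1 : 1 ≤ (K + 1) ^ (j + 1) := Nat.one_le_pow _ _ (Nat.succ_pos _)
    have e2 : K ^ (j + 1) ≤ (K + 1) ^ (j + 1) := Nat.pow_le_pow_left (Nat.le_succ _) _
    have e3 : 2 * a * (b + 1) + 1 ≤ (2 * a * (b + 1) + 1) ^ (j + 1) :=
      Nat.le_self_pow (Nat.succ_ne_zero _) _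
    rw [mul_pow]
    calc a * (K ^ (j + 1) * b + K ^ (j + 1)) + a
        = a * (b + 1) * K ^ (j + 1) + a := by ring
      _ ≤ a * (b + 1) * (K + 1) ^ (j + 1) + a * (b + 1) * (K + 1) ^ (j + 1) := by
          apply Nat.add_le_add
          · exact Nat.mul_le_mul_left _ e2
          · calc a = a * 1 * 1 := by ring
              _ ≤ a * (b + 1) * (K + 1) ^ (j + 1) :=
                Nat.mul_le_mul (Nat.mul_le_mul_left _ (by omega)) e1
      _ = (2 * a * (b + 1)) * (K + 1) ^ (j + 1) := by ring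
      _ ≤ (2 * a * (b + 1) + 1) ^ (j + 1) * (K + 1) ^ (j + 1) :=
          Nat.mul_le_mul_right _ ((Nat.le_succ _).trans e3)
  exact ⟨Q, P, hQ.mono hle, fun k => (hP k).mono hle, hQ0, hPQ⟩

end Pool.Agent.MR3
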