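import Pool.Agent.MR3.Defs

set_option autoImplicit false

/-!
# MP_d42559_co: modules Circuit and Determ (generalised cross products)
-/

namespace Pool.Agent.MR3

open MvPolynomial

namespace Cross

/-! ### The generalised cross product -/

/-- the cross product of `k` vectors of length `k + 1` -/
def cr {R : Type*} [CommRing R] {k : ℕ} (u : Fin k → Fin (k + 1) → R) (j : Fin (k + 1)) : R :=
  (-1) ^ (j : ℕ) * Matrix.det (Matrix.of (fun i i' : Fin k => u i (j.succAbove i')))

theorem cr_map {R R' : Type*} [CommRing R] [CommRing R'] (f : R →+* R') {k : ℕ}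
    (u : Fin k → Fin (k + 1) → R) (j : Fin (k + 1)) :
    f (cr u j) = cr (fun i i' => f (u i i')) j := by
  unfold cr
  rw [map_mul, map_pow, map_neg, map_one, RingHom.map_det]
  rfl

theorem det_cons {R : Type*} [CommRing R] {k : ℕ} (u : Fin k → Fin (k + 1) → R)
    (y : Fin (k + 1) → R) :
    Matrix.det (Matrix.of (Fin.cons y u : Fin (k + 1) → Fin (k + 1) → R))
      = ∑ j, y j * cr u j := by
  rw [Matrix.det_succ_row_zero]
  refine Finset.sum_congr rfl (fun j _ => ?_)
  unfold cr
  have h : (Matrix.of (Fin.cons y u : Fin (k + 1) → Fin (k + 1) → R)) 0 j = y j := rfl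
  have h2 : (Matrix.of (Fin.cons y u : Fin (k + 1) → Fin (k + 1) → R)).submatrix Fin.succ
      j.succAbove = Matrix.of (fun i i' : Fin k => u i (j.succAbove i')) := rfl
  rw [h, h2]
  ring

theorem adj_cons {R : Type*} [CommRing R] {k : ℕ} (u : Fin k → Fin (k + 1) → R)
    (y : Fin (k + 1) → R) (j : Fin (k + 1)) :
    (Matrix.of (Fin.cons y u : Fin (k + 1) → Fin (k + 1) → R)).adjugate j 0 = cr u j := by
  rw [Matrix.adjugate_fin_succ_eq_det_submatrix]
  unfold cr
  have h2 : (Matrix.of (Fin.cons y u : Fin (k + 1) → Fin (k + 1) → R)).submatrix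
      (Fin.succAbove 0) j.succAbove = Matrix.of (fun i i' : Fin k => u i (j.succAbove i')) := by
    rw [Fin.succAbove_zero]; rfl
  rw [h2]
  simp

/-- vectors orthogonal to the `u i` are proportional to the cross product -/
theorem cr_id {R : Type*} [CommRing R] {k : ℕ} (u : Fin k → Fin (k + 1) → R)
    (x : Fin (k + 1) → R) (h : ∀ i, dotProduct (u i) x = 0) (j : Fin (k + 1)) :
    x j * cr u 0 = x 0 * cr u j := by
  set y : Fin (k + 1) → R := Pi.single 0 1 with hy
  set M : Matrix (Fin (k + 1)) (Fin (k + 1)) R :=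
    Matrix.of (Fin.cons y u : Fin (k + 1) → Fin (k + 1) → R) with hM
  have hdet : M.det = cr u 0 := by
    rw [hM, det_cons, Finset.sum_eq_single 0]
    · simp [hy]
    · intro b _ hb
      simp [hy, hb]
    · intro h; exact absurd (Finset.mem_univ _) h
  have hMx : M.mulVec x = Pi.single 0 (x 0) := by
    funext i
    refine Fin.cases ?_ (fun i => ?_) i
    · have : M.mulVec x 0 = dotProduct y x := rfl
      rw [this, hy]
      simp
    · have : M.mulVec x i.succ = dotProduct (u i) x := rfl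
      rw [this, h i]
      simp
  have h1 : M.adjugate.mulVec (M.mulVec x) = M.det • x := by
    rw [Matrix.mulVec_mulVec, Matrix.adjugate_mul, Matrix.smul_mulVec, Matrix.one_mulVec]
  rw [hMx, hdet] at h1
  have h2 := congrFun h1 j
  rw [Matrix.mulVec_single] at h2
  simp only [Pi.smul_apply, smul_eq_mul] at h2
  have h3 : M.adjugate j 0 = cr u j := adj_cons u y j
  have h4 : (M.adjugate.col 0) j = cr u j := h3
  simp only [MulOpposite.smul_eq_mul_unop, MulOpposite.unop_op] at h2
  rw [h4] at h2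
  rw [mul_comm (x j), ← h2, mul_comm]

theorem cr_ne {F : Type*} [Field F] {k : ℕ} (u : Fin k → Fin (k + 1) → F)
    (hu : LinearIndependent F u) : cr u ≠ 0 := by
  intro h0
  have hlt : Module.finrank F (Submodule.span F (Set.range u)) < k + 1 := by
    have := finrank_range_le_card (R := F) (b := u)
    rw [Fintype.card_fin] at this
    exact Nat.lt_succ_of_le this
  have hne : Submodule.span F (Set.range u) ≠ ⊤ := by
    intro htop
    rw [htop, finrank_top, Module.finrank_fin_fun] at hlt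
    exact lt_irrefl _ hlt
  obtain ⟨y, hy⟩ := SetLike.exists_not_mem_of_ne_top _ hne rfl
  have hli : LinearIndependent F (Fin.cons y u : Fin (k + 1) → Fin (k + 1) → F) :=
    linearIndependent_finCons.2 ⟨hu, hy⟩
  have hunit : IsUnit (Matrix.of (Fin.cons y u : Fin (k + 1) → Fin (k + 1) → F)) :=
    Matrix.linearIndependent_rows_iff_isUnit.1 hli
  have hdet := (Matrix.isUnit_iff_isUnit_det _).1 hunit
  rw [det_cons] at hdet
  rw [h0] at hdet
  simp at hdet

theorem cr_zero_ne {F : Type*} [Field F] {k : ℕ} (u : Fin k → Fin (k + 1) → F)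
    (hu : LinearIndependent F u) (x : Fin (k + 1) → F) (hx : x 0 = 1)
    (h : ∀ i, dotProduct (u i) x = 0) : cr u 0 ≠ 0 := by
  intro h0
  apply cr_ne u hu
  funext j
  have := cr_id u x h j
  rw [h0, hx, mul_zero, one_mul] at this
  exact this.symm

/-! ### Sizes -/

theorem nrm_eq {σ : Type} (P : MvPolynomial σ ℤ) (s : Finset (σ →₀ ℕ)) (hs : P.support ⊆ s) :
    nrm P = ∑ m ∈ s, (P.coeff m).natAbs := by
  unfold nrm
  refine Finset.sum_subset hs (fun m _ hm => ?_)
  rw [MvPolynomial.notMem_support_iff] at hm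
  rw [hm]; rfl

theorem nrm_zero {σ : Type} : nrm (0 : MvPolynomial σ ℤ) = 0 := by
  simp [nrm]

theorem nrm_add {σ : Type} (P Q : MvPolynomial σ ℤ) : nrm (P + Q) ≤ nrm P + nrm Q := by
  classical
  rw [nrm_eq P (P.support ∪ Q.support) Finset.subset_union_left,
    nrm_eq Q (P.support ∪ Q.support) Finset.subset_union_right,
    nrm_eq (P + Q) (P.support ∪ Q.support) MvPolynomial.support_add, ← Finset.sum_add_distrib]
  refine Finset.sum_le_sum (fun m _ => ?_)
  rw [MvPolynomial.coeff_add]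
  exact Int.natAbs_add_le _ _

theorem nrm_sum {σ ι : Type} (s : Finset ι) (f : ι → MvPolynomial σ ℤ) :
    nrm (∑ i ∈ s, f i) ≤ ∑ i ∈ s, nrm (f i) := by
  classical
  induction s using Finset.induction_on with
  | empty => simp [nrm_zero]
  | insert a s ha ih =>
    rw [Finset.sum_insert ha, Finset.sum_insert ha]
    exact (nrm_add _ _).trans (Nat.add_le_add_left ih _)

theorem nrm_monomial {σ : Type} (m : σ →₀ ℕ) (a : ℤ) :
    nrm (monomial m a : MvPolynomial σ ℤ) = a.natAbs := by
  classical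
  rw [nrm_eq _ {m} MvPolynomial.support_monomial_subset]
  simp

theorem nrm_mul {σ : Type} (P Q : MvPolynomial σ ℤ) : nrm (P * Q) ≤ nrm P * nrm Q := by
  conv_lhs => rw [P.as_sum, Q.as_sum, Finset.sum_mul_sum]
  refine (nrm_sum _ _).trans ?_
  conv_rhs => unfold nrm
  rw [Finset.sum_mul_sum]
  refine Finset.sum_le_sum (fun a _ => (nrm_sum _ _).trans (Finset.sum_le_sum (fun b _ => ?_)))
  rw [MvPolynomial.monomial_mul, nrm_monomial, Int.natAbs_mul]

theorem nrm_neg {σ : Type} (P : MvPolynomial σ ℤ) : nrm (-P) = nrm P := by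
  unfold nrm
  rw [MvPolynomial.support_neg]
  refine Finset.sum_congr rfl (fun m _ => ?_)
  rw [MvPolynomial.coeff_neg, Int.natAbs_neg]

theorem nrm_one {σ : Type} : nrm (1 : MvPolynomial σ ℤ) = 1 := by
  have := nrm_monomial (σ := σ) 0 1
  rw [MvPolynomial.monomial_zero', map_one] at this
  exact this

theorem nrm_prod_le {σ ι : Type} (s : Finset ι) (f : ι → MvPolynomial σ ℤ) (B : ℕ)
    (h : ∀ i ∈ s, nrm (f i) ≤ B) : nrm (∏ i ∈ s, f i) ≤ B ^ s.card := by
  classical
  induction s using Finset.induction_on with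
  | empty => simp [nrm_one]
  | insert a s ha ih =>
    rw [Finset.prod_insert ha, Finset.card_insert_of_notMem ha, pow_succ, mul_comm]
    refine (nrm_mul _ _).trans ?_
    exact Nat.mul_le_mul (ih fun i hi => h i (Finset.mem_insert_of_mem hi))
      (h a (Finset.mem_insert_self _ _))

theorem nrm_sign {σ : Type} (e : ℤˣ) (P : MvPolynomial σ ℤ) :
    nrm (((e : ℤ) : MvPolynomial σ ℤ) * P) = nrm P := by
  rcases Int.units_eq_one_or e with h | h
  · rw [h]; simp
  · rw [h]; simp [nrm_neg]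

theorem deg_sign {σ : Type} (e : ℤˣ) (P : MvPolynomial σ ℤ) :
    (((e : ℤ) : MvPolynomial σ ℤ) * P).totalDegree = P.totalDegree := by
  rcases Int.units_eq_one_or e with h | h
  · rw [h]; simp
  · rw [h]; simp [MvPolynomial.totalDegree_neg]

theorem nrm_det {σ : Type} {k : ℕ} (M : Matrix (Fin k) (Fin k) (MvPolynomial σ ℤ)) (B : ℕ)
    (h : ∀ i j, nrm (M i j) ≤ B) : nrm M.det ≤ k.factorial * B ^ k := by
  rw [Matrix.det_apply']
  refine (nrm_sum _ _).trans ?_
  have : ∀ τ ∈ (Finset.univ : Finset (Equiv.Perm (Fin k))),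
      nrm (((Equiv.Perm.sign τ : ℤ) : MvPolynomial σ ℤ) * ∏ i, M (τ i) i) ≤ B ^ k := by
    intro τ _
    rw [nrm_sign]
    have := nrm_prod_le (Finset.univ : Finset (Fin k)) (fun i => M (τ i) i) B
      (fun i _ => h _ _)
    rwa [Finset.card_univ, Fintype.card_fin] at this
  refine (Finset.sum_le_card_nsmul _ _ _ this).trans ?_
  rw [Finset.card_univ, Fintype.card_perm, Fintype.card_fin, smul_eq_mul]

theorem deg_det {σ : Type} {k : ℕ} (M : Matrix (Fin k) (Fin k) (MvPolynomial σ ℤ)) (d : ℕ)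
    (h : ∀ i j, (M i j).totalDegree ≤ d) : M.det.totalDegree ≤ k * d := by
  rw [Matrix.det_apply']
  refine MvPolynomial.totalDegree_finsetSum_le (fun τ _ => ?_)
  rw [deg_sign]
  refine (MvPolynomial.totalDegree_finsetProd _ _).trans ?_
  refine (Finset.sum_le_card_nsmul _ _ d (fun i _ => h _ _)).trans ?_
  simp

theorem sz_cr {σ : Type} {k : ℕ} (lam : ℕ) (hlam : 1 ≤ lam)
    (u : Fin k → Fin (k + 1) → MvPolynomial σ ℤ) (h : ∀ i j, Sz lam (u i j))
    (j : Fin (k + 1)) : Sz ((k ^ 2 + k + 1) * lam) (cr u j) := by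
  have hpm : ∀ (n : ℕ) (P : MvPolynomial σ ℤ), nrm ((-1) ^ n * P) = nrm P ∧
      ((-1) ^ n * P).totalDegree = P.totalDegree := by
    intro n P
    rcases neg_one_pow_eq_or (MvPolynomial σ ℤ) n with h | h
    · rw [h, one_mul]; exact ⟨rfl, rfl⟩
    · rw [h, neg_one_mul]; exact ⟨nrm_neg _, MvPolynomial.totalDegree_neg _⟩
  unfold cr
  constructor
  · rw [(hpm _ _).2]
    refine (deg_det _ lam (fun i i' => (h i _).1)).trans ?_
    exact Nat.mul_le_mul_right _ (by omega)
  · rw [(hpm _ _).1]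
    refine (nrm_det _ (2 ^ lam) (fun i i' => (h i _).2)).trans ?_
    have h1 : k.factorial ≤ 2 ^ (k ^ 2) := by
      refine (Nat.factorial_le_pow k).trans ?_
      rw [pow_two, pow_mul]
      exact Nat.pow_le_pow_left (Nat.lt_two_pow_self).le _
    calc k.factorial * (2 ^ lam) ^ k ≤ 2 ^ (k ^ 2) * (2 ^ lam) ^ k := Nat.mul_le_mul_right _ h1
      _ = 2 ^ (k ^ 2 + lam * k) := by rw [← pow_mul, ← pow_add]
      _ ≤ 2 ^ ((k ^ 2 + k + 1) * lam) := by
        refine Nat.pow_le_pow_right (by norm_num) ?_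
        nlinarith [Nat.zero_le (k ^ 2), Nat.mul_le_mul_left (k ^ 2) hlam]

theorem sz_mono {σ : Type} {a b : ℕ} (hab : a ≤ b) {P : MvPolynomial σ ℤ} (h : Sz a P) :
    Sz b P :=
  ⟨h.1.trans hab, h.2.trans (Nat.pow_le_pow_right (by norm_num) hab)⟩

theorem sz_X {σ : Type} (s : σ) : Sz 1 (X s : MvPolynomial σ ℤ) := by
  constructor
  · rw [MvPolynomial.totalDegree_X]
  · have : (X s : MvPolynomial σ ℤ) = monomial (Finsupp.single s 1) 1 := rfl
    rw [this, nrm_monomial]; norm_num

theorem inc_thr {A : Type} [CommRing A] (p : A × A) (a : A) : Inc p (thr p a) := by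
  unfold Inc thr; simp

theorem inc_pt {A : Type} [CommRing A] (l : A × A) (x : A) : Inc (pt l x) l := by
  unfold Inc pt; simp

/-- the common induction step of Circuit: `x, x'` are the vectors of the new object, `w i, w' i`
those of the objects which determine it -/
theorem step {τ : Type} {F : Type} [Field F] {k : ℕ} (X0 : τ → F) (lam : ℕ)
    (w : Fin k → Fin (k + 1) → F) (hw : LinearIndependent F w) (x : Fin (k + 1) → F)
    (hx : x 0 = 1) (hxw : ∀ i, dotProduct (w i) x = 0)
    (hlam : 1 ≤ lam) (P : Fin k → Fin (k + 1) → MvPolynomial τ ℤ)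
    (hS : ∀ i j, Sz lam (P i j)) (hne : ∀ i, aeval X0 (P i 0) ≠ 0)
    (hP : ∀ i j, w i j * aeval X0 (P i 0) = aeval X0 (P i j)) :
    (∀ j, Sz ((k ^ 2 + k + 1) * lam) (cr P j)) ∧ aeval X0 (cr P 0) ≠ 0 ∧
    ∀ (F' : Type) [Field F'] (X' : τ → F') (w' : Fin k → Fin (k + 1) → F')
      (x' : Fin (k + 1) → F'), x' 0 = 1 → (∀ i, dotProduct (w' i) x' = 0) →
      (∀ i j, w' i j * aeval X' (P i 0) = aeval X' (P i j)) →
      ∀ j, x' j * aeval X' (cr P 0) = aeval X' (cr P j) := by
  have key : ∀ (F' : Type) [Field F'] (X' : τ → F') (w' : Fin k → Fin (k + 1) → F')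
      (x' : Fin (k + 1) → F'), (∀ i, dotProduct (w' i) x' = 0) →
      (∀ i j, w' i j * aeval X' (P i 0) = aeval X' (P i j)) →
      ∀ i, dotProduct (fun j => aeval X' (P i j)) x' = 0 := by
    intro F' _ X' w' x' h1 h2 i
    have : dotProduct (fun j => aeval X' (P i j)) x' = aeval X' (P i 0) * dotProduct (w' i) x' := by
      unfold dotProduct
      rw [Finset.mul_sum]
      refine Finset.sum_congr rfl (fun j _ => ?_)
      change aeval X' (P i j) * x' j = _
      rw [← h2 i j]; ring
    rw [this, h1 i, mul_zero]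
  have hmap : ∀ (F' : Type) [Field F'] (X' : τ → F') (j : Fin (k + 1)),
      aeval X' (cr P j) = cr (fun i j => aeval X' (P i j)) j := by
    intro F' _ X' j
    exact cr_map (aeval X' : MvPolynomial τ ℤ →ₐ[ℤ] F').toRingHom P j
  refine ⟨sz_cr lam hlam P hS, ?_, ?_⟩
  · rw [hmap]
    refine cr_zero_ne _ ?_ x hx (key F X0 w x hxw hP)
    have h1 : (fun i j => aeval X0 (P i j)) = (fun i => (aeval X0 (P i 0)) • w i) := by
      funext i j
      rw [Pi.smul_apply, smul_eq_mul, ← hP i j, mul_comm]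
    rw [h1]
    have := hw.units_smul (fun i => Units.mk0 _ (hne i))
    exact this
  · intro F' _ X' w' x' hx' h1 h2 j
    rw [hmap, hmap]
    have := cr_id _ x' (key F' X' w' x' h1 h2) j
    rw [this, hx', one_mul]

/-- the statement on one vector -/
def QQ {A : Type} [CommRing A] {F : Type} [Field F] {k : ℕ} {ι : Type} (c : ι → A × A)
    (v : A × A → Fin (k + 1) → F)
    (sel : ∀ (F' : Type), (A × A → Fin (k + 1) → F') → (A × A → Fin (k + 1) → F') →
      Fin (k + 1) → F') (lam : ℕ) : Prop :=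
  ∃ P : Fin (k + 1) → MvPolynomial (ι × Fin (k + 1)) ℤ,
    (∀ i, Sz lam (P i)) ∧ aeval (bt c v) (P 0) ≠ 0 ∧
    ∀ (F' : Type) [Field F'] (v' w' : A × A → Fin (k + 1) → F'), IsWRep v' w' →
      ∀ i, sel F' v' w' i * aeval (bt c v') (P 0) = aeval (bt c v') (P i)

theorem all_circuit {A : Type} [CommRing A] {F : Type} [Field F] {k : ℕ} (S : Set A) {ι : Type}
    (c : ι → A × A) (v w : A × A → Fin (k + 1) → F) (hvw : IsWRep v w) (hG : Good S v w) (t : ℕ) :
    (∀ p ∈ (Known S (Set.range c) t).1, QQ c v (fun _ v' _ => v' p) ((k ^ 2 + k + 1) ^ (t + 1))) ∧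
    (∀ l ∈ (Known S (Set.range c) t).2, QQ c v (fun _ _ w' => w' l) ((k ^ 2 + k + 1) ^ (t + 1))) := by
  have hK : 1 ≤ k ^ 2 + k + 1 := by omega
  induction t with
  | zero =>
    constructor
    · rintro p ⟨i, rfl⟩
      refine ⟨fun j => X (i, j), fun j => sz_mono (Nat.one_le_pow _ _ hK) (sz_X _), ?_, ?_⟩
      · rw [aeval_X]
        change v (c i) 0 ≠ 0
        rw [hvw.1]; exact one_ne_zero
      · intro F' _ v' w' h' j
        rw [aeval_X, aeval_X]
        change v' (c i) j * v' (c i) 0 = v' (c i) j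
        rw [h'.1, mul_one]
    · intro l hl
      exact absurd hl (Set.notMem_empty l)
  | succ t ih =>
    have hmono : (k ^ 2 + k + 1) ^ (t + 1) ≤ (k ^ 2 + k + 1) ^ (t + 1 + 1) :=
      Nat.pow_le_pow_right hK (Nat.le_succ _)
    have hlam : 1 ≤ (k ^ 2 + k + 1) ^ (t + 1) := Nat.one_le_pow _ _ hK
    have hpow : (k ^ 2 + k + 1) ^ (t + 1 + 1) = (k ^ 2 + k + 1) * (k ^ 2 + k + 1) ^ (t + 1) := by
      rw [pow_succ (k ^ 2 + k + 1) (t + 1), mul_comm]
    constructor
    · intro p hp
      rcases hp with hp | ⟨a0, ha0⟩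
      · obtain ⟨P, h1, h2, h3⟩ := ih.1 p hp
        exact ⟨P, fun i => sz_mono hmono (h1 i), h2, h3⟩
      · obtain ⟨f, hf, hli⟩ := hG.1 p a0
        have hl : ∀ i, QQ c v (fun _ _ w' => w' (thr p (a0 + f i)))
            ((k ^ 2 + k + 1) ^ (t + 1)) := fun i => ih.2 _ (ha0 _ (hf i))
        choose P hP1 hP2 hP3 using hl
        have hstep := step (bt c v) ((k ^ 2 + k + 1) ^ (t + 1))
          (fun i => w (thr p (a0 + f i))) hli (v p) (hvw.1 p)
          (fun i => by
            rw [dotProduct_comm]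
            exact hvw.2.2 p _ (inc_thr p _))
          hlam P hP1 hP2 (fun i j => hP3 i F v w hvw j)
        refine ⟨cr P, ?_, hstep.2.1, ?_⟩
        · rw [hpow]; exact hstep.1
        · intro F' _ v' w' h' j
          exact hstep.2.2 F' (bt c v') (fun i => w' (thr p (a0 + f i))) (v' p) (h'.1 p)
            (fun i => by
              rw [dotProduct_comm]
              exact h'.2.2 p _ (inc_thr p _))
            (fun i j => hP3 i F' v' w' h' j) j
    · intro l hl
      rcases hl with hl | ⟨x0, hx0⟩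
      · obtain ⟨P, h1, h2, h3⟩ := ih.2 l hl
        exact ⟨P, fun i => sz_mono hmono (h1 i), h2, h3⟩
      · obtain ⟨f, hf, hli⟩ := hG.2 l x0
        have hl : ∀ i, QQ c v (fun _ v' _ => v' (pt l (x0 + f i)))
            ((k ^ 2 + k + 1) ^ (t + 1)) := fun i => ih.1 _ (hx0 _ (hf i))
        choose P hP1 hP2 hP3 using hl
        have hstep := step (bt c v) ((k ^ 2 + k + 1) ^ (t + 1))
          (fun i => v (pt l (x0 + f i))) hli (w l) (hvw.2.1 l)
          (fun i => hvw.2.2 _ l (inc_pt l _))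
          hlam P hP1 hP2 (fun i j => hP3 i F v w hvw j)
        refine ⟨cr P, ?_, hstep.2.1, ?_⟩
        · rw [hpow]; exact hstep.1
        · intro F' _ v' w' h' j
          exact hstep.2.2 F' (bt c v') (fun i => v' (pt l (x0 + f i))) (w' l) (h'.2.1 l)
            (fun i => h'.2.2 _ l (inc_pt l _))
            (fun i j => hP3 i F' v' w' h' j) j

/-- two normalised vectors orthogonal to the same `k` independent vectors are equal -/
theorem eq_of_orth {F : Type} [Field F] {k : ℕ} (u : Fin k → Fin (k + 1) → F)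
    (hu : LinearIndependent F u) (x y : Fin (k + 1) → F) (hx : x 0 = 1) (hy : y 0 = 1)
    (hxu : ∀ i, dotProduct (u i) x = 0) (hyu : ∀ i, dotProduct (u i) y = 0) : x = y := by
  have h0 := cr_zero_ne u hu x hx hxu
  funext j
  have h1 := cr_id u x hxu j
  have h2 := cr_id u y hyu j
  rw [hx] at h1
  rw [hy] at h2
  exact mul_right_cancel₀ h0 (h1.trans h2.symm)

end Cross

/-- module Circuit, without the hypothesis on the ideals of relations -/
theorem Circuit_strong (A : Type) [CommRing A] (F : Type) [Field F] (k : ℕ) (S : Set A)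
    (ι : Type) (c : ι → A × A) (v w : A × A → Fin (k + 1) → F) (hvw : IsWRep v w)
    (hG : Good S v w) (t : ℕ) (p : A × A) (hp : p ∈ (Known S (Set.range c) t).1) :
    ∃ P : Fin (k + 1) → MvPolynomial (ι × Fin (k + 1)) ℤ,
      (∀ i, Sz ((k ^ 2 + k + 1) ^ (t + 1)) (P i)) ∧ aeval (bt c v) (P 0) ≠ 0 ∧
      ∀ (F' : Type) [Field F'] (v' w' : A × A → Fin (k + 1) → F'), IsWRep v' w' →
        ∀ i, v' p i * aeval (bt c v') (P 0) = aeval (bt c v') (P i) :=
  (Cross.all_circuit S c v w hvw hG t).1 p hp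

theorem Circuit_proof : Stmt_Circuit := by
  intro A _ F _ k S ι c v w hvw hG t p hp
  obtain ⟨P, h1, h2, h3⟩ := Circuit_strong A F k S ι c v w hvw hG t p hp
  exact ⟨P, h1, h2, fun F' _ v' w' h' _ => h3 F' v' w' h'⟩

theorem Determ_proof : Stmt_Determ := by
  intro A _ F _ k S C v w v' w' hvw hG hvw' hK hC
  have key : ∀ t, (∀ p ∈ (Known S C t).1, v p = v' p) ∧ (∀ l ∈ (Known S C t).2, w l = w' l) := by
    intro t
    induction t with
    | zero => exact ⟨hC, fun l hl => absurd hl (Set.notMem_empty l)⟩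
    | succ t ih =>
      constructor
      · intro p hp
        rcases hp with hp | ⟨a0, ha0⟩
        · exact ih.1 p hp
        · obtain ⟨f, hf, hli⟩ := hG.1 p a0
          refine Cross.eq_of_orth _ hli _ _ (hvw.1 p) (hvw'.1 p) (fun i => ?_) (fun i => ?_)
          · rw [dotProduct_comm]
            exact hvw.2.2 p _ (Cross.inc_thr p _)
          · rw [dotProduct_comm]
            have := ih.2 _ (ha0 _ (hf i))
            rw [this]
            exact hvw'.2.2 p _ (Cross.inc_thr p _)
      · intro l hl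
        rcases hl with hl | ⟨x0, hx0⟩
        · exact ih.2 l hl
        · obtain ⟨f, hf, hli⟩ := hG.2 l x0
          refine Cross.eq_of_orth _ hli _ _ (hvw.2.1 l) (hvw'.2.1 l) (fun i => ?_) (fun i => ?_)
          · exact hvw.2.2 _ l (Cross.inc_pt l _)
          · have := ih.1 _ (hx0 _ (hf i))
            rw [this]
            exact hvw'.2.2 _ l (Cross.inc_pt l _)
  have hv : v = v' := by
    funext p
    obtain ⟨t, ht⟩ := hK p
    exact (key t).1 p ht
  refine ⟨hv, ?_⟩
  funext l
  obtain ⟨f, hf, hli⟩ := hG.2 l 0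
  refine Cross.eq_of_orth _ hli _ _ (hvw.2.1 l) (hvw'.2.1 l) (fun i => ?_) (fun i => ?_)
  · exact hvw.2.2 _ l (Cross.inc_pt l _)
  · rw [hv]
    exact hvw'.2.2 _ l (Cross.inc_pt l _)

end Pool.Agent.MR3
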