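import Pool.Agent.MR3.Defs

set_option autoImplicit false

namespace Pool.Agent.MR3.ElimM

open MvPolynomial Finset Pool.Agent.MR3

variable {σ : Type}

lemma nrm_eq_sum (P : MvPolynomial σ ℤ) (s : Finset (σ →₀ ℕ)) (h : P.support ⊆ s) :
    nrm P = ∑ m ∈ s, (P.coeff m).natAbs := by
  unfold nrm
  apply Finset.sum_subset h
  intro m _ hm
  simp only [MvPolynomial.mem_support_iff, not_not] at hm
  simp [hm]

lemma nrm_zero : nrm (0 : MvPolynomial σ ℤ) = 0 := by simp [nrm]

lemma nrm_add_le (P Q : MvPolynomial σ ℤ) : nrm (P + Q) ≤ nrm P + nrm Q := by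
  classical
  rw [nrm_eq_sum (P + Q) (P.support ∪ Q.support) MvPolynomial.support_add,
    nrm_eq_sum P (P.support ∪ Q.support) Finset.subset_union_left,
    nrm_eq_sum Q (P.support ∪ Q.support) Finset.subset_union_right, ← Finset.sum_add_distrib]
  apply Finset.sum_le_sum
  intro m _
  rw [MvPolynomial.coeff_add]
  exact Int.natAbs_add_le _ _

lemma nrm_sum_le {ι : Type} (s : Finset ι) (f : ι → MvPolynomial σ ℤ) :
    nrm (∑ i ∈ s, f i) ≤ ∑ i ∈ s, nrm (f i) := by
  classical
  induction s using Finset.induction_on with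
  | empty => simp [nrm_zero]
  | insert a s ha ih =>
    rw [Finset.sum_insert ha, Finset.sum_insert ha]
    exact (nrm_add_le _ _).trans (Nat.add_le_add_left ih _)

lemma nrm_neg (P : MvPolynomial σ ℤ) : nrm (-P) = nrm P := by
  unfold nrm
  rw [MvPolynomial.support_neg]
  simp

lemma nrm_monomial_mul (m : σ →₀ ℕ) (c : ℤ) (Q : MvPolynomial σ ℤ) :
    nrm (monomial m c * Q) ≤ c.natAbs * nrm Q := by
  classical
  have hs : (monomial m c * Q).support ⊆ Q.support.image (fun k => m + k) := by
    intro k hk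
    rw [MvPolynomial.mem_support_iff, MvPolynomial.coeff_monomial_mul'] at hk
    split_ifs at hk with h
    · rw [Finset.mem_image]
      refine ⟨k - m, ?_, add_tsub_cancel_of_le h⟩
      rw [MvPolynomial.mem_support_iff]
      intro h0
      exact hk (by rw [h0, mul_zero])
    · exact absurd rfl hk
  rw [nrm_eq_sum _ _ hs, Finset.sum_image (by intro a _ b _ hab; exact add_left_cancel hab)]
  unfold nrm
  rw [Finset.mul_sum]
  apply Finset.sum_le_sum
  intro k _
  rw [MvPolynomial.coeff_monomial_mul, Int.natAbs_mul]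

lemma nrm_mul_le (P Q : MvPolynomial σ ℤ) : nrm (P * Q) ≤ nrm P * nrm Q := by
  classical
  conv_lhs => rw [MvPolynomial.as_sum P, Finset.sum_mul]
  refine (nrm_sum_le _ _).trans ?_
  unfold nrm
  rw [Finset.sum_mul]
  apply Finset.sum_le_sum
  intro m _
  exact nrm_monomial_mul _ _ _

lemma nrm_one : nrm (1 : MvPolynomial σ ℤ) ≤ 1 := by
  classical
  unfold nrm
  have : (1 : MvPolynomial σ ℤ).support ⊆ {0} := by
    rw [← MvPolynomial.C_1]
    exact MvPolynomial.support_monomial_subset
  calc _ ≤ ∑ m ∈ {0}, ((1 : MvPolynomial σ ℤ).coeff m).natAbs :=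
        Finset.sum_le_sum_of_subset this
    _ = 1 := by simp

lemma nrm_prod_le {ι : Type} (s : Finset ι) (f : ι → MvPolynomial σ ℤ) :
    nrm (∏ i ∈ s, f i) ≤ ∏ i ∈ s, nrm (f i) := by
  classical
  induction s using Finset.induction_on with
  | empty => simpa using nrm_one
  | insert a s ha ih =>
    rw [Finset.prod_insert ha, Finset.prod_insert ha]
    exact (nrm_mul_le _ _).trans (Nat.mul_le_mul_left _ ih)

lemma nrm_det_le (n mu : ℕ) (M : Matrix (Fin n) (Fin n) (MvPolynomial σ ℤ))
    (h : ∀ i j, Sz mu (M i j)) : Sz (n * n + n * mu) M.det := by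
  classical
  rw [Matrix.det_apply]
  constructor
  · apply MvPolynomial.totalDegree_finsetSum_le
    intro p _
    have h1 : (∏ i, M (p i) i).totalDegree ≤ n * mu := by
      refine (MvPolynomial.totalDegree_finsetProd _ _).trans ?_
      calc _ ≤ ∑ _i : Fin n, mu := Finset.sum_le_sum (fun i _ => (h _ _).1)
        _ = n * mu := by simp
    rcases Int.units_eq_one_or (Equiv.Perm.sign p) with hs | hs
    · rw [hs, one_smul]; omega
    · rw [hs]
      simp only [Units.smul_def, Units.val_neg, Units.val_one, neg_smul, one_smul]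
      rw [MvPolynomial.totalDegree_neg]; omega
  · refine (nrm_sum_le _ _).trans ?_
    have h1 : ∀ p : Equiv.Perm (Fin n), nrm (Equiv.Perm.sign p • ∏ i, M (p i) i) ≤ 2 ^ (n * mu) := by
      intro p
      have h2 : nrm (∏ i, M (p i) i) ≤ 2 ^ (n * mu) := by
        refine (nrm_prod_le _ _).trans ?_
        calc _ ≤ ∏ _i : Fin n, 2 ^ mu := Finset.prod_le_prod' (fun i _ => (h _ _).2)
          _ = 2 ^ (n * mu) := by
            rw [Finset.prod_const, Finset.card_univ, Fintype.card_fin, ← pow_mul, mul_comm]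
      rcases Int.units_eq_one_or (Equiv.Perm.sign p) with hs | hs
      · rw [hs, one_smul]; exact h2
      · rw [hs]
        simp only [Units.smul_def, Units.val_neg, Units.val_one, neg_smul, one_smul]
        rw [nrm_neg]; exact h2
    calc _ ≤ ∑ _p : Equiv.Perm (Fin n), 2 ^ (n * mu) := Finset.sum_le_sum (fun p _ => h1 p)
      _ = n.factorial * 2 ^ (n * mu) := by
        rw [Finset.sum_const, Finset.card_univ, Fintype.card_perm, Fintype.card_fin, smul_eq_mul]
      _ ≤ 2 ^ (n * n) * 2 ^ (n * mu) := by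
        apply Nat.mul_le_mul_right
        calc n.factorial ≤ n ^ n := Nat.factorial_le_pow n
          _ ≤ (2 ^ n) ^ n := Nat.pow_le_pow_left (Nat.lt_two_pow_self).le n
          _ = 2 ^ (n * n) := by rw [← pow_mul]
      _ = 2 ^ (n * n + n * mu) := by rw [pow_add]

lemma Sz_mono {a b : ℕ} (h : a ≤ b) {P : MvPolynomial σ ℤ} (hP : Sz a P) : Sz b P :=
  ⟨hP.1.trans h, hP.2.trans (Nat.pow_le_pow_right (by norm_num) h)⟩

lemma Sz_zero (a : ℕ) : Sz a (0 : MvPolynomial σ ℤ) := by
  constructor
  · simp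
  · rw [nrm_zero]; positivity

lemma exists_Sz (P : MvPolynomial σ ℤ) : ∃ a, Sz a P :=
  ⟨max P.totalDegree (nrm P), le_max_left _ _,
    (Nat.lt_two_pow_self).le.trans (Nat.pow_le_pow_right (by norm_num) (le_max_right _ _))⟩

lemma Sz_coeff {D : ℕ} {a : ℕ} {P : MvPolynomial (Fin (D + 1)) ℤ} (hP : Sz a P) (i : ℕ) :
    Sz a ((finSuccEquiv ℤ D P).coeff i) := by
  classical
  constructor
  · by_cases h : (finSuccEquiv ℤ D P).coeff i = 0
    · rw [h]; simp
    · have := totalDegree_coeff_finSuccEquiv_add_le P i h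
      have := hP.1
      omega
  · refine le_trans ?_ hP.2
    have hinj : Function.Injective (Finsupp.cons i : (Fin D →₀ ℕ) → (Fin (D + 1) →₀ ℕ)) :=
      Finsupp.cons_right_injective i
    have h1 : nrm ((finSuccEquiv ℤ D P).coeff i) =
        ∑ m ∈ ((finSuccEquiv ℤ D P).coeff i).support.image (Finsupp.cons i),
          (P.coeff m).natAbs := by
      rw [Finset.sum_image (by intro a _ b _ hab; exact hinj hab)]
      unfold nrm
      apply Finset.sum_congr rfl
      intro m _
      rw [finSuccEquiv_coeff_coeff]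
    rw [h1, image_support_finSuccEquiv]
    exact Finset.sum_le_sum_of_subset (Finset.filter_subset _ _)

/-- evaluation through `finSuccEquiv` -/
lemma aeval_finSucc {κ : Type} [Field κ] {D : ℕ} (z : Fin (D + 1) → κ)
    (P : MvPolynomial (Fin (D + 1)) ℤ) :
    aeval z P = Polynomial.eval₂ ((aeval (fun i => z (Fin.succ i)) :
      MvPolynomial (Fin D) ℤ →ₐ[ℤ] κ) : MvPolynomial (Fin D) ℤ →+* κ) (z 0)
      (finSuccEquiv ℤ D P) := by
  have h : ((aeval z : MvPolynomial (Fin (D + 1)) ℤ →ₐ[ℤ] κ) : MvPolynomial (Fin (D + 1)) ℤ →+* κ)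
      = (Polynomial.eval₂RingHom ((aeval (fun i => z (Fin.succ i)) :
      MvPolynomial (Fin D) ℤ →ₐ[ℤ] κ) : MvPolynomial (Fin D) ℤ →+* κ) (z 0)).comp
        ((finSuccEquiv ℤ D : _ ≃ₐ[ℤ] _) : MvPolynomial (Fin (D + 1)) ℤ →+*
          Polynomial (MvPolynomial (Fin D) ℤ)) := by
    apply MvPolynomial.ringHom_ext
    · intro r
      simp
    · intro i
      refine Fin.cases ?_ (fun j => ?_) i
      · simp [finSuccEquiv_X_zero]
      · simp [finSuccEquiv_X_succ]
  exact congrArg (fun f : MvPolynomial (Fin (D + 1)) ℤ →+* κ => f P) h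

/-- the Sylvester matrix has entries of controlled size -/
lemma Sz_sylvester {D : ℕ} {a m n : ℕ} {P Q : MvPolynomial (Fin (D + 1)) ℤ} (hP : Sz a P)
    (hQ : Sz a Q) (i j : Fin (m + n)) :
    Sz a (Polynomial.sylvester (finSuccEquiv ℤ D P) (finSuccEquiv ℤ D Q) m n i j) := by
  unfold Polynomial.sylvester
  rw [Matrix.of_apply]
  refine Fin.addCases (fun j => ?_) (fun j => ?_) j
  · rw [Fin.addCases_left]
    split_ifs
    · exact Sz_coeff hQ _
    · exact Sz_zero _
  · rw [Fin.addCases_right]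
    split_ifs
    · exact Sz_coeff hP _
    · exact Sz_zero _

open Polynomial in
/-- if the resultant vanishes there is a non-trivial syzygy of low degree -/
lemma exists_syzygy {R : Type} [CommRing R] [IsDomain R] (f g : Polynomial R) (m n : ℕ)
    (hf : f.natDegree ≤ m) (hg : g.natDegree ≤ n) (h : Polynomial.resultant f g m n = 0) :
    ∃ p q : Polynomial R, (p ≠ 0 ∨ q ≠ 0) ∧ p.degree < m ∧ q.degree < n ∧ f * q + g * p = 0 := by
  classical
  unfold Polynomial.resultant at h
  obtain ⟨v, hv0, hv⟩ := Matrix.exists_mulVec_eq_zero_iff.mpr h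
  rw [← Polynomial.toMatrix_sylvesterMap' f g hf hg] at hv
  let b₁ := (((degreeLT.basis R m).prod (degreeLT.basis R n)).reindex finSumFinEquiv)
  let x := b₁.equivFun.symm v
  have hx : (Polynomial.sylvesterMap f g hf hg) x = 0 := by
    have h1 := LinearMap.toMatrix_mulVec_repr b₁ (degreeLT.basis R (m + n))
      (Polynomial.sylvesterMap f g hf hg) x
    have h2 : (b₁.repr x : Fin (m + n) → R) = v := by
      have := b₁.equivFun.apply_symm_apply v
      exact this
    rw [h2, hv] at h1
    have h3 : (degreeLT.basis R (m + n)).repr ((Polynomial.sylvesterMap f g hf hg) x) = 0 := by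
      ext i
      have := congrFun h1 i
      simpa using this.symm
    simpa using h3
  have hx0 : x ≠ 0 := by
    intro h0
    apply hv0
    have : b₁.equivFun x = v := b₁.equivFun.apply_symm_apply v
    rw [← this, h0, map_zero]
  refine ⟨x.1, x.2, ?_, ?_, ?_, ?_⟩
  · by_contra hcon
    push Not at hcon
    apply hx0
    ext1
    · exact Subtype.ext hcon.1
    · exact Subtype.ext hcon.2
  · exact Polynomial.mem_degreeLT.mp x.1.2
  · exact Polynomial.mem_degreeLT.mp x.2.2
  · have := congrArg Subtype.val hx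
    rw [Polynomial.sylvesterMap_apply_coe] at this
    simpa using this

theorem main : Stmt_Elim := by
  intro D F _ y g hdeg hker
  obtain ⟨a, ha⟩ := exists_Sz g
  refine ⟨2 * (a + 1) ^ 2, ?_⟩
  intro lam Q hQ hQy
  obtain ⟨G, hG⟩ : ∃ G, G = finSuccEquiv ℤ D g := ⟨_, rfl⟩
  obtain ⟨H, hH⟩ : ∃ H, H = finSuccEquiv ℤ D Q := ⟨_, rfl⟩
  have hGdeg : G.natDegree = degreeOf 0 g := by rw [hG, natDegree_finSuccEquiv]
  have hHdeg : H.natDegree = degreeOf 0 Q := by rw [hH, natDegree_finSuccEquiv]
  have hG0 : G ≠ 0 := by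
    intro h0
    rw [h0] at hGdeg
    simp at hGdeg
    omega
  have hQ0 : Q ≠ 0 := by
    rintro rfl
    exact hQy (map_zero _)
  have hH0 : H ≠ 0 := by
    rw [hH]
    simpa using hQ0
  refine ⟨Polynomial.resultant G H G.natDegree H.natDegree, ?_, ?_, ?_⟩
  · intro hres
    obtain ⟨p, q, hpq, hp, hq, hrel⟩ := exists_syzygy G H _ _ le_rfl le_rfl hres
    obtain ⟨P', hP'⟩ : ∃ P', p = finSuccEquiv ℤ D P' :=
      ⟨(finSuccEquiv ℤ D).symm p, by simp⟩
    obtain ⟨Q', hQ'⟩ : ∃ Q', q = finSuccEquiv ℤ D Q' :=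
      ⟨(finSuccEquiv ℤ D).symm q, by simp⟩
    have hrel' : g * Q' + Q * P' = 0 := by
      apply (finSuccEquiv ℤ D).injective
      rw [map_add, map_mul, map_mul, map_zero, ← hG, ← hH, ← hP', ← hQ', hrel]
    have hyg : aeval y g = 0 := (hker g).mpr ⟨1, one_ne_zero, by simp⟩
    have hyP : aeval y P' = 0 := by
      have h1 := congrArg (aeval y) hrel'
      rw [map_add, map_mul, map_mul, map_zero, hyg, zero_mul, zero_add] at h1
      rcases mul_eq_zero.mp h1 with h2 | h2
      · exact absurd h2 hQy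
      · exact h2
    obtain ⟨n0, hn0, hdvd⟩ := (hker P').mp hyP
    have hdvd' : G ∣ finSuccEquiv ℤ D (C n0 * P') := by
      obtain ⟨u, hu⟩ := hdvd
      exact ⟨finSuccEquiv ℤ D u, by rw [hu, map_mul, ← hG]⟩
    have hp0 : p = 0 := by
      by_contra hpne
      have hne : finSuccEquiv ℤ D (C n0 * P') ≠ 0 := by
        rw [map_mul, ← hP']
        refine mul_ne_zero ?_ hpne
        simpa using hn0
      have hle := Polynomial.natDegree_le_of_dvd hdvd' hne
      have hle2 : (finSuccEquiv ℤ D (C n0 * P')).natDegree ≤ p.natDegree := by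
        rw [map_mul, ← hP']
        refine (Polynomial.natDegree_mul_le).trans ?_
        have : (finSuccEquiv ℤ D (C n0)).natDegree = 0 := by
          rw [natDegree_finSuccEquiv, degreeOf_C]
        omega
      have hlt := (Polynomial.natDegree_lt_iff_degree_lt hpne).mpr hp
      omega
    have hq0 : q = 0 := by
      rw [hp0, mul_zero, add_zero] at hrel
      rcases mul_eq_zero.mp hrel with h2 | h2
      · exact absurd h2 hG0
      · exact h2
    rcases hpq with h | h
    · exact h hp0
    · exact h hq0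
  · have h1 : Sz (a + lam) g := Sz_mono (by omega) ha
    have h2 : Sz (a + lam) Q := Sz_mono (by omega) hQ
    have h3 := nrm_det_le (G.natDegree + H.natDegree) (a + lam)
      (Polynomial.sylvester G H G.natDegree H.natDegree)
      (fun i j => by
        subst hG hH
        exact Sz_sylvester h1 h2 i j)
    unfold Polynomial.resultant
    refine Sz_mono ?_ h3
    have h4 : G.natDegree ≤ a := by
      rw [hGdeg]
      exact (degreeOf_le_totalDegree _ _).trans ha.1
    have h5 : H.natDegree ≤ lam := by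
      rw [hHdeg]
      exact (degreeOf_le_totalDegree _ _).trans hQ.1
    have h6 : G.natDegree + H.natDegree ≤ a + lam := by omega
    calc (G.natDegree + H.natDegree) * (G.natDegree + H.natDegree)
          + (G.natDegree + H.natDegree) * (a + lam)
        ≤ (a + lam) * (a + lam) + (a + lam) * (a + lam) :=
          Nat.add_le_add (Nat.mul_le_mul h6 h6) (Nat.mul_le_mul_right _ h6)
      _ = 2 * (a + lam) ^ 2 := by ring
      _ ≤ 2 * ((a + 1) * (lam + 1)) ^ 2 := by
          apply Nat.mul_le_mul_left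
          apply Nat.pow_le_pow_left
          nlinarith [Nat.zero_le (a * lam)]
      _ = 2 * (a + 1) ^ 2 * (lam + 1) ^ 2 := by ring
      _ ≤ 2 * (a + 1) ^ 2 * (lam + 1) ^ (2 * (a + 1) ^ 2) := by
          apply Nat.mul_le_mul_left
          apply Nat.pow_le_pow_right (by omega)
          nlinarith [Nat.zero_le a]
  · intro κ _ z hzg hzQ
    obtain ⟨p, q, -, -, hbez⟩ := Polynomial.exists_mul_add_mul_eq_C_resultant
      (m := G.natDegree) (n := H.natDegree) G H le_rfl le_rfl
      (Or.inl (by rw [hGdeg]; omega))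
    have h1 := congrArg (Polynomial.eval₂ ((aeval (fun i => z (Fin.succ i)) :
      MvPolynomial (Fin D) ℤ →ₐ[ℤ] κ) : MvPolynomial (Fin D) ℤ →+* κ) (z 0)) hbez
    rw [Polynomial.eval₂_add, Polynomial.eval₂_mul, Polynomial.eval₂_mul, Polynomial.eval₂_C,
      hG, hH, ← aeval_finSucc, ← aeval_finSucc, hzg, hzQ, zero_mul, zero_mul, zero_add] at h1
    rw [hG, hH]
    exact h1.symm

end Pool.Agent.MR3.ElimM

namespace Pool.Agent.MR3

theorem Elim_proof : Stmt_Elim := ElimM.main

end Pool.Agent.MR3
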