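import Pool.Agent.MR3.Defs

set_option autoImplicit false

/-!
# Sizes of integer polynomials
-/

namespace Pool.Agent.MR3

open MvPolynomial

variable {σ τ : Type}

theorem nrm_eq_sum {P : MvPolynomial σ ℤ} {s : Finset (σ →₀ ℕ)} (h : P.support ⊆ s) :
    nrm P = ∑ m ∈ s, (P.coeff m).natAbs := by
  classical
  unfold nrm
  apply Finset.sum_subset h
  intro m _ hm
  rw [notMem_support_iff] at hm
  simp [hm]

@[simp] theorem nrm_zero : nrm (0 : MvPolynomial σ ℤ) = 0 := by
  simp [nrm]

theorem nrm_monomial_le (m : σ →₀ ℕ) (c : ℤ) : nrm (monomial m c) ≤ c.natAbs := by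
  classical
  rw [nrm_eq_sum (support_monomial_subset (s := m) (a := c))]
  simp

theorem nrm_C_le (c : ℤ) : nrm (C c : MvPolynomial σ ℤ) ≤ c.natAbs :=
  nrm_monomial_le 0 c

theorem nrm_one_le : nrm (1 : MvPolynomial σ ℤ) ≤ 1 := nrm_C_le 1

theorem nrm_X_le (i : σ) : nrm (X i : MvPolynomial σ ℤ) ≤ 1 := nrm_monomial_le _ 1

theorem nrm_neg (P : MvPolynomial σ ℤ) : nrm (-P) = nrm P := by
  classical
  unfold nrm
  rw [support_neg]
  simp

theorem nrm_add (P Q : MvPolynomial σ ℤ) : nrm (P + Q) ≤ nrm P + nrm Q := by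
  classical
  rw [nrm_eq_sum (support_add (p := P) (q := Q)),
    nrm_eq_sum (Finset.subset_union_left (s₁ := P.support) (s₂ := Q.support)),
    nrm_eq_sum (Finset.subset_union_right (s₁ := P.support) (s₂ := Q.support)),
    ← Finset.sum_add_distrib]
  apply Finset.sum_le_sum
  intro m _
  rw [coeff_add]
  exact Int.natAbs_add_le _ _

theorem nrm_sub (P Q : MvPolynomial σ ℤ) : nrm (P - Q) ≤ nrm P + nrm Q := by
  rw [sub_eq_add_neg]
  exact (nrm_add _ _).trans_eq (by rw [nrm_neg])

theorem nrm_sum {α : Type} (s : Finset α) (f : α → MvPolynomial σ ℤ) :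
    nrm (∑ a ∈ s, f a) ≤ ∑ a ∈ s, nrm (f a) := by
  classical
  induction s using Finset.induction_on with
  | empty => simp
  | insert a s ha ih =>
    rw [Finset.sum_insert ha, Finset.sum_insert ha]
    exact (nrm_add _ _).trans (Nat.add_le_add_left ih _)

theorem nrm_monomial_mul (m : σ →₀ ℕ) (c : ℤ) (Q : MvPolynomial σ ℤ) :
    nrm (monomial m c * Q) ≤ c.natAbs * nrm Q := by
  classical
  have h : monomial m c * Q = ∑ n ∈ Q.support, monomial (m + n) (c * Q.coeff n) := by
    conv_lhs => rw [Q.as_sum]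
    rw [Finset.mul_sum]
    apply Finset.sum_congr rfl
    intro n _
    rw [monomial_mul]
  rw [h]
  refine (nrm_sum _ _).trans ?_
  unfold nrm
  rw [Finset.mul_sum]
  apply Finset.sum_le_sum
  intro n _
  exact (nrm_monomial_le _ _).trans_eq (Int.natAbs_mul _ _)

theorem nrm_mul (P Q : MvPolynomial σ ℤ) : nrm (P * Q) ≤ nrm P * nrm Q := by
  classical
  have h : P * Q = ∑ m ∈ P.support, monomial m (P.coeff m) * Q := by
    conv_lhs => rw [P.as_sum]
    rw [Finset.sum_mul]
  rw [h]
  refine (nrm_sum _ _).trans ?_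
  unfold nrm
  rw [Finset.sum_mul]
  apply Finset.sum_le_sum
  intro m _
  exact nrm_monomial_mul _ _ _

theorem nrm_prod {α : Type} (s : Finset α) (f : α → MvPolynomial σ ℤ) :
    nrm (∏ a ∈ s, f a) ≤ ∏ a ∈ s, nrm (f a) := by
  classical
  induction s using Finset.induction_on with
  | empty => simpa using nrm_one_le
  | insert a s ha ih =>
    rw [Finset.prod_insert ha, Finset.prod_insert ha]
    exact (nrm_mul _ _).trans (Nat.mul_le_mul_left _ ih)

theorem nrm_pow (P : MvPolynomial σ ℤ) (n : ℕ) : nrm (P ^ n) ≤ nrm P ^ n := by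
  induction n with
  | zero => simpa using nrm_one_le
  | succ n ih =>
    rw [pow_succ, pow_succ]
    exact (nrm_mul _ _).trans (Nat.mul_le_mul_right _ ih)

theorem natAbs_coeff_le_nrm (P : MvPolynomial σ ℤ) (m : σ →₀ ℕ) :
    (P.coeff m).natAbs ≤ nrm P := by
  classical
  by_cases hm : m ∈ P.support
  · exact Finset.single_le_sum (f := fun m => (P.coeff m).natAbs) (fun _ _ => Nat.zero_le _) hm
  · rw [notMem_support_iff] at hm
    simp [hm]

/-! ### `Sz` -/

theorem Sz.mono {lam mu : ℕ} {P : MvPolynomial σ ℤ} (h : Sz lam P) (hle : lam ≤ mu) : Sz mu P :=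
  ⟨h.1.trans hle, h.2.trans (Nat.pow_le_pow_right (by norm_num) hle)⟩

theorem Sz.zero (lam : ℕ) : Sz lam (0 : MvPolynomial σ ℤ) := by
  constructor <;> simp

theorem Sz.one (lam : ℕ) : Sz lam (1 : MvPolynomial σ ℤ) :=
  ⟨by simp, nrm_one_le.trans Nat.one_le_two_pow⟩

theorem Sz.X (i : σ) : Sz 1 (X i : MvPolynomial σ ℤ) := by
  refine ⟨?_, (nrm_X_le i).trans Nat.one_le_two_pow⟩
  rw [totalDegree_X]

theorem Sz.C (c : ℤ) : Sz c.natAbs (C c : MvPolynomial σ ℤ) :=
  ⟨by rw [totalDegree_C]; exact Nat.zero_le _, (nrm_C_le c).trans Nat.lt_two_pow_self.le⟩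

theorem Sz.neg {lam : ℕ} {P : MvPolynomial σ ℤ} (h : Sz lam P) : Sz lam (-P) :=
  ⟨by rw [totalDegree_neg]; exact h.1, by rw [nrm_neg]; exact h.2⟩

theorem Sz.mul {lam mu : ℕ} {P Q : MvPolynomial σ ℤ} (hP : Sz lam P) (hQ : Sz mu Q) :
    Sz (lam + mu) (P * Q) := by
  refine ⟨(totalDegree_mul _ _).trans (Nat.add_le_add hP.1 hQ.1), (nrm_mul _ _).trans ?_⟩
  rw [pow_add]
  exact Nat.mul_le_mul hP.2 hQ.2

theorem Sz.add {lam mu : ℕ} {P Q : MvPolynomial σ ℤ} (hP : Sz lam P) (hQ : Sz mu Q) :
    Sz (max lam mu + 1) (P + Q) := by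
  constructor
  · exact (totalDegree_add _ _).trans (by have := hP.1; have := hQ.1; omega)
  · refine (nrm_add _ _).trans ?_
    have h1 : nrm P ≤ 2 ^ max lam mu := hP.2.trans (Nat.pow_le_pow_right (by norm_num) (le_max_left _ _))
    have h2 : nrm Q ≤ 2 ^ max lam mu := hQ.2.trans (Nat.pow_le_pow_right (by norm_num) (le_max_right _ _))
    rw [pow_succ]
    omega

theorem Sz.sub {lam mu : ℕ} {P Q : MvPolynomial σ ℤ} (hP : Sz lam P) (hQ : Sz mu Q) :
    Sz (max lam mu + 1) (P - Q) := by
  rw [sub_eq_add_neg]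
  exact hP.add hQ.neg

theorem Sz.pow {lam : ℕ} {P : MvPolynomial σ ℤ} (hP : Sz lam P) (n : ℕ) : Sz (n * lam) (P ^ n) := by
  induction n with
  | zero => simpa using Sz.one 0
  | succ n ih =>
    rw [pow_succ, Nat.succ_mul]
    exact ih.mul hP

theorem Sz.prod {α : Type} (s : Finset α) (f : α → MvPolynomial σ ℤ) (lam : α → ℕ)
    (h : ∀ a ∈ s, Sz (lam a) (f a)) : Sz (∑ a ∈ s, lam a) (∏ a ∈ s, f a) := by
  classical
  induction s using Finset.induction_on with
  | empty => simpa using Sz.one 0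
  | insert a s ha ih =>
    rw [Finset.prod_insert ha, Finset.sum_insert ha]
    exact (h a (Finset.mem_insert_self _ _)).mul (ih fun b hb => h b (Finset.mem_insert_of_mem hb))

/-- a finite product of polynomials of size `lam` -/
theorem Sz.prod' {α : Type} (s : Finset α) (f : α → MvPolynomial σ ℤ) (lam : ℕ)
    (h : ∀ a ∈ s, Sz lam (f a)) : Sz (s.card * lam) (∏ a ∈ s, f a) := by
  have := Sz.prod s f (fun _ => lam) h
  simpa using this

/-- a finite sum of polynomials of size `lam` with at most `2 ^ mu` terms -/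
theorem Sz.sum {α : Type} (s : Finset α) (f : α → MvPolynomial σ ℤ) (lam mu : ℕ)
    (hs : s.card ≤ 2 ^ mu) (h : ∀ a ∈ s, Sz lam (f a)) : Sz (lam + mu) (∑ a ∈ s, f a) := by
  classical
  constructor
  · refine (totalDegree_finsetSum _ _).trans ?_
    apply Finset.sup_le
    intro a ha
    exact (h a ha).1.trans (Nat.le_add_right _ _)
  · refine (nrm_sum _ _).trans ?_
    refine (Finset.sum_le_card_nsmul s _ (2 ^ lam) fun a ha => (h a ha).2).trans ?_
    rw [smul_eq_mul, pow_add, mul_comm]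
    exact Nat.mul_le_mul_left _ hs

/-- determinants -/
theorem Sz.det {n : ℕ} (M : Matrix (Fin n) (Fin n) (MvPolynomial σ ℤ)) (lam : ℕ)
    (h : ∀ i j, Sz lam (M i j)) : Sz (n * lam + n ^ 2) M.det := by
  classical
  rw [Matrix.det_apply]
  refine Sz.sum _ _ _ _ ?_ ?_
  · rw [Finset.card_univ, Fintype.card_perm, Fintype.card_fin]
    calc n.factorial ≤ n ^ n := Nat.factorial_le_pow n
      _ ≤ (2 ^ n) ^ n := Nat.pow_le_pow_left Nat.lt_two_pow_self.le _
      _ = 2 ^ (n ^ 2) := by rw [← pow_mul, sq]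
  · intro g _
    have h1 : Sz (n * lam) (∏ i, M (g i) i) := by
      have := Sz.prod' Finset.univ (fun i => M (g i) i) lam (fun i _ => h _ _)
      simpa using this
    rcases Int.units_eq_one_or (Equiv.Perm.sign g) with hg | hg
    · rw [hg, one_smul]; exact h1
    · rw [hg, Units.neg_smul, one_smul]; exact h1.neg

/-- the sum over a finset of `C c * P` -/
theorem nrm_C_mul (c : ℤ) (P : MvPolynomial σ ℤ) : nrm (MvPolynomial.C c * P) ≤ c.natAbs * nrm P :=
  nrm_monomial_mul 0 c P

/-! ### Substitution -/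

theorem Subst_proof : Stmt_Subst := by
  classical
  intro σ τ lam mu P p q hP hp hq
  refine ⟨∑ m ∈ P.support, MvPolynomial.C (P.coeff m) *
    (q ^ (mu - m.degree) * ∏ i ∈ m.support, p i ^ m i), ⟨?_, ?_⟩, ?_⟩
  · refine (totalDegree_finsetSum _ _).trans ?_
    apply Finset.sup_le
    intro m hm
    have hdeg : m.degree ≤ mu := by
      refine le_trans ?_ hP.1
      exact le_totalDegree hm
    refine (totalDegree_mul _ _).trans ?_
    rw [totalDegree_C, zero_add]
    refine (totalDegree_mul _ _).trans ?_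
    have h1 : (q ^ (mu - m.degree)).totalDegree ≤ (mu - m.degree) * lam :=
      (totalDegree_pow _ _).trans (Nat.mul_le_mul_left _ hq.1)
    have h2 : (∏ i ∈ m.support, p i ^ m i).totalDegree ≤ m.degree * lam := by
      refine (totalDegree_finsetProd _ _).trans ?_
      rw [Finsupp.degree_apply, Finset.sum_mul]
      apply Finset.sum_le_sum
      intro i _
      exact (totalDegree_pow _ _).trans (Nat.mul_le_mul_left _ (hp i).1)
    calc _ ≤ (mu - m.degree) * lam + m.degree * lam := Nat.add_le_add h1 h2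
      _ = mu * lam := by rw [← Nat.add_mul, Nat.sub_add_cancel hdeg]
      _ ≤ mu * lam + mu := Nat.le_add_right _ _
  · refine (nrm_sum _ _).trans ?_
    calc _ ≤ ∑ m ∈ P.support, (P.coeff m).natAbs * 2 ^ (mu * lam) := by
          apply Finset.sum_le_sum
          intro m hm
          have hdeg : m.degree ≤ mu := by
            refine le_trans ?_ hP.1
            exact le_totalDegree hm
          refine (nrm_C_mul _ _).trans (Nat.mul_le_mul_left _ ?_)
          refine (nrm_mul _ _).trans ?_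
          have h1 : nrm (q ^ (mu - m.degree)) ≤ 2 ^ ((mu - m.degree) * lam) := (hq.pow _).2
          have h2 : nrm (∏ i ∈ m.support, p i ^ m i) ≤ 2 ^ (m.degree * lam) := by
            have := (Sz.prod m.support (fun i => p i ^ m i) (fun i => m i * lam)
              (fun i _ => (hp i).pow _)).2
            rwa [Finsupp.degree_apply, Finset.sum_mul]
          calc _ ≤ 2 ^ ((mu - m.degree) * lam) * 2 ^ (m.degree * lam) := Nat.mul_le_mul h1 h2
            _ = 2 ^ (mu * lam) := by
              rw [← pow_add, ← Nat.add_mul, Nat.sub_add_cancel hdeg]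
      _ = nrm P * 2 ^ (mu * lam) := by rw [← Finset.sum_mul]; rfl
      _ ≤ 2 ^ mu * 2 ^ (mu * lam) := Nat.mul_le_mul_right _ hP.2
      _ = 2 ^ (mu * lam + mu) := by rw [← pow_add, add_comm]
  · intro F _ x y hy
    rw [map_sum]
    conv_rhs => rw [P.as_sum, map_sum, Finset.mul_sum]
    apply Finset.sum_congr rfl
    intro m hm
    have hdeg : m.degree ≤ mu := by
      refine le_trans ?_ hP.1
      exact le_totalDegree hm
    rw [aeval_monomial, map_mul, map_mul, map_prod, Finsupp.prod, map_pow]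
    have h1 : (aeval x) (MvPolynomial.C (P.coeff m) : MvPolynomial τ ℤ) =
        algebraMap ℤ F (P.coeff m) := by
      rw [← algebraMap_eq, AlgHom.commutes]
    have h2 : ∏ i ∈ m.support, (aeval x) (p i ^ m i) =
        (aeval x q) ^ m.degree * ∏ i ∈ m.support, y i ^ m i := by
      rw [Finsupp.degree_apply, ← Finset.prod_pow_eq_pow_sum, ← Finset.prod_mul_distrib]
      apply Finset.prod_congr rfl
      intro i _
      rw [map_pow, ← hy i, mul_pow, mul_comm]
    rw [h1, h2]
    have h3 : (aeval x q) ^ mu = (aeval x q) ^ (mu - m.degree) * (aeval x q) ^ m.degree := by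
      rw [← pow_add, Nat.sub_add_cancel hdeg]
    rw [h3]
    ring

end Pool.Agent.MR3
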