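import Pool.Agent.MR3.Defs
import Pool.Agent.MR3.Size
import Pool.Agent.MR3.Elim

set_option autoImplicit false

namespace Pool.Agent.MR3
namespace CountAux2

open MvPolynomial

theorem pderiv_ne_zero_of {D : ℕ} (g : MvPolynomial (Fin (D + 1)) ℤ) (h : 0 < degreeOf 0 g) :
    pderiv 0 g ≠ 0 := by
  have hne : g.support.Nonempty := by
    rw [Finset.nonempty_iff_ne_empty]
    intro h0
    rw [MvPolynomial.support_eq_empty] at h0
    rw [h0] at h; simp at h
  obtain ⟨m, hm, hm2⟩ := Finset.exists_mem_eq_sup _ hne (fun m => m (0 : Fin (D + 1)))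
  rw [← degreeOf_eq_sup] at hm2
  intro h0
  have h1 : coeff (m - Finsupp.single 0 1) (pderiv 0 g) = 0 := by rw [h0]; simp
  rw [coeff_pderiv] at h1
  have h2 : m - Finsupp.single 0 1 + Finsupp.single 0 1 = m := by
    apply tsub_add_cancel_of_le
    rw [Finsupp.single_le_iff]
    have : 1 ≤ m 0 := by
      have := h; rw [hm2] at this; exact this
    exact this
  rw [h2] at h1
  rcases mul_eq_zero.1 h1 with h3 | h3
  · exact (MvPolynomial.mem_support_iff.1 hm) h3
  · have : (0 : ℤ) ≤ ((m - Finsupp.single 0 1 : Fin (D+1) →₀ ℕ) 0 : ℕ) := by positivity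
    omega

theorem degreeOf_pderiv_lt {D : ℕ} (g : MvPolynomial (Fin (D + 1)) ℤ) (h : 0 < degreeOf 0 g) :
    degreeOf 0 (pderiv 0 g) < degreeOf 0 g := by
  rw [degreeOf_lt_iff h]
  intro m hm
  rw [MvPolynomial.mem_support_iff, coeff_pderiv] at hm
  have h1 : m + Finsupp.single 0 1 ∈ g.support := by
    rw [MvPolynomial.mem_support_iff]
    exact left_ne_zero_of_mul hm
  have h2 := monomial_le_degreeOf 0 h1
  simp at h2
  omega

theorem aeval_pderiv_ne {D : ℕ} {F : Type} [Field F] (y : Fin (D + 1) → F)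
    (g : MvPolynomial (Fin (D + 1)) ℤ) (h : 0 < degreeOf 0 g) (hker : KerGen y g) :
    aeval y (pderiv 0 g) ≠ 0 := by
  intro h0
  obtain ⟨n, hn, u, hu⟩ := (hker _).1 h0
  have hne := pderiv_ne_zero_of g h
  have hne2 : (C n * pderiv 0 g : MvPolynomial (Fin (D + 1)) ℤ) ≠ 0 :=
    mul_ne_zero (by simpa using hn) hne
  have hu0 : u ≠ 0 := by
    rintro rfl
    rw [mul_zero] at hu; exact hne2 hu
  have hg0 : g ≠ 0 := by
    rintro rfl
    rw [zero_mul] at hu; exact hne2 hu
  have e1 := congrArg (fun P => (finSuccEquiv ℤ D P).natDegree) hu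
  simp only [map_mul] at e1
  rw [Polynomial.natDegree_mul (by simpa using hn) (by simpa using hne),
    Polynomial.natDegree_mul (by simpa using hg0) (by simpa using hu0),
    natDegree_finSuccEquiv, natDegree_finSuccEquiv, natDegree_finSuccEquiv,
    natDegree_finSuccEquiv, degreeOf_C] at e1
  have := degreeOf_pderiv_lt g h
  omega

theorem exists_sz {σ : Type} (P : MvPolynomial σ ℤ) : ∃ a, Sz a P :=
  ⟨max P.totalDegree (nrm P), le_max_left _ _,
    (Nat.lt_two_pow_self).le.trans (Nat.pow_le_pow_right (by norm_num) (le_max_right _ _))⟩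

end CountAux2

open CountAux2 MvPolynomial

theorem Count_proof (hE : Stmt_Elim) (hA : Stmt_CountA) (hB : Stmt_CountB) : Stmt_Count := by
  classical
  intro D F _ y g hodd hker t K Q hQ hQs
  have hdeg : 0 < degreeOf 0 g := hodd.pos
  obtain ⟨C0, hC⟩ := hE D F y g hdeg hker
  have hlev : ∀ n : ℕ, ∃ j, n ≤ 2^2^j := fun n => ⟨n, by
    have h1 : n < 2^n := Nat.lt_two_pow_self
    have h2 : 2^n < 2^2^n := Nat.pow_lt_pow_right (by norm_num) h1
    omega⟩
  obtain ⟨J, hJ1, hJ2⟩ : ∃ J : ℕ → ℕ, (∀ n, n ≤ 2^2^(J n)) ∧ ∀ n j, n ≤ 2^2^j → J n ≤ j :=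
    ⟨fun n => Nat.find (hlev n), fun n => Nat.find_spec (hlev n), fun n j h => Nat.find_min' _ h⟩
  choose N hN0 hNs hN using fun i n => hC (K^(J n+1)) (Q i n) (hQs i n (J n) (hJ1 n)) (hQ i n)
  have hder := aeval_pderiv_ne y g hdeg hker
  obtain ⟨lam1, hlam1⟩ := exists_sz (pderiv 0 g)
  obtain ⟨N1, hN1, -, hN1'⟩ := hC lam1 (pderiv 0 g) hlam1 hder
  obtain ⟨G, hG⟩ : ∃ G, G = finSuccEquiv ℤ D g := ⟨_, rfl⟩
  have hg0 : g ≠ 0 := by
    rintro rfl
    simp at hdeg
  have hG0 : G ≠ 0 := by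
    rw [hG]; simpa using hg0
  obtain ⟨j, l, M, s, hl, hl8, hlle, hM, hs0, hcount⟩ :=
    hA D t ((C0+1)*(K+1)^C0) (degreeOf 0 g * (D+1)) N (G.leadingCoeff * N1) hN0
      (mul_ne_zero (by simpa using hG0) hN1)
      (by
        intro i n j hnj
        have hle : K ^ (J n + 1) + 1 ≤ (K + 1) ^ (j + 1) := by
          have h1 : K ^ (J n + 1) ≤ K ^ (j + 1) := by
            rcases Nat.eq_zero_or_pos K with h0 | h0
            · rw [h0, zero_pow (by omega), zero_pow (by omega)]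
            · exact Nat.pow_le_pow_right h0 (by have := hJ2 n j hnj; omega)
          have h2 : K ^ (j + 1) + 1 ≤ (K + 1) ^ (j + 1) := by
            have := Nat.pow_lt_pow_left (show K < K + 1 by omega) (show j + 1 ≠ 0 by omega)
            omega
          omega
        refine (hNs i n).mono ?_
        calc C0 * (K ^ (J n + 1) + 1) ^ C0 ≤ (C0 + 1) * ((K + 1) ^ (j + 1)) ^ C0 :=
              Nat.mul_le_mul (by omega) (Nat.pow_le_pow_left hle _)
          _ ≤ (C0 + 1) ^ (j + 1) * ((K + 1) ^ (j + 1)) ^ C0 :=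
              Nat.mul_le_mul_right _ (Nat.le_self_pow (by omega) _)
          _ = ((C0 + 1) * (K + 1) ^ C0) ^ (j + 1) := by
              rw [mul_pow, ← pow_mul, ← pow_mul, mul_comm (j + 1) C0])
  have hfl : Fact l.Prime := ⟨hl⟩
  obtain ⟨φ, hφ⟩ : ∃ φ : MvPolynomial (Fin D) ℤ →+* ZMod l,
      φ = ((aeval s : MvPolynomial (Fin D) ℤ →ₐ[ℤ] ZMod l) : MvPolynomial (Fin D) ℤ →+* ZMod l) :=
    ⟨_, rfl⟩
  have hφa : ∀ P, φ P = aeval s P := fun P => by rw [hφ]; rfl
  rw [map_mul] at hs0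
  have hlc : φ G.leadingCoeff ≠ 0 := by rw [hφa]; exact left_ne_zero_of_mul hs0
  have hN1s : aeval s N1 ≠ 0 := right_ne_zero_of_mul hs0
  have hpdeg : (G.map φ).natDegree = degreeOf 0 g := by
    rw [Polynomial.natDegree_map_of_leadingCoeff_ne_zero φ hlc, hG, natDegree_finSuccEquiv]
  obtain ⟨κ, _, _, _, a, ha, hcardκ, hsq⟩ := hB l hl8 (G.map φ) (by rw [hpdeg]; exact hodd)
  have hchar : CharP κ l := charP_of_injective_algebraMap (algebraMap (ZMod l) κ).injective l
  obtain ⟨z, hz0, hzs⟩ : ∃ z : Fin (D+1) → κ, z 0 = a ∧ ∀ i : Fin D, z i.succ = algebraMap (ZMod l) κ (s i) :=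
    ⟨Fin.cases a (fun i => algebraMap (ZMod l) κ (s i)), rfl, fun i => rfl⟩
  have htail : ∀ P : MvPolynomial (Fin D) ℤ, aeval (fun i => z (Fin.succ i)) P =
      algebraMap (ZMod l) κ (aeval s P) := by
    intro P
    have h1 : (fun i : Fin D => z (Fin.succ i)) = fun i => algebraMap (ZMod l) κ (s i) := by
      funext i; exact hzs i
    rw [h1]
    have h2 := MvPolynomial.comp_aeval_apply (R := ℤ) s (algebraMap (ZMod l) κ).toIntAlgHom P
    exact h2.symm
  have hzg : aeval z g = 0 := by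
    rw [ElimM.aeval_finSucc z g, ← hG, hz0]
    have h1 : (((aeval (fun i => z (Fin.succ i)) : MvPolynomial (Fin D) ℤ →ₐ[ℤ] κ) :
        MvPolynomial (Fin D) ℤ →+* κ)) = (algebraMap (ZMod l) κ).comp φ := by
      apply RingHom.ext
      intro P
      rw [RingHom.comp_apply, hφa]
      exact htail P
    rw [h1, ← Polynomial.eval₂_map, ← Polynomial.aeval_def]
    exact ha
  refine ⟨l, κ, inferInstance, inferInstance, hchar, z, fun i => ((s i).val : ℤ), M, hl, hl8,
    ?_, hzg, ?_, hsq, ?_, ?_⟩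
  · intro i
    rw [hzs i]
    have h1 : s i = (((s i).val : ℕ) : ZMod l) := (ZMod.natCast_zmod_val (s i)).symm
    rw [h1, map_natCast]
    simp
  · intro h0
    have h1 := hN1' κ z hzg h0
    rw [htail] at h1
    exact hN1s ((map_eq_zero _).1 h1)
  · rw [hM]
    apply Nat.mul_le_mul_left
    calc Fintype.card κ ^ (D + 1) ≤ (l ^ (degreeOf 0 g)) ^ (D + 1) := by
          rw [hpdeg] at hcardκ
          exact Nat.pow_le_pow_left hcardκ _
      _ = l ^ (degreeOf 0 g * (D + 1)) := by rw [← pow_mul]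
      _ ≤ _ := Nat.pow_le_pow_left hlle _
  · intro i
    refine lt_of_le_of_lt (Nat.mul_le_mul_left 2 ?_) (hcount i)
    refine Nat.card_le_card_of_injective
      (fun n : {n : Fin M // aeval z (Q i n) = 0} =>
        (⟨n.1, ?_⟩ : {n : Fin M // aeval s (N i n) = 0})) ?_
    · have h1 := hN i n.1 κ z hzg n.2
      rw [htail] at h1
      exact (map_eq_zero _).1 h1
    · intro n n' h
      simp only [Subtype.mk.injEq] at h
      exact Subtype.ext h

end Pool.Agent.MR3
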