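import Pool.Agent.MR3.Defs

set_option autoImplicit false

namespace Pool.Agent.MR3
namespace CountAux

open MvPolynomial

/-- number of zeros of `f` modulo `l` -/
noncomputable def zc (l D : ℕ) (f : MvPolynomial (Fin D) ℤ) : ℕ :=
  Nat.card {s : Fin D → ZMod l // aeval s f = 0}

theorem card_primes_le (c : ℕ) (hc : c ≠ 0) (lam : ℕ) (h : c ≤ 2 ^ lam) :
    c.primeFactors.card ≤ lam := by
  have h1 : 2 ^ c.primeFactors.card ≤ ∏ p ∈ c.primeFactors, p :=
    Finset.pow_card_le_prod (s := c.primeFactors) (f := fun p => p) (n := 2)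
      (fun p hp => (Nat.prime_of_mem_primeFactors hp).two_le)
  have h2 : ∏ p ∈ c.primeFactors, p ≤ c :=
    Nat.le_of_dvd (Nat.pos_of_ne_zero hc) (Nat.prod_primeFactors_dvd c)
  exact (Nat.pow_le_pow_iff_right (by norm_num : 1 < 2)).1 (h1.trans (h2.trans h))

open Classical in
theorem card_bad_primes_le {σ : Type} (f : MvPolynomial σ ℤ) (hf : f ≠ 0) (lam : ℕ)
    (h : nrm f ≤ 2 ^ lam) (S : Finset ℕ) (hS : ∀ l ∈ S, l.Prime) :
    (S.filter (fun l => MvPolynomial.map (Int.castRingHom (ZMod l)) f = 0)).card ≤ lam := by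
  obtain ⟨m, hm⟩ : f.support.Nonempty := by
    rw [Finset.nonempty_iff_ne_empty]
    intro h0
    exact hf (MvPolynomial.support_eq_empty.1 h0)
  have hc : (f.coeff m).natAbs ≠ 0 := by
    rw [Ne, Int.natAbs_eq_zero]
    exact MvPolynomial.mem_support_iff.1 hm
  have hle : (f.coeff m).natAbs ≤ 2 ^ lam :=
    (Finset.single_le_sum (f := fun m => (f.coeff m).natAbs) (fun _ _ => Nat.zero_le _) hm).trans h
  refine (Finset.card_le_card ?_).trans (card_primes_le _ hc lam hle)
  intro l hl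
  rw [Finset.mem_filter] at hl
  rw [Nat.mem_primeFactors]
  refine ⟨hS l hl.1, ?_, hc⟩
  have h1 : MvPolynomial.coeff m (MvPolynomial.map (Int.castRingHom (ZMod l)) f) = 0 := by
    rw [hl.2]; simp
  rw [MvPolynomial.coeff_map] at h1
  have h2 : ((f.coeff m : ℤ) : ZMod l) = 0 := by simpa using h1
  rw [ZMod.intCast_zmod_eq_zero_iff_dvd] at h2
  exact Int.natCast_dvd.1 h2

theorem zc_le_pow (l D : ℕ) [Fact l.Prime] (f : MvPolynomial (Fin D) ℤ) : zc l D f ≤ l ^ D := by
  classical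
  have : Nat.card {s : Fin D → ZMod l // aeval s f = 0} ≤ Nat.card (Fin D → ZMod l) :=
    Nat.card_le_card_of_injective Subtype.val Subtype.val_injective
  refine this.trans (le_of_eq ?_)
  rw [Nat.card_eq_fintype_card, Fintype.card_fun, ZMod.card, Fintype.card_fin]

theorem zc_le_sz (l D : ℕ) [Fact l.Prime] (f : MvPolynomial (Fin D) ℤ) (lam : ℕ)
    (hf : f.totalDegree ≤ lam)
    (h : MvPolynomial.map (Int.castRingHom (ZMod l)) f ≠ 0) :
    (zc l D f : ℚ) / (l : ℚ) ^ D ≤ (lam : ℚ) / l := by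
  classical
  have hSZ := MvPolynomial.schwartz_zippel_totalDegree h (Finset.univ : Finset (ZMod l))
  have hd : (MvPolynomial.map (Int.castRingHom (ZMod l)) f).totalDegree ≤ lam :=
    (Finset.sup_mono (MvPolynomial.support_map_subset _ _)).trans hf
  have hcard : zc l D f = (Finset.filter (fun s : Fin D → ZMod l =>
      eval s (MvPolynomial.map (Int.castRingHom (ZMod l)) f) = 0)
      (Fintype.piFinset fun _ => (Finset.univ : Finset (ZMod l)))).card := by
    rw [zc, Nat.card_eq_fintype_card, Fintype.card_subtype]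
    congr 1
    ext s
    simp only [Finset.mem_filter, Finset.mem_univ, true_and, Fintype.mem_piFinset, implies_true]
    rw [MvPolynomial.eval_map]
    rw [MvPolynomial.aeval_def]
    have : algebraMap ℤ (ZMod l) = Int.castRingHom (ZMod l) := rfl
    rw [this]
  rw [← hcard] at hSZ
  have hSZ' : ((zc l D f : ℚ)) / ((Finset.univ : Finset (ZMod l)).card : ℚ) ^ D ≤
      ((MvPolynomial.map (Int.castRingHom (ZMod l)) f).totalDegree : ℚ) /
        ((Finset.univ : Finset (ZMod l)).card : ℚ) := by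
    have := (NNRat.coe_le_coe (p := _) (q := _)).2 hSZ
    push_cast at this
    exact this
  rw [Finset.card_univ, ZMod.card] at hSZ'
  refine hSZ'.trans ?_
  gcongr

/-- the sum of the densities of the zero sets -/
theorem sum_zc_le (D : ℕ) (f : MvPolynomial (Fin D) ℤ) (hf : f ≠ 0) (lam : ℕ) (hS : Sz lam f)
    (B : ℕ) (hB : 0 < B) (S : Finset ℕ) (hS1 : ∀ l ∈ S, l.Prime) (hS2 : ∀ l ∈ S, B ≤ l)
    (hS3 : B ≤ S.card) :
    ∑ l ∈ S, (zc l D f : ℚ) / (l : ℚ) ^ D ≤ 2 * lam * S.card / B := by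
  classical
  have hBq : (0 : ℚ) < B := by exact_mod_cast hB
  have h1 : ∀ l ∈ S, (zc l D f : ℚ) / (l : ℚ) ^ D ≤
      (if MvPolynomial.map (Int.castRingHom (ZMod l)) f = 0 then (1 : ℚ) else 0) + lam / B := by
    intro l hl
    have : Fact l.Prime := ⟨hS1 l hl⟩
    have hl0 : (0 : ℚ) < l := by exact_mod_cast (hS1 l hl).pos
    have hBl : (B : ℚ) ≤ l := by exact_mod_cast hS2 l hl
    have hpos : (0 : ℚ) ≤ (lam : ℚ) / B := by positivity
    split_ifs with h
    · have h2 : (zc l D f : ℚ) ≤ (l : ℚ) ^ D := by exact_mod_cast zc_le_pow l D f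
      have h3 : (zc l D f : ℚ) / (l : ℚ) ^ D ≤ 1 := by
        rw [div_le_one (by positivity)]; exact h2
      linarith
    · have h2 := zc_le_sz l D f lam hS.1 h
      have h3 : (lam : ℚ) / l ≤ lam / B := by gcongr
      linarith
  refine (Finset.sum_le_sum h1).trans ?_
  rw [Finset.sum_add_distrib, Finset.sum_const, nsmul_eq_mul, ← Finset.sum_filter,
    Finset.sum_const, nsmul_eq_mul, mul_one]
  have h4 : ((S.filter (fun l => MvPolynomial.map (Int.castRingHom (ZMod l)) f = 0)).card : ℚ)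
      ≤ lam := by exact_mod_cast card_bad_primes_le f hf lam hS.2 S hS1
  have h5 : (lam : ℚ) ≤ lam * S.card / B := by
    rw [le_div_iff₀ hBq]
    have : (B : ℚ) ≤ S.card := by exact_mod_cast hS3
    have h0 : (0 : ℚ) ≤ lam := by positivity
    nlinarith
  have h6 : (2 : ℚ) * lam * S.card / B = lam * S.card / B + S.card * (lam / B) := by ring
  rw [h6]
  linarith

end CountAux

open CountAux MvPolynomial

theorem CountA_proof (hP : Stmt_Primes) : Stmt_CountA := by
  classical
  intro D t K E N N0 hN hN0 hSz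
  obtain ⟨lam0, hlam0⟩ : ∃ lam0, Sz lam0 N0 := ⟨max N0.totalDegree (nrm N0), le_max_left _ _,
    ((Nat.lt_two_pow_self).le.trans (Nat.pow_le_pow_right (by norm_num) (le_max_right _ _)))⟩
  set h := E + 1 with hh
  set K2 := (2*lam0 + 4*t*K^h + 1)*(K+1) with hK2
  obtain ⟨j, hj⟩ := hP K2
  set B := K2^(j+1) with hB
  set 𝓛 := (Finset.Icc B (2^2^j)).filter (fun l => l.Prime ∧ l % 8 = 3) with h𝓛
  set M := 2*(2^2^j)^E with hM
  set lam := K^(j+h+1) with hlam
  have hB1 : 2*lam0 + 4*t*lam < B := by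
    have e1 : (2*lam0 + 4*t*K^h + 1) * (K+1)^(j+1) ≤ B := by
      rw [hB, hK2, mul_pow]
      exact Nat.mul_le_mul_right _ (Nat.le_self_pow (by omega) _)
    have e2 : K^(j+1) ≤ (K+1)^(j+1) := Nat.pow_le_pow_left (by omega) _
    have e3 : 1 ≤ (K+1)^(j+1) := Nat.one_le_pow _ _ (by omega)
    have e4 : lam = K^h * K^(j+1) := by rw [hlam, ← pow_add]; congr 1; omega
    have e5 : 4*t*lam ≤ 4*t*K^h * (K+1)^(j+1) := by
      rw [e4, ← mul_assoc]
      exact Nat.mul_le_mul_left _ e2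
    nlinarith
  have hB0 : 0 < B := by omega
  have hL1 : ∀ l ∈ 𝓛, l.Prime := fun l hl => (Finset.mem_filter.1 hl).2.1
  have hL2 : ∀ l ∈ 𝓛, B ≤ l := fun l hl => (Finset.mem_Icc.1 (Finset.mem_filter.1 hl).1).1
  have hMpos : 0 < M := by positivity
  have hM2 : M ≤ 2^2^(j+h) := by
    rw [hM, ← pow_mul, ← pow_succ']
    apply Nat.pow_le_pow_right (by norm_num)
    have : 2^j * E + 1 ≤ 2^j * 2^h := by
      have h1 : 1 ≤ 2^j := Nat.one_le_two_pow
      have h2 : E + 1 ≤ 2^h := by rw [hh]; exact (Nat.lt_two_pow_self).le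
      calc 2^j * E + 1 ≤ 2^j * E + 2^j := by omega
        _ = 2^j * (E+1) := by ring
        _ ≤ _ := Nat.mul_le_mul_left _ h2
    rw [pow_add]; exact this
  by_contra hcon
  push Not at hcon
  have hMq : (0 : ℚ) < M := by exact_mod_cast hMpos
  -- for every l in 𝓛
  have key : ∀ l ∈ 𝓛, (1 : ℚ) ≤ (zc l D N0 : ℚ) / (l : ℚ)^D +
      ∑ i : Fin t, ∑ n : Fin M, (2 / M : ℚ) * ((zc l D (N i n) : ℚ) / (l : ℚ)^D) := by
    intro l hl
    have : Fact l.Prime := ⟨hL1 l hl⟩
    have hl0 : (0 : ℚ) < l := by exact_mod_cast (hL1 l hl).pos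
    have hl3 := (Finset.mem_filter.1 hl).2.2
    have hl4 := (Finset.mem_Icc.1 (Finset.mem_filter.1 hl).1).2
    have hs : ∀ s : Fin D → ZMod l, (1 : ℚ) ≤ (if aeval s N0 = 0 then (1 : ℚ) else 0) +
        ∑ i : Fin t, ∑ n : Fin M, (2 / M : ℚ) * (if aeval s (N i n) = 0 then (1 : ℚ) else 0) := by
      intro s
      have hnn : ∀ i : Fin t, (0 : ℚ) ≤ ∑ n : Fin M,
          (2 / M : ℚ) * (if aeval s (N i n) = 0 then (1 : ℚ) else 0) := by
        intro i
        apply Finset.sum_nonneg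
        intro n _
        split_ifs
        · positivity
        · simp
      by_cases h0 : aeval s N0 = 0
      · rw [if_pos h0]
        have := Finset.sum_nonneg (s := Finset.univ) (fun (i : Fin t) _ => hnn i)
        linarith
      · rw [if_neg h0]
        obtain ⟨i, hi⟩ := hcon j l M s (hL1 l hl) hl3 hl4 hM h0
        have h1 : (1 : ℚ) ≤ ∑ n : Fin M,
            (2 / M : ℚ) * (if aeval s (N i n) = 0 then (1 : ℚ) else 0) := by
          rw [← Finset.mul_sum, Finset.sum_boole]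
          rw [Nat.card_eq_fintype_card, Fintype.card_subtype] at hi
          have hi' : (M : ℚ) ≤ 2 * ((Finset.univ.filter
            (fun n : Fin M => aeval s (N i n) = 0)).card : ℚ) := by exact_mod_cast hi
          rw [div_mul_eq_mul_div, le_div_iff₀ hMq]
          linarith
        have h2 := Finset.single_le_sum (s := Finset.univ) (fun (i : Fin t) _ => hnn i)
          (Finset.mem_univ i)
        linarith
    have hsum := Finset.sum_le_sum (s := Finset.univ) (fun s _ => hs s)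
    rw [Finset.sum_const, nsmul_eq_mul, mul_one, Finset.card_univ, Fintype.card_fun, ZMod.card,
      Fintype.card_fin, Finset.sum_add_distrib] at hsum
    have hzc : ∀ f : MvPolynomial (Fin D) ℤ,
        ∑ s : Fin D → ZMod l, (if aeval s f = 0 then (1 : ℚ) else 0) = zc l D f := by
      intro f
      rw [Finset.sum_boole, zc, Nat.card_eq_fintype_card, Fintype.card_subtype]
    rw [hzc, Finset.sum_comm] at hsum
    have hsum2 : ∑ i : Fin t, ∑ s : Fin D → ZMod l, ∑ n : Fin M,
        (2 / M : ℚ) * (if aeval s (N i n) = 0 then (1 : ℚ) else 0) =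
        ∑ i : Fin t, ∑ n : Fin M, (2 / M : ℚ) * (zc l D (N i n) : ℚ) := by
      apply Finset.sum_congr rfl
      intro i _
      rw [Finset.sum_comm]
      apply Finset.sum_congr rfl
      intro n _
      rw [← Finset.mul_sum, hzc]
    rw [hsum2] at hsum
    have hpow : (0 : ℚ) < (l : ℚ)^D := by positivity
    have h3 : ∑ i : Fin t, ∑ n : Fin M, (2 / M : ℚ) * ((zc l D (N i n) : ℚ) / (l : ℚ)^D) =
        (∑ i : Fin t, ∑ n : Fin M, (2 / M : ℚ) * (zc l D (N i n) : ℚ)) / (l : ℚ)^D := by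
      rw [Finset.sum_div]
      apply Finset.sum_congr rfl
      intro i _
      rw [Finset.sum_div]
      apply Finset.sum_congr rfl
      intro n _
      ring
    rw [h3, ← add_div, le_div_iff₀ hpow, one_mul]
    exact_mod_cast hsum
  have hsum := Finset.sum_le_sum key
  rw [Finset.sum_const, nsmul_eq_mul, mul_one, Finset.sum_add_distrib, Finset.sum_comm] at hsum
  have b0 := sum_zc_le D N0 hN0 lam0 hlam0 B hB0 𝓛 hL1 hL2 hj
  have b1 : ∀ i : Fin t, ∑ l ∈ 𝓛, ∑ n : Fin M,
      (2 / M : ℚ) * ((zc l D (N i n) : ℚ) / (l : ℚ)^D) ≤ 4 * lam * 𝓛.card / B := by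
    intro i
    rw [Finset.sum_comm]
    have b2 : ∀ n ∈ (Finset.univ : Finset (Fin M)), ∑ l ∈ 𝓛,
        (2 / M : ℚ) * ((zc l D (N i n) : ℚ) / (l : ℚ)^D) ≤
        (2 / M : ℚ) * (2 * lam * 𝓛.card / B) := by
      intro n _
      rw [← Finset.mul_sum]
      apply mul_le_mul_of_nonneg_left _ (by positivity)
      exact sum_zc_le D (N i n) (hN i n) lam (hSz i n (j+h) (n.2.le.trans hM2)) B hB0 𝓛 hL1 hL2 hj
    refine (Finset.sum_le_sum b2).trans ?_
    rw [Finset.sum_const, nsmul_eq_mul, Finset.card_univ, Fintype.card_fin]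
    apply le_of_eq
    field_simp
    ring
  have b3 := Finset.sum_le_sum (s := Finset.univ) (fun (i : Fin t) _ => b1 i)
  rw [Finset.sum_const, nsmul_eq_mul, Finset.card_univ, Fintype.card_fin] at b3
  have hBq : (0 : ℚ) < B := by exact_mod_cast hB0
  have hcardq : (0 : ℚ) < 𝓛.card := by
    have : 0 < 𝓛.card := lt_of_lt_of_le hB0 hj
    exact_mod_cast this
  have hfin : (𝓛.card : ℚ) ≤ (2 * lam0 + 4 * t * lam) * 𝓛.card / B := by
    calc (𝓛.card : ℚ) ≤ _ := hsum
      _ ≤ 2 * lam0 * 𝓛.card / B + t * (4 * lam * 𝓛.card / B) := add_le_add b0 b3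
      _ = _ := by ring
  rw [le_div_iff₀ hBq] at hfin
  have hB1q : (2 * lam0 + 4 * t * lam : ℚ) < B := by exact_mod_cast hB1
  nlinarith

end Pool.Agent.MR3
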