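import Pool.Agent.MR3.Defs

set_option autoImplicit false

/-!
# MP_d42559_co, module CountB (helper94)
-/

namespace Pool.Agent.MR3

namespace CountBAux

lemma exists_odd_irred {K : Type} [Field K] : ∀ (n : ℕ) (p : Polynomial K), p.natDegree = n →
    Odd n → ∃ f, Irreducible f ∧ f ∣ p ∧ Odd f.natDegree := by
  intro n
  induction n using Nat.strong_induction_on with
  | _ n ih =>
  intro p hp hn
  have hp0 : p ≠ 0 := by
    rintro rfl
    rw [Polynomial.natDegree_zero] at hp
    subst hp
    simp at hn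
  have hu : ¬ IsUnit p := by
    intro hu
    have := Polynomial.natDegree_eq_zero_of_isUnit hu
    rw [hp] at this
    subst this
    simp at hn
  obtain ⟨f, hf, q, rfl⟩ := WfDvdMonoid.exists_irreducible_factor hu hp0
  by_cases ho : Odd f.natDegree
  · exact ⟨f, hf, dvd_mul_right _ _, ho⟩
  · have hq0 : q ≠ 0 := right_ne_zero_of_mul hp0
    rw [Polynomial.natDegree_mul hf.ne_zero hq0] at hp
    have hfd : 0 < f.natDegree := hf.natDegree_pos
    rw [Nat.not_odd_iff_even] at ho
    have hqo : Odd q.natDegree := by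
      rw [← hp] at hn
      obtain ⟨a, ha⟩ := ho
      obtain ⟨b, hb⟩ := hn
      exact ⟨b - a, by omega⟩
    obtain ⟨f', hf', hd, ho'⟩ := ih q.natDegree (by omega) q rfl hqo
    exact ⟨f', hf', hd.mul_left _, ho'⟩

lemma two_not_square (l : ℕ) [Fact l.Prime] (hl : l % 8 = 3) (κ : Type) [Field κ] [Fintype κ]
    [Algebra (ZMod l) κ] (d : ℕ) (hd : Odd d) (hc : Fintype.card κ = l ^ d) :
    ¬ ∃ b : κ, b ^ 2 = 2 := by
  rintro ⟨b, hb⟩
  have h2 : (2 : ZMod l) ≠ 0 := by
    intro h
    have h' : ((2 : ℕ) : ZMod l) = 0 := by exact_mod_cast h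
    rw [ZMod.natCast_eq_zero_iff] at h'
    have := Nat.le_of_dvd (by norm_num) h'
    omega
  have hns : ¬ IsSquare (2 : ZMod l) := by
    rw [ZMod.exists_sq_eq_two_iff (by omega)]
    omega
  have hm : (2 : ZMod l) ^ (l / 2) = -1 := by
    rcases ZMod.pow_div_two_eq_neg_one_or_one l h2 with h | h
    · exact absurd ((ZMod.euler_criterion l h2).2 h) hns
    · exact h
  have hmκ : (2 : κ) ^ (l / 2) = -1 := by
    have := congrArg (algebraMap (ZMod l) κ) hm
    rw [map_pow, map_neg, map_one] at this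
    rw [← this]
    congr 1
    exact (map_ofNat (algebraMap (ZMod l) κ) 2).symm
  have hbl : b ^ l = -b := by
    have : l = 2 * (l / 2) + 1 := by omega
    rw [this, pow_succ, pow_mul, hb]
    rw [hmκ]
    ring
  have hodd : Odd l := ⟨l / 2, by omega⟩
  have hpow : ∀ n : ℕ, b ^ (l ^ n) = (-1) ^ n * b := by
    intro n
    induction n with
    | zero => simp
    | succ n ih =>
      rw [pow_succ, pow_mul, ih, mul_pow, hbl, ← pow_mul, mul_comm n l, pow_mul, hodd.neg_one_pow]
      ring
  have h1 := hpow d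
  rw [← hc, FiniteField.pow_card, hd.neg_one_pow] at h1
  have h3 : (2 : κ) * b = 0 := by linear_combination h1
  have h2κ : (2 : κ) ≠ 0 := by
    have := (algebraMap (ZMod l) κ).injective.ne h2
    rw [map_zero] at this
    intro h
    apply this
    rw [← h]
    exact map_ofNat (algebraMap (ZMod l) κ) 2
  rcases mul_eq_zero.1 h3 with h | h
  · exact h2κ h
  · rw [h] at hb
    apply h2κ
    rw [← hb]
    norm_num

end CountBAux

open CountBAux in
theorem CountB_proof : Stmt_CountB := by
  intro l _ hl p hp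
  obtain ⟨f, hf, hfp, hfo⟩ := exists_odd_irred p.natDegree p rfl hp
  have : Fact (Irreducible f) := ⟨hf⟩
  have hfin : Module.Finite (ZMod l) (AdjoinRoot f) :=
    (AdjoinRoot.powerBasis hf.ne_zero).finite
  have hfin2 : Finite (AdjoinRoot f) := Module.finite_of_finite (ZMod l)
  have hft : Fintype (AdjoinRoot f) := Fintype.ofFinite _
  have hcard : Fintype.card (AdjoinRoot f) = l ^ f.natDegree := by
    have h1 := Module.card_eq_pow_finrank (K := ZMod l) (V := AdjoinRoot f)
    rw [(AdjoinRoot.powerBasis hf.ne_zero).finrank, AdjoinRoot.powerBasis_dim] at h1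
    rw [← Nat.card_eq_fintype_card, ← Nat.card_eq_fintype_card, Nat.card_zmod] at h1
    rw [← Nat.card_eq_fintype_card]
    exact h1
  refine ⟨AdjoinRoot f, inferInstance, hft, inferInstance, AdjoinRoot.root f, ?_, ?_, ?_⟩
  · rw [AdjoinRoot.aeval_eq, AdjoinRoot.mk_eq_zero]
    exact hfp
  · rw [hcard]
    have hp0 : p ≠ 0 := by
      rintro rfl
      simp at hp
    exact Nat.pow_le_pow_right (Fact.out : l.Prime).pos
      (Polynomial.natDegree_le_of_dvd hfp hp0)
  · exact two_not_square l hl _ f.natDegree hfo hcard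

end Pool.Agent.MR3
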