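import Pool.Agent.MR3.Ultra

set_option autoImplicit false

namespace Pool.Agent.MR3

namespace ECGerm

open Filter MvPolynomial

variable {F : Type} [Field F] {I : Type} (U : Ultrafilter I)

theorem aeval_gh {σ : Type} (c : σ → I → F) (e : MvPolynomial σ ℤ) :
    aeval (fun a => Ultra.gh U (c a)) e = Ultra.gh U (fun i => aeval (fun a => c a i) e) := by
  have h1 : aeval (fun a => Ultra.gh U (c a)) e = Ultra.gh U (aeval c e) := by
    induction e using MvPolynomial.induction_on with
    | C n => simp
    | add p q hp hq => rw [map_add, map_add, map_add, hp, hq]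
    | mul_X p a hp => rw [map_mul, map_mul, map_mul, hp, aeval_X, aeval_X]
  rw [h1]
  clear h1
  congr 1
  funext i
  have : (Pi.evalRingHom (fun _ : I => F) i) (aeval c e) = aeval (fun a => c a i) e := by
    induction e using MvPolynomial.induction_on with
    | C n => simp
    | add p q hp hq => rw [map_add, map_add, map_add, hp, hq]
    | mul_X p a hp => rw [map_mul, map_mul, map_mul, hp, aeval_X, aeval_X]; rfl
  exact this

end ECGerm

open Filter MvPolynomial in
theorem ECGerm_proof : Stmt_ECGerm := by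
  refine ⟨fun σ _ x s hs => ⟨x, fun e he => he, hs⟩, ?_⟩
  intro F _ hF I U σ _ x s hs
  choose c hc using fun a => Ultra.gh_surj U (x a)
  have hx : x = fun a => Ultra.gh U (c a) := by funext a; rw [hc a]
  set J : Ideal (MvPolynomial σ ℤ) := RingHom.ker (aeval x : MvPolynomial σ ℤ →ₐ[ℤ] Germ (U : Filter I) F)
    with hJ
  obtain ⟨t, ht⟩ := (IsNoetherian.noetherian J : J.FG)
  have h1 : ∀ᶠ i in (U : Filter I), ∀ e ∈ t, aeval (fun a => c a i) e = 0 := by
    rw [Filter.eventually_all_finset]
    intro e he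
    have he' : e ∈ J := by rw [← ht]; exact Ideal.subset_span he
    have he2 : aeval x e = 0 := he'
    rw [hx, ECGerm.aeval_gh, Ultra.gh_eq_zero] at he2
    exact he2
  have h2 : ∀ᶠ i in (U : Filter I), aeval (fun a => c a i) s ≠ 0 := by
    rw [hx, ECGerm.aeval_gh, Ne, Ultra.gh_eq_zero] at hs
    exact (Ultrafilter.eventually_not.2 hs)
  obtain ⟨i, hi1, hi2⟩ := (h1.and h2).exists
  obtain ⟨z, hz1, hz2⟩ := hF σ (fun a => c a i) s hi2
  refine ⟨z, fun e he => hz1 e ?_, hz2⟩
  have he' : e ∈ J := he
  have hle : J ≤ RingHom.ker (aeval (fun a => c a i) : MvPolynomial σ ℤ →ₐ[ℤ] F) := by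
    rw [← ht]
    refine Ideal.span_le.2 ?_
    intro e he
    exact hi1 e he
  exact hle he'

end Pool.Agent.MR3
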