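import Pool.Agent.MR3.Defs

set_option autoImplicit false

namespace Pool.Agent.MR3

namespace ECRep

open MvPolynomial

/-- the variables: coordinates of the points and of the lines -/
abbrev Var (α β : Type) (P : Finset α) (L : Finset β) (r : ℕ) : Type := (P × Fin r) ⊕ (L × Fin r)

/-- the polynomial v_p . w_l -/
noncomputable def dp {α β : Type} (P : Finset α) (L : Finset β) (r : ℕ) (p : P) (l : L) :
    MvPolynomial (Var α β P L r) ℤ :=
  ∑ i : Fin r, X (Sum.inl (p, i)) * X (Sum.inr (l, i))

theorem aeval_dp {α β : Type} (P : Finset α) (L : Finset β) (r : ℕ) (p : P) (l : L)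
    {F : Type} [Field F] (x : Var α β P L r → F) :
    aeval x (dp P L r p l) =
      dotProduct (fun i => x (Sum.inl (p, i))) (fun i => x (Sum.inr (l, i))) := by
  simp [dp, dotProduct]

end ECRep

open MvPolynomial ECRep in
theorem ECRep_proof : Stmt_ECRep := by
  classical
  intro F _ hF r α β P L I v w h
  let x : Var α β P L r → F := Sum.elim (fun a => v a.1 a.2) (fun a => w a.1 a.2)
  have hx : ∀ (p : P) (l : L), aeval x (dp P L r p l) = dotProduct (v p) (w l) := by
    intro p l
    rw [aeval_dp]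
    rfl
  let s : MvPolynomial (Var α β P L r) ℤ :=
    ∏ pl : P × L, if I pl.1 pl.2 then 1 else dp P L r pl.1 pl.2
  have hs : aeval x s ≠ 0 := by
    simp only [s, map_prod]
    rw [Finset.prod_ne_zero_iff]
    rintro ⟨p, l⟩ -
    by_cases hI : I p l
    · simp [hI]
    · simp only [hI, if_false]
      rw [hx]
      exact fun h0 => hI ((h p p.2 l l.2).1 h0)
  obtain ⟨z, hz1, hz2⟩ := hF (Var α β P L r) x s hs
  refine ⟨fun p i => if hp : p ∈ P then z (Sum.inl (⟨p, hp⟩, i)) else 0,
    fun l i => if hl : l ∈ L then z (Sum.inr (⟨l, hl⟩, i)) else 0, ?_⟩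
  intro p hp l hl
  have h1 : dotProduct (fun i => if hp : p ∈ P then z (Sum.inl (⟨p, hp⟩, i)) else 0)
      (fun i => if hl : l ∈ L then z (Sum.inr (⟨l, hl⟩, i)) else 0) =
      aeval z (dp P L r ⟨p, hp⟩ ⟨l, hl⟩) := by
    rw [aeval_dp]
    simp [hp, hl]
  rw [h1]
  constructor
  · intro h0
    by_contra hI
    apply hz2
    simp only [s, map_prod]
    refine Finset.prod_eq_zero (Finset.mem_univ (⟨p, hp⟩, ⟨l, hl⟩)) ?_
    simp only [hI, if_false]
    exact h0
  · intro hI
    refine hz1 _ ?_
    rw [hx]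
    exact (h p hp l hl).2 hI

end Pool.Agent.MR3
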