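import Pool.Agent.MR3.Defs

set_option autoImplicit false

namespace Pool.Agent.MR3

section Known

variable {A : Type} [CommRing A] (S : Set A) (C : Set (A × A))

theorem known_mono_succ1 (t : ℕ) : (Known S C t).1 ⊆ (Known S C (t + 1)).1 :=
  fun _ hp => Or.inl hp

theorem known_mono_succ2 (t : ℕ) : (Known S C t).2 ⊆ (Known S C (t + 1)).2 :=
  fun _ hp => Or.inl hp

theorem known_mono1 {t t' : ℕ} (h : t ≤ t') : (Known S C t).1 ⊆ (Known S C t').1 := by
  induction h with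
  | refl => exact subset_rfl
  | step _ ih => exact ih.trans (known_mono_succ1 S C _)

theorem known_mono2 {t t' : ℕ} (h : t ≤ t') : (Known S C t).2 ⊆ (Known S C t').2 := by
  induction h with
  | refl => exact subset_rfl
  | step _ ih => exact ih.trans (known_mono_succ2 S C _)

theorem known_point {t : ℕ} {p : A × A} (a0 : A)
    (h : ∀ s ∈ S, thr p (a0 + s) ∈ (Known S C t).2) : p ∈ (Known S C (t + 1)).1 :=
  Or.inr ⟨a0, h⟩

theorem known_line {t : ℕ} {l : A × A} (x0 : A)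
    (h : ∀ s ∈ S, pt l (x0 + s) ∈ (Known S C t).1) : l ∈ (Known S C (t + 1)).2 :=
  Or.inr ⟨x0, h⟩

theorem known_point' (hS : S.Finite) {p : A × A} (a0 : A)
    (h : ∀ s ∈ S, ∃ t, thr p (a0 + s) ∈ (Known S C t).2) : ∃ t, p ∈ (Known S C t).1 := by
  choose! f hf using h
  obtain ⟨T, hT⟩ := (hS.image f).bddAbove
  refine ⟨T + 1, known_point S C a0 fun s hs => ?_⟩
  exact known_mono2 S C (hT (Set.mem_image_of_mem f hs)) (hf s hs)

theorem known_line' (hS : S.Finite) {l : A × A} (x0 : A)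
    (h : ∀ s ∈ S, ∃ t, pt l (x0 + s) ∈ (Known S C t).1) : ∃ t, l ∈ (Known S C t).2 := by
  choose! f hf using h
  obtain ⟨T, hT⟩ := (hS.image f).bddAbove
  refine ⟨T + 1, known_line S C x0 fun s hs => ?_⟩
  exact known_mono1 S C (hT (Set.mem_image_of_mem f hs)) (hf s hs)

end Known

section GA

variable {B A : Type} [CommRing B] [CommRing A] (φ : B →+* A) (α : A)

/-- polynomials in `α` of degree less than `s` -/
def YY (s : ℕ) : AddSubgroup A where
  carrier := {a | ∃ y : ℕ → B, a = ∑ i ∈ Finset.range s, φ (y i) * α ^ i}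
  zero_mem' := ⟨fun _ => 0, by simp⟩
  add_mem' := by
    rintro a b ⟨y, rfl⟩ ⟨z, rfl⟩
    exact ⟨fun i => y i + z i, by simp [add_mul, Finset.sum_add_distrib]⟩
  neg_mem' := by
    rintro a ⟨y, rfl⟩
    exact ⟨fun i => - y i, by simp⟩

theorem YY_mul {s : ℕ} {a : A} (ha : a ∈ YY φ α s) (b : B) : φ b * a ∈ YY φ α s := by
  obtain ⟨y, rfl⟩ := ha
  exact ⟨fun i => b * y i, by simp [Finset.mul_sum, mul_assoc]⟩

theorem YY_mono {s s' : ℕ} (h : s ≤ s') : YY φ α s ≤ YY φ α s' := by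
  rintro a ⟨y, rfl⟩
  refine ⟨fun i => if i < s then y i else 0, ?_⟩
  rw [← Finset.sum_subset (Finset.range_mono h)]
  · exact Finset.sum_congr rfl fun i hi => by simp [Finset.mem_range.1 hi]
  · intro i _ hi
    have h' : ¬ i < s := fun h' => hi (Finset.mem_range.2 h')
    simp [h']

theorem YY_one {s : ℕ} (h : 1 ≤ s) (b : B) : φ b ∈ YY φ α s :=
  YY_mono φ α h ⟨fun _ => b, by simp⟩

theorem YY_pow {s s' : ℕ} (h : s < s') (b : B) : φ b * α ^ s ∈ YY φ α s' := by
  refine ⟨fun i => if i = s then b else 0, ?_⟩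
  rw [Finset.sum_eq_single s]
  · simp
  · intro i _ hi
    simp [hi]
  · intro hs
    simp [h] at hs

theorem YY_split {s : ℕ} {a : A} (ha : a ∈ YY φ α (2 * s)) :
    ∃ u ∈ YY φ α s, ∃ v ∈ YY φ α s, a = u * α ^ s + v := by
  obtain ⟨y, rfl⟩ := ha
  refine ⟨∑ i ∈ Finset.range s, φ (y (s + i)) * α ^ i, ⟨fun i => y (s + i), rfl⟩,
    ∑ i ∈ Finset.range s, φ (y i) * α ^ i, ⟨y, rfl⟩, ?_⟩
  rw [two_mul, Finset.sum_range_add, add_comm, Finset.sum_mul]
  congr 1
  refine Finset.sum_congr rfl fun i _ => ?_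
  rw [pow_add]
  ring

end GA

theorem GenAlpha_proof : Stmt_GenAlpha := by
  intro B A _ _ φ α S C hS hgen hbase p
  have hS' : (φ '' S).Finite := hS.image φ
  -- lines with small coefficients
  have lines : ∀ s : ℕ, (∀ x ∈ S, ∀ a ∈ YY φ α s, ∃ t, (φ x, a) ∈ (Known (φ '' S) C t).1) →
      ∀ a ∈ YY φ α s, ∀ b ∈ YY φ α s, ∃ t, (a, b) ∈ (Known (φ '' S) C t).2 := by
    intro s hs a ha b hb
    refine known_line' (φ '' S) C hS' 0 ?_
    rintro _ ⟨x, hx, rfl⟩
    have := hs x hx (a * (0 + φ x) + b) (by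
      rw [zero_add, mul_comm]
      exact (YY φ α s).add_mem (YY_mul φ α ha x) hb)
    simpa [pt] using this
  -- doubling step
  have step : ∀ s : ℕ, 1 ≤ s →
      (∀ x ∈ S, ∀ a ∈ YY φ α (s + 1), ∃ t, (φ x, a) ∈ (Known (φ '' S) C t).1) →
      ∀ x : B, ∀ a ∈ YY φ α (2 * s), ∃ t, (φ x, a) ∈ (Known (φ '' S) C t).1 := by
    intro s hs1 hs
    -- (ii)
    have h2 : ∀ x' ∈ S, ∀ y ∈ YY φ α (2 * s),
        ∃ t, (α ^ s + φ x', y) ∈ (Known (φ '' S) C t).1 := by
      intro x' hx' y hy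
      obtain ⟨a0, ha0, ρ, hρ, rfl⟩ := YY_split φ α hy
      refine known_point' (φ '' S) C hS' a0 ?_
      rintro _ ⟨b, hb, rfl⟩
      have ha0' := YY_mono φ α (Nat.le_succ s) ha0
      have hρ' := YY_mono φ α (Nat.le_succ s) hρ
      have e : thr (α ^ s + φ x', a0 * α ^ s + ρ) (a0 + φ b)
          = (a0 + φ b, ρ - φ x' * a0 - φ b * α ^ s - φ (b * x')) := by
        simp only [thr, map_mul, Prod.mk.injEq, true_and]
        ring
      rw [e]
      refine lines (s + 1) hs _ ?_ _ ?_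
      · exact (YY φ α (s + 1)).add_mem ha0' (YY_one φ α (by omega) b)
      · refine (YY φ α (s + 1)).sub_mem ((YY φ α (s + 1)).sub_mem
          ((YY φ α (s + 1)).sub_mem hρ' (YY_mul φ α ha0' x')) (YY_pow φ α (by omega) b))
          (YY_one φ α (by omega) _)
    -- (iii)
    have h3 : ∀ a : B, ∀ b ∈ YY φ α (2 * s), ∃ t, (φ a, b) ∈ (Known (φ '' S) C t).2 := by
      intro a b hb
      refine known_line' (φ '' S) C hS' (α ^ s) ?_
      rintro _ ⟨x, hx, rfl⟩
      have := h2 x hx (φ a * (α ^ s + φ x) + b) (by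
        rw [mul_add, ← map_mul]
        exact (YY φ α (2 * s)).add_mem ((YY φ α (2 * s)).add_mem (YY_pow φ α (by omega) a)
          (YY_one φ α (by omega) _)) hb)
      simpa [pt] using this
    -- (iv)
    intro x y hy
    refine known_point' (φ '' S) C hS' 0 ?_
    rintro _ ⟨a, ha, rfl⟩
    have := h3 a (y - φ (a * x)) ((YY φ α (2 * s)).sub_mem hy (YY_one φ α (by omega) _))
    simpa [thr, map_mul] using this
  -- all degrees
  have all : ∀ n : ℕ, ∀ x ∈ S, ∀ a ∈ YY φ α (n + 3), ∃ t, (φ x, a) ∈ (Known (φ '' S) C t).1 := by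
    intro n
    induction n with
    | zero =>
      rintro x hx a ⟨y, rfl⟩
      have := hbase x hx (fun i => y i)
      simpa [bp, Fin.sum_univ_three, Finset.sum_range_succ] using this
    | succ n ih =>
      intro x _ a ha
      exact step (n + 2) (by omega) ih x a (YY_mono φ α (by omega) ha)
  have mem : ∀ a : A, ∃ n, a ∈ YY φ α (n + 3) := by
    intro a
    obtain ⟨h, rfl⟩ := hgen a
    refine ⟨h.natDegree + 1, YY_mono φ α (show h.natDegree + 1 ≤ _ by omega) ?_⟩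
    exact ⟨h.coeff, by rw [Polynomial.eval₂_eq_sum_range]⟩
  refine known_point' (φ '' S) C hS' 0 ?_
  intro s _
  obtain ⟨n, hn⟩ := mem (0 + s)
  obtain ⟨m, hm⟩ := mem (p.2 - (0 + s) * p.1)
  exact lines (max n m + 3) (fun x hx a ha => all (max n m) x hx a ha) _
    (YY_mono φ α (by omega) hn) _ (YY_mono φ α (by omega) hm)

end Pool.Agent.MR3
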