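import Pool.Agent.MR3.Defs

set_option autoImplicit false

/-!
# Glue: `Odd` from `Pres` and `OddProj`, `Place` from `PlaceA`, `PlaceB1`, `PlaceB2`
-/

namespace Pool.Agent.MR3

open MvPolynomial

theorem EC.charZero {F : Type} [Field F] (h : EC F) : CharZero F := by
  refine ⟨fun a b hab => ?_⟩
  by_contra hne
  have h1 : aeval (fun i : Empty => (i.elim : F)) (C ((a : ℤ) - b) : MvPolynomial Empty ℤ) = 0 := by
    simp [hab]
  obtain ⟨z, hz, -⟩ := h Empty (fun i => i.elim) 1 (by simp)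
  have h2 := hz _ h1
  simp only [map_sub, map_natCast] at h2
  have : (a : ℚ) = b := by linarith
  exact hne (by exact_mod_cast this)

theorem Odd_of (h1 : Stmt_Pres) (h2 : Stmt_OddProj) : Stmt_Odd := by
  intro F _ σ _ x hEC hx
  have := hEC.charZero
  obtain ⟨D, y, f, hy, hf, hker⟩ := h1 F σ x hx
  obtain ⟨y', g, hy', hg, hker'⟩ := h2 F hEC D y f hy hf hker
  exact ⟨D, y', g, hy', hg, hker'⟩

theorem Place_of (hA : Stmt_PlaceA) (hB1 : Stmt_PlaceB1) (hB2 : Stmt_PlaceB2) : Stmt_Place := by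
  intro D F _ _ y g hker hy l κ _ _ _ z c hl hz hgz hdz h2
  obtain ⟨v, hna, hvl, hdisc, hle, hlt, hfrac⟩ := hA D F y g hker hy l κ z c hl hz hgz hdz
  refine ⟨v, hna, hvl, ?_, ?_⟩
  · exact hB1 D F y l κ z c v h2 hna hle hlt hfrac
  · exact hB2 D F y g hker hy l κ z c hl hz hgz hdz v hna hvl hdisc hle hlt hfrac

end Pool.Agent.MR3
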