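import Pool.Agent.MR3.Defs

set_option autoImplicit false

/-!
# MP_d42559_co, module Homog (helper94)
-/

namespace Pool.Agent.MR3

open MvPolynomial

namespace HomogAux

section HP

variable {A : Type} [CommRing A]

/-- Heisenberg multiplication -/
def hm (g' g : A × A × A) : A × A × A :=
  (g.1 + g'.1, g.2.1 + g'.2.1, g.2.2 + g'.2.2 + g'.2.1 * g.1)

/-- Heisenberg inverse -/
def hinv (g : A × A × A) : A × A × A := (-g.1, -g.2.1, -g.2.2 + g.2.1 * g.1)

lemma hP_hm (g' g : A × A × A) (p : A × A) : hP g' (hP g p) = hP (hm g' g) p := by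
  simp only [hP, hm, Prod.mk.injEq]
  constructor <;> ring

lemma hL_hm (g' g : A × A × A) (l : A × A) : hL g' (hL g l) = hL (hm g' g) l := by
  simp only [hL, hm, Prod.mk.injEq]
  constructor <;> ring

lemma hP_zero (p : A × A) : hP (0, 0, 0) p = p := by
  simp [hP]

lemma hP_hinv (g : A × A × A) (p : A × A) : hP g (hP (hinv g) p) = p := by
  rw [hP_hm]
  have : hm g (hinv g) = (0, 0, 0) := by
    simp only [hm, hinv, Prod.mk.injEq]
    refine ⟨by ring, by ring, by ring⟩
  rw [this, hP_zero]

lemma hP_hinv' (g : A × A × A) (p : A × A) : hP (hinv g) (hP g p) = p := by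
  rw [hP_hm]
  have : hm (hinv g) g = (0, 0, 0) := by
    simp only [hm, hinv, Prod.mk.injEq]
    refine ⟨by ring, by ring, by ring⟩
  rw [this, hP_zero]

lemma inc_h (g : A × A × A) (p l : A × A) : Inc (hP g p) (hL g l) ↔ Inc p l := by
  simp only [Inc, hP, hL]
  constructor
  · intro h
    linear_combination h
  · intro h
    linear_combination h

lemma hL_thr (g : A × A × A) (p : A × A) (a : A) :
    hL g (thr p a) = thr (hP g p) (a + g.2.1) := by
  simp only [hL, thr, hP, Prod.mk.injEq, true_and]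
  ring

lemma hP_pt (g : A × A × A) (l : A × A) (x : A) :
    hP g (pt l x) = pt (hL g l) (x + g.1) := by
  simp only [hL, pt, hP, Prod.mk.injEq, true_and]
  ring

variable {F : Type} [Field F] {k : ℕ}

lemma isRep_comp {v w : A × A → Fin (k + 1) → F} (h : IsRep v w) (g : A × A × A) :
    IsRep (fun p => v (hP g p)) (fun l => w (hL g l)) := by
  refine ⟨fun p => h.1 _, fun l => h.2.1 _, fun p l => ?_⟩
  rw [h.2.2, inc_h]

lemma isWRep_of {v w : A × A → Fin (k + 1) → F} (h : IsRep v w) : IsWRep v w :=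
  ⟨h.1, h.2.1, fun p l hpl => (h.2.2 p l).2 hpl⟩

lemma good_comp {S : Set A} {v w : A × A → Fin (k + 1) → F} (h : Good S v w) (g : A × A × A) :
    Good S (fun p => v (hP g p)) (fun l => w (hL g l)) := by
  constructor
  · intro p a0
    obtain ⟨f, hf, hli⟩ := h.1 (hP g p) (a0 + g.2.1)
    refine ⟨f, hf, ?_⟩
    have : (fun i => w (hL g (thr p (a0 + f i)))) =
        fun i => w (thr (hP g p) (a0 + g.2.1 + f i)) := by
      funext i
      rw [hL_thr]
      congr 2
      ring
    rw [this]
    exact hli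
  · intro l x0
    obtain ⟨f, hf, hli⟩ := h.2 (hL g l) (x0 + g.1)
    refine ⟨f, hf, ?_⟩
    have : (fun i => v (hP g (pt l (x0 + f i)))) =
        fun i => v (pt (hL g l) (x0 + g.1 + f i)) := by
      funext i
      rw [hP_pt]
      congr 2
      ring
    rw [this]
    exact hli

end HP

section Ultra

variable {A : Type} {F : Type} [Field F] {k : ℕ} {I : Type}

/-- the ultralimit of a family of representations -/
def uv (U : Ultrafilter I) (v : I → A × A → Fin (k + 1) → F) :
    A × A → Fin (k + 1) → Filter.Germ (U : Filter I) F :=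
  fun p j => ((fun i => v i p j : I → F) : Filter.Germ (U : Filter I) F)

lemma uv_isRep [CommRing A] (hU : Stmt_Ultra) (U : Ultrafilter I)
    {v w : I → A × A → Fin (k + 1) → F} (h : ∀ i, IsRep (v i) (w i)) :
    IsRep (uv U v) (uv U w) := by
  refine ⟨fun p => ?_, fun l => ?_, fun p l => ?_⟩
  · have : (fun i => v i p 0) = fun _ => (1 : F) := by
      funext i
      exact (h i).1 p
    simp only [uv, this]
    rfl
  · have : (fun i => w i l 0) = fun _ => (1 : F) := by
      funext i
      exact (h i).2.1 l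
    simp only [uv, this]
    rfl
  · have h1 := ((hU F I U (k + 1)).1 (fun i => v i p) (fun i => w i l))
    have h2 : dotProduct (uv U v p) (uv U w l) = 0 ↔
        ∀ᶠ i in (U : Filter I), dotProduct (v i p) (w i l) = 0 := h1
    rw [h2]
    have h3 : (fun i => dotProduct (v i p) (w i l) = 0) = fun _ => Inc p l := by
      funext i
      exact propext ((h i).2.2 p l)
    rw [h3]
    exact Filter.eventually_const

lemma exists_eventually {X : Type} {T : Set X} (hT : T.Finite) (U : Ultrafilter I)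
    (f : I → X) (hf : ∀ i, f i ∈ T) : ∃ x ∈ T, ∀ᶠ i in (U : Filter I), f i = x := by
  have := (Ultrafilter.finite_biUnion_mem_iff (f := U) (is := T) (s := fun x => {i | f i = x}) hT).1
    (by
      filter_upwards [] with i
      simp only [Set.mem_iUnion, Set.mem_setOf_eq, exists_prop]
      exact ⟨f i, hf i, rfl⟩)
  obtain ⟨x, hx, hx'⟩ := this
  exact ⟨x, hx, hx'⟩

lemma uv_good [CommRing A] {S : Set A} (hS : S.Finite) (hU : Stmt_Ultra) (U : Ultrafilter I)
    {v w : I → A × A → Fin (k + 1) → F} (h : ∀ i, Good S (v i) (w i)) :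
    Good S (uv U v) (uv U w) := by
  have hfin : {f : Fin k → A | ∀ i, f i ∈ S}.Finite := by
    have := Set.Finite.pi (t := fun _ : Fin k => S) (fun _ => hS)
    refine this.subset ?_
    intro f hf i _
    exact hf i
  constructor
  · intro p a0
    choose f hf hli using fun i => (h i).1 p a0
    obtain ⟨x, hx, hx'⟩ := exists_eventually hfin U f hf
    refine ⟨x, hx, ?_⟩
    have := (hU F I U (k + 1)).2 k (fun i a => w i (thr p (a0 + x a)))
      (by
        filter_upwards [hx'] with i hi
        rw [← hi]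
        exact hli i)
    exact this
  · intro l x0
    choose f hf hli using fun i => (h i).2 l x0
    obtain ⟨x, hx, hx'⟩ := exists_eventually hfin U f hf
    refine ⟨x, hx, ?_⟩
    have := (hU F I U (k + 1)).2 k (fun i a => v i (pt l (x0 + x a)))
      (by
        filter_upwards [hx'] with i hi
        rw [← hi]
        exact hli i)
    exact this

lemma aeval_pi {σ : Type} (x : σ → I → F) (Q : MvPolynomial σ ℤ) (i : I) :
    aeval x Q i = aeval (fun s => x s i) Q := by
  have := MvPolynomial.map_aeval x (Pi.evalRingHom (fun _ : I => F) i) Q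
  simp only [Pi.evalRingHom_apply] at this
  rw [this]
  simp only [aeval_def]
  congr 1

lemma aeval_germ {σ : Type} (U : Ultrafilter I) (x : σ → I → F) (Q : MvPolynomial σ ℤ) :
    aeval (fun s => ((x s : I → F) : Filter.Germ (U : Filter I) F)) Q =
      ((fun i => aeval (fun s => x s i) Q : I → F) : Filter.Germ (U : Filter I) F) := by
  have h1 : (fun i => aeval (fun s => x s i) Q : I → F) = aeval x Q := by
    funext i
    rw [aeval_pi]
  rw [h1]
  have := MvPolynomial.map_aeval x (Filter.Germ.coeRingHom (R := F) (U : Filter I)) Q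
  have h2 : (((aeval x Q : I → F)) : Filter.Germ (U : Filter I) F) =
      (Filter.Germ.coeRingHom (R := F) (U : Filter I)) (aeval x Q) := rfl
  rw [h2, this]
  simp only [aeval_def, coe_eval₂Hom]
  congr 1

lemma uv_ker {ι : Type} (c : ι → A × A) (U : Ultrafilter I)
    (v : I → A × A → Fin (k + 1) → F) (Q : MvPolynomial (ι × Fin (k + 1)) ℤ) :
    aeval (bt c (uv U v)) Q = 0 ↔ ∀ᶠ i in (U : Filter I), aeval (bt c (v i)) Q = 0 := by
  have h : bt c (uv U v) = fun s : ι × Fin (k + 1) =>
      ((fun i => bt c (v i) s : I → F) : Filter.Germ (U : Filter I) F) := rfl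
  rw [h, aeval_germ]
  exact Filter.Germ.coe_eq

end Ultra

section Key

variable {A : Type} [CommRing A]

lemma exists_Sz {σ : Type} (P : MvPolynomial σ ℤ) : ∃ m, ∀ n, m ≤ n → Sz n P := by
  refine ⟨max P.totalDegree (nrm P), fun n hn => ⟨le_trans (le_max_left _ _) hn, ?_⟩⟩
  have h1 : nrm P ≤ n := le_trans (le_max_right _ _) hn
  exact h1.trans (Nat.lt_two_pow_self).le

lemma exists_Sz_fam {σ τ : Type} [Finite τ] (P : τ → MvPolynomial σ ℤ) :
    ∃ m, ∀ n, m ≤ n → ∀ i, Sz n (P i) := by
  classical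
  have := Fintype.ofFinite τ
  choose m hm using fun i => exists_Sz (P i)
  refine ⟨Finset.univ.sup m, fun n hn i => hm i n (le_trans (Finset.le_sup (Finset.mem_univ i)) hn)⟩

/-- the values at all points specialise as the values at the base points do -/
lemma key (hC : Stmt_Circuit) (hSub : Stmt_Subst) {k : ℕ} {S : Set A} {ι ι' : Type} [Finite ι']
    (c : ι → A × A) (c' : ι' → A × A)
    (hK : ∀ p : A × A, ∃ t, p ∈ (Known S (Set.range c) t).1)
    {F' F'' : Type} [Field F'] [Field F'']
    {v' w' : A × A → Fin (k + 1) → F'} {v'' w'' : A × A → Fin (k + 1) → F''}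
    (h' : IsWRep v' w') (h'' : IsWRep v'' w'') (hg : Good S v'' w'')
    (hker : ∀ Q : MvPolynomial (ι × Fin (k + 1)) ℤ,
      aeval (bt c v') Q = 0 → aeval (bt c v'') Q = 0) :
    ∀ Q : MvPolynomial (ι' × Fin (k + 1)) ℤ,
      aeval (bt c' v') Q = 0 → aeval (bt c' v'') Q = 0 := by
  classical
  have := Fintype.ofFinite ι'
  have hex : ∀ i : ι', ∃ P : Fin (k + 1) → MvPolynomial (ι × Fin (k + 1)) ℤ,
      aeval (bt c v'') (P 0) ≠ 0 ∧
      (∀ j, v' (c' i) j * aeval (bt c v') (P 0) = aeval (bt c v') (P j)) ∧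
      (∀ j, v'' (c' i) j * aeval (bt c v'') (P 0) = aeval (bt c v'') (P j)) := by
    intro i
    obtain ⟨t, ht⟩ := hK (c' i)
    obtain ⟨P, -, hP0, hP⟩ := hC A F'' k S ι c v'' w'' h'' hg t (c' i) ht
    exact ⟨P, hP0, hP F' v' w' h' hker, hP F'' v'' w'' h'' (fun Q hQ => hQ)⟩
  choose P hP0 hP' hP'' using hex
  have hP0' : ∀ i, aeval (bt c v') (P i 0) ≠ 0 := fun i h => hP0 i (hker _ h)
  intro Q hQ
  set q : MvPolynomial (ι × Fin (k + 1)) ℤ := ∏ i, P i 0 with hq
  set p : ι' × Fin (k + 1) → MvPolynomial (ι × Fin (k + 1)) ℤ :=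
    fun s => P s.1 s.2 * ∏ i ∈ Finset.univ.erase s.1, P i 0 with hp
  have hqp : ∀ s : ι' × Fin (k + 1), q = P s.1 0 * ∏ i ∈ Finset.univ.erase s.1, P i 0 := by
    intro s
    rw [hq]
    exact (Finset.mul_prod_erase Finset.univ (fun i => P i 0) (Finset.mem_univ s.1)).symm
  obtain ⟨m1, hm1⟩ := exists_Sz Q
  obtain ⟨m2, hm2⟩ := exists_Sz_fam p
  obtain ⟨m3, hm3⟩ := exists_Sz q
  obtain ⟨R, -, hR⟩ := hSub (ι' × Fin (k + 1)) (ι × Fin (k + 1)) (max m2 m3) m1 Q p q
    (hm1 _ le_rfl) (hm2 _ (le_max_left _ _)) (hm3 _ (le_max_right _ _))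
  have e' : ∀ s, bt c' v' s * aeval (bt c v') q = aeval (bt c v') (p s) := by
    intro s
    rw [hqp s, hp, map_mul, map_mul, ← hP' s.1 s.2, bt, mul_assoc]
  have e'' : ∀ s, bt c' v'' s * aeval (bt c v'') q = aeval (bt c v'') (p s) := by
    intro s
    rw [hqp s, hp, map_mul, map_mul, ← hP'' s.1 s.2, bt, mul_assoc]
  have r' := hR F' (bt c v') (bt c' v') e'
  have r'' := hR F'' (bt c v'') (bt c' v'') e''
  rw [hQ, mul_zero] at r'
  have r0 := hker R r'
  rw [r0] at r''
  have hq0 : aeval (bt c v'') q ≠ 0 := by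
    rw [hq, map_prod]
    exact Finset.prod_ne_zero_iff.2 fun i _ => hP0 i
  rcases mul_eq_zero.1 r''.symm with h | h
  · exact absurd h (pow_ne_zero _ hq0)
  · exact h

end Key

end HomogAux

open HomogAux in
theorem Homog_proof (hECG : Stmt_ECGerm) (hU : Stmt_Ultra) (hC : Stmt_Circuit)
    (hSub : Stmt_Subst) (hMP : Stmt_MinPrime) : Stmt_Homog := by
  intro A _ F _ k S ι _ c v w hEC hS hrep hgood hK
  classical
  -- the family of representations
  let G := A × A × A
  let vg : G → A × A → Fin (k + 1) → F := fun g p => v (hP g p)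
  let wg : G → A × A → Fin (k + 1) → F := fun g l => w (hL g l)
  have hrepg : ∀ g, IsRep (vg g) (wg g) := fun g => isRep_comp hrep g
  have hgoodg : ∀ g, Good S (vg g) (wg g) := fun g => good_comp hgood g
  let p : G → Ideal (MvPolynomial (ι × Fin (k + 1)) ℤ) := fun g =>
    RingHom.ker (aeval (bt c (vg g)) : MvPolynomial (ι × Fin (k + 1)) ℤ →ₐ[ℤ] F)
  have hp : ∀ g Q, Q ∈ p g ↔ aeval (bt c (vg g)) Q = 0 := fun g Q => by
    simp only [p, RingHom.mem_ker]
  obtain ⟨T, hT1, hT2, hT3⟩ := hMP _ G p (fun g => by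
    simp only [p]
    exact RingHom.ker_isPrime _)
  -- kernels of the members of the class
  let K : Ultrafilter G → G → Ideal (MvPolynomial (ι × Fin (k + 1)) ℤ) := fun U g =>
    RingHom.ker (aeval (bt c (fun q => uv U vg (hP g q))) :
      MvPolynomial (ι × Fin (k + 1)) ℤ →ₐ[ℤ] Filter.Germ (U : Filter G) F)
  have hKm : ∀ U g Q, Q ∈ K U g ↔ aeval (bt c (fun q => uv U vg (hP g q))) Q = 0 :=
    fun U g Q => by simp only [K, RingHom.mem_ker]
  have hKprime : ∀ U g, (K U g).IsPrime := fun U g => by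
    simp only [K]
    exact RingHom.ker_isPrime _
  have hrepU : ∀ U : Ultrafilter G, IsRep (uv U vg) (uv U wg) := fun U => uv_isRep hU U hrepg
  have hgoodU : ∀ U : Ultrafilter G, Good S (uv U vg) (uv U wg) :=
    fun U => uv_good hS hU U hgoodg
  have hKI : ∀ U g, (⨅ g, p g) ≤ K U g := by
    intro U g Q hQ
    rw [hKm]
    have h1 : (fun q => uv U vg (hP g q)) = uv U (fun g' q => vg g' (hP g q)) := rfl
    rw [h1, uv_ker]
    refine Filter.Eventually.of_forall fun g' => ?_
    have h2 : (fun q => vg g' (hP g q)) = vg (hm g' g) := by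
      funext q
      simp only [vg, hP_hm]
    rw [h2, ← hp]
    exact (Ideal.mem_iInf.1 hQ) _
  -- comparison
  have hcomp : ∀ (U U' : Ultrafilter G) (g g' h : G), K U g ≤ K U' g' →
      K U (hm g h) ≤ K U' (hm g' h) := by
    intro U U' g g' h hle Q hQ
    rw [hKm] at hQ ⊢
    have h0 := key hC hSub c (fun i => hP h (c i)) hK
      (isWRep_of (isRep_comp (hrepU U) g)) (isWRep_of (isRep_comp (hrepU U') g'))
      (good_comp (hgoodU U') g') (fun Q hQ => by
        have : Q ∈ K U g := by rw [hKm]; exact hQ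
        have := hle this
        rw [hKm] at this
        exact this) Q
    have e1 : bt (fun i => hP h (c i)) (fun q => uv U vg (hP g q)) =
        bt c (fun q => uv U vg (hP (hm g h) q)) := by
      funext s
      simp only [bt, hP_hm]
    have e2 : bt (fun i => hP h (c i)) (fun q => uv U' vg (hP g' q)) =
        bt c (fun q => uv U' vg (hP (hm g' h) q)) := by
      funext s
      simp only [bt, hP_hm]
    rw [e1, e2] at h0
    exact h0 hQ
  have hKzero : ∀ (U : Ultrafilter G) (Q : _), Q ∈ K U (0, 0, 0) ↔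
      aeval (bt c (uv U vg)) Q = 0 := by
    intro U Q
    rw [hKm]
    simp only [hP_zero]
  -- choose a minimal prime
  obtain ⟨q, hq, -⟩ := hT2 (p (0, 0, 0)) (by
    simp only [p]
    exact RingHom.ker_isPrime _) (iInf_le _ _)
  obtain ⟨U, hUq⟩ := hT3 q hq
  have hreal : ∀ (q' : _) (U' : Ultrafilter G),
      (∀ h, (h ∈ q' ↔ ∀ᶠ g in (U' : Filter G), h ∈ p g)) → K U' (0, 0, 0) = q' := by
    intro q' U' h
    ext Q
    rw [hKzero, uv_ker, h]
    simp only [hp]
  have hKU : K U (0, 0, 0) = q := hreal q U hUq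
  have hmm : ∀ g : G, hm g (hinv g) = (0, 0, 0) := by
    intro g
    simp only [hm, hinv, Prod.mk.injEq]
    refine ⟨by ring, by ring, by ring⟩
  have hmm' : ∀ g : G, hm (hinv g) g = (0, 0, 0) := by
    intro g
    simp only [hm, hinv, Prod.mk.injEq]
    refine ⟨by ring, by ring, by ring⟩
  have h0m : ∀ g : G, hm (0, 0, 0) g = g := by
    intro g
    simp only [hm]
    ext <;> simp
  have hmem : ∀ g : G, K U g ∈ T := by
    intro g
    obtain ⟨q2, hq2, hle2⟩ := hT2 (K U g) (hKprime U g) (hKI U g)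
    obtain ⟨U2, hU2⟩ := hT3 q2 hq2
    have hKU2 : K U2 (0, 0, 0) = q2 := hreal q2 U2 hU2
    have h1 : K U2 (hm (0, 0, 0) (hinv g)) ≤ K U (hm g (hinv g)) :=
      hcomp U2 U (0, 0, 0) g (hinv g) (by rw [hKU2]; exact hle2)
    rw [h0m, hmm, hKU] at h1
    obtain ⟨q3, hq3, hle3⟩ := hT2 (K U2 (hinv g)) (hKprime _ _) (hKI _ _)
    have h3 : q3 = q := (hT1 q hq).2.2 q3 hq3 (hle3.trans h1)
    have h4 : q ≤ K U2 (hinv g) := by rw [← h3]; exact hle3
    have h5 : K U (hm (0, 0, 0) g) ≤ K U2 (hm (hinv g) g) :=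
      hcomp U U2 (0, 0, 0) (hinv g) g (by rw [hKU]; exact h4)
    rw [h0m, hmm', hKU2] at h5
    have h6 : K U g = q2 := le_antisymm h5 hle2
    rw [h6]
    exact hq2
  have hmul : ∀ g g' h : G, K U g = K U g' → K U (hm g h) = K U (hm g' h) := by
    intro g g' h hgg
    exact le_antisymm (hcomp U U g g' h hgg.le) (hcomp U U g' g h hgg.ge)
  -- one parameter subgroups
  have hone : ∀ e : ℕ → G, e 0 = (0, 0, 0) →
      (∀ i j, ∃ h : G, hm (e i) h = (0, 0, 0) ∧ hm (e (i + j)) h = e j) →
      (∀ i j, hm (e i) (e j) = e (i + j)) →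
      K U (e (T.card.factorial)) = K U (0, 0, 0) := by
    intro e e0 e1 e2
    obtain ⟨x, hx, y, hy, hxy, hK⟩ :=
      Finset.exists_ne_map_eq_of_card_lt_of_maps_to (s := Finset.range (T.card + 1)) (t := T)
        (f := fun i => K U (e i)) (by simp) (fun i _ => hmem _)
    have main : ∀ x d : ℕ, 0 < d → d ≤ T.card → K U (e x) = K U (e (x + d)) →
        K U (e (T.card.factorial)) = K U (0, 0, 0) := by
      intro x d hd hd' hK
      obtain ⟨h, hh1, hh2⟩ := e1 x d
      have h3 := hmul _ _ h hK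
      rw [hh1, hh2] at h3
      have h4 : ∀ n, K U (e (n * d)) = K U (0, 0, 0) := by
        intro n
        induction n with
        | zero => rw [zero_mul, e0]
        | succ n ih =>
          have := hmul _ _ (e (n * d)) h3
          rw [h0m, e2] at this
          rw [← ih, this]
          congr 2
          ring
      obtain ⟨n, hn⟩ := Nat.dvd_factorial hd hd'
      rw [hn, mul_comm]
      exact h4 n
    simp only [Finset.mem_range] at hx hy
    rcases lt_or_gt_of_ne hxy with hlt | hlt
    · refine main x (y - x) (by omega) (by omega) ?_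
      rw [show x + (y - x) = y by omega]
      exact hK
    · refine main y (x - y) (by omega) (by omega) ?_
      rw [show y + (x - y) = x by omega]
      exact hK.symm
  refine ⟨Filter.Germ (U : Filter G) F, inferInstance, hECG.2 F hEC G U, uv U vg, uv U wg,
    hrepU U, hgoodU U, T.card.factorial, Nat.factorial_pos _, fun u => ⟨?_, ?_⟩⟩
  · intro Q
    have h := hone (fun n => ((n : A) * u, 0, 0)) (by simp) (by
      intro i j
      refine ⟨(-((i : A) * u), 0, 0), ?_, ?_⟩
      · simp only [hm, Prod.mk.injEq]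
        refine ⟨by ring, by ring, by ring⟩
      · simp only [hm, Prod.mk.injEq]
        refine ⟨by push_cast; ring, by ring, by ring⟩) (by
      intro i j
      simp only [hm, Prod.mk.injEq]
      refine ⟨by push_cast; ring, by ring, by ring⟩)
    rw [← hKzero, ← h, hKm]
  · intro Q
    have h := hone (fun n => (0, (n : A) * u, 0)) (by simp) (by
      intro i j
      refine ⟨(0, -((i : A) * u), 0), ?_, ?_⟩
      · simp only [hm, Prod.mk.injEq]
        refine ⟨by ring, by ring, by ring⟩
      · simp only [hm, Prod.mk.injEq]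
        refine ⟨by ring, by push_cast; ring, by ring⟩) (by
      intro i j
      simp only [hm, Prod.mk.injEq]
      refine ⟨by ring, by push_cast; ring, by ring⟩)
    rw [← hKzero, ← h, hKm]

end Pool.Agent.MR3
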