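import Pool.Agent.MR3.ECGerm

set_option autoImplicit false

namespace Pool.Agent.MR3

open Filter in
theorem Init_proof (hNorm : Stmt_Norm) : Stmt_Init := by
  classical
  intro A _ _ _ k hrep
  -- finite stage
  have hfin : ∀ i : Finset (A × A) × Finset (A × A), ∃ v w : A × A → Fin (k + 1) → ℚ,
      (∀ p, v p 0 = 1) ∧ (∀ l, w l 0 = 1) ∧
      ∀ p ∈ i.1, ∀ l ∈ i.2, (dotProduct (v p) (w l) = 0 ↔ Inc p l) := by
    rintro ⟨P, L⟩
    set P' : Finset (A × A) := P ∪ L.image (fun l => (0, l.2 + 1)) with hP'
    set L' : Finset (A × A) := L ∪ P.image (fun p => (0, p.2 + 1)) with hL'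
    obtain ⟨v, w, hvw⟩ := hrep P' L'
    have hA : ∀ p : A × A, ¬ Inc p ((0, p.2 + 1) : A × A) := by
      intro p hp
      unfold Inc at hp
      simp at hp
    have hB : ∀ l : A × A, ¬ Inc ((0, l.2 + 1) : A × A) l := by
      intro l hl
      unfold Inc at hl
      simp at hl
    obtain ⟨v', w', hv', hw', h'⟩ := hNorm ℚ k (A × A) (A × A) P' L' Inc v w hvw
      (by
        intro p hp
        rw [hP', Finset.mem_union, Finset.mem_image] at hp
        rcases hp with hp | ⟨l, hl, rfl⟩
        · exact ⟨(0, p.2 + 1), by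
            rw [hL']; exact Finset.mem_union_right _ (Finset.mem_image.2 ⟨p, hp, rfl⟩), hA p⟩
        · exact ⟨l, by rw [hL']; exact Finset.mem_union_left _ hl, hB l⟩)
      (by
        intro l hl
        rw [hL', Finset.mem_union, Finset.mem_image] at hl
        rcases hl with hl | ⟨p, hp, rfl⟩
        · exact ⟨(0, l.2 + 1), by
            rw [hP']; exact Finset.mem_union_right _ (Finset.mem_image.2 ⟨l, hl, rfl⟩), hB l⟩
        · exact ⟨p, by rw [hP']; exact Finset.mem_union_left _ hp, hA p⟩)
    refine ⟨fun p => if p ∈ P' then v' p else Pi.single 0 1,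
      fun l => if l ∈ L' then w' l else Pi.single 0 1, ?_, ?_, ?_⟩
    · intro p
      by_cases hp : p ∈ P'
      · simp [hp, hv' p hp]
      · simp [hp]
    · intro p
      by_cases hp : p ∈ L'
      · simp [hp, hw' p hp]
      · simp [hp]
    · intro p hp l hl
      have hp' : p ∈ P' := by rw [hP']; exact Finset.mem_union_left _ hp
      have hl' : l ∈ L' := by rw [hL']; exact Finset.mem_union_left _ hl
      simp only [hp', hl', if_true]
      exact h' p hp' l hl'
  choose v w hv hw hvw using hfin
  let U : Ultrafilter (Finset (A × A) × Finset (A × A)) := Ultrafilter.of atTop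
  have hU : (U : Filter (Finset (A × A) × Finset (A × A))) ≤ atTop := Ultrafilter.of_le atTop
  refine ⟨Germ (U : Filter (Finset (A × A) × Finset (A × A))) ℚ, inferInstance,
    ECGerm_proof.2 ℚ ECGerm_proof.1 _ U,
    fun p j => Ultra.gh U (fun i => v i p j),
    fun p j => Ultra.gh U (fun i => w i p j), ?_, ?_, ?_⟩
  · intro p
    have : (fun i => v i p 0) = fun _ => (1 : ℚ) := by funext i; exact hv i p
    show Ultra.gh U (fun i => v i p 0) = 1
    rw [this]
    exact map_one _
  · intro p
    have : (fun i => w i p 0) = fun _ => (1 : ℚ) := by funext i; exact hw i p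
    show Ultra.gh U (fun i => w i p 0) = 1
    rw [this]
    exact map_one _
  · intro p l
    refine Iff.trans ((Ultra_proof ℚ _ U (k + 1)).1 (fun i => v i p) (fun i => w i l)) ?_
    have hev : ∀ᶠ i in (U : Filter (Finset (A × A) × Finset (A × A))), p ∈ i.1 ∧ l ∈ i.2 := by
      apply hU
      refine (eventually_ge_atTop (({p}, {l}) : Finset (A × A) × Finset (A × A))).mono ?_
      rintro ⟨P, L⟩ ⟨h1, h2⟩
      exact ⟨Finset.singleton_subset_iff.1 h1, Finset.singleton_subset_iff.1 h2⟩
    constructor
    · intro h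
      obtain ⟨i, hi, hi2⟩ := (h.and hev).exists
      exact (hvw i p hi2.1 l hi2.2).1 hi
    · intro h
      filter_upwards [hev] with i hi
      exact (hvw i p hi.1 l hi.2).2 h

end Pool.Agent.MR3
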