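import Pool.Agent.MR3.Defs

set_option autoImplicit false

/-!
# Module Lie: the Lie theorem for a field with an absolute value
-/

namespace Pool.Agent.MR3

namespace LieAux

open UniformSpace

section Compl

variable {F : Type} [Field F] (v : AbsoluteValue F ℝ)

/-- the embedding in the completion -/
noncomputable def inc : F →+* v.Completion :=
  (Completion.coeRingHom : WithAbs v →+* v.Completion).comp (WithAbs.equiv v).symm.toRingHom

theorem inc_apply (x : F) : inc v x = ((WithAbs.toAbs v x : WithAbs v) : v.Completion) := rfl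

theorem norm_inc (x : F) : ‖inc v x‖ = v x := by
  rw [inc_apply, Completion.norm_coe, WithAbs.norm_toAbs_eq]

theorem dense_inc : DenseRange (inc v) := by
  have h : DenseRange ((↑) : WithAbs v → v.Completion) := Completion.denseRange_coe
  intro z
  refine closure_mono ?_ (h z)
  rintro _ ⟨x, rfl⟩
  exact ⟨WithAbs.ofAbs x, rfl⟩

/-- extension of an isometric automorphism to the completion -/
theorem exists_ext (s : RingAut F) (hs : ∀ x, v (s x) = v x) :
    ∃ S : RingAut v.Completion, (∀ x, S (inc v x) = inc v (s x)) ∧ ∀ z, ‖S z‖ = ‖z‖ := by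
  have hs' : ∀ x, v (s.symm x) = v x := by
    intro x
    conv_rhs => rw [← s.apply_symm_apply x, hs]
  let f : WithAbs v ≃+* WithAbs v := ((WithAbs.equiv v).trans s).trans (WithAbs.equiv v).symm
  have hf : ∀ x, ‖f x‖ = ‖x‖ := fun x => hs _
  have hf' : ∀ x, ‖f.symm x‖ = ‖x‖ := fun x => hs' _
  have c1 : Continuous f :=
    (AddMonoidHomClass.isometry_of_norm f hf).continuous
  have c2 : Continuous f.symm :=
    (AddMonoidHomClass.isometry_of_norm f.symm hf').continuous
  let S : v.Completion ≃+* v.Completion := Completion.mapRingEquiv f c1 c2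
  have hS : ∀ x, S (inc v x) = inc v (s x) := fun x => by
    exact Completion.mapRingHom_coe (f := f.toRingHom) c1 _
  refine ⟨S, hS, ?_⟩
  have cS : Continuous S := by
    have : Continuous (Completion.map f : v.Completion → v.Completion) :=
      Completion.continuous_map
    exact this
  intro z
  refine (dense_inc v).induction_on z (isClosed_eq cS.norm continuous_norm) ?_
  intro x
  rw [hS, norm_inc, norm_inc, hs]

end Compl

/-- the completion, packaged -/
theorem exists_completion {F : Type} [Field F] (v : AbsoluteValue F ℝ) :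
    ∃ (E : Type) (_ : NormedField E) (_ : CompleteSpace E) (i : F →+* E),
      (∀ x, ‖i x‖ = v x) ∧ DenseRange i ∧
      ∀ s : RingAut F, (∀ x, v (s x) = v x) →
        ∃ S : RingAut E, (∀ x, S (i x) = i (s x)) ∧ ∀ z, ‖S z‖ = ‖z‖ :=
  ⟨v.Completion, inferInstance, inferInstance, inc v, norm_inc v, dense_inc v, exists_ext v⟩

section Abs

variable {F E : Type} [Field F] [NormedField E] (i : F →+* E)

theorem iso_cont (S : RingAut E) (hS : ∀ z, ‖S z‖ = ‖z‖) : Continuous S :=
  (AddMonoidHomClass.isometry_of_norm (S : E ≃+* E) hS).continuous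

theorem ext_unique (hi : DenseRange i) (S S' : RingAut E) (hS : ∀ z, ‖S z‖ = ‖z‖)
    (hS' : ∀ z, ‖S' z‖ = ‖z‖) (h : ∀ x, S (i x) = S' (i x)) : S = S' := by
  apply RingEquiv.ext
  intro z
  exact hi.induction_on z (isClosed_eq (iso_cont S hS) (iso_cont S' hS')) h

theorem ext_near (v : AbsoluteValue F ℝ) (hi : DenseRange i) (hv : ∀ x, ‖i x‖ = v x)
    (l : ℕ) (s : RingAut F) (S : RingAut E) (hS : ∀ z, ‖S z‖ = ‖z‖)
    (h : ∀ x, S (i x) = i (s x)) (hn : ∀ x, v (s x - x) ≤ v (l : F) * v x) (z : E) :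
    ‖S z - z‖ ≤ ‖(l : E)‖ * ‖z‖ := by
  refine hi.induction_on z (isClosed_le
    ((iso_cont S hS).sub continuous_id).norm (continuous_const.mul continuous_norm)) ?_
  intro x
  rw [h, ← map_sub, hv, hv, ← map_natCast i l, hv]
  exact hn x

end Abs

section Der

variable {F E : Type} [Field F] [Field E] (i : F →+* E) {ι : Type} (y : ι → F)
  (D : Derivation ℤ E E)

theorem der_poly (h : ∀ j, D (i (y j)) = 0) (P : MvPolynomial ι ℤ) :
    D (i (MvPolynomial.aeval y P)) = 0 := by
  induction P using MvPolynomial.induction_on with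
  | C a =>
    have : i (MvPolynomial.aeval y (MvPolynomial.C a)) = (a : E) := by simp
    rw [this]
    exact D.map_intCast a
  | add p q hp hq => rw [map_add, map_add, map_add, hp, hq, add_zero]
  | mul_X p j hp =>
    rw [map_mul, map_mul, MvPolynomial.aeval_X, D.leibniz, hp, h j, smul_zero, smul_zero, add_zero]

theorem der_gen (hy : GenBy y) (h : ∀ j, D (i (y j)) = 0) (z : F) : D (i z) = 0 := by
  obtain ⟨P, Q, hQ, hz⟩ := hy z
  have h1 : D (i (z * MvPolynomial.aeval y Q)) = 0 := by rw [hz]; exact der_poly i y D h P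
  rw [map_mul, D.leibniz, der_poly i y D h Q, smul_zero, zero_add, smul_eq_mul] at h1
  rcases mul_eq_zero.1 h1 with h2 | h2
  · exact absurd ((map_eq_zero i).1 h2) hQ
  · exact h2

end Der

end LieAux

open LieAux in
theorem Lie_proof (hlim : Stmt_LieLim) (halg : Stmt_LieAlg) : Stmt_Lie := by
  intro F _ _ v l hult hl hl3 hvl h2 ι _ y hy A _ _ _ hA a b r ha hb hr hba hra hrb hnear hrank w
  obtain ⟨E, _, _, i, hv, hi, hext⟩ := exists_completion v
  have : CharZero E := charZero_of_injective_ringHom i.injective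
  have hultE : ∀ x y : E, ‖x + y‖ ≤ max ‖x‖ ‖y‖ := by
    intro x y
    refine hi.induction_on₂ (p := fun x y => ‖x + y‖ ≤ max ‖x‖ ‖y‖) ?_ ?_ x y
    · exact isClosed_le (by fun_prop) (by fun_prop)
    · intro x y
      rw [← map_add, hv, hv, hv]
      exact hult x y
  have hlE : ‖(l : E)‖ < 1 := by
    rw [← map_natCast i l, hv]
    exact hvl
  have h2E : ¬ ∃ x : E, x ^ 2 = 2 := by
    rintro ⟨x, hx⟩
    have h3 : ∀ z : E, 1 ≤ ‖z ^ 2 - 2‖ := by
      intro z
      refine hi.induction_on z (isClosed_le continuous_const (by fun_prop)) ?_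
      intro z
      have : i z ^ 2 - 2 = i (z ^ 2 - 2) := by
        rw [map_sub, map_pow, map_ofNat]
      rw [this, hv]
      exact h2 z
    have := h3 x
    rw [hx, sub_self, norm_zero] at this
    linarith
  obtain ⟨d, hd⟩ := hlim E l hultE hl hl3 hlE
  -- extension of the automorphisms
  have ext : ∀ s : RingAut F, Near v l s → ∃ S : RingAut E,
      (∀ x, S (i x) = i (s x)) ∧ (∀ z, ‖S z‖ = ‖z‖) ∧
      ∀ z, ‖S z - z‖ ≤ ‖(l : E)‖ * ‖z‖ := by
    intro s hs
    obtain ⟨S, h1, h2⟩ := hext s hs.1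
    exact ⟨S, h1, h2, ext_near i v hi hv l s S h2 h1 hs.2⟩
  choose a' ha1 ha2 ha3 using fun u => ext (a u) (hnear u).1
  choose b' hb1 hb2 hb3 using fun u => ext (b u) (hnear u).2.1
  choose r' hr1 hr2 hr3 using fun u => ext (r u) (hnear u).2.2
  have mulnorm : ∀ S T : RingAut E, (∀ z, ‖S z‖ = ‖z‖) → (∀ z, ‖T z‖ = ‖z‖) →
      ∀ z, ‖(S * T) z‖ = ‖z‖ := by
    intro S T hS hT z
    rw [RingAut.mul_apply, hS, hT]
  have hadd : ∀ (f : A → RingAut F) (f' : A → RingAut E),
      (∀ u v, f (u + v) = f u * f v) → (∀ u x, f' u (i x) = i (f u x)) →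
      (∀ u z, ‖f' u z‖ = ‖z‖) → ∀ u w, f' (u + w) = f' u * f' w := by
    intro f f' h1 h2 h3 u w
    refine ext_unique i hi _ _ (h3 _) (mulnorm _ _ (h3 _) (h3 _)) fun x => ?_
    rw [h2, RingAut.mul_apply, h2, h2, h1, RingAut.mul_apply]
  have ha' := hadd a a' ha ha1 ha2
  have hb' := hadd b b' hb hb1 hb2
  have hr' := hadd r r' hr hr1 hr2
  have hba' : ∀ u w, b' w * a' u = r' (u * w) * (a' u * b' w) := by
    intro u w
    refine ext_unique i hi _ _ (mulnorm _ _ (hb2 _) (ha2 _))
      (mulnorm _ _ (hr2 _) (mulnorm _ _ (ha2 _) (hb2 _))) fun x => ?_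
    simp only [RingAut.mul_apply, ha1, hb1, hr1]
    have := congrArg (fun s : RingAut F => s x) (hba u w)
    simp only [RingAut.mul_apply] at this
    rw [this]
  have hra' : ∀ u w, r' u * a' w = a' w * r' u := by
    intro u w
    refine ext_unique i hi _ _ (mulnorm _ _ (hr2 _) (ha2 _)) (mulnorm _ _ (ha2 _) (hr2 _)) fun x => ?_
    simp only [RingAut.mul_apply, ha1, hr1]
    have := congrArg (fun s : RingAut F => s x) (hra u w)
    simp only [RingAut.mul_apply] at this
    rw [this]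
  have hrb' : ∀ u w, r' u * b' w = b' w * r' u := by
    intro u w
    refine ext_unique i hi _ _ (mulnorm _ _ (hr2 _) (hb2 _)) (mulnorm _ _ (hb2 _) (hr2 _)) fun x => ?_
    simp only [RingAut.mul_apply, hb1, hr1]
    have := congrArg (fun s : RingAut F => s x) (hrb u w)
    simp only [RingAut.mul_apply] at this
    rw [this]
  -- the additive maps to derivations
  have hdadd : ∀ f' : A → RingAut E, (∀ u w, f' (u + w) = f' u * f' w) →
      (∀ u z, ‖f' u z‖ = ‖z‖) → (∀ u z, ‖f' u z - z‖ ≤ ‖(l : E)‖ * ‖z‖) →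
      ∀ u w, d (f' (u + w)) = d (f' u) + d (f' w) := by
    intro f' h1 h2 h3 u w
    rw [h1]
    refine ((hd (f' u) (h2 u) (h3 u)).2.2 (f' w) (h2 w) (h3 w)).1 ?_
    rw [← h1, ← h1, add_comm]
  let da : A →+ Derivation ℤ E E :=
    AddMonoidHom.mk' (fun u => d (a' u)) (hdadd a' ha' ha2 ha3)
  let db : A →+ Derivation ℤ E E :=
    AddMonoidHom.mk' (fun u => d (b' u)) (hdadd b' hb' hb2 hb3)
  let dr : A →+ Derivation ℤ E E :=
    AddMonoidHom.mk' (fun u => d (r' u)) (hdadd r' hr' hr2 hr3)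
  have key := halg E A (hA E h2E) ι (fun j => i (y j)) da db dr ?_ ?_ hrank
  · have h3 : d (r' w) = 0 := key w
    have h4 : r' w = 1 := (hd (r' w) (hr2 w) (hr3 w)).2.1 h3
    apply RingEquiv.ext
    intro x
    apply (i).injective
    rw [← hr1, h4]
    rfl
  · intro D hD hy0
    have hbound : ∃ C : ℝ, ∀ z, ‖D z‖ ≤ C * ‖z‖ := by
      refine Submodule.span_induction (p := fun D _ => ∃ C : ℝ, ∀ z, ‖D z‖ ≤ C * ‖z‖)
        ?_ ?_ ?_ ?_ hD
      · rintro D' ((⟨u, rfl⟩ | ⟨u, rfl⟩) | ⟨u, rfl⟩)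
        · exact ⟨1, fun z => by rw [one_mul]; exact (hd (a' u) (ha2 u) (ha3 u)).1 z⟩
        · exact ⟨1, fun z => by rw [one_mul]; exact (hd (b' u) (hb2 u) (hb3 u)).1 z⟩
        · exact ⟨1, fun z => by rw [one_mul]; exact (hd (r' u) (hr2 u) (hr3 u)).1 z⟩
      · exact ⟨0, fun z => by simp⟩
      · rintro D1 D2 _ _ ⟨C1, h1⟩ ⟨C2, h2⟩
        refine ⟨C1 + C2, fun z => ?_⟩
        rw [Derivation.add_apply, add_mul]
        exact (norm_add_le _ _).trans (add_le_add (h1 z) (h2 z))
      · rintro c D1 _ ⟨C1, h1⟩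
        refine ⟨‖c‖ * C1, fun z => ?_⟩
        rw [Derivation.smul_apply, norm_smul, mul_assoc]
        exact mul_le_mul_of_nonneg_left (h1 z) (norm_nonneg _)
    obtain ⟨C, hC⟩ := hbound
    have hcont : Continuous D := AddMonoidHomClass.continuous_of_bound D C hC
    apply Derivation.ext
    intro z
    refine hi.induction_on z (isClosed_eq hcont continuous_const) ?_
    intro x
    exact der_gen i y D hy hy0 x
  · intro u w
    exact ((hd (a' u) (ha2 u) (ha3 u)).2.2 (b' w) (hb2 w) (hb3 w)).2 (r' (u * w)) (hr2 _) (hr3 _)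
      (hra' _ _) (hrb' _ _) (hba' u w)

end Pool.Agent.MR3
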