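import Pool.Agent.MR3.Defs

/-!
# Module LieAlg: linear algebra over `E ⊗ A`
-/

set_option autoImplicit false

namespace Pool.Agent.MR3.LieAlg

open TensorProduct

variable {E : Type} [Field E] {A : Type} [CommRing A]

/-- extension of an additive map `A → Der(E)` to an `E`-linear map `E ⊗ A → Der(E)` -/
noncomputable def hat (a : A →+ Derivation ℤ E E) : E ⊗[ℤ] A →ₗ[E] Derivation ℤ E E :=
  LinearMap.liftBaseChange E a.toIntLinearMap

theorem hat_tmul (a : A →+ Derivation ℤ E E) (f : E) (u : A) : hat a (f ⊗ₜ[ℤ] u) = f • a u := by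
  unfold hat
  rw [LinearMap.liftBaseChange_tmul]
  rfl

theorem hat_mem (a : A →+ Derivation ℤ E E) (x : E ⊗[ℤ] A) :
    hat a x ∈ Submodule.span E (Set.range a) := by
  induction x using TensorProduct.induction_on with
  | zero => rw [map_zero]; exact Submodule.zero_mem _
  | tmul f u => rw [hat_tmul]; exact Submodule.smul_mem _ _ (Submodule.subset_span ⟨u, rfl⟩)
  | add x y hx hy => rw [map_add]; exact Submodule.add_mem _ hx hy

/-- a derivation of `E` acts on `E ⊗ A` -/
noncomputable def act (D : Derivation ℤ E E) : E ⊗[ℤ] A →+ E ⊗[ℤ] A :=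
  (LinearMap.rTensor A (D : E →ₗ[ℤ] E)).toAddMonoidHom

theorem act_tmul (D : Derivation ℤ E E) (f : E) (u : A) :
    act D (f ⊗ₜ[ℤ] u) = (D f) ⊗ₜ[ℤ] u := by
  rfl

theorem act_add (D D' : Derivation ℤ E E) (x : E ⊗[ℤ] A) :
    act (D + D') x = act D x + act D' x := by
  induction x using TensorProduct.induction_on with
  | zero => simp
  | tmul f u => rw [act_tmul, act_tmul, act_tmul, Derivation.add_apply, TensorProduct.add_tmul]
  | add x y hx hy => rw [map_add, map_add, map_add, hx, hy]; abel

theorem act_zero (x : E ⊗[ℤ] A) : act (0 : Derivation ℤ E E) x = 0 := by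
  induction x using TensorProduct.induction_on with
  | zero => simp
  | tmul f u => rw [act_tmul, Derivation.zero_apply, TensorProduct.zero_tmul]
  | add x y hx hy => rw [map_add, hx, hy, add_zero]

theorem bracket_formula (a b r : A →+ Derivation ℤ E E)
    (hbr : ∀ u v, ⁅b v, a u⁆ = r (u * v)) (x z : E ⊗[ℤ] A) :
    ⁅hat b z, hat a x⁆ =
      hat r (x * z) + hat a (act (hat b z) x) - hat b (act (hat a x) z) := by
  induction x using TensorProduct.induction_on with
  | zero =>
    simp [act_zero]
  | add x y hx hy =>
    rw [map_add, lie_add, hx, hy, add_mul, map_add, act_add, map_add, map_add, map_add]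
    abel
  | tmul f u =>
    induction z using TensorProduct.induction_on with
    | zero => simp [act_zero]
    | add z t hz ht =>
      rw [map_add, add_lie, hz, ht, mul_add, map_add, act_add, map_add, map_add, map_add]
      abel
    | tmul g v =>
      rw [Algebra.TensorProduct.tmul_mul_tmul, hat_tmul, hat_tmul, hat_tmul, act_tmul, act_tmul,
        hat_tmul, hat_tmul, ← hbr]
      ext e
      simp only [Derivation.commutator_apply, Derivation.smul_apply, Derivation.add_apply,
        Derivation.sub_apply, smul_eq_mul, Derivation.leibniz]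
      ring

end Pool.Agent.MR3.LieAlg

namespace Pool.Agent.MR3

open TensorProduct LieAlg

theorem LieAlg_proof : Stmt_LieAlg := by
  intro E _ _ A _ _ _ hdom ι _ y a b r hspan hbr hcard
  have : IsDomain (E ⊗[ℤ] A) := hdom
  have hd : Module.finrank E (E ⊗[ℤ] A) = Module.finrank ℤ A := Module.finrank_baseChange
  -- evaluation on generators
  let ev : Derivation ℤ E E →ₗ[E] (ι → E) :=
    { toFun := fun D i => D (y i)
      map_add' := fun _ _ => rfl
      map_smul' := fun _ _ => rfl }
  have hcodim : ∀ c : A →+ Derivation ℤ E E,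
      Set.range c ⊆ Set.range a ∪ Set.range b ∪ Set.range r →
      Module.finrank ℤ A ≤ Fintype.card ι + Module.finrank E (LinearMap.ker (hat c)) := by
    intro c hc
    have hker : LinearMap.ker (hat c) = LinearMap.ker (ev ∘ₗ hat c) := by
      ext x
      rw [LinearMap.mem_ker, LinearMap.mem_ker, LinearMap.comp_apply]
      constructor
      · intro h; rw [h, map_zero]
      · intro h
        refine hspan _ (Submodule.span_mono hc (hat_mem c x)) fun i => ?_
        exact congrFun h i
    rw [hker, ← hd, ← LinearMap.finrank_range_add_finrank_ker (ev ∘ₗ hat c)]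
    refine Nat.add_le_add_right ?_ _
    refine (Submodule.finrank_le _).trans ?_
    rw [Module.finrank_fintype_fun_eq_card]
  have ha := hcodim a (by intro t ht; exact Or.inl (Or.inl ht))
  have hb := hcodim b (by intro t ht; exact Or.inl (Or.inr ht))
  have hprod : ∀ x z : E ⊗[ℤ] A, hat a x = 0 → hat b z = 0 → hat r (x * z) = 0 := by
    intro x z hx hz
    have h := bracket_formula a b r hbr x z
    rw [hx, hz, act_zero, act_zero, map_zero, map_zero] at h
    simpa using h.symm
  have hr0 : LinearMap.ker (hat r) = ⊤ := by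
    by_contra hne
    obtain ⟨ν, hν, hle⟩ := Submodule.exists_le_ker_of_lt_top _ (lt_top_iff_ne_top.2 hne)
    -- the pairing between `ker b` and the quotient by `ker a`
    let Wa := LinearMap.ker (hat a)
    let Wb := LinearMap.ker (hat b)
    let pair : Wb →ₗ[E] ((E ⊗[ℤ] A) ⧸ Wa) →ₗ[E] E :=
      { toFun := fun z => Wa.liftQ (ν ∘ₗ LinearMap.mulRight E (z : E ⊗[ℤ] A)) (by
          intro x hx
          rw [LinearMap.mem_ker, LinearMap.comp_apply, LinearMap.mulRight_apply]
          exact hle (hprod x z hx z.2))
        map_add' := by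
          intro z t
          refine Submodule.linearMap_qext _ ?_
          ext x
          simp [mul_add]
        map_smul' := by
          intro e z
          refine Submodule.linearMap_qext _ ?_
          refine LinearMap.ext fun x => ?_
          change ν (x * (e • (z : E ⊗[ℤ] A))) = e • ν (x * (z : E ⊗[ℤ] A))
          rw [mul_smul_comm, map_smul] }
    have hinj : Function.Injective pair := by
      rw [← LinearMap.ker_eq_bot, LinearMap.ker_eq_bot']
      intro z hz
      by_contra hz0
      have hz0' : (z : E ⊗[ℤ] A) ≠ 0 := fun h => hz0 (Subtype.ext h)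
      have hsurj : Function.Surjective (LinearMap.mulRight E (z : E ⊗[ℤ] A)) := by
        rw [← LinearMap.injective_iff_surjective]
        intro p q hpq
        exact mul_right_cancel₀ hz0' hpq
      apply hν
      refine LinearMap.ext fun x => ?_
      obtain ⟨p, rfl⟩ := hsurj x
      have := LinearMap.congr_fun hz (Submodule.Quotient.mk p)
      exact this
    have h1 := LinearMap.finrank_le_finrank_of_injective hinj
    have h2 : Module.finrank E (((E ⊗[ℤ] A) ⧸ Wa) →ₗ[E] E) = Module.finrank E ((E ⊗[ℤ] A) ⧸ Wa) :=
      Subspace.dual_finrank_eq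
    have h3 := Submodule.finrank_quotient_add_finrank Wa
    rw [h2] at h1
    rw [hd] at h3
    simp only [Wa, Wb] at h1 h3
    omega
  intro w
  have : hat r (1 ⊗ₜ[ℤ] w) = 0 := by
    have h : (1 ⊗ₜ[ℤ] w : E ⊗[ℤ] A) ∈ LinearMap.ker (hat r) := by
      rw [hr0]; trivial
    exact h
  rwa [hat_tmul, one_smul] at this

end Pool.Agent.MR3
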