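import Pool.Agent.MR3.Defs

set_option autoImplicit false

/-!
# MP_d42559_co: the logarithm of an automorphism congruent to the identity modulo `l`
-/

namespace Pool.Agent.MR3

namespace LieLimAux

variable {E : Type} [NormedField E] [IsUltrametricDist E]

/-- an automorphism as an additive endomorphism -/
def en (s : RingAut E) : AddMonoid.End E :=
  { toFun := fun x => s x
    map_zero' := map_zero s
    map_add' := map_add s }

omit [IsUltrametricDist E] in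
theorem en_apply (s : RingAut E) (x : E) : en s x = s x := rfl

omit [IsUltrametricDist E] in
theorem en_pow (s : RingAut E) (n : ℕ) : en (s ^ n) = en s ^ n := by
  induction n with
  | zero => ext x; simp [en_apply]
  | succ n ih =>
    rw [pow_succ, pow_succ, ← ih]
    ext x
    simp [en_apply, RingAut.mul_apply]

omit [IsUltrametricDist E] in
theorem pow_bound (δ : AddMonoid.End E) (ε : ℝ) (hε : 0 ≤ ε) (h : ∀ x, ‖δ x‖ ≤ ε * ‖x‖) (i : ℕ) (x : E) :
    ‖(δ ^ i) x‖ ≤ ε ^ i * ‖x‖ := by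
  induction i with
  | zero => simp
  | succ i ih =>
    rw [pow_succ']
    calc ‖(δ * δ ^ i) x‖ = ‖δ ((δ ^ i) x)‖ := rfl
      _ ≤ ε * ‖(δ ^ i) x‖ := h _
      _ ≤ ε * (ε ^ i * ‖x‖) := by gcongr
      _ = ε ^ (i + 1) * ‖x‖ := by ring

/-- the binomial estimate -/
theorem binom (l : ℕ) (hl : l.Prime) (hl3 : 3 ≤ l) (hc : ‖(l : E)‖ < 1)
    (δ : AddMonoid.End E) (ε : ℝ) (hε : 0 ≤ ε) (hεc : ε ≤ ‖(l : E)‖)
    (h : ∀ x, ‖δ x‖ ≤ ε * ‖x‖) (x : E) :
    ‖((1 + δ) ^ l) x - x - (l : E) * δ x‖ ≤ ‖(l : E)‖ * ε ^ 2 * ‖x‖ := by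
  have hexp : ((1 + δ) ^ l) x = ∑ m ∈ Finset.range (l + 1), (l.choose m : E) * (δ ^ m) x := by
    have h1 : Commute δ (1 : AddMonoid.End E) := Commute.one_right δ
    have hs : ∀ (S : Finset ℕ) (f : ℕ → AddMonoid.End E),
        (∑ i ∈ S, f i) x = ∑ i ∈ S, f i x := by
      intro S f
      induction S using Finset.cons_induction with
      | empty => simp
      | cons a S ha ih => rw [Finset.sum_cons, Finset.sum_cons, ← ih]; rfl
    rw [add_comm 1 δ, h1.add_pow, hs]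
    apply Finset.sum_congr rfl
    intro m _
    rw [one_pow, mul_one]
    have : (δ ^ m * ((l.choose m : ℕ) : AddMonoid.End E)) x = (l.choose m) • ((δ ^ m) x) := by
      rw [← Nat.cast_comm, ← nsmul_eq_mul]
      rfl
    rw [this, nsmul_eq_mul]
  have hsplit : ∑ m ∈ Finset.range (l + 1), (l.choose m : E) * (δ ^ m) x =
      x + (l : E) * δ x + ∑ m ∈ Finset.range (l - 1), (l.choose (m + 2) : E) * (δ ^ (m + 2)) x := by
    obtain ⟨k, rfl⟩ : ∃ k, l = k + 1 := ⟨l - 1, by omega⟩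
    rw [Finset.sum_range_succ', Finset.sum_range_succ']
    simp
    ring
  rw [hexp, hsplit]
  have : x + (l : E) * δ x + ∑ m ∈ Finset.range (l - 1), (l.choose (m + 2) : E) * (δ ^ (m + 2)) x - x
      - (l : E) * δ x = ∑ m ∈ Finset.range (l - 1), (l.choose (m + 2) : E) * (δ ^ (m + 2)) x := by
    ring
  rw [this]
  apply IsUltrametricDist.norm_sum_le_of_forall_le_of_nonneg (by positivity)
  intro m hm
  rw [Finset.mem_range] at hm
  rw [norm_mul]
  have hpb := pow_bound δ ε hε h (m + 2) x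
  have hε1 : ε ≤ 1 := hεc.trans hc.le
  rcases Nat.lt_or_ge (m + 2) l with hlt | hge
  · have hdvd : l ∣ l.choose (m + 2) := hl.dvd_choose_self (by omega) hlt
    obtain ⟨k, hk⟩ := hdvd
    have h1 : ‖((l.choose (m + 2) : ℕ) : E)‖ ≤ ‖(l : E)‖ := by
      rw [hk, Nat.cast_mul, norm_mul]
      have := IsUltrametricDist.norm_natCast_le_one E k
      nlinarith [norm_nonneg (l : E)]
    have h2 : ε ^ (m + 2) ≤ ε ^ 2 := pow_le_pow_of_le_one hε hε1 (by omega)
    calc ‖((l.choose (m + 2) : ℕ) : E)‖ * ‖(δ ^ (m + 2)) x‖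
        ≤ ‖(l : E)‖ * (ε ^ (m + 2) * ‖x‖) := by gcongr
      _ ≤ ‖(l : E)‖ * (ε ^ 2 * ‖x‖) := by gcongr
      _ = _ := by ring
  · have hml : m + 2 = l := by omega
    have h1 : ‖((l.choose (m + 2) : ℕ) : E)‖ ≤ 1 := IsUltrametricDist.norm_natCast_le_one E _
    have h2 : ε ^ (m + 2) ≤ ε ^ 3 := pow_le_pow_of_le_one hε hε1 (by omega)
    calc ‖((l.choose (m + 2) : ℕ) : E)‖ * ‖(δ ^ (m + 2)) x‖
        ≤ 1 * (ε ^ (m + 2) * ‖x‖) := by gcongr
      _ ≤ 1 * (ε ^ 3 * ‖x‖) := by gcongr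
      _ = ε * (ε ^ 2 * ‖x‖) := by ring
      _ ≤ ‖(l : E)‖ * (ε ^ 2 * ‖x‖) := by gcongr
      _ = _ := by ring

/-- `s` is congruent to the identity modulo `l ^ k` -/
def Nr (l k : ℕ) (s : RingAut E) : Prop := ∀ x, ‖s x - x‖ ≤ ‖(l : E)‖ ^ k * ‖x‖

/-- the difference quotients -/
noncomputable def q (l : ℕ) (s : RingAut E) (n : ℕ) (x : E) : E := ((s ^ l ^ n) x - x) / (l : E) ^ n

theorem step (l : ℕ) (hl : l.Prime) (hl3 : 3 ≤ l) (hc : ‖(l : E)‖ < 1) (k : ℕ) (hk : 1 ≤ k)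
    (s : RingAut E) (hs : Nr l k s) (x : E) :
    ‖(s ^ l) x - x - (l : E) * (s x - x)‖ ≤ ‖(l : E)‖ ^ (2 * k + 1) * ‖x‖ := by
  have h := binom l hl hl3 hc (en s - 1) (‖(l : E)‖ ^ k) (by positivity)
    (by
      calc ‖(l : E)‖ ^ k ≤ ‖(l : E)‖ ^ 1 := pow_le_pow_of_le_one (norm_nonneg _) hc.le hk
        _ = _ := pow_one _)
    (fun x => hs x) x
  have h1 : (1 + (en s - 1)) = en s := by abel
  rw [h1, ← en_pow] at h
  calc _ = ‖(en (s ^ l)) x - x - (l : E) * (en s - 1) x‖ := rfl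
    _ ≤ _ := h
    _ = _ := by ring

theorem Nr_pow (l : ℕ) (hl : l.Prime) (hl3 : 3 ≤ l) (hc : ‖(l : E)‖ < 1) (k : ℕ) (hk : 1 ≤ k)
    (s : RingAut E) (hs : Nr l k s) : Nr l (k + 1) (s ^ l) := by
  intro x
  have h := step l hl hl3 hc k hk s hs x
  have h1 : (s ^ l) x - x = ((s ^ l) x - x - (l : E) * (s x - x)) + (l : E) * (s x - x) := by ring
  rw [h1]
  refine (IsUltrametricDist.norm_add_le_max _ _).trans (max_le (h.trans ?_) ?_)
  · have : ‖(l : E)‖ ^ (2 * k + 1) ≤ ‖(l : E)‖ ^ (k + 1) :=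
      pow_le_pow_of_le_one (norm_nonneg _) hc.le (by omega)
    gcongr
  · rw [norm_mul]
    calc ‖(l : E)‖ * ‖s x - x‖ ≤ ‖(l : E)‖ * (‖(l : E)‖ ^ k * ‖x‖) := by gcongr; exact hs x
      _ = _ := by ring

theorem Nr_pow_pow (l : ℕ) (hl : l.Prime) (hl3 : 3 ≤ l) (hc : ‖(l : E)‖ < 1) (k : ℕ) (hk : 1 ≤ k)
    (s : RingAut E) (hs : Nr l k s) (n : ℕ) : Nr l (k + n) (s ^ l ^ n) := by
  induction n with
  | zero => simpa using hs
  | succ n ih =>
    rw [pow_succ, pow_mul]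
    exact Nr_pow l hl hl3 hc (k + n) (by omega) _ ih

theorem q_step (l : ℕ) (hl : l.Prime) (hl3 : 3 ≤ l) (hc : ‖(l : E)‖ < 1) (h0 : (l : E) ≠ 0)
    (k : ℕ) (hk : 1 ≤ k)
    (s : RingAut E) (hs : Nr l k s) (n : ℕ) (x : E) :
    ‖q l s (n + 1) x - q l s n x‖ ≤ ‖(l : E)‖ ^ (n + 2 * k) * ‖x‖ := by
  have h := step l hl hl3 hc (k + n) (by omega) _ (Nr_pow_pow l hl hl3 hc k hk s hs n) x
  rw [← pow_mul, ← pow_succ] at h
  have h1 : q l s (n + 1) x - q l s n x =
      ((s ^ l ^ (n + 1)) x - x - (l : E) * ((s ^ l ^ n) x - x)) / (l : E) ^ (n + 1) := by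
    unfold q
    field_simp
    ring
  rw [h1, norm_div, norm_pow, div_le_iff₀ (by positivity)]
  calc _ ≤ _ := h
    _ = _ := by ring

theorem q_diff (l : ℕ) (hl : l.Prime) (hl3 : 3 ≤ l) (hc : ‖(l : E)‖ < 1) (h0 : (l : E) ≠ 0)
    (k : ℕ) (hk : 1 ≤ k)
    (s : RingAut E) (hs : Nr l k s) (n m : ℕ) (x : E) :
    ‖q l s (n + m) x - q l s n x‖ ≤ ‖(l : E)‖ ^ (n + 2 * k) * ‖x‖ := by
  induction m with
  | zero => simp; positivity
  | succ m ih =>
    have h1 : q l s (n + (m + 1)) x - q l s n x =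
      (q l s (n + m + 1) x - q l s (n + m) x) + (q l s (n + m) x - q l s n x) := by
      rw [← add_assoc]; ring
    rw [h1]
    refine (IsUltrametricDist.norm_add_le_max _ _).trans (max_le ?_ ih)
    refine (q_step l hl hl3 hc h0 k hk s hs (n + m) x).trans ?_
    have : ‖(l : E)‖ ^ (n + m + 2 * k) ≤ ‖(l : E)‖ ^ (n + 2 * k) :=
      pow_le_pow_of_le_one (norm_nonneg _) hc.le (by omega)
    gcongr

theorem exists_lim [CompleteSpace E] (l : ℕ) (hl : l.Prime) (hl3 : 3 ≤ l) (hc : ‖(l : E)‖ < 1)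
    (h0 : (l : E) ≠ 0) (s : RingAut E) (hs : Nr l 1 s) (x : E) :
    ∃ y : E, Filter.Tendsto (fun n => q l s n x) Filter.atTop (nhds y) := by
  apply cauchySeq_tendsto_of_complete
  refine cauchySeq_of_le_geometric (‖(l : E)‖) (‖x‖) hc ?_
  intro n
  rw [dist_comm, dist_eq_norm]
  refine (q_step l hl hl3 hc h0 1 le_rfl s hs n x).trans ?_
  have : ‖(l : E)‖ ^ (n + 2 * 1) ≤ ‖(l : E)‖ ^ n :=
    pow_le_pow_of_le_one (norm_nonneg _) hc.le (by omega)
  calc _ ≤ ‖(l : E)‖ ^ n * ‖x‖ := by gcongr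
    _ = _ := by ring

open Classical in
/-- the limit -/
noncomputable def lm (l : ℕ) (s : RingAut E) (x : E) : E :=
  if h : ∃ y : E, Filter.Tendsto (fun n => q l s n x) Filter.atTop (nhds y) then h.choose else 0

theorem lm_tendsto [CompleteSpace E] (l : ℕ) (hl : l.Prime) (hl3 : 3 ≤ l) (hc : ‖(l : E)‖ < 1)
    (h0 : (l : E) ≠ 0) (s : RingAut E) (hs : Nr l 1 s) (x : E) :
    Filter.Tendsto (fun n => q l s n x) Filter.atTop (nhds (lm l s x)) := by
  have h := exists_lim l hl hl3 hc h0 s hs x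
  unfold lm
  rw [dif_pos h]
  exact h.choose_spec

theorem lm_diff [CompleteSpace E] (l : ℕ) (hl : l.Prime) (hl3 : 3 ≤ l) (hc : ‖(l : E)‖ < 1)
    (h0 : (l : E) ≠ 0) (k : ℕ) (hk : 1 ≤ k) (s : RingAut E) (hs1 : Nr l 1 s)
    (hs : Nr l k s) (n : ℕ) (x : E) :
    ‖lm l s x - q l s n x‖ ≤ ‖(l : E)‖ ^ (n + 2 * k) * ‖x‖ := by
  have h := lm_tendsto l hl hl3 hc h0 s hs1 x
  have h2 : Filter.Tendsto (fun m => ‖q l s m x - q l s n x‖) Filter.atTop
      (nhds ‖lm l s x - q l s n x‖) := (h.sub_const _).norm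
  refine le_of_tendsto h2 ?_
  filter_upwards [Filter.eventually_ge_atTop n] with m hm
  obtain ⟨m', rfl⟩ := Nat.exists_eq_add_of_le hm
  exact q_diff l hl hl3 hc h0 k hk s hs n m' x

omit [IsUltrametricDist E] in
/-- two elements at distance at most `C * c ^ n` for all `n` are equal -/
theorem eq_of_close {a b : E} (c C : ℝ) (h0 : 0 ≤ c) (hc : c < 1)
    (h : ∀ n : ℕ, ‖a - b‖ ≤ c ^ n * C) : a = b := by
  have h1 : Filter.Tendsto (fun n : ℕ => c ^ n * C) Filter.atTop (nhds 0) := by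
    have := (tendsto_pow_atTop_nhds_zero_of_lt_one h0 hc).mul_const C
    simpa using this
  have h2 : ‖a - b‖ ≤ 0 := ge_of_tendsto' h1 h
  exact sub_eq_zero.1 (norm_le_zero_iff.1 h2)

omit [IsUltrametricDist E] in
theorem q_add (l : ℕ) (s : RingAut E) (n : ℕ) (x y : E) :
    q l s n (x + y) = q l s n x + q l s n y := by
  unfold q
  rw [map_add]
  ring

omit [IsUltrametricDist E] in
theorem q_mul (l : ℕ) (s : RingAut E) (n : ℕ) (x y : E) :
    q l s n (x * y) = x * q l s n y + y * q l s n x + q l s n x * ((s ^ l ^ n) y - y) := by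
  unfold q
  rw [map_mul]
  ring

theorem q_norm (l : ℕ) (hl : l.Prime) (hl3 : 3 ≤ l) (hc : ‖(l : E)‖ < 1) (h0 : (l : E) ≠ 0)
    (s : RingAut E) (hs : Nr l 1 s) (n : ℕ) (x : E) : ‖q l s n x‖ ≤ ‖x‖ := by
  have h := Nr_pow_pow l hl hl3 hc 1 le_rfl s hs n x
  unfold q
  rw [norm_div, norm_pow, div_le_iff₀ (by positivity)]
  refine h.trans ?_
  have : ‖(l : E)‖ ^ (1 + n) ≤ ‖(l : E)‖ ^ n :=
    pow_le_pow_of_le_one (norm_nonneg _) hc.le (by omega)
  calc _ ≤ ‖(l : E)‖ ^ n * ‖x‖ := by gcongr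
    _ = _ := by ring

theorem s_tendsto (l : ℕ) (hl : l.Prime) (hl3 : 3 ≤ l) (hc : ‖(l : E)‖ < 1)
    (s : RingAut E) (hs : Nr l 1 s) (n : ℕ) (x : E) :
    ‖(s ^ l ^ n) x - x‖ ≤ ‖(l : E)‖ ^ n * ‖x‖ := by
  have h := Nr_pow_pow l hl hl3 hc 1 le_rfl s hs n x
  refine h.trans ?_
  have : ‖(l : E)‖ ^ (1 + n) ≤ ‖(l : E)‖ ^ n :=
    pow_le_pow_of_le_one (norm_nonneg _) hc.le (by omega)
  gcongr

theorem lm_add [CompleteSpace E] (l : ℕ) (hl : l.Prime) (hl3 : 3 ≤ l) (hc : ‖(l : E)‖ < 1)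
    (h0 : (l : E) ≠ 0) (s : RingAut E) (hs : Nr l 1 s) (x y : E) :
    lm l s (x + y) = lm l s x + lm l s y := by
  have h1 := lm_tendsto l hl hl3 hc h0 s hs (x + y)
  have h2 := (lm_tendsto l hl hl3 hc h0 s hs x).add (lm_tendsto l hl hl3 hc h0 s hs y)
  refine tendsto_nhds_unique h1 (h2.congr ?_)
  intro n
  rw [q_add]

theorem s_tendsto' (l : ℕ) (hl : l.Prime) (hl3 : 3 ≤ l) (hc : ‖(l : E)‖ < 1)
    (s : RingAut E) (hs : Nr l 1 s) (x : E) :
    Filter.Tendsto (fun n => (s ^ l ^ n) x - x) Filter.atTop (nhds 0) := by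
  rw [tendsto_zero_iff_norm_tendsto_zero]
  have h1 : Filter.Tendsto (fun n : ℕ => ‖(l : E)‖ ^ n * ‖x‖) Filter.atTop (nhds 0) := by
    have := (tendsto_pow_atTop_nhds_zero_of_lt_one (norm_nonneg (l : E)) hc).mul_const ‖x‖
    simpa using this
  exact squeeze_zero (fun n => norm_nonneg _) (fun n => s_tendsto l hl hl3 hc s hs n x) h1

theorem lm_mul [CompleteSpace E] (l : ℕ) (hl : l.Prime) (hl3 : 3 ≤ l) (hc : ‖(l : E)‖ < 1)
    (h0 : (l : E) ≠ 0) (s : RingAut E) (hs : Nr l 1 s) (x y : E) :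
    lm l s (x * y) = x * lm l s y + y * lm l s x := by
  have h1 := lm_tendsto l hl hl3 hc h0 s hs (x * y)
  have hx := lm_tendsto l hl hl3 hc h0 s hs x
  have hy := lm_tendsto l hl hl3 hc h0 s hs y
  have h2 := ((hy.const_mul x).add (hx.const_mul y)).add (hx.mul (s_tendsto' l hl hl3 hc s hs y))
  rw [mul_zero, add_zero] at h2
  refine tendsto_nhds_unique h1 (h2.congr ?_)
  intro n
  rw [q_mul]

/-- the derivation -/
noncomputable def der [CompleteSpace E] (l : ℕ) (hl : l.Prime) (hl3 : 3 ≤ l) (hc : ‖(l : E)‖ < 1)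
    (h0 : (l : E) ≠ 0) (s : RingAut E) (hs : Nr l 1 s) : Derivation ℤ E E :=
  Derivation.mk' ((AddMonoidHom.mk' (lm l s) (lm_add l hl hl3 hc h0 s hs)).toIntLinearMap)
    (fun x y => by
      simp only [AddMonoidHom.coe_toIntLinearMap, AddMonoidHom.mk'_apply, smul_eq_mul]
      exact lm_mul l hl hl3 hc h0 s hs x y)

theorem lm_sub [CompleteSpace E] (l : ℕ) (hl : l.Prime) (hl3 : 3 ≤ l) (hc : ‖(l : E)‖ < 1)
    (h0 : (l : E) ≠ 0) (s : RingAut E) (hs : Nr l 1 s) (x y : E) :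
    lm l s (x - y) = lm l s x - lm l s y := by
  have h := lm_add l hl hl3 hc h0 s hs (x - y) y
  rw [sub_add_cancel] at h
  rw [h, add_sub_cancel_right]

theorem lm_norm [CompleteSpace E] (l : ℕ) (hl : l.Prime) (hl3 : 3 ≤ l) (hc : ‖(l : E)‖ < 1)
    (h0 : (l : E) ≠ 0) (s : RingAut E) (hs : Nr l 1 s) (x : E) : ‖lm l s x‖ ≤ ‖x‖ :=
  le_of_tendsto' (lm_tendsto l hl hl3 hc h0 s hs x).norm (fun n => q_norm l hl hl3 hc h0 s hs n x)

theorem lm_close [CompleteSpace E] (l : ℕ) (hl : l.Prime) (hl3 : 3 ≤ l) (hc : ‖(l : E)‖ < 1)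
    (h0 : (l : E) ≠ 0) (s : RingAut E) (hs : Nr l 1 s) (n : ℕ) (x : E) :
    ‖lm l s x - q l s n x‖ ≤ ‖(l : E)‖ ^ n * ‖x‖ := by
  refine (lm_diff l hl hl3 hc h0 1 le_rfl s hs hs n x).trans ?_
  have : ‖(l : E)‖ ^ (n + 2 * 1) ≤ ‖(l : E)‖ ^ n :=
    pow_le_pow_of_le_one (norm_nonneg _) hc.le (by omega)
  gcongr

theorem pow_norm (l : ℕ) (hl : l.Prime) (hl3 : 3 ≤ l) (hc : ‖(l : E)‖ < 1)
    (s : RingAut E) (hs : Nr l 1 s) (n : ℕ) (x : E) : ‖(s ^ l ^ n) x‖ ≤ ‖x‖ := by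
  have h := s_tendsto l hl hl3 hc s hs n x
  have h1 : (s ^ l ^ n) x = ((s ^ l ^ n) x - x) + x := by ring
  rw [h1]
  refine (IsUltrametricDist.norm_add_le_max _ _).trans (max_le (h.trans ?_) le_rfl)
  have : ‖(l : E)‖ ^ n ≤ 1 := pow_le_one₀ (norm_nonneg _) hc.le
  nlinarith [norm_nonneg x]

theorem Nr_mul (l : ℕ) (hc : ‖(l : E)‖ < 1) (s s' : RingAut E) (hs : Nr l 1 s) (hs' : Nr l 1 s') :
    Nr l 1 (s * s') := by
  intro x
  have h1 : (s * s') x - x = (s (s' x) - s' x) + (s' x - x) := by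
    rw [RingAut.mul_apply]; ring
  have h2 : ‖s' x‖ ≤ ‖x‖ := by
    have h3 : s' x = (s' x - x) + x := by ring
    rw [h3]
    refine (IsUltrametricDist.norm_add_le_max _ _).trans (max_le ((hs' x).trans ?_) le_rfl)
    rw [pow_one]
    nlinarith [norm_nonneg x]
  rw [h1]
  refine (IsUltrametricDist.norm_add_le_max _ _).trans (max_le ((hs _).trans ?_) (hs' x))
  gcongr

omit [IsUltrametricDist E] in
theorem q_prod (l : ℕ) (s s' : RingAut E) (h : Commute s s') (n : ℕ) (x : E) :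
    q l (s * s') n x = (s ^ l ^ n) (q l s' n x) + q l s n x := by
  unfold q
  rw [h.mul_pow, RingAut.mul_apply, map_div₀, map_sub, map_pow, map_natCast]
  ring

theorem comm_pow {G : Type} [Group G] (r s s' : G) (h1 : r * s = s * r) (h2 : r * s' = s' * r)
    (h3 : s' * s = r * (s * s')) (a b : ℕ) : s' ^ a * s ^ b = r ^ (a * b) * (s ^ b * s' ^ a) := by
  have c1 : Commute r s := h1
  have c2 : Commute r s' := h2
  have key : ∀ b : ℕ, s' * s ^ b = r ^ b * (s ^ b * s') := by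
    intro b
    induction b with
    | zero => simp
    | succ b ih =>
      calc s' * s ^ (b + 1) = (s' * s ^ b) * s := by rw [pow_succ, mul_assoc]
        _ = r ^ b * (s ^ b * (s' * s)) := by rw [ih]; simp only [mul_assoc]
        _ = r ^ b * ((s ^ b * r) * (s * s')) := by rw [h3]; simp only [mul_assoc]
        _ = r ^ b * ((r * s ^ b) * (s * s')) := by rw [(c1.pow_right b).eq]
        _ = r ^ (b + 1) * (s ^ (b + 1) * s') := by rw [pow_succ r, pow_succ s]; simp only [mul_assoc]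
  induction a with
  | zero => simp
  | succ a ih =>
    calc s' ^ (a + 1) * s ^ b = s' * (s' ^ a * s ^ b) := by rw [pow_succ', mul_assoc]
      _ = (s' * r ^ (a * b)) * (s ^ b * s' ^ a) := by rw [ih]; simp only [mul_assoc]
      _ = (r ^ (a * b) * s') * (s ^ b * s' ^ a) := by rw [(c2.pow_left (a * b)).eq]
      _ = r ^ (a * b) * ((s' * s ^ b) * s' ^ a) := by simp only [mul_assoc]
      _ = r ^ (a * b) * (r ^ b * (s ^ b * (s' * s' ^ a))) := by rw [key]; simp only [mul_assoc]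
      _ = r ^ ((a + 1) * b) * (s ^ b * s' ^ (a + 1)) := by
        rw [add_mul, one_mul, pow_add, pow_succ']; simp only [mul_assoc]

omit [IsUltrametricDist E] in
theorem q_comm (l : ℕ) (h0 : (l : E) ≠ 0) (r s s' : RingAut E) (h1 : r * s = s * r)
    (h2 : r * s' = s' * r) (h3 : s' * s = r * (s * s')) (n : ℕ) (x : E) :
    q l s' n (q l s n x) - q l s n (q l s' n x) =
      q l r (n + n) ((s ^ l ^ n) ((s' ^ l ^ n) x)) := by
  have h4 := comm_pow r s s' h1 h2 h3 (l ^ n) (l ^ n)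
  have h5 : (s' ^ l ^ n) ((s ^ l ^ n) x) = (r ^ l ^ (n + n)) ((s ^ l ^ n) ((s' ^ l ^ n) x)) := by
    rw [pow_add, ← RingAut.mul_apply, h4]
    simp only [RingAut.mul_apply]
  unfold q
  rw [← h5]
  rw [map_div₀, map_sub, map_pow, map_natCast, map_div₀, map_sub, map_pow, map_natCast]
  field_simp
  ring

/-- composition of the limits -/
theorem lm_comp [CompleteSpace E] (l : ℕ) (hl : l.Prime) (hl3 : 3 ≤ l) (hc : ‖(l : E)‖ < 1)
    (h0 : (l : E) ≠ 0) (s s' : RingAut E) (hs : Nr l 1 s) (hs' : Nr l 1 s') (n : ℕ) (x : E) :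
    ‖lm l s' (lm l s x) - q l s' n (q l s n x)‖ ≤ ‖(l : E)‖ ^ n * ‖x‖ := by
  have h1 : lm l s' (lm l s x) - q l s' n (q l s n x) =
      lm l s' (lm l s x - q l s n x) + (lm l s' (q l s n x) - q l s' n (q l s n x)) := by
    rw [lm_sub l hl hl3 hc h0 s' hs']; ring
  rw [h1]
  refine (IsUltrametricDist.norm_add_le_max _ _).trans (max_le ?_ ?_)
  · exact (lm_norm l hl hl3 hc h0 s' hs' _).trans (lm_close l hl hl3 hc h0 s hs n x)
  · refine (lm_close l hl hl3 hc h0 s' hs' n _).trans ?_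
    gcongr
    exact q_norm l hl hl3 hc h0 s hs n x

end LieLimAux

open LieLimAux

theorem LieLim_proof : Stmt_LieLim := by
  intro E _ _ _ l hult hl hl3 hc
  have : IsUltrametricDist E :=
    IsUltrametricDist.isUltrametricDist_of_forall_norm_add_le_max_norm hult
  have h0 : (l : E) ≠ 0 := Nat.cast_ne_zero.2 hl.ne_zero
  classical
  have hNr : ∀ s : RingAut E, (∀ x, ‖s x - x‖ ≤ ‖(l : E)‖ * ‖x‖) → Nr l 1 s := by
    intro s hs x
    rw [pow_one]
    exact hs x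
  refine ⟨fun s => if h : Nr l 1 s then der l hl hl3 hc h0 s h else 0, ?_⟩
  have hval : ∀ (s : RingAut E) (h : Nr l 1 s) (x : E),
      (if h : Nr l 1 s then der l hl hl3 hc h0 s h else 0) x = lm l s x := by
    intro s h x
    rw [dif_pos h]
    rfl
  intro s hsi hs
  have hsN := hNr s hs
  refine ⟨fun x => ?_, fun hd => ?_, fun s' hsi' hs' => ?_⟩
  · change ‖(if h : Nr l 1 s then der l hl hl3 hc h0 s h else 0) x‖ ≤ ‖x‖
    rw [hval s hsN]
    exact lm_norm l hl hl3 hc h0 s hsN x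
  · have hz : ∀ x, lm l s x = 0 := by
      intro x
      rw [← hval s hsN x]
      have : (if h : Nr l 1 s then der l hl hl3 hc h0 s h else 0) = 0 := hd
      rw [this]
      rfl
    have hk : ∀ k : ℕ, Nr l (k + 1) s := by
      intro k
      induction k with
      | zero => exact hsN
      | succ k ih =>
        intro x
        have h1 := lm_diff l hl hl3 hc h0 (k + 1) (by omega) s hsN ih 0 x
        rw [hz, zero_sub, norm_neg] at h1
        unfold q at h1
        simp only [pow_zero, pow_one, div_one] at h1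
        refine h1.trans ?_
        have : ‖(l : E)‖ ^ (0 + 2 * (k + 1)) ≤ ‖(l : E)‖ ^ (k + 1 + 1) :=
          pow_le_pow_of_le_one (norm_nonneg _) hc.le (by omega)
        gcongr
    ext x
    refine eq_of_close ‖(l : E)‖ ‖x‖ (norm_nonneg _) hc (fun n => ?_)
    refine (hk n x).trans ?_
    have : ‖(l : E)‖ ^ (n + 1) ≤ ‖(l : E)‖ ^ n :=
      pow_le_pow_of_le_one (norm_nonneg _) hc.le (by omega)
    gcongr
  · have hsN' := hNr s' hs'
    refine ⟨fun hcomm => ?_, fun r hri hr hrs hrs' hrr => ?_⟩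
    · ext x
      rw [Derivation.add_apply]
      change (if h : Nr l 1 (s * s') then der l hl hl3 hc h0 (s * s') h else 0) x =
        (if h : Nr l 1 s then der l hl hl3 hc h0 s h else 0) x +
        (if h : Nr l 1 s' then der l hl hl3 hc h0 s' h else 0) x
      have hss := Nr_mul l hc s s' hsN hsN'
      rw [hval _ hss, hval _ hsN, hval _ hsN']
      refine eq_of_close ‖(l : E)‖ ‖x‖ (norm_nonneg _) hc (fun n => ?_)
      have e1 := lm_close l hl hl3 hc h0 _ hss n x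
      have e2 := lm_close l hl hl3 hc h0 _ hsN n x
      have e3 := lm_close l hl hl3 hc h0 _ hsN' n x
      have e4 := s_tendsto l hl hl3 hc s hsN n (q l s' n x)
      have e5 := q_norm l hl hl3 hc h0 s' hsN' n x
      have e6 : ‖(l : E)‖ ^ n * ‖q l s' n x‖ ≤ ‖(l : E)‖ ^ n * ‖x‖ := by gcongr
      rw [q_prod l s s' hcomm] at e1
      have h1 : lm l (s * s') x - (lm l s x + lm l s' x) =
          (lm l (s * s') x - ((s ^ l ^ n) (q l s' n x) + q l s n x)) +
          (-(lm l s x - q l s n x) + (-(lm l s' x - q l s' n x) +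
            ((s ^ l ^ n) (q l s' n x) - q l s' n x))) := by ring
      rw [h1]
      refine (IsUltrametricDist.norm_add_le_max _ _).trans (max_le e1 ?_)
      refine (IsUltrametricDist.norm_add_le_max _ _).trans (max_le (by rwa [norm_neg]) ?_)
      exact (IsUltrametricDist.norm_add_le_max _ _).trans
        (max_le (by rwa [norm_neg]) (e4.trans e6))
    · have hrN := hNr r hr
      ext x
      rw [Derivation.commutator_apply]
      change (if h : Nr l 1 s' then der l hl hl3 hc h0 s' h else 0)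
          ((if h : Nr l 1 s then der l hl hl3 hc h0 s h else 0) x) -
        (if h : Nr l 1 s then der l hl hl3 hc h0 s h else 0)
          ((if h : Nr l 1 s' then der l hl hl3 hc h0 s' h else 0) x) =
        (if h : Nr l 1 r then der l hl hl3 hc h0 r h else 0) x
      rw [hval _ hrN, hval _ hsN, hval _ hsN', hval _ hsN, hval _ hsN']
      refine eq_of_close ‖(l : E)‖ ‖x‖ (norm_nonneg _) hc (fun n => ?_)
      have e1 := lm_comp l hl hl3 hc h0 s s' hsN hsN' n x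
      have e2 := lm_comp l hl hl3 hc h0 s' s hsN' hsN n x
      have e3 := q_comm l h0 r s s' hrs hrs' hrr n x
      set z := (s ^ l ^ n) ((s' ^ l ^ n) x) with hz
      have hzn : ‖z‖ ≤ ‖x‖ :=
        (pow_norm l hl hl3 hc s hsN n _).trans (pow_norm l hl hl3 hc s' hsN' n x)
      have hzx : ‖z - x‖ ≤ ‖(l : E)‖ ^ n * ‖x‖ := by
        have h1 : z - x = (z - (s' ^ l ^ n) x) + ((s' ^ l ^ n) x - x) := by ring
        rw [h1]
        refine (IsUltrametricDist.norm_add_le_max _ _).trans (max_le ?_ ?_)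
        · refine (s_tendsto l hl hl3 hc s hsN n _).trans ?_
          gcongr
          exact pow_norm l hl hl3 hc s' hsN' n x
        · exact s_tendsto l hl hl3 hc s' hsN' n x
      have e4 : ‖lm l r z - q l r (n + n) z‖ ≤ ‖(l : E)‖ ^ n * ‖x‖ := by
        refine (lm_close l hl hl3 hc h0 r hrN (n + n) z).trans ?_
        have : ‖(l : E)‖ ^ (n + n) ≤ ‖(l : E)‖ ^ n :=
          pow_le_pow_of_le_one (norm_nonneg _) hc.le (by omega)
        gcongr
      have e5 : ‖lm l r (z - x)‖ ≤ ‖(l : E)‖ ^ n * ‖x‖ :=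
        (lm_norm l hl hl3 hc h0 r hrN _).trans hzx
      have h1 : lm l s' (lm l s x) - lm l s (lm l s' x) - lm l r x =
          (lm l s' (lm l s x) - q l s' n (q l s n x)) +
          (-(lm l s (lm l s' x) - q l s n (q l s' n x)) +
          (-(lm l r z - q l r (n + n) z) + lm l r (z - x))) := by
        rw [lm_sub l hl hl3 hc h0 r hrN, ← e3]
        ring
      rw [h1]
      refine (IsUltrametricDist.norm_add_le_max _ _).trans (max_le e1 ?_)
      refine (IsUltrametricDist.norm_add_le_max _ _).trans (max_le (by rwa [norm_neg]) ?_)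
      exact (IsUltrametricDist.norm_add_le_max _ _).trans (max_le (by rwa [norm_neg]) e5)

end Pool.Agent.MR3
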