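import Pool.Agent.MR3.Restrict

set_option autoImplicit false

/-!
# Lifting of elements of the Heisenberg group to automorphisms of the field
-/

namespace Pool.Agent.MR3

open MvPolynomial

namespace Lift

/-- homomorphisms from generators with the same ideal of relations -/
theorem exists_hom {σ F F' : Type} [Field F] [Field F'] (x : σ → F) (y : σ → F') (hx : GenBy x)
    (h : ∀ Q : MvPolynomial σ ℤ, aeval x Q = 0 ↔ aeval y Q = 0) :
    ∃ s : F →+* F', ∀ i, s (x i) = y i := by
  classical
  choose P Q hQ hP using hx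
  have hQ' : ∀ z, aeval y (Q z) ≠ 0 := fun z h0 => hQ z ((h _).mpr h0)
  let s : F → F' := fun z => aeval y (P z) / aeval y (Q z)
  have key : ∀ (z : F) (p q : MvPolynomial σ ℤ), aeval x q ≠ 0 → z * aeval x q = aeval x p →
      s z = aeval y p / aeval y q := by
    intro z p q hq hpq
    have hq' : aeval y q ≠ 0 := fun h0 => hq ((h _).mpr h0)
    have h1 : aeval x (P z * q - p * Q z) = 0 := by
      rw [map_sub, map_mul, map_mul, ← hP z, ← hpq]
      ring
    rw [h] at h1
    rw [map_sub, map_mul, map_mul, sub_eq_zero] at h1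
    change aeval y (P z) / aeval y (Q z) = _
    rw [div_eq_div_iff (hQ' z) hq', h1]
  refine ⟨{ toFun := s, map_one' := ?_, map_mul' := ?_, map_zero' := ?_, map_add' := ?_ }, ?_⟩
  · rw [key 1 1 1 (by simp) (by simp)]
    simp
  · intro a b
    rw [key (a * b) (P a * P b) (Q a * Q b) (by rw [map_mul]; exact mul_ne_zero (hQ a) (hQ b))
      (by rw [map_mul, map_mul, ← hP a, ← hP b]; ring)]
    rw [map_mul, map_mul, mul_div_mul_comm]
  · rw [key 0 0 1 (by simp) (by simp)]
    simp
  · intro a b
    have ha := hQ' a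
    have hb := hQ' b
    rw [key (a + b) (P a * Q b + P b * Q a) (Q a * Q b)
      (by rw [map_mul]; exact mul_ne_zero (hQ a) (hQ b))
      (by rw [map_mul, map_add, map_mul, map_mul, ← hP a, ← hP b]; ring)]
    change _ = aeval y (P a) / aeval y (Q a) + aeval y (P b) / aeval y (Q b)
    rw [map_mul, map_add, map_mul, map_mul]
    field_simp
  · intro i
    change s (x i) = y i
    rw [key (x i) (X i) 1 (by simp) (by simp)]
    simp

theorem inc_h {A : Type} [CommRing A] (g : A × A × A) (p l : A × A) (h : Inc p l) :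
    Inc (hP g p) (hL g l) := by
  unfold Inc hP hL at *
  simp only
  rw [h]
  ring

theorem hL_thr {A : Type} [CommRing A] (g : A × A × A) (p : A × A) (a : A) :
    hL g (thr p a) = thr (hP g p) (a + g.2.1) := by
  unfold thr hP hL
  apply Prod.ext
  · rfl
  · simp only
    ring

theorem hP_pt {A : Type} [CommRing A] (g : A × A × A) (l : A × A) (x : A) :
    hP g (pt l x) = pt (hL g l) (x + g.1) := by
  unfold pt hP hL
  apply Prod.ext
  · rfl
  · simp only
    ring

theorem hP_surj {A : Type} [CommRing A] (g : A × A × A) (p : A × A) : ∃ q, hP g q = p := by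
  refine ⟨(p.1 - g.1, p.2 - g.2.1 * (p.1 - g.1) - g.2.2), ?_⟩
  unfold hP
  apply Prod.ext
  · simp only
    ring
  · simp only
    ring

theorem wrep_h {A : Type} [CommRing A] {F : Type} [Field F] {k : ℕ} (g : A × A × A)
    (v w : A × A → Fin (k + 1) → F) (h : IsWRep v w) :
    IsWRep (fun p => v (hP g p)) (fun l => w (hL g l)) :=
  ⟨fun _ => h.1 _, fun _ => h.2.1 _, fun p l hi => h.2.2 _ _ (inc_h g p l hi)⟩

theorem good_h {A : Type} [CommRing A] {F : Type} [Field F] {k : ℕ} (S : Set A) (g : A × A × A)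
    (v w : A × A → Fin (k + 1) → F) (h : Good S v w) :
    Good S (fun p => v (hP g p)) (fun l => w (hL g l)) := by
  refine ⟨fun p a0 => ?_, fun l x0 => ?_⟩
  · obtain ⟨f, hf, hind⟩ := h.1 (hP g p) (a0 + g.2.1)
    refine ⟨f, hf, ?_⟩
    have e : (fun i => w (hL g (thr p (a0 + f i)))) =
        fun i => w (thr (hP g p) (a0 + g.2.1 + f i)) := by
      funext i
      rw [hL_thr]
      congr 2
      ring
    rw [e]
    exact hind
  · obtain ⟨f, hf, hind⟩ := h.2 (hL g l) (x0 + g.1)
    refine ⟨f, hf, ?_⟩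
    have e : (fun i => v (hP g (pt l (x0 + f i)))) =
        fun i => v (pt (hL g l) (x0 + g.1 + f i)) := by
      funext i
      rw [hP_pt]
      congr 2
      ring
    rw [e]
    exact hind

theorem wrep_map {A : Type} [CommRing A] {F F' : Type} [Field F] [Field F'] {k : ℕ} (s : F →+* F')
    (v w : A × A → Fin (k + 1) → F) (h : IsWRep v w) :
    IsWRep (fun p i => s (v p i)) (fun l i => s (w l i)) := by
  refine ⟨fun p => ?_, fun l => ?_, fun p l hi => ?_⟩
  · change s (v p 0) = 1
    rw [h.1, map_one]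
  · change s (w l 0) = 1
    rw [h.2.1, map_one]
  · rw [← Restrict.map_dotProduct', h.2.2 p l hi, map_zero]

end Lift

theorem Lift_proof (hD : Stmt_Determ) : Stmt_Lift := by
  intro A _ F _ k S ι c v w hrep hgood hgen hgb g hker
  have hw : IsWRep v w := ⟨hrep.1, hrep.2.1, fun p l h => (hrep.2.2 p l).mpr h⟩
  obtain ⟨s0, hs0⟩ := Lift.exists_hom (bt c v) (bt c (fun p => v (hP g p))) hgb hker
  have hdet := hD A F k S (Set.range c) (fun p => v (hP g p)) (fun l => w (hL g l))
    (fun p i => s0 (v p i)) (fun l i => s0 (w l i)) (Lift.wrep_h g v w hw)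
    (Lift.good_h S g v w hgood) (Lift.wrep_map s0 v w hw) hgen (by
      rintro p ⟨i, rfl⟩
      funext j
      exact (hs0 (i, j)).symm)
  have hv : ∀ p i, s0 (v p i) = v (hP g p) i := fun p i =>
    (congrFun (congrFun hdet.1 p) i).symm
  have hwl : ∀ l i, s0 (w l i) = w (hL g l) i := fun l i =>
    (congrFun (congrFun hdet.2 l) i).symm
  have hx : ∀ x, ∃ z, s0 z = bt c v x := by
    rintro ⟨i, j⟩
    obtain ⟨q, hq⟩ := Lift.hP_surj g (c i)
    refine ⟨v q j, ?_⟩
    rw [hv, hq]
    rfl
  choose u hu using hx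
  have hsurj : Function.Surjective s0 := by
    intro z
    obtain ⟨P, Q, hQ, h⟩ := hgb z
    have e : ∀ R : MvPolynomial (ι × Fin (k + 1)) ℤ, s0 (aeval u R) = aeval (bt c v) R := by
      intro R
      rw [Restrict.map_aeval']
      congr 2
      funext x
      exact hu x
    refine ⟨aeval u P / aeval u Q, ?_⟩
    rw [map_div₀, e, e, ← h, mul_div_assoc, div_self hQ, mul_one]
  exact ⟨RingEquiv.ofBijective s0 ⟨s0.injective, hsurj⟩, hv, hwl⟩

end Pool.Agent.MR3
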