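import Pool.Agent.MR3.Avoid

set_option autoImplicit false

/-!
# Normalisation of a finite representation
-/

namespace Pool.Agent.MR3

theorem Norm_proof : Stmt_Norm := by
  intro F _ _ k α β P L I v w hvw hP hL
  classical
  have hv0 : ∀ p ∈ P, v p ≠ 0 := by
    intro p hp h0
    obtain ⟨l, hl, hI⟩ := hP p hp
    exact hI ((hvw p hp l hl).1 (by rw [h0, zero_dotProduct]))
  have hw0 : ∀ l ∈ L, w l ≠ 0 := by
    intro l hl h0
    obtain ⟨p, hp, hI⟩ := hL l hl
    exact hI ((hvw p hp l hl).1 (by rw [h0, dotProduct_zero]))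
  -- the vector `h`
  obtain ⟨h, hh⟩ := exists_avoid (insert (Pi.single (0 : Fin (k + 1)) (1 : F))
      (w '' (L : Set β))) ((L.finite_toSet.image w).insert _) (by
    rintro x (rfl | ⟨l, hl, rfl⟩)
    · intro h
      have := congrFun h 0
      simp at this
    · exact hw0 l hl)
  have hhne : h ≠ 0 := by
    rintro rfl
    exact hh _ (Set.mem_insert _ _) (zero_dotProduct _)
  obtain ⟨g, hg⟩ := exists_avoid (insert (Pi.single (0 : Fin (k + 1)) (1 : F))
      (insert h (v '' (P : Set α)))) (((P.finite_toSet.image v).insert _).insert _) (by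
    rintro x (rfl | rfl | ⟨p, hp, rfl⟩)
    · intro h
      have := congrFun h 0
      simp at this
    · exact hhne
    · exact hv0 p hp)
  have hg0 : g 0 ≠ 0 := by
    have := hg _ (Set.mem_insert _ _)
    simpa using this
  have hgh : dotProduct g h ≠ 0 := hg _ (Set.mem_insert_of_mem _ (Set.mem_insert _ _))
  have hgv : ∀ p ∈ P, dotProduct g (v p) ≠ 0 := fun p hp =>
    hg _ (Set.mem_insert_of_mem _ (Set.mem_insert_of_mem _ ⟨p, hp, rfl⟩))
  have hhw : ∀ l ∈ L, dotProduct h (w l) ≠ 0 := fun l hl =>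
    hh _ (Set.mem_insert_of_mem _ ⟨l, hl, rfl⟩)
  let c : α → F := fun p => dotProduct g (v p) / dotProduct g h
  let vo : α → Fin (k + 1) → F := fun p => v p - c p • h
  have hvo : ∀ p, dotProduct g (vo p) = 0 := by
    intro p
    simp only [vo, c, dotProduct_sub, dotProduct_smul, smul_eq_mul]
    field_simp
    ring
  let v1 : α → Fin (k + 1) → F := fun p => Fin.cons (c p) (fun i => vo p i.succ)
  let w1 : β → Fin (k + 1) → F := fun l => Fin.cons (dotProduct h (w l))
    (fun i => w l i.succ - g i.succ / g 0 * w l 0)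
  have hdot : ∀ p l, dotProduct (v1 p) (w1 l) = dotProduct (v p) (w l) := by
    intro p l
    have h1 := dot_drop g (vo p) (w l) hg0 (hvo p)
    have h2 : dotProduct (v1 p) (w1 l) = c p * dotProduct h (w l) +
        dotProduct (fun i : Fin k => vo p i.succ)
          (fun i : Fin k => w l i.succ - g i.succ / g 0 * w l 0) := by
      simp only [v1, w1, dotProduct, Fin.sum_univ_succ, Fin.cons_zero, Fin.cons_succ]
    rw [h2, ← h1]
    simp only [vo, sub_dotProduct, smul_dotProduct, smul_eq_mul]
    ring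
  have hc : ∀ p ∈ P, c p ≠ 0 := fun p hp => div_ne_zero (hgv p hp) hgh
  refine ⟨fun p => (c p)⁻¹ • v1 p, fun l => (dotProduct h (w l))⁻¹ • w1 l, ?_, ?_, ?_⟩
  · intro p hp
    simp only [v1, Pi.smul_apply, Fin.cons_zero, smul_eq_mul]
    exact inv_mul_cancel₀ (hc p hp)
  · intro l hl
    simp only [w1, Pi.smul_apply, Fin.cons_zero, smul_eq_mul]
    exact inv_mul_cancel₀ (hhw l hl)
  · intro p hp l hl
    rw [smul_dotProduct, dotProduct_smul, hdot, ← hvw p hp l hl]
    simp only [smul_eq_mul, mul_eq_zero, inv_eq_zero]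
    constructor
    · rintro (h1 | h1 | h1)
      · exact absurd h1 (hc p hp)
      · exact absurd h1 (hhw l hl)
      · exact h1
    · intro h1
      exact Or.inr (Or.inr h1)

end Pool.Agent.MR3
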