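import Pool.Agent.MR3.Defs

/-!
# Module OddProj: projection from a rational point
-/

set_option autoImplicit false

namespace Pool.Agent.MR3.OddProj

open MvPolynomial

theorem EC.charZero {F : Type} [Field F] (h : EC F) : CharZero F := by
  refine charZero_of_inj_zero fun n hn => ?_
  obtain ⟨z, hz, -⟩ := h Empty (fun e => e.elim) 1 (by simp)
  have := hz (C (n : ℤ)) (by simp [hn])
  simpa using this

/-- rational version of `KerGen` -/
def KerQ {D : ℕ} {F : Type} [Field F] [CharZero F] (y : Fin (D + 1) → F)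
    (G : MvPolynomial (Fin (D + 1)) ℚ) : Prop :=
  ∀ P : MvPolynomial (Fin (D + 1)) ℚ, aeval y P = 0 ↔ G ∣ P

theorem clear {σ : Type} (P : MvPolynomial σ ℚ) :
    ∃ (n : ℤ) (P' : MvPolynomial σ ℤ), n ≠ 0 ∧
      map (Int.castRingHom ℚ) P' = C (n : ℚ) * P := by
  induction P using MvPolynomial.induction_on with
  | C a =>
    refine ⟨a.den, C a.num, by exact_mod_cast a.den_ne_zero, ?_⟩
    rw [map_C, ← C_mul]
    congr 1
    simp
  | add p q hp hq =>
    obtain ⟨n, P, hn, hP⟩ := hp
    obtain ⟨m, Q, hm, hQ⟩ := hq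
    refine ⟨n * m, C m * P + C n * Q, mul_ne_zero hn hm, ?_⟩
    rw [map_add, map_mul, map_mul, hP, hQ, map_C, map_C]
    push_cast
    rw [C_mul]
    simp only [eq_intCast]
    ring
  | mul_X p i hp =>
    obtain ⟨n, P, hn, hP⟩ := hp
    refine ⟨n, P * X i, hn, ?_⟩
    rw [map_mul, hP, map_X]
    ring

variable {D : ℕ} {F : Type} [Field F] [CharZero F]

theorem aeval_map (y : Fin (D + 1) → F) (P : MvPolynomial (Fin (D + 1)) ℤ) :
    aeval y (map (Int.castRingHom ℚ) P) = aeval y P := by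
  exact aeval_map_algebraMap (A := ℚ) (R := ℤ) (B := F) y P

theorem map_inj : Function.Injective (map (Int.castRingHom ℚ) :
    MvPolynomial (Fin (D + 1)) ℤ → MvPolynomial (Fin (D + 1)) ℚ) :=
  map_injective _ (RingHom.injective_int _)

theorem C_unit {a : ℚ} (ha : a ≠ 0) : IsUnit (C a : MvPolynomial (Fin (D + 1)) ℚ) :=
  (isUnit_iff_ne_zero.2 ha).map C

theorem KerQ_of_KerGen {y : Fin (D + 1) → F} {g : MvPolynomial (Fin (D + 1)) ℤ}
    (h : KerGen y g) : KerQ y (map (Int.castRingHom ℚ) g) := by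
  intro P
  constructor
  · intro hP
    obtain ⟨n, P', hn, hP'⟩ := clear P
    have h1 : aeval y P' = 0 := by
      rw [← aeval_map, hP', map_mul, hP, mul_zero]
    obtain ⟨k, hk, hdvd⟩ := (h P').1 h1
    have h2 := _root_.map_dvd (map (Int.castRingHom ℚ)) hdvd
    rw [map_mul, hP', map_C] at h2
    have hk' : ((Int.castRingHom ℚ) k) ≠ 0 := by simpa using hk
    have hn' : (n : ℚ) ≠ 0 := by exact_mod_cast hn
    rw [(C_unit hk').dvd_mul_left, (C_unit hn').dvd_mul_left] at h2
    exact h2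
  · rintro ⟨Q, rfl⟩
    have h1 : aeval y g = 0 := (h g).2 ⟨1, one_ne_zero, by simp⟩
    rw [map_mul, aeval_map, h1, zero_mul]

theorem KerGen_of_KerQ {y : Fin (D + 1) → F} {G : MvPolynomial (Fin (D + 1)) ℚ}
    (h : KerQ y G) {n : ℤ} (hn : n ≠ 0) {g : MvPolynomial (Fin (D + 1)) ℤ}
    (hg : map (Int.castRingHom ℚ) g = C (n : ℚ) * G) : KerGen y g := by
  have hn' : (n : ℚ) ≠ 0 := by exact_mod_cast hn
  intro P
  constructor
  · intro hP
    rw [← aeval_map] at hP
    obtain ⟨R, hR⟩ := (h _).1 hP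
    obtain ⟨r, R', hr, hR'⟩ := clear R
    refine ⟨r * n, mul_ne_zero hr hn, R', ?_⟩
    apply map_inj
    rw [C_mul, map_mul, map_mul, map_mul, map_C, map_C, hR, hg, hR']
    simp only [eq_intCast]
    ring
  · rintro ⟨k, hk, hdvd⟩
    have h2 := _root_.map_dvd (map (Int.castRingHom ℚ)) hdvd
    rw [map_mul, hg, map_C] at h2
    have hk' : ((Int.castRingHom ℚ) k) ≠ 0 := by simpa using hk
    rw [(C_unit hk').dvd_mul_left] at h2
    rw [← aeval_map]
    exact (h _).2 ((Dvd.intro_left _ rfl).trans h2)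

/-! ### translation -/

/-- translation of the variables -/
noncomputable def tr (z : Fin (D + 1) → ℚ) :
    MvPolynomial (Fin (D + 1)) ℚ →ₐ[ℚ] MvPolynomial (Fin (D + 1)) ℚ :=
  aeval fun i => X i + C (z i)

omit [CharZero F] in
theorem tr_X (z : Fin (D + 1) → ℚ) (i : Fin (D + 1)) : tr z (X i) = X i + C (z i) := by
  unfold tr
  rw [aeval_X]

theorem tr_C (z : Fin (D + 1) → ℚ) (a : ℚ) : tr z (C a) = C a := by
  unfold tr
  rw [aeval_C]
  rfl

theorem tr_tr (z : Fin (D + 1) → ℚ) (P : MvPolynomial (Fin (D + 1)) ℚ) :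
    tr z (tr (-z) P) = P := by
  induction P using MvPolynomial.induction_on with
  | C a => rw [tr_C, tr_C]
  | add p q hp hq => rw [map_add, map_add, hp, hq]
  | mul_X p i hp =>
    rw [map_mul, map_mul, hp, tr_X, map_add, tr_X, tr_C]
    simp

theorem aeval_tr (y : Fin (D + 1) → F) (z : Fin (D + 1) → ℚ)
    (P : MvPolynomial (Fin (D + 1)) ℚ) :
    aeval (fun i => y i - (z i : F)) (tr z P) = aeval y P := by
  induction P using MvPolynomial.induction_on with
  | C a => rw [tr_C, aeval_C, aeval_C]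
  | add p q hp hq => rw [map_add, map_add, map_add, hp, hq]
  | mul_X p i hp =>
    rw [map_mul, map_mul, map_mul, hp, tr_X, map_add, aeval_X, aeval_X, aeval_C]
    simp

theorem eval_zero_tr (z : Fin (D + 1) → ℚ) (P : MvPolynomial (Fin (D + 1)) ℚ) :
    constantCoeff (tr z P) = eval z P := by
  induction P using MvPolynomial.induction_on with
  | C a => rw [tr_C]; simp
  | add p q hp hq => rw [map_add, map_add, map_add, hp, hq]
  | mul_X p i hp =>
    rw [map_mul, map_mul, map_mul, hp, tr_X]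
    simp

theorem pderiv_tr (z : Fin (D + 1) → ℚ) (j : Fin (D + 1)) (P : MvPolynomial (Fin (D + 1)) ℚ) :
    pderiv j (tr z P) = tr z (pderiv j P) := by
  induction P using MvPolynomial.induction_on with
  | C a => rw [tr_C, pderiv_C, map_zero]
  | add p q hp hq => rw [map_add, map_add, map_add, map_add, hp, hq]
  | mul_X p i hp =>
    rw [map_mul, pderiv_mul, pderiv_mul, hp, tr_X, map_add, map_add, map_mul, map_mul, tr_X,
      pderiv_C, add_zero, pderiv_X]
    congr 2
    by_cases hij : i = j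
    · subst hij; simp
    · rw [Pi.single_eq_of_ne (by simpa using hij)]
      simp

theorem totalDegree_tr_le (z : Fin (D + 1) → ℚ) (P : MvPolynomial (Fin (D + 1)) ℚ) :
    (tr z P).totalDegree ≤ P.totalDegree := by
  have h : tr z P = ∑ m ∈ P.support, C (P.coeff m) * ∏ i, (X i + C (z i)) ^ m i := by
    unfold tr
    rw [aeval_def, eval₂_eq']
    rfl
  rw [h]
  refine (totalDegree_finsetSum _ _).trans ?_
  refine Finset.sup_le fun m hm => ?_
  refine (totalDegree_mul _ _).trans ?_
  rw [totalDegree_C, zero_add]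
  refine (totalDegree_finsetProd _ _).trans ?_
  refine le_trans (Finset.sum_le_sum fun i _ => ?_) (b := ∑ i, m i) ?_
  · refine (totalDegree_pow _ _).trans ?_
    have : (X i + C (z i) : MvPolynomial (Fin (D + 1)) ℚ).totalDegree ≤ 1 := by
      refine (totalDegree_add _ _).trans ?_
      rw [totalDegree_X, totalDegree_C]
      simp
    calc m i * _ ≤ m i * 1 := Nat.mul_le_mul_left _ this
      _ = m i := mul_one _
  · have := le_totalDegree hm
    rw [Finsupp.sum_fintype _ _ (fun _ => rfl)] at this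
    exact this

theorem totalDegree_tr (z : Fin (D + 1) → ℚ) (P : MvPolynomial (Fin (D + 1)) ℚ) :
    (tr z P).totalDegree = P.totalDegree := by
  refine le_antisymm (totalDegree_tr_le z P) ?_
  have h := totalDegree_tr_le (-z) (tr z P)
  have h2 := tr_tr (-z) P
  rw [neg_neg] at h2
  rwa [h2] at h

theorem KerQ_tr {y : Fin (D + 1) → F} {G : MvPolynomial (Fin (D + 1)) ℚ} (h : KerQ y G)
    (z : Fin (D + 1) → ℚ) : KerQ (fun i => y i - (z i : F)) (tr z G) := by
  intro P
  have h1 : aeval (fun i => y i - (z i : F)) P = aeval y (tr (-z) P) := by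
    rw [← aeval_tr y z, tr_tr]
  rw [h1, h]
  constructor
  · intro hd
    have := _root_.map_dvd (tr z) hd
    rwa [tr_tr] at this
  · intro hd
    have := _root_.map_dvd (tr (-z)) hd
    have h2 := tr_tr (-z) G
    rw [neg_neg] at h2
    rwa [h2] at this

/-! ### blow up -/

/-- degree in the variables of index `≥ 1` -/
def tl (m : Fin (D + 1) →₀ ℕ) : ℕ := ∑ i : Fin D, m i.succ

/-- action of the blow up on exponents -/
noncomputable def be (m : Fin (D + 1) →₀ ℕ) : Fin (D + 1) →₀ ℕ := m + Finsupp.single 0 (tl m)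

theorem be_zero_apply (m : Fin (D + 1) →₀ ℕ) : be m 0 = ∑ i, m i := by
  unfold be tl
  rw [Finsupp.add_apply, Finsupp.single_eq_same, Fin.sum_univ_succ]

theorem be_succ_apply (m : Fin (D + 1) →₀ ℕ) (i : Fin D) : be m i.succ = m i.succ := by
  unfold be
  rw [Finsupp.add_apply, Finsupp.single_eq_of_ne (Fin.succ_ne_zero i), add_zero]

theorem be_inj : Function.Injective (be : (Fin (D + 1) →₀ ℕ) → _) := by
  intro m m' h
  have h1 : ∀ i : Fin D, m i.succ = m' i.succ := by
    intro i
    have h2 := DFunLike.congr_fun h i.succ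
    rwa [be_succ_apply, be_succ_apply] at h2
  have h2 : tl m = tl m' := Finset.sum_congr rfl fun i _ => h1 i
  unfold be at h
  rw [h2] at h
  exact add_right_cancel h

/-- the blow up chart -/
noncomputable def bl : MvPolynomial (Fin (D + 1)) ℚ →ₐ[ℚ] MvPolynomial (Fin (D + 1)) ℚ :=
  aeval (Fin.cases (X 0) (fun i => X i.succ * X 0))

theorem bl_X_zero : bl (X 0 : MvPolynomial (Fin (D + 1)) ℚ) = X 0 := by
  unfold bl
  rw [aeval_X]
  rfl

theorem bl_X_succ (i : Fin D) :
    bl (X i.succ : MvPolynomial (Fin (D + 1)) ℚ) = X i.succ * X 0 := by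
  unfold bl
  rw [aeval_X]
  rfl

theorem bl_monomial (m : Fin (D + 1) →₀ ℕ) (c : ℚ) :
    bl (monomial m c) = monomial (be m) c := by
  unfold bl
  rw [aeval_monomial, monomial_eq, Finsupp.prod_fintype _ _ (fun _ => pow_zero _),
    Finsupp.prod_fintype _ _ (fun _ => pow_zero _), Fin.prod_univ_succ, Fin.prod_univ_succ]
  simp only [Fin.cases_zero, Fin.cases_succ, be_succ_apply, mul_pow, Finset.prod_mul_distrib]
  have h1 : be m 0 = m 0 + tl m := by
    unfold be
    rw [Finsupp.add_apply, Finsupp.single_eq_same]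
  rw [h1, pow_add, Finset.prod_pow_eq_pow_sum]
  unfold tl
  rw [show (algebraMap ℚ (MvPolynomial (Fin (D + 1)) ℚ)) c = C c from rfl]
  ring

theorem bl_eq_sum (p : MvPolynomial (Fin (D + 1)) ℚ) :
    bl p = ∑ m ∈ p.support, monomial (be m) (p.coeff m) := by
  conv_lhs => rw [p.as_sum]
  rw [map_sum]
  exact Finset.sum_congr rfl fun m _ => bl_monomial m _

theorem coeff_bl (p : MvPolynomial (Fin (D + 1)) ℚ) (m : Fin (D + 1) →₀ ℕ) :
    (bl p).coeff (be m) = p.coeff m := by
  classical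
  rw [bl_eq_sum, coeff_sum]
  simp_rw [coeff_monomial, be_inj.eq_iff]
  rw [Finset.sum_ite_eq' p.support m]
  split_ifs with h
  · rfl
  · rw [notMem_support_iff] at h
    exact h.symm

theorem mem_support_bl {p : MvPolynomial (Fin (D + 1)) ℚ} {n : Fin (D + 1) →₀ ℕ}
    (h : n ∈ (bl p).support) : ∃ m ∈ p.support, n = be m := by
  classical
  by_contra hcon
  push Not at hcon
  rw [mem_support_iff] at h
  apply h
  rw [bl_eq_sum, coeff_sum]
  refine Finset.sum_eq_zero fun m hm => ?_
  rw [coeff_monomial, if_neg (hcon m hm).symm]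

theorem degreeOf_bl (p : MvPolynomial (Fin (D + 1)) ℚ) :
    degreeOf 0 (bl p) = p.totalDegree := by
  apply le_antisymm
  · rw [degreeOf_eq_sup]
    refine Finset.sup_le fun n hn => ?_
    obtain ⟨m, hm, rfl⟩ := mem_support_bl hn
    rw [be_zero_apply]
    have := le_totalDegree hm
    rw [Finsupp.sum_fintype _ _ (fun _ => rfl)] at this
    exact this
  · unfold totalDegree
    refine Finset.sup_le fun m hm => ?_
    rw [Finsupp.sum_fintype _ _ (fun _ => rfl), ← be_zero_apply, degreeOf_eq_sup]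
    refine Finset.le_sup (f := fun n : Fin (D + 1) →₀ ℕ => n 0) ?_
    rw [mem_support_iff, coeff_bl]
    exact mem_support_iff.1 hm

theorem lift_bl (P : MvPolynomial (Fin (D + 1)) ℚ) :
    ∃ (N : ℕ) (h' : MvPolynomial (Fin (D + 1)) ℚ), bl h' = X 0 ^ N * P := by
  induction P using MvPolynomial.induction_on with
  | C a =>
    refine ⟨0, C a, ?_⟩
    rw [pow_zero, one_mul]
    exact AlgHom.commutes _ _
  | add p q hp hq =>
    obtain ⟨N, h, hh⟩ := hp
    obtain ⟨M, k, hk⟩ := hq
    refine ⟨N + M, X 0 ^ M * h + X 0 ^ N * k, ?_⟩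
    rw [map_add, map_mul, map_mul, map_pow, map_pow, bl_X_zero, hh, hk]
    ring
  | mul_X p i hp =>
    obtain ⟨N, h, hh⟩ := hp
    refine Fin.cases ?_ (fun i => ?_) i
    · refine ⟨N, h * X 0, ?_⟩
      rw [map_mul, hh, bl_X_zero]
      ring
    · refine ⟨N + 1, h * X i.succ, ?_⟩
      rw [map_mul, hh, bl_X_succ]
      ring

theorem X_not_dvd {p : MvPolynomial (Fin (D + 1)) ℚ} {n : Fin (D + 1) →₀ ℕ} (hn : n 0 = 0)
    (hp : p.coeff n ≠ 0) : ¬ X 0 ∣ p := by
  rintro ⟨q, rfl⟩
  apply hp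
  rw [coeff_X_mul', if_neg]
  rw [Finsupp.mem_support_iff, not_not]
  exact hn

/-- the new coordinates -/
def ny (w : Fin (D + 1) → F) : Fin (D + 1) → F := Fin.cases (w 0) (fun i => w i.succ / w 0)

theorem aeval_bl {w : Fin (D + 1) → F} (hw : w 0 ≠ 0) (P : MvPolynomial (Fin (D + 1)) ℚ) :
    aeval (ny w) (bl P) = aeval w P := by
  induction P using MvPolynomial.induction_on with
  | C a =>
    rw [show bl (C a : MvPolynomial (Fin (D + 1)) ℚ) = C a from AlgHom.commutes _ _, aeval_C,
      aeval_C]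
  | add p q hp hq => rw [map_add, map_add, map_add, hp, hq]
  | mul_X p i hp =>
    rw [map_mul, map_mul, map_mul, hp, aeval_X]
    congr 1
    refine Fin.cases ?_ (fun i => ?_) i
    · rw [bl_X_zero, aeval_X]; rfl
    · rw [bl_X_succ, map_mul, aeval_X, aeval_X]
      change w i.succ / w 0 * w 0 = _
      field_simp

theorem KerQ_blow {w : Fin (D + 1) → F} {h G : MvPolynomial (Fin (D + 1)) ℚ} (hK : KerQ w h)
    (hw : w 0 ≠ 0) (d : ℕ) (hG : bl h = X 0 ^ d * G) (hX : ¬ X 0 ∣ G) : KerQ (ny w) G := by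
  have hXp : Prime (X 0 : MvPolynomial (Fin (D + 1)) ℚ) := X_prime
  intro P
  constructor
  · intro hP
    obtain ⟨N, h', hh'⟩ := lift_bl P
    have h1 : aeval w h' = 0 := by
      rw [← aeval_bl hw, hh', map_mul, hP, mul_zero]
    have h2 := _root_.map_dvd bl ((hK _).1 h1)
    rw [hG, hh'] at h2
    have h3 : G ∣ X 0 ^ N * P := (Dvd.intro_left _ rfl).trans h2
    obtain ⟨k, hk⟩ := h3
    have h4 : (X 0 : MvPolynomial (Fin (D + 1)) ℚ) ^ N ∣ k :=
      hXp.pow_dvd_of_dvd_mul_left N hX ⟨P, hk.symm⟩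
    obtain ⟨k', rfl⟩ := h4
    refine ⟨k', ?_⟩
    have h5 : (X 0 : MvPolynomial (Fin (D + 1)) ℚ) ^ N ≠ 0 := pow_ne_zero _ hXp.ne_zero
    apply mul_left_cancel₀ h5
    rw [hk]
    ring
  · rintro ⟨Q, rfl⟩
    have h1 : aeval (ny w) (bl h) = 0 := by
      rw [aeval_bl hw]
      exact (hK h).2 dvd_rfl
    rw [hG, map_mul, map_pow, aeval_X] at h1
    have h2 : (ny w 0) ^ d ≠ 0 := pow_ne_zero _ hw
    rw [map_mul, (mul_eq_zero.1 h1).resolve_left h2, zero_mul]

theorem ne_zero_of {w : Fin (D + 1) → F} {h : MvPolynomial (Fin (D + 1)) ℚ} (hK : KerQ w h)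
    (hh : h ≠ 0) (hcase : coeff 0 h ≠ 0 ∨ h.totalDegree ≠ 1) : w 0 ≠ 0 := by
  intro hw
  have h1 : aeval w (X 0 : MvPolynomial (Fin (D + 1)) ℚ) = 0 := by rw [aeval_X, hw]
  obtain ⟨k, hk⟩ := (hK _).1 h1
  have hk0 : k ≠ 0 := by
    rintro rfl
    rw [mul_zero] at hk
    exact X_ne_zero _ hk
  have hdeg := totalDegree_mul_of_isDomain hh hk0
  rw [← hk, totalDegree_X] at hdeg
  have hpos : h.totalDegree ≠ 0 := by
    intro h0
    have h2 := totalDegree_eq_zero_iff_eq_C.1 h0
    have h3 : aeval w h = 0 := (hK h).2 dvd_rfl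
    rw [h2, aeval_C] at h3
    have h4 : coeff 0 h = 0 := by
      have := (map_eq_zero (algebraMap ℚ F)).1 h3
      exact this
    rw [h4, C_0] at h2
    exact hh h2
  have h1' : h.totalDegree = 1 := by omega
  have hk1 : k.totalDegree = 0 := by omega
  rcases hcase with hc | hc
  · have h2 := totalDegree_eq_zero_iff_eq_C.1 hk1
    have h3 := congrArg constantCoeff hk
    rw [map_mul, constantCoeff_X] at h3
    have h4 : coeff 0 k = 0 := by
      rcases mul_eq_zero.1 h3.symm with h | h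
      · exact absurd h hc
      · exact h
    rw [h4, C_0] at h2
    exact hk0 h2
  · exact hc h1'

/-! ### derivatives -/

theorem pd_zero {G : MvPolynomial (Fin (D + 1)) ℚ} (hG : G ≠ 0) {j : Fin (D + 1)}
    (h : G ∣ pderiv j G) : pderiv j G = 0 := by
  classical
  by_contra hne
  obtain ⟨k, hk⟩ := h
  have hk0 : k ≠ 0 := by
    rintro rfl
    rw [mul_zero] at hk
    exact hne hk
  have hdeg := totalDegree_mul_of_isDomain hG hk0
  rw [← hk] at hdeg
  have hsupp : (pderiv j G).support.Nonempty := by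
    rw [Finset.nonempty_iff_ne_empty]
    intro h0
    exact hne (support_eq_empty.1 h0)
  obtain ⟨m, hm, hm2⟩ := Finset.exists_mem_eq_sup _ hsupp
    (fun s : Fin (D + 1) →₀ ℕ => s.sum fun _ e => e)
  have h1 : (pderiv j G).totalDegree = m.sum fun _ e => e := hm2
  have h2 : m + Finsupp.single j 1 ∈ G.support := by
    rw [mem_support_iff] at hm ⊢
    rw [coeff_pderiv] at hm
    exact left_ne_zero_of_mul hm
  have h3 := le_totalDegree h2
  rw [Finsupp.sum_fintype _ _ (fun _ => rfl)] at h3 h1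
  have h4 : ∑ i, (m + Finsupp.single j 1 : Fin (D + 1) →₀ ℕ) i = ∑ i, m i + 1 := by
    simp only [Finsupp.add_apply, Finset.sum_add_distrib]
    congr 1
    rw [← Finsupp.sum_fintype (Finsupp.single j 1) (fun _ e => e) (fun _ => rfl)]
    rw [Finsupp.sum_single_index rfl]
  omega

theorem exists_pd {y : Fin (D + 1) → F} {G : MvPolynomial (Fin (D + 1)) ℚ} (hK : KerQ y G)
    (hG : G ≠ 0) : ∃ j, aeval y (pderiv j G) ≠ 0 := by
  by_contra hcon
  push Not at hcon
  have h0 : ∀ j, pderiv j G = 0 := fun j => pd_zero hG ((hK _).1 (hcon j))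
  have h1 : G.totalDegree = 0 := by
    rw [← Nat.le_zero]
    unfold totalDegree
    refine Finset.sup_le fun m hm => ?_
    rw [Finsupp.sum_fintype _ _ (fun _ => rfl), Nat.le_zero, Finset.sum_eq_zero_iff]
    intro j _
    by_contra hmj
    have h2 := congrArg (coeff (m - Finsupp.single j 1)) (h0 j)
    rw [coeff_pderiv, coeff_zero] at h2
    have hle : Finsupp.single j 1 ≤ m := by
      rw [Finsupp.single_le_iff]
      omega
    rw [tsub_add_cancel_of_le hle] at h2
    rcases mul_eq_zero.1 h2 with h3 | h3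
    · exact (mem_support_iff.1 hm) h3
    · have : (0 : ℚ) < (((m - Finsupp.single j 1 : Fin (D + 1) →₀ ℕ) j : ℕ) : ℚ) + 1 := by
        positivity
      exact this.ne' h3
  have h2 := totalDegree_eq_zero_iff_eq_C.1 h1
  have h3 : aeval y G = 0 := (hK G).2 dvd_rfl
  rw [h2, aeval_C] at h3
  have h4 : coeff 0 G = 0 := (map_eq_zero (algebraMap ℚ F)).1 h3
  rw [h4, C_0] at h2
  exact hG h2

/-! ### the subfield generated by a family -/

/-- values of rational functions -/
def sf {σ : Type} {F : Type} [Field F] (x : σ → F) : Subfield F where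
  carrier := {z | ∃ P Q : MvPolynomial σ ℤ, aeval x Q ≠ 0 ∧ z * aeval x Q = aeval x P}
  mul_mem' := by
    rintro a b ⟨P, Q, hQ, hP⟩ ⟨P', Q', hQ', hP'⟩
    refine ⟨P * P', Q * Q', ?_, ?_⟩
    · rw [map_mul]; exact mul_ne_zero hQ hQ'
    · rw [map_mul, map_mul, ← hP, ← hP']; ring
  one_mem' := ⟨1, 1, by simp, by simp⟩
  add_mem' := by
    rintro a b ⟨P, Q, hQ, hP⟩ ⟨P', Q', hQ', hP'⟩
    refine ⟨P * Q' + P' * Q, Q * Q', ?_, ?_⟩
    · rw [map_mul]; exact mul_ne_zero hQ hQ'
    · rw [map_mul, map_add, map_mul, map_mul, ← hP, ← hP']; ring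
  zero_mem' := ⟨0, 1, by simp, by simp⟩
  neg_mem' := by
    rintro a ⟨P, Q, hQ, hP⟩
    exact ⟨-P, Q, hQ, by rw [map_neg, ← hP]; ring⟩
  inv_mem' := by
    rintro a ⟨P, Q, hQ, hP⟩
    by_cases ha : a = 0
    · subst ha
      exact ⟨0, 1, by simp, by simp⟩
    · refine ⟨Q, P, ?_, ?_⟩
      · rw [← hP]; exact mul_ne_zero ha hQ
      · rw [← hP]; field_simp

theorem mem_sf_self {σ : Type} {F : Type} [Field F] (x : σ → F) (i : σ) : x i ∈ sf x :=
  ⟨X i, 1, by simp, by simp⟩

theorem aeval_mem_sf {σ τ : Type} {F : Type} [Field F] (x : σ → F) (y : τ → F)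
    (h : ∀ i, y i ∈ sf x) (P : MvPolynomial τ ℤ) : aeval y P ∈ sf x := by
  induction P using MvPolynomial.induction_on with
  | C a => rw [aeval_C]; exact intCast_mem _ a
  | add p q hp hq => rw [map_add]; exact add_mem hp hq
  | mul_X p i hp => rw [map_mul, aeval_X]; exact mul_mem hp (h i)

theorem GenBy_of {σ τ : Type} {F : Type} [Field F] (x : σ → F) (y : τ → F) (hy : GenBy y)
    (h : ∀ i, y i ∈ sf x) : GenBy x := by
  intro z
  obtain ⟨P, Q, hQ, hP⟩ := hy z
  have h1 : z = aeval y P * (aeval y Q)⁻¹ := by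
    rw [← hP]; field_simp
  have h2 : z ∈ sf x := by
    rw [h1]
    exact mul_mem (aeval_mem_sf x y h P) (inv_mem (aeval_mem_sf x y h Q))
  exact h2

theorem degreeOf_clear {n : ℤ} (hn : n ≠ 0) {g : MvPolynomial (Fin (D + 1)) ℤ}
    {G : MvPolynomial (Fin (D + 1)) ℚ} (hg : map (Int.castRingHom ℚ) g = C (n : ℚ) * G) :
    degreeOf 0 g = degreeOf 0 G := by
  have hn' : (n : ℚ) ≠ 0 := by exact_mod_cast hn
  rw [degreeOf_eq_sup, degreeOf_eq_sup]
  congr 1
  rw [← support_map_of_injective g (RingHom.injective_int (Int.castRingHom ℚ)), hg]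
  ext m
  rw [mem_support_iff, mem_support_iff, coeff_C_mul]
  simp [hn']

end Pool.Agent.MR3.OddProj

namespace Pool.Agent.MR3

open MvPolynomial OddProj

theorem OddProj_proof : Stmt_OddProj := by
  intro F _ hEC D y f hgen hf hK
  have hchar : CharZero F := EC.charZero hEC
  set G0 := map (Int.castRingHom ℚ) f with hG0_def
  have hKQ : KerQ y G0 := KerQ_of_KerGen hK
  have hG0 : G0 ≠ 0 := by
    intro h
    apply hf
    apply map_inj
    rw [map_zero]
    exact h
  have hy0 : aeval y f = 0 := (hK f).2 ⟨1, one_ne_zero, by simp⟩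
  have hev : ∀ (z : Fin (D + 1) → ℚ) (p : MvPolynomial (Fin (D + 1)) ℤ),
      eval z (map (Int.castRingHom ℚ) p) = aeval z p := by
    intro z p
    rw [eval_map, aeval_def]
    rfl
  obtain ⟨z, hz⟩ : ∃ z : Fin (D + 1) → ℚ, (Odd G0.totalDegree ∧ eval z G0 ≠ 0) ∨
      (Even G0.totalDegree ∧ eval z G0 = 0 ∧ ∃ j, eval z (pderiv j G0) ≠ 0) := by
    rcases Nat.even_or_odd G0.totalDegree with he | ho
    · obtain ⟨j, hj⟩ := exists_pd hKQ hG0
      rw [hG0_def, pderiv_map, aeval_map] at hj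
      obtain ⟨z, hz1, hz2⟩ := hEC (Fin (D + 1)) y (pderiv j f) hj
      refine ⟨z, Or.inr ⟨he, ?_, j, ?_⟩⟩
      · rw [hev]; exact hz1 f hy0
      · rw [hG0_def, pderiv_map, hev]; exact hz2
    · by_contra hcon
      push Not at hcon
      apply hG0
      apply MvPolynomial.funext
      intro z
      rw [map_zero]
      exact (hcon z).1 ho
  set w : Fin (D + 1) → F := fun i => y i - (z i : F) with hw_def
  set h := tr z G0 with hh_def
  have hKw : KerQ w h := KerQ_tr hKQ z
  have hdeg : h.totalDegree = G0.totalDegree := totalDegree_tr z G0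
  have hh0 : h ≠ 0 := by
    intro h0
    have h1 := tr_tr (-z) G0
    rw [neg_neg, ← hh_def, h0, map_zero] at h1
    exact hG0 h1.symm
  have hc0 : coeff 0 h = eval z G0 := by
    rw [← constantCoeff_eq, hh_def, eval_zero_tr]
  have hw0 : w 0 ≠ 0 := by
    refine ne_zero_of hKw hh0 ?_
    rcases hz with ⟨ho, hz⟩ | ⟨he, -⟩
    · left; rw [hc0]; exact hz
    · right
      rw [hdeg]
      intro h1
      rw [h1] at he
      exact absurd he (by decide)
  obtain ⟨G, hodd, d, hG, hX⟩ : ∃ G : MvPolynomial (Fin (D + 1)) ℚ, Odd (degreeOf 0 G) ∧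
      ∃ d : ℕ, bl h = X 0 ^ d * G ∧ ¬ X 0 ∣ G := by
    rcases hz with ⟨ho, hz⟩ | ⟨he, hz, j, hj⟩
    · refine ⟨bl h, ?_, 0, by rw [pow_zero, one_mul], ?_⟩
      · rw [degreeOf_bl, hdeg]; exact ho
      · refine X_not_dvd (n := be 0) ?_ ?_
        · rw [be_zero_apply]; simp
        · rw [coeff_bl, hc0]; exact hz
    · have hdvd : X 0 ∣ bl h := by
        rw [X_dvd_iff_modMonomial_eq_zero]
        ext n
        rw [coeff_zero]
        by_cases hn : Finsupp.single 0 1 ≤ n
        · exact coeff_modMonomial_of_le _ hn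
        · rw [coeff_modMonomial_of_not_le _ hn]
          by_contra hne
          obtain ⟨m, hm, rfl⟩ := mem_support_bl (mem_support_iff.2 hne)
          apply hn
          rw [Finsupp.single_le_iff, be_zero_apply]
          rw [Nat.one_le_iff_ne_zero]
          intro h0
          have hm0 : m = 0 := by
            ext i
            exact (Finset.sum_eq_zero_iff.1 h0) i (Finset.mem_univ i)
          rw [hm0, mem_support_iff, hc0] at hm
          exact hm hz
      obtain ⟨G, hG⟩ := hdvd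
      have hj' : coeff (Finsupp.single j 1) h ≠ 0 := by
        have h1 := coeff_pderiv (i := j) h 0
        rw [zero_add, Finsupp.zero_apply, Nat.cast_zero, zero_add, mul_one] at h1
        rw [← h1, ← constantCoeff_eq, hh_def, pderiv_tr, eval_zero_tr]
        exact hj
      have hn0 : be (Finsupp.single j 1) 0 = 1 := by
        rw [be_zero_apply, ← Finsupp.sum_fintype (Finsupp.single j 1) (fun _ e => e)
          (fun _ => rfl), Finsupp.sum_single_index rfl]
      have hcoeff : coeff (be (Finsupp.single j 1) - Finsupp.single 0 1) G ≠ 0 := by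
        have h1 := coeff_bl h (Finsupp.single j 1)
        rw [hG, coeff_X_mul', if_pos] at h1
        · rw [h1]; exact hj'
        · rw [Finsupp.mem_support_iff, hn0]; exact one_ne_zero
      have hG0' : G ≠ 0 := by
        rintro rfl
        rw [coeff_zero] at hcoeff
        exact hcoeff rfl
      refine ⟨G, ?_, 1, by rw [pow_one]; exact hG, ?_⟩
      · have h1 := degreeOf_bl h
        rw [hG, mul_comm, (degreeOf_mul_X_eq_degreeOf_add_one_iff 0 G).2 hG0', hdeg] at h1
        rw [← h1] at he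
        rw [Nat.even_add_one, Nat.not_even_iff_odd] at he
        exact he
      · refine X_not_dvd (n := be (Finsupp.single j 1) - Finsupp.single 0 1) ?_ hcoeff
        rw [Finsupp.tsub_apply, hn0, Finsupp.single_eq_same]
  have hKG : KerQ (ny w) G := KerQ_blow hKw hw0 d hG hX
  obtain ⟨n, g, hn, hg⟩ := clear G
  refine ⟨ny w, g, ?_, ?_, KerGen_of_KerQ hKG hn hg⟩
  · refine GenBy_of (ny w) y hgen fun i => ?_
    have hwi : w i ∈ sf (ny w) := by
      refine Fin.cases ?_ (fun i => ?_) i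
      · exact mem_sf_self (ny w) 0
      · have h1 : w i.succ = ny w i.succ * ny w 0 := by
          change w i.succ = w i.succ / w 0 * w 0
          field_simp
        rw [h1]
        exact mul_mem (mem_sf_self _ _) (mem_sf_self _ _)
    have h2 : y i = w i + (z i : F) := by rw [hw_def]; ring
    rw [h2]
    exact add_mem hwi (SubfieldClass.ratCast_mem _ _)
  · rw [degreeOf_clear hn hg]; exact hodd

end Pool.Agent.MR3
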