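import Pool.Agent.MR3.Defs
import Pool.Agent.MR3.Size

set_option autoImplicit false

namespace Pool.Agent.MR3
namespace PigeonAux

open MvPolynomial

theorem aut_aeval {σ F : Type} [Field F] (s : RingAut F) (y : σ → F) (P : MvPolynomial σ ℤ) :
    s (aeval y P) = aeval (fun k => s (y k)) P := by
  have h := MvPolynomial.comp_aeval_apply (R := ℤ) y ((s : F →+* F).toIntAlgHom) P
  exact h

/-- the abstract pigeonhole consequence -/
theorem resId_of_eq (hSub : Stmt_Subst) {σ : Type} {F κ : Type} [Field F] [Field κ]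
    (y : σ → F) (z : σ → κ)
    (hspec : ∀ P : MvPolynomial σ ℤ, aeval y P = 0 → aeval z P = 0)
    (s : RingAut F) (Q : ℤ → MvPolynomial σ ℤ) (P : ℤ → σ → MvPolynomial σ ℤ) (lam : ℤ → ℕ)
    (hQs : ∀ n, Sz (lam n) (Q n)) (hPs : ∀ n k, Sz (lam n) (P n k))
    (_hQ : ∀ n, aeval y (Q n) ≠ 0)
    (hP : ∀ n k, (s ^ n) (y k) * aeval y (Q n) = aeval y (P n k))
    (a b : ℤ) (ha : aeval z (Q a) ≠ 0) (hb : aeval z (Q b) ≠ 0)
    (hab : (fun k => aeval z (P a k) / aeval z (Q a)) = fun k => aeval z (P b k) / aeval z (Q b))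
    (ha' : aeval (fun k => aeval z (P a k) / aeval z (Q a)) (Q (-a)) ≠ 0) :
    ResId y z (s ^ (b - a)) := by
  intro k
  obtain ⟨R1, -, hR1⟩ := hSub σ σ (lam b) (lam (-a)) (P (-a) k) (P b) (Q b) (hPs _ _) (hPs _) (hQs _)
  obtain ⟨R2, -, hR2⟩ := hSub σ σ (lam b) (lam (-a)) (Q (-a)) (P b) (Q b) (hQs _) (hPs _) (hQs _)
  obtain ⟨R1', -, hR1'⟩ := hSub σ σ (lam a) (lam (-a)) (P (-a) k) (P a) (Q a) (hPs _ _) (hPs _) (hQs _)
  obtain ⟨R2', -, hR2'⟩ := hSub σ σ (lam a) (lam (-a)) (Q (-a)) (P a) (Q a) (hQs _) (hPs _) (hQs _)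
  set za : σ → κ := fun k => aeval z (P a k) / aeval z (Q a) with hza
  set zb : σ → κ := fun k => aeval z (P b k) / aeval z (Q b) with hzb
  have hza1 : ∀ i, za i * aeval z (Q a) = aeval z (P a i) := fun i => div_mul_cancel₀ _ ha
  have hzb1 : ∀ i, zb i * aeval z (Q b) = aeval z (P b i) := fun i => div_mul_cancel₀ _ hb
  -- evaluations at y
  have hya : ∀ (c : ℤ) (i : σ), (fun i => (s ^ c) (y i)) i * aeval y (Q c) = aeval y (P c i) :=
    fun c i => hP c i
  have e1 := hR1 F y (fun i => (s ^ b) (y i)) (hya b)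
  have e2 := hR2 F y (fun i => (s ^ b) (y i)) (hya b)
  have e1' := hR1' F y (fun i => (s ^ a) (y i)) (hya a)
  have e2' := hR2' F y (fun i => (s ^ a) (y i)) (hya a)
  have f1 := hR1 κ z zb hzb1
  have f2 := hR2 κ z zb hzb1
  have f1' := hR1' κ z za hza1
  have f2' := hR2' κ z za hza1
  rw [← aut_aeval] at e1 e2 e1' e2'
  -- the local identity at `a`
  have g1 : y k * aeval y R2' = aeval y R1' := by
    have hyk : y k = (s ^ a) ((s ^ (-a)) (y k)) := by
      rw [← RingAut.mul_apply, ← zpow_add]; simp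
    calc y k * aeval y R2'
        = (s ^ a) ((s ^ (-a)) (y k)) * ((aeval y (Q a)) ^ (lam (-a)) * (s ^ a) (aeval y (Q (-a)))) := by
          rw [← hyk, e2']
      _ = (aeval y (Q a)) ^ (lam (-a)) * (s ^ a) ((s ^ (-a)) (y k) * aeval y (Q (-a))) := by
          rw [map_mul]; ring
      _ = aeval y R1' := by rw [hP (-a) k, e1']
  have g2 : z k * aeval z R2' = aeval z R1' := by
    have h0 : aeval y (X k * R2' - R1') = 0 := by
      rw [map_sub, map_mul, aeval_X, g1, sub_self]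
    have h1 := hspec _ h0
    rw [map_sub, map_mul, aeval_X, sub_eq_zero] at h1
    exact h1
  have g3 : z k * aeval za (Q (-a)) = aeval za (P (-a) k) := by
    rw [f1', f2'] at g2
    have hne : (aeval z (Q a)) ^ (lam (-a)) ≠ 0 := pow_ne_zero _ ha
    apply mul_left_cancel₀ hne
    rw [← g2]; ring
  refine ⟨R1, R2, ?_, ?_, ?_⟩
  · rw [f2, ← hab]
    exact mul_ne_zero (pow_ne_zero _ hb) ha'
  · have hyk : (s ^ (b - a)) (y k) = (s ^ b) ((s ^ (-a)) (y k)) := by
      rw [← RingAut.mul_apply, ← zpow_add, sub_eq_add_neg]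
    calc (s ^ (b - a)) (y k) * aeval y R2
        = (s ^ b) ((s ^ (-a)) (y k)) * ((aeval y (Q b)) ^ (lam (-a)) * (s ^ b) (aeval y (Q (-a)))) := by
          rw [hyk, e2]
      _ = (aeval y (Q b)) ^ (lam (-a)) * (s ^ b) ((s ^ (-a)) (y k) * aeval y (Q (-a))) := by
          rw [map_mul]; ring
      _ = aeval y R1 := by rw [hP (-a) k, e1]
  · rw [f1, f2, ← hab, ← g3]; ring

end PigeonAux

open PigeonAux MvPolynomial

theorem Pigeon_proof (hC : Stmt_Count) (hSub : Stmt_Subst) (hSp : Stmt_Spec) : Stmt_Pigeon := by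
  classical
  intro D F _ y g hodd hker _hgen t s hLC
  choose K0 hK0 using hLC
  obtain ⟨K, hK⟩ : ∃ K, K = 1 + ∑ i, K0 i := ⟨_, rfl⟩
  have hK1 : 1 ≤ K := by omega
  have hKi : ∀ i, K0 i ≤ K := by
    intro i
    have := Finset.single_le_sum (s := Finset.univ) (f := K0) (fun _ _ => Nat.zero_le _)
      (Finset.mem_univ i)
    omega
  have hlev : ∀ n : ℕ, ∃ j, n ≤ 2^2^j := fun n => ⟨n, by
    have h1 : n < 2^n := Nat.lt_two_pow_self
    have h2 : 2^n < 2^2^n := Nat.pow_lt_pow_right (by norm_num) h1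
    omega⟩
  obtain ⟨J, hJ1, hJ2⟩ : ∃ J : ℕ → ℕ, (∀ n, n ≤ 2^2^(J n)) ∧ ∀ n j, n ≤ 2^2^j → J n ≤ j :=
    ⟨fun n => Nat.find (hlev n), fun n => Nat.find_spec (hlev n), fun n j h => Nat.find_min' _ h⟩
  have hR : ∀ (i : Fin t) (n : ℤ), RatT y (K^(J n.natAbs + 1)) (fun k => (s i ^ n) (y k)) := by
    intro i n
    obtain ⟨Q, P, h1, h2, h3, h4⟩ := hK0 i (J n.natAbs) n (hJ1 _)
    have hle : K0 i ^ (J n.natAbs + 1) ≤ K ^ (J n.natAbs + 1) := Nat.pow_le_pow_left (hKi i) _
    exact ⟨Q, P, h1.mono hle, fun k => (h2 k).mono hle, h3, h4⟩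
  choose Q P hQs hPs hQ hP using hR
  have hH : ∀ (i : Fin t) (n : ℕ), ∃ R : MvPolynomial (Fin (D+1)) ℤ,
      Sz (K^(J n + 1) * K^(J n + 1) + K^(J n + 1)) R ∧
      ∀ (F : Type) [Field F] (x : Fin (D+1) → F) (y : Fin (D+1) → F),
        (∀ k, y k * aeval x (Q i n) = aeval x (P i n k)) →
        aeval x R = (aeval x (Q i n)) ^ (K^(J n + 1)) * aeval y (Q i (-n)) := by
    intro i n
    have h1 : Sz (K^(J n + 1)) (Q i (-n)) := by simpa using hQs i (-n)
    exact hSub _ _ (K^(J n + 1)) (K^(J n + 1)) (Q i (-n)) (P i n) (Q i n) h1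
      (fun k => by simpa using hPs i n k) (by simpa using hQs i n)
  choose H hHs hH using hH
  obtain ⟨l, κ, _, _, _, z, c, M, hl, hl8, hzc, hzg, hzg', hsq, hM, hcount⟩ :=
    hC D F y g hodd hker t (3 * K^2) (fun i n => Q i n * H i n)
    (by
      intro i n
      rw [map_mul]
      refine mul_ne_zero (hQ i n) ?_
      rw [hH i n F y (fun k => (s i ^ (n : ℤ)) (y k)) (fun k => hP i n k), ← aut_aeval]
      refine mul_ne_zero (pow_ne_zero _ (hQ i n)) ?_
      rw [Ne, map_eq_zero_iff _ (RingEquiv.injective _)]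
      exact hQ i (-n))
    (by
      intro i n j hnj
      have hle : K ^ (J n + 1) ≤ K ^ (j + 1) :=
        Nat.pow_le_pow_right hK1 (by have := hJ2 n j hnj; omega)
      have h1 : Sz (K^(J n + 1)) (Q i n) := by simpa using hQs i n
      refine (h1.mul (hHs i n)).mono ?_
      have h2 : 1 ≤ K^(j+1) := Nat.one_le_pow _ _ hK1
      calc K^(J n + 1) + (K^(J n + 1) * K^(J n + 1) + K^(J n + 1))
          ≤ K^(j+1) + (K^(j+1) * K^(j+1) + K^(j+1)) := by gcongr
        _ ≤ 3 * (K^(j+1) * K^(j+1)) := by nlinarith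
        _ ≤ 3^(j+1) * (K^(j+1) * K^(j+1)) :=
            Nat.mul_le_mul_right _ (Nat.le_self_pow (by omega) _)
        _ = (3 * K^2)^(j+1) := by rw [mul_pow, ← mul_pow K K, ← pow_two])
  refine ⟨l, κ, inferInstance, inferInstance, inferInstance, z, c, hl, hl8, hzc, hzg, hzg', hsq, ?_⟩
  intro i
  have hspec := hSp D F y g hker l κ z hl hzg hzg'
  -- good exponents
  set good : Finset (Fin M) := Finset.univ.filter (fun n => aeval z (Q i n * H i n) ≠ 0) with hgood
  have hcard : Fintype.card (Fin (D+1) → κ) < good.card := by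
    have h1 := hcount i
    rw [Nat.card_eq_fintype_card, Fintype.card_subtype] at h1
    have h2 : (Finset.univ.filter (fun n : Fin M => aeval z (Q i n * H i n) = 0)).card +
        good.card = M := by
      have := Finset.card_filter_add_card_filter_not (s := (Finset.univ : Finset (Fin M)))
        (p := fun n : Fin M => aeval z (Q i n * H i n) = 0)
      rw [Finset.card_univ, Fintype.card_fin] at this
      exact this
    rw [Fintype.card_fun, Fintype.card_fin]
    omega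
  obtain ⟨n, hn, n', hn', hne, heq⟩ := Finset.exists_ne_map_eq_of_card_lt_of_maps_to
    (s := good) (t := (Finset.univ : Finset (Fin (D+1) → κ)))
    (by rw [Finset.card_univ]; exact hcard)
    (f := fun (n : Fin M) (k : Fin (D+1)) => aeval z (P i n k) / aeval z (Q i n))
    (fun _ _ => Finset.mem_univ _)
  have hgoodn : ∀ n ∈ good, aeval z (Q i n) ≠ 0 ∧
      aeval (fun k => aeval z (P i n k) / aeval z (Q i n)) (Q i (-(n : ℕ))) ≠ 0 := by
    intro n hn
    have h1 := (Finset.mem_filter.1 hn).2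
    rw [map_mul] at h1
    have h2 := left_ne_zero_of_mul h1
    have h3 := right_ne_zero_of_mul h1
    refine ⟨h2, ?_⟩
    rw [hH i n κ z (fun k => aeval z (P i n k) / aeval z (Q i n))
      (fun k => div_mul_cancel₀ _ h2)] at h3
    exact right_ne_zero_of_mul h3
  have main : ∀ a ∈ good, ∀ b ∈ good,
      ((fun (k : Fin (D+1)) => aeval z (P i a k) / aeval z (Q i a)) =
      fun k => aeval z (P i b k) / aeval z (Q i b)) →
      ResId y z (s i ^ (((b : ℕ) : ℤ) - ((a : ℕ) : ℤ))) := by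
    intro a ha b hb hab
    exact resId_of_eq hSub y z hspec (s i) (Q i) (P i) (fun n => K ^ (J n.natAbs + 1))
      (hQs i) (hPs i) (hQ i) (hP i) a b (hgoodn a ha).1 (hgoodn b hb).1 hab (hgoodn a ha).2
  have fin : ∀ a ∈ good, ∀ b ∈ good, (a : ℕ) < b →
      ((fun (k : Fin (D+1)) => aeval z (P i a k) / aeval z (Q i a)) =
      fun k => aeval z (P i b k) / aeval z (Q i b)) →
      ∃ m : ℕ, 0 < m ∧ ResId y z ((s i) ^ m) ∧ ResId y z (((s i) ^ m)⁻¹) := by
    intro a ha b hb hlt hab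
    refine ⟨b - a, by omega, ?_, ?_⟩
    · have h1 := main a ha b hb hab
      have h2 : (((b : ℕ) : ℤ) - ((a : ℕ) : ℤ)) = (((b : ℕ) - (a : ℕ) : ℕ) : ℤ) := by omega
      rw [h2, zpow_natCast] at h1
      exact h1
    · have h1 := main b hb a ha hab.symm
      have h2 : (((a : ℕ) : ℤ) - ((b : ℕ) : ℤ)) = -(((b : ℕ) - (a : ℕ) : ℕ) : ℤ) := by omega
      rw [h2, zpow_neg, zpow_natCast] at h1
      exact h1
  rcases lt_or_gt_of_ne (fun h => hne (Fin.ext h) : (n : ℕ) ≠ n') with h | h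
  · exact fin n hn n' hn' h heq
  · exact fin n' hn' n hn h heq.symm

end Pool.Agent.MR3
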