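import Pool.Agent.MR3.PlaceAux

set_option autoImplicit false

/-!
Module PlaceA: the discrete absolute value of the exceptional divisor of a closed point.
-/

namespace Pool.Agent.MR3.PlaceAux

open MvPolynomial

theorem cancel_l {σ K : Type} [CommRing K] [IsDomain K] (l : ℕ) [CharP K l] (hl : l.Prime)
    (π : MvPolynomial σ ℤ →+* K) (G : MvPolynomial σ ℤ) (hG : π G = 0)
    (hgl : ¬ (C (l : ℤ)) ∣ G) : ∀ (n : ℤ) (P h : MvPolynomial σ ℤ), n ≠ 0 →
      C n * P = G * h → π P = 0 := by
  have key : ∀ (N : ℕ) (n : ℤ) (P h : MvPolynomial σ ℤ), n.natAbs = N → n ≠ 0 →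
      C n * P = G * h → π P = 0 := by
    intro N
    induction N using Nat.strong_induction_on with
    | _ N ih =>
      intro n P h hN hn hP
      by_cases hln : (l : ℤ) ∣ n
      · obtain ⟨n', rfl⟩ := hln
        have h1 : C (l : ℤ) ∣ G * h := by
          rw [← hP, C_mul, mul_assoc]
          exact dvd_mul_right _ _
        rcases (prime_C_nat l hl).dvd_or_dvd h1 with h2 | h2
        · exact absurd h2 hgl
        · obtain ⟨h', rfl⟩ := h2
          have hn' : n' ≠ 0 := by
            rintro rfl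
            simp at hn
          refine ih n'.natAbs ?_ n' P h' rfl hn' ?_
          · rw [← hN, Int.natAbs_mul, Int.natAbs_natCast]
            have h3 : 0 < n'.natAbs := Int.natAbs_pos.2 hn'
            have h4 := hl.two_le
            nlinarith
          · have h5 : C (l : ℤ) * (C n' * P) = C (l : ℤ) * (G * h') := by
              rw [← mul_assoc, ← C_mul, hP]; ring
            exact mul_left_cancel₀ (prime_C_nat l hl).ne_zero h5
      · have h1 : π (C n * P) = 0 := by
          rw [hP, map_mul, hG, zero_mul]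
        rw [map_mul, show π (C n) = (n : K) from eq_intCast (π.comp C) n] at h1
        rcases mul_eq_zero.1 h1 with h2 | h2
        · rw [CharP.intCast_eq_zero_iff K l] at h2
          exact absurd h2 hln
        · exact h2
  intro n P h hn hP
  exact key _ n P h rfl hn hP

/-- the substitution `X (i+1) ↦ c i + l X (i+1)` -/
noncomputable def sub {D : ℕ} (c : Fin D → ℤ) (l : ℕ) :
    MvPolynomial (Fin (D + 1)) ℤ →ₐ[ℤ] MvPolynomial (Fin (D + 1)) ℤ :=
  aeval (Fin.cases (X 0) (fun i => C (c i) + C (l : ℤ) * X i.succ))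

theorem sub_X_zero {D : ℕ} (c : Fin D → ℤ) (l : ℕ) : sub c l (X 0) = X 0 := by simp [sub]

theorem sub_X_succ {D : ℕ} (c : Fin D → ℤ) (l : ℕ) (i : Fin D) :
    sub c l (X i.succ) = C (c i) + C (l : ℤ) * X i.succ := by simp [sub]

theorem evY_sub {D : ℕ} {F : Type} [Field F] (y : Fin (D + 1) → F) (c : Fin D → ℤ) (l : ℕ)
    (hl : (l : F) ≠ 0) (P : MvPolynomial (Fin (D + 1)) ℤ) : evY y c l (sub c l P) = aeval y P := by
  have : ((evY y c l).comp (sub c l) : MvPolynomial (Fin (D + 1)) ℤ →ₐ[ℤ] F) = aeval y := by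
    apply MvPolynomial.algHom_ext
    intro i
    refine Fin.cases ?_ (fun j => ?_) i
    · rw [AlgHom.comp_apply, sub_X_zero]; simp [evY]
    · rw [AlgHom.comp_apply, sub_X_succ, evY, map_add, map_mul, aeval_C, aeval_C, aeval_X,
        aeval_X, eq_intCast, eq_intCast, Int.cast_natCast]
      show (c j : F) + l * ((y j.succ - (c j : F)) / (l : F)) = y j.succ
      rw [mul_div_cancel₀ _ hl]; ring
  rw [← this]; rfl

theorem piY_sub {D : ℕ} {κ : Type} [Field κ] (l : ℕ) [CharP κ l] (z : Fin (D + 1) → κ)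
    (c : Fin D → ℤ) (hc : ∀ i : Fin D, z i.succ = (c i : κ)) (P : MvPolynomial (Fin (D + 1)) ℤ) :
    piY z (sub c l P) = C (aeval z P) := by
  have : ((piY z).comp (sub c l) : MvPolynomial (Fin (D + 1)) ℤ →ₐ[ℤ] _) =
      ((Algebra.ofId κ (MvPolynomial (Fin D) κ)).restrictScalars ℤ).comp (aeval z) := by
    apply MvPolynomial.algHom_ext
    intro i
    refine Fin.cases ?_ (fun j => ?_) i
    · rw [AlgHom.comp_apply, sub_X_zero]; simp [piY, MvPolynomial.algebraMap_eq, Algebra.ofId_apply]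
    · rw [AlgHom.comp_apply, sub_X_succ]
      simp [piY, hc]
  have h2 := congrArg (fun f => f P) this
  simp only [AlgHom.comp_apply] at h2
  exact h2

theorem pderiv_sub {D : ℕ} (c : Fin D → ℤ) (l : ℕ) (P : MvPolynomial (Fin (D + 1)) ℤ) :
    pderiv 0 (sub c l P) = sub c l (pderiv 0 P) := by
  induction P using MvPolynomial.induction_on with
  | C a => simp [sub]
  | add p q hp hq => simp [hp, hq]
  | mul_X p i hp =>
    rw [map_mul, Derivation.leibniz, Derivation.leibniz, hp, smul_eq_mul, smul_eq_mul, smul_eq_mul,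
      smul_eq_mul, map_add, map_mul, map_mul]
    congr 2
    refine Fin.cases ?_ (fun j => ?_) i
    · rw [sub_X_zero, pderiv_X_self, map_one]
    · rw [sub_X_succ, pderiv_X_of_ne (Fin.succ_ne_zero j), map_add, pderiv_C,
        Derivation.leibniz, pderiv_X_of_ne (Fin.succ_ne_zero j), pderiv_C]
      simp

theorem exists_sub {D : ℕ} (c : Fin D → ℤ) (l : ℕ) (P : MvPolynomial (Fin (D + 1)) ℤ) :
    ∃ (N : ℕ) (P' : MvPolynomial (Fin (D + 1)) ℤ), sub c l P' = C (l : ℤ) ^ N * P := by
  have hC : ∀ a, sub c l (C a) = C a := fun a => by simp [sub]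
  induction P using MvPolynomial.induction_on with
  | C a => exact ⟨0, C a, by rw [hC]; ring⟩
  | add p q hp hq =>
    obtain ⟨N, p', hp'⟩ := hp
    obtain ⟨N', q', hq'⟩ := hq
    refine ⟨N + N', C (l : ℤ) ^ N' * p' + C (l : ℤ) ^ N * q', ?_⟩
    rw [map_add, map_mul, map_mul, map_pow, map_pow, hC, hp', hq']
    ring
  | mul_X p i hp =>
    obtain ⟨N, p', hp'⟩ := hp
    refine Fin.cases ?_ (fun j => ?_) i
    · exact ⟨N, p' * X 0, by rw [map_mul, hp', sub_X_zero]; ring⟩
    · refine ⟨N + 1, p' * (X j.succ - C (c j)), ?_⟩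
      rw [map_mul, map_sub, hp', sub_X_succ, hC]; ring

/-- relations at the generic point hold at the generic point of the exceptional divisor -/
theorem ker_evY_le {D : ℕ} {F : Type} [Field F] (y : Fin (D + 1) → F)
    (g : MvPolynomial (Fin (D + 1)) ℤ) (hg : KerGen y g) (l : ℕ) (hlF : (l : F) ≠ 0) {κ : Type}
    [Field κ] [CharP κ l] (z : Fin (D + 1) → κ) (c : Fin D → ℤ) (hl : l.Prime)
    (hc : ∀ i : Fin D, z i.succ = (c i : κ)) (hz : aeval z g = 0)
    (hz' : aeval z (pderiv 0 g) ≠ 0) (P : MvPolynomial (Fin (D + 1)) ℤ) (hP : evY y c l P = 0) :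
    piY z P = 0 := by
  obtain ⟨N, P', hP'⟩ := exists_sub c l P
  have h1 : aeval y P' = 0 := by
    rw [← evY_sub y c l hlF, hP', map_mul, hP, mul_zero]
  obtain ⟨n, hn, h, hh⟩ := (hg P').1 h1
  have h2 : C (n * (l : ℤ) ^ N) * P = sub c l g * sub c l h := by
    have h3 : sub c l (C n) = C n := by simp [sub]
    have h4 := congrArg (sub c l) hh
    rw [map_mul, map_mul, h3, hP'] at h4
    rw [← h4, C_mul, C_pow]; ring
  refine cancel_l l hl (piY z).toRingHom (sub c l g) ?_ ?_ _ P _ ?_ h2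
  · show piY z (sub c l g) = 0
    rw [piY_sub l z c hc, hz, map_zero]
  · rintro ⟨g', hg'⟩
    apply hz'
    have h3 := congrArg (fun Q => piY z (pderiv 0 Q)) hg'
    simp only [pderiv_sub, piY_sub l z c hc] at h3
    rw [Derivation.leibniz, pderiv_C, smul_zero, add_zero, smul_eq_mul, map_mul] at h3
    have h4 : piY z (C (l : ℤ)) = 0 := by
      rw [← algebraMap_eq, AlgHom.commutes, eq_intCast, CharP.intCast_eq_zero_iff _ l]
    rw [h4, zero_mul] at h3
    exact (C_eq_zero).1 h3
  · exact mul_ne_zero hn (pow_ne_zero _ (Int.natCast_ne_zero.2 hl.ne_zero))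

/-- the maximal ideal is generated by `l` -/
theorem mem_l {D : ℕ} {F : Type} [Field F] (y : Fin (D + 1) → F)
    (g : MvPolynomial (Fin (D + 1)) ℤ) (hg : KerGen y g) (l : ℕ) (hlF : (l : F) ≠ 0) {κ : Type}
    [Field κ] [Fintype κ] [CharP κ l] (z : Fin (D + 1) → κ) (c : Fin D → ℤ) (hl : l.Prime)
    (hc : ∀ i : Fin D, z i.succ = (c i : κ)) (hz : aeval z g = 0)
    (hz' : aeval z (pderiv 0 g) ≠ 0) :
    ∃ Ψ, piY z Ψ ≠ 0 ∧ ∀ P, piY z P = 0 → ∃ P', evY y c l Ψ * evY y c l P = l * evY y c l P' := by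
  obtain ⟨ψ, hψ, h⟩ := exists_psi g l z c hl hc hz hz'
  refine ⟨emb D ψ, ?_, fun P hP => ?_⟩
  · have h1 : ((piY z).comp (emb D) : Polynomial ℤ →ₐ[ℤ] MvPolynomial (Fin D) κ) =
          ((Algebra.ofId κ (MvPolynomial (Fin D) κ)).restrictScalars ℤ).comp
            (Polynomial.aeval (z 0)) := by
      apply Polynomial.algHom_ext
      simp [piY, emb, MvPolynomial.algebraMap_eq, Algebra.ofId_apply]
    have h2 := congrArg (fun f => f ψ) h1
    simp only [AlgHom.comp_apply] at h2
    rw [h2]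
    intro h3
    apply hψ
    exact (C_eq_zero (σ := Fin D)).1 h3
  · obtain ⟨P1, P2, h12⟩ := exists_psi_mv (res c g) ψ l z h P hP
    -- `emb (res g) ≡ sub g` modulo `l`
    have h3 : emb D (res c g) - sub c l g ∈ Ideal.span {(C (l : ℤ) : MvPolynomial (Fin (D + 1)) ℤ)} := by
      have h4 : emb D (res c g) = aeval (Fin.cases (X 0) (fun i => C (c i)) :
          Fin (D + 1) → MvPolynomial (Fin (D + 1)) ℤ) g := by
        have : ((emb D).comp (res c) : MvPolynomial (Fin (D + 1)) ℤ →ₐ[ℤ] _) =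
            aeval (Fin.cases (X 0) (fun i => C (c i)) :
              Fin (D + 1) → MvPolynomial (Fin (D + 1)) ℤ) := by
          apply MvPolynomial.algHom_ext
          intro i
          refine Fin.cases ?_ (fun j => ?_) i
          · simp [res, emb]
          · simp [res, emb]
        rw [← this]; rfl
      rw [h4, sub]
      apply mem_aeval_sub
      intro i
      refine Fin.cases ?_ (fun j => ?_) i
      · simp
      · rw [Fin.cases_succ, Fin.cases_succ, sub_add_cancel_left]
        rw [Ideal.mem_span_singleton]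
        exact (dvd_mul_right _ _).neg_right
    rw [Ideal.mem_span_singleton] at h3
    obtain ⟨P3, hP3⟩ := h3
    refine ⟨P3 * P1 + P2, ?_⟩
    have hsg : evY y c l (sub c l g) = 0 := by
      rw [evY_sub y c l hlF]
      exact (hg g).2 ⟨1, one_ne_zero, by rw [C_1, one_mul]⟩
    have hCl : evY y c l (C (l : ℤ)) = l := by
      rw [← algebraMap_eq, AlgHom.commutes]; simp
    have h5 := congrArg (evY y c l) h12
    have h6 := congrArg (evY y c l) hP3
    rw [map_sub, hsg, sub_zero, map_mul, hCl] at h6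
    rw [map_mul, map_add, map_mul, map_mul, h6, hCl] at h5
    rw [h5, map_add, map_mul]; ring

end Pool.Agent.MR3.PlaceAux

namespace Pool.Agent.MR3

open MvPolynomial PlaceAux

theorem PlaceA_proof : Stmt_PlaceA := by
  intro D F _ _ y g hg hgen l κ _ _ _ z c hl hc hz hz'
  have hl0 : (l : F) ≠ 0 := Nat.cast_ne_zero.2 hl.ne_zero
  have hker := ker_evY_le y g hg l hl0 z c hl hc hz hz'
  obtain ⟨Ψ, hΨ, hml⟩ := mem_l y g hg l hl0 z c hl hc hz hz'
  let A : Subalgebra ℤ F := (evY y c l).range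
  let f : MvPolynomial (Fin (D + 1)) ℤ →+* A := (evY y c l).rangeRestrict.toRingHom
  have hf : Function.Surjective f := (evY y c l).rangeRestrict_surjective
  have hfe : ∀ P, ((f P : A) : F) = evY y c l P := fun P => rfl
  let π : A →+* MvPolynomial (Fin D) κ := f.liftOfSurjective hf ⟨(piY z).toRingHom, by
    intro P hP
    rw [RingHom.mem_ker] at hP ⊢
    apply hker
    rw [← hfe, hP]; rfl⟩
  have hπ : ∀ P, π (f P) = piY z P := fun P => RingHom.liftOfRightInverse_comp_apply _ _ _ _ _
  let 𝔭 : Ideal A := RingHom.ker π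
  have h𝔭 : 𝔭.IsPrime := RingHom.ker_isPrime π
  have : IsNoetherianRing A := isNoetherianRing_of_surjective _ _ f hf
  have : IsFractionRing A F := by
    apply IsFractionRing.of_field
    intro x
    obtain ⟨P, Q, hQ, hPQ⟩ := hgen x
    refine ⟨f (sub c l P), f (sub c l Q), ?_⟩
    show x = evY y c l (sub c l P) / evY y c l (sub c l Q)
    rw [evY_sub y c l hl0, evY_sub y c l hl0, ← hPQ, mul_div_cancel_right₀ _ hQ]
  have hS : 𝔭.primeCompl ≤ nonZeroDivisors A := 𝔭.primeCompl_le_nonZeroDivisors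
  let O : Subalgebra A F := Localization.subalgebra.ofField F 𝔭.primeCompl hS
  have hloc : IsLocalization 𝔭.primeCompl O :=
    Localization.subalgebra.isLocalization_ofField F 𝔭.primeCompl hS
  have hloc' : IsLocalization.AtPrime O 𝔭 := hloc
  have : IsLocalRing O := IsLocalization.AtPrime.isLocalRing O 𝔭
  have : IsNoetherianRing O := IsLocalization.isNoetherianRing 𝔭.primeCompl O inferInstance
  have : IsFractionRing O F := Localization.subalgebra.isFractionRing_ofField F 𝔭.primeCompl hS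
  have hOF : ∀ a : A, algebraMap O F (algebraMap A O a) = (a : F) := fun a => rfl
  have hmax : ∀ P, algebraMap A O (f P) ∈ IsLocalRing.maximalIdeal O ↔ piY z P = 0 := by
    intro P
    rw [IsLocalization.AtPrime.to_map_mem_maximal_iff O 𝔭 (f P), RingHom.mem_ker, hπ]
  have hfl : f (C (l : ℤ)) = (l : A) := by
    have h1 := eq_intCast (f.comp C) (l : ℤ)
    rw [Int.cast_natCast] at h1
    exact h1
  have hpl : piY z (C (l : ℤ)) = 0 := by
    rw [← algebraMap_eq, AlgHom.commutes, eq_intCast, CharP.intCast_eq_zero_iff _ l]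
  have hlm : ((l : ℕ) : O) ∈ IsLocalRing.maximalIdeal O := by
    have h1 := (hmax (C (l : ℤ))).2 hpl
    rw [hfl, map_natCast] at h1
    exact h1
  have hlO : ((l : ℕ) : O) ≠ 0 := by
    intro h1
    apply hl0
    have h2 := congrArg (algebraMap O F) h1
    rw [map_natCast, map_zero] at h2
    exact h2
  have hnf : ¬ IsField O := by
    intro h1
    rw [IsLocalRing.isField_iff_maximalIdeal_eq] at h1
    rw [h1, Ideal.mem_bot] at hlm
    exact hlO hlm
  have hspan : IsLocalRing.maximalIdeal O = Ideal.span {((l : ℕ) : O)} := by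
    apply le_antisymm
    · intro o ho
      obtain ⟨a, s, rfl⟩ := IsLocalization.exists_mk'_eq 𝔭.primeCompl o
      obtain ⟨P, rfl⟩ := hf a
      have hP : piY z P = 0 := by
        rw [← hmax]
        rwa [IsLocalization.AtPrime.mk'_mem_maximal_iff O 𝔭,
          ← IsLocalization.AtPrime.to_map_mem_maximal_iff O 𝔭] at ho
      obtain ⟨P', hP'⟩ := hml P hP
      have hΨp : f Ψ ∈ 𝔭.primeCompl := by
        show f Ψ ∉ 𝔭
        rw [RingHom.mem_ker, hπ]; exact hΨ
      rw [Ideal.mem_span_singleton]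
      refine ⟨IsLocalization.mk' O (f P') (s * ⟨f Ψ, hΨp⟩), ?_⟩
      have h1 : f Ψ * f P = l * f P' := Subtype.ext hP'
      rw [← map_natCast (algebraMap A O), ← IsLocalization.mk'_one O (M := 𝔭.primeCompl) ((l : ℕ) : A),
        ← IsLocalization.mk'_mul, IsLocalization.mk'_eq_iff_eq]
      congr 1
      push_cast
      rw [one_mul, mul_assoc, h1]; 
    · rw [Ideal.span_singleton_le_iff_mem]; exact hlm
  have : IsDiscreteValuationRing O :=
    ((IsDiscreteValuationRing.TFAE O hnf).out 0 4).2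
      (⟨⟨_, hspan⟩⟩ : (IsLocalRing.maximalIdeal O).IsPrincipal)
  let v := (IsDiscreteValuationRing.maximalIdeal O).adicAbv (K := F) (b := 2) one_lt_two
  have hvi : ∀ o : O, v (algebraMap O F o) < 1 ↔ o ∈ IsLocalRing.maximalIdeal O := fun o =>
    (IsDiscreteValuationRing.maximalIdeal O).adicAbv_coe_lt_one_iff one_lt_two o
  have hvl : ∀ o : O, v (algebraMap O F o) ≤ 1 := fun o =>
    (IsDiscreteValuationRing.maximalIdeal O).adicAbv_coe_le_one one_lt_two o
  have hirr : Irreducible ((l : ℕ) : O) :=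
    (IsDiscreteValuationRing.irreducible_iff_uniformizer _).2 hspan
  have hvu : ∀ u : Oˣ, v (algebraMap O F u) = 1 := by
    intro u
    apply le_antisymm (hvl _)
    by_contra h1
    push Not at h1
    rw [hvi] at h1
    exact (IsLocalRing.mem_maximalIdeal _).1 h1 u.isUnit
  refine ⟨v, ?_, ?_, ?_, ?_, ?_, ?_⟩
  · intro a b
    exact (IsDiscreteValuationRing.maximalIdeal O).isNonarchimedean_adicAbv one_lt_two a b
  · rw [← map_natCast (algebraMap O F), hvi]; exact hlm
  · intro a ha
    obtain ⟨p, q, hq, rfl⟩ := IsFractionRing.div_surjective O a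
    have hq0 : q ≠ 0 := nonZeroDivisors.ne_zero hq
    have hp0 : p ≠ 0 := by
      rintro rfl
      apply ha; rw [map_zero, zero_div]
    obtain ⟨n, u, rfl⟩ := IsDiscreteValuationRing.eq_unit_mul_pow_irreducible hp0 hirr
    obtain ⟨m, w, rfl⟩ := IsDiscreteValuationRing.eq_unit_mul_pow_irreducible hq0 hirr
    refine ⟨(n : ℤ) - m, ?_⟩
    have hv0 : v (l : F) ≠ 0 := by rw [v.ne_zero_iff]; exact hl0
    rw [map_mul, map_mul, map_pow, map_pow, map_natCast, map_div₀, map_mul, map_mul, hvu, hvu,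
      map_pow, map_pow, one_mul, one_mul, zpow_sub₀ hv0, zpow_natCast, zpow_natCast]
  · intro P
    exact hvl (algebraMap A O (f P))
  · intro P
    rw [← hmax P, ← hvi]; rfl
  · intro a ha
    have h1 : ((IsDiscreteValuationRing.maximalIdeal O).valuation F) a ≤ 1 := by
      have h2 : (((IsDiscreteValuationRing.maximalIdeal O).adicAbvDef (K := F) (b := 2) one_lt_two a :
          NNReal) : ℝ) ≤ 1 := ha
      rw [← NNReal.coe_one, NNReal.coe_le_coe] at h2
      exact (WithZeroMulInt.toNNReal_le_one_iff one_lt_two).1 h2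
    obtain ⟨o, ho⟩ := IsDiscreteValuationRing.exists_lift_of_le_one h1
    obtain ⟨a', s, hs, h3⟩ : ∃ (a' s : A) (_ : s ∈ 𝔭.primeCompl),
        (o : F) = algebraMap A F a' * (algebraMap A F s)⁻¹ := o.2
    obtain ⟨P, rfl⟩ := hf a'
    obtain ⟨Q, rfl⟩ := hf s
    have hQ : piY z Q ≠ 0 := by
      intro h4
      apply hs
      show f Q ∈ 𝔭
      rw [RingHom.mem_ker, hπ]; exact h4
    have hQ' : evY y c l Q ≠ 0 := fun h4 => hQ (hker Q h4)
    refine ⟨P, Q, hQ, ?_⟩
    have h5 : a = evY y c l P * (evY y c l Q)⁻¹ := by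
      rw [← ho]; exact h3
    rw [h5, inv_mul_cancel_right₀ hQ']

end Pool.Agent.MR3
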