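import Pool.Agent.MR3.Defs

set_option autoImplicit false

/-!
Module PlaceB1: `2` is not a square modulo the maximal ideal.
-/

namespace Pool.Agent.MR3

open MvPolynomial

theorem PlaceB1_proof : Stmt_PlaceB1 := by
  intro D F _ _ y l κ _ z c v hκ hna h1 h2 h3 a
  have hv2 : v (2 : F) ≤ 1 := by
    have := h1 2
    rwa [map_ofNat] at this
  rcases lt_or_ge 1 (v a) with ha | ha
  · have h4 : v (a ^ 2) ≤ max (v (a ^ 2 - 2)) (v 2) := by
      have := hna (a ^ 2 - 2) 2
      rwa [sub_add_cancel] at this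
    rw [map_pow] at h4
    have h5 : 1 < v a ^ 2 := by nlinarith
    rcases le_max_iff.1 h4 with h6 | h6
    · exact h5.le.trans h6
    · linarith
  · by_contra hc
    push Not at hc
    obtain ⟨P, Q, hQ, hPQ⟩ := h3 a ha
    have hvQ : v (evY y c l Q) ≤ 1 := h1 Q
    have h4 : v (evY y c l (P ^ 2 - 2 * Q ^ 2)) < 1 := by
      have h5 : evY y c l (P ^ 2 - 2 * Q ^ 2) = (a ^ 2 - 2) * (evY y c l Q) ^ 2 := by
        rw [map_sub, map_mul, map_pow, map_pow, map_ofNat, ← hPQ]; ring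
      rw [h5, map_mul, map_pow]
      calc v (a ^ 2 - 2) * v (evY y c l Q) ^ 2 ≤ v (a ^ 2 - 2) * 1 := by
            apply mul_le_mul_of_nonneg_left _ (v.nonneg _)
            exact pow_le_one₀ (v.nonneg _) hvQ
        _ < 1 := by rw [mul_one]; exact hc
    rw [h2, map_sub, map_mul, map_pow, map_pow, map_ofNat, sub_eq_zero] at h4
    have h5 : piY z Q ^ 2 ∣ piY z P ^ 2 := ⟨2, by rw [h4]; ring⟩
    have h6 : piY z Q ∣ piY z P := (IsIntegrallyClosed.pow_dvd_pow_iff two_ne_zero).1 h5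
    obtain ⟨r, hr⟩ := h6
    rw [hr, mul_pow, mul_comm] at h4
    have h7 : r ^ 2 = 2 := mul_right_cancel₀ (pow_ne_zero 2 hQ) h4
    apply hκ
    refine ⟨constantCoeff r, ?_⟩
    rw [← map_pow, h7, map_ofNat]

end Pool.Agent.MR3
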