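import Pool.Agent.MR3.PlaceA

set_option autoImplicit false

/-!
Module PlaceB2: the action on the place.
-/

namespace Pool.Agent.MR3.PlaceB2Aux

open MvPolynomial PlaceAux

section

variable {D : ℕ} {F : Type} [Field F] {κ : Type} [Field κ] (y : Fin (D + 1) → F)
  (z : Fin (D + 1) → κ)

/-- `a` lies in the local ring of the closed point, with residue `ρ` -/
def Res (a : F) (ρ : κ) : Prop :=
  ∃ P Q : MvPolynomial (Fin (D + 1)) ℤ, aeval z Q ≠ 0 ∧ a * aeval y Q = aeval y P ∧
    ρ * aeval z Q = aeval z P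

variable {y z}

theorem Res.poly (P : MvPolynomial (Fin (D + 1)) ℤ) : Res y z (aeval y P) (aeval z P) :=
  ⟨P, 1, by simp, by simp, by simp⟩

theorem Res.int (n : ℤ) : Res y z (n : F) (n : κ) := by
  have := Res.poly (y := y) (z := z) (C n)
  simpa using this

theorem Res.add {a b : F} {ρ τ : κ} (h : Res y z a ρ) (h' : Res y z b τ) :
    Res y z (a + b) (ρ + τ) := by
  obtain ⟨P, Q, h1, h2, h3⟩ := h
  obtain ⟨P', Q', h1', h2', h3'⟩ := h'
  refine ⟨P * Q' + P' * Q, Q * Q', ?_, ?_, ?_⟩
  · rw [map_mul]; exact mul_ne_zero h1 h1'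
  · rw [map_mul, map_add, map_mul, map_mul, ← h2, ← h2']; ring
  · rw [map_mul, map_add, map_mul, map_mul, ← h3, ← h3']; ring

theorem Res.mul {a b : F} {ρ τ : κ} (h : Res y z a ρ) (h' : Res y z b τ) :
    Res y z (a * b) (ρ * τ) := by
  obtain ⟨P, Q, h1, h2, h3⟩ := h
  obtain ⟨P', Q', h1', h2', h3'⟩ := h'
  refine ⟨P * P', Q * Q', ?_, ?_, ?_⟩
  · rw [map_mul]; exact mul_ne_zero h1 h1'
  · rw [map_mul, map_mul, ← h2, ← h2']; ring
  · rw [map_mul, map_mul, ← h3, ← h3']; ring

theorem Res.sub {a b : F} {ρ τ : κ} (h : Res y z a ρ) (h' : Res y z b τ) :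
    Res y z (a - b) (ρ - τ) := by
  obtain ⟨P, Q, h1, h2, h3⟩ := h
  obtain ⟨P', Q', h1', h2', h3'⟩ := h'
  refine ⟨P * Q' - P' * Q, Q * Q', ?_, ?_, ?_⟩
  · rw [map_mul]; exact mul_ne_zero h1 h1'
  · rw [map_mul, map_sub, map_mul, map_mul, ← h2, ← h2']; ring
  · rw [map_mul, map_sub, map_mul, map_mul, ← h3, ← h3']; ring

variable (spec : ∀ P : MvPolynomial (Fin (D + 1)) ℤ, aeval y P = 0 → aeval z P = 0)
include spec

theorem Res.div {a b : F} {ρ τ : κ} (h : Res y z a ρ) (h' : Res y z b τ) (hτ : τ ≠ 0) :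
    Res y z (a / b) (ρ / τ) := by
  obtain ⟨P, Q, h1, h2, h3⟩ := h
  obtain ⟨P', Q', h1', h2', h3'⟩ := h'
  have hP' : aeval z P' ≠ 0 := by rw [← h3']; exact mul_ne_zero hτ h1'
  have hPy : aeval y P' ≠ 0 := fun h => hP' (spec _ h)
  have hb : b ≠ 0 := by
    rintro rfl
    rw [zero_mul] at h2'
    exact hPy h2'.symm
  refine ⟨P * Q', Q * P', ?_, ?_, ?_⟩
  · rw [map_mul]; exact mul_ne_zero h1 hP'
  · rw [map_mul, map_mul, ← h2, ← h2']; field_simp
  · rw [map_mul, map_mul, ← h3, ← h3']; field_simp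

theorem Res.map {s : RingAut F} (hs : ResId y z s) {a : F} {ρ : κ} (h : Res y z a ρ) :
    Res y z (s a) ρ := by
  have key : ∀ P : MvPolynomial (Fin (D + 1)) ℤ, Res y z (s (aeval y P)) (aeval z P) := by
    intro P
    induction P using MvPolynomial.induction_on with
    | C a =>
      simp only [eq_intCast, map_intCast]
      exact Res.int a
    | add p q hp hq => rw [map_add, map_add, map_add]; exact hp.add hq
    | mul_X p i hp => rw [map_mul, map_mul, map_mul, aeval_X, aeval_X]; exact hp.mul (hs i)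
  obtain ⟨P, Q, h1, h2, h3⟩ := h
  have hQy : aeval y Q ≠ 0 := fun h => h1 (spec _ h)
  have h4 : s a = s (aeval y P) / s (aeval y Q) := by
    rw [← h2, map_mul, mul_div_cancel_right₀]
    rwa [Ne, EmbeddingLike.map_eq_zero_iff]
  have h5 : ρ = aeval z P / aeval z Q := by
    rw [← h3, mul_div_cancel_right₀ _ h1]
  rw [h4, h5]
  exact (key P).div spec (key Q) h1

theorem resId_pow {s : RingAut F} (hs : ResId y z s) (n : ℕ) : ResId y z (s ^ n) := by
  induction n with
  | zero =>
    intro k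
    rw [pow_zero]
    have := Res.poly (y := y) (z := z) (X k)
    rw [aeval_X, aeval_X] at this
    exact this
  | succ n ih =>
    intro k
    have := Res.map spec hs (ih k)
    rw [pow_succ']
    exact this

theorem resId_zpow {s : RingAut F} (hs : ResId y z s) (hs' : ResId y z s⁻¹) (n : ℤ) :
    ResId y z (s ^ n) := by
  rcases n with n | n
  · rw [Int.ofNat_eq_natCast, zpow_natCast]; exact resId_pow spec hs n
  · rw [zpow_negSucc, ← inv_pow]; exact resId_pow spec hs' (n + 1)

end

/-- the generators of the blow-up -/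
noncomputable def Yt {D : ℕ} {F : Type} [Field F] (y : Fin (D + 1) → F) (c : Fin D → ℤ) (l : ℕ) :
    Fin (D + 1) → F :=
  Fin.cases 1 (fun i => (y i.succ - (c i : F)) / (l : F))

theorem res_zero {D : ℕ} {F : Type} [Field F] {κ : Type} [Field κ] [Fintype κ]
    (y : Fin (D + 1) → F) (z : Fin (D + 1) → κ) (g : MvPolynomial (Fin (D + 1)) ℤ)
    (hgy : aeval y g = 0) (l : ℕ) [CharP κ l] (hlF : (l : F) ≠ 0)
    (spec : ∀ P : MvPolynomial (Fin (D + 1)) ℤ, aeval y P = 0 → aeval z P = 0)
    (c : Fin D → ℤ) (hl : l.Prime) (hc : ∀ i : Fin D, z i.succ = (c i : κ))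
    (hz : aeval z g = 0) (hz' : aeval z (pderiv 0 g) ≠ 0) (a : F) (h : Res y z a 0) :
    ∃ (o : Fin (D + 1) → F) (ρ : Fin (D + 1) → κ), (∀ j, Res y z (o j) (ρ j)) ∧
      a = l * ∑ j, o j * Yt y c l j := by
  obtain ⟨P, Q, hQ, hPQ, hP⟩ := h
  rw [zero_mul] at hP
  obtain ⟨ψ, hψ, hψ'⟩ := exists_psi g l z c hl hc hz hz'
  obtain ⟨q, r, hqr⟩ := hψ' (res c P) (by rw [aeval_res z c hc, hP])
  have hmem : emb D ψ * (P - emb D (res c P)) - (g - emb D (res c g)) * emb D q ∈
      Ideal.span (Set.range fun i : Fin D => (X i.succ - C (c i) : MvPolynomial (Fin (D + 1)) ℤ)) :=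
    Ideal.sub_mem _ (Ideal.mul_mem_left _ _ (emb_res_sub_mem c P))
      (Ideal.mul_mem_right _ _ (emb_res_sub_mem c g))
  rw [Ideal.mem_span_range_iff_exists_fun] at hmem
  obtain ⟨w, hw⟩ := hmem
  have h1 : emb D ψ * P = g * emb D q + C (l : ℤ) * emb D r +
      ∑ i, w i * (X i.succ - C (c i)) := by
    rw [hw]
    have h2 := congrArg (emb D) hqr
    rw [map_mul, map_add, map_mul, map_mul] at h2
    have h3 : emb D (Polynomial.C (l : ℤ)) = C (l : ℤ) := by simp [emb]
    rw [h3] at h2
    linear_combination h2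
  have h4 := congrArg (aeval y) h1
  rw [map_mul, map_add, map_add, map_mul, hgy, zero_mul, zero_add, map_mul, aeval_C, map_sum] at h4
  have hψz : aeval z (emb D ψ) ≠ 0 := by
    have h5 : aeval z (emb D ψ) = Polynomial.aeval (z 0) ψ := by
      have : ((aeval z).comp (emb D) : Polynomial ℤ →ₐ[ℤ] κ) = Polynomial.aeval (z 0) := by
        apply Polynomial.algHom_ext
        simp [emb]
      rw [← this]; rfl
    rw [h5]; exact hψ
  have hQy : aeval y Q ≠ 0 := fun h => hQ (spec _ h)
  have hψy : aeval y (emb D ψ) ≠ 0 := fun h => hψz (spec _ h)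
  have hden : aeval z (Q * emb D ψ) ≠ 0 := by rw [map_mul]; exact mul_ne_zero hQ hψz
  refine ⟨Fin.cases (aeval y (emb D r) / aeval y (Q * emb D ψ))
      (fun i => aeval y (w i) / aeval y (Q * emb D ψ)),
    Fin.cases (aeval z (emb D r) / aeval z (Q * emb D ψ))
      (fun i => aeval z (w i) / aeval z (Q * emb D ψ)), ?_, ?_⟩
  · intro j
    refine Fin.cases ?_ (fun i => ?_) j
    · exact (Res.poly _).div spec (Res.poly _) hden
    · exact (Res.poly _).div spec (Res.poly _) hden
  · rw [Fin.sum_univ_succ]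
    simp only [Fin.cases_zero, Fin.cases_succ, Yt, mul_one]
    have h6 : a * (aeval y Q * aeval y (emb D ψ)) = (l : F) * aeval y (emb D r) +
        ∑ i, aeval y (w i) * (y i.succ - (c i : F)) := by
      rw [← mul_assoc, hPQ, mul_comm, h4]
      simp
    have h7 : ∀ i : Fin D, aeval y (w i) / aeval y (Q * emb D ψ) *
        ((y i.succ - (c i : F)) / (l : F)) =
        (aeval y (w i) * (y i.succ - (c i : F))) / (aeval y (Q * emb D ψ) * (l : F)) := by
      intro i
      rw [div_mul_div_comm]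
    simp only [h7]
    rw [← Finset.sum_div, map_mul]
    field_simp
    linear_combination h6

end Pool.Agent.MR3.PlaceB2Aux

namespace Pool.Agent.MR3

open MvPolynomial PlaceAux PlaceB2Aux

theorem PlaceB2_proof : Stmt_PlaceB2 := by
  intro D F _ _ y g hg hgen l κ _ _ _ z c hl hc hz hz' v hna hvl hpow hle hlt hrep s hs hs'
  have hl0 : (l : F) ≠ 0 := Nat.cast_ne_zero.2 hl.ne_zero
  have hvl0 : 0 < v (l : F) := v.pos hl0
  have spec : ∀ P : MvPolynomial (Fin (D + 1)) ℤ, aeval y P = 0 → aeval z P = 0 :=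
    fun P hP => spec_of_kerGen hg hl hz hz' hP
  have hgy : aeval y g = 0 := (hg g).2 ⟨1, one_ne_zero, by rw [C_1, one_mul]⟩
  have hvP : ∀ P : MvPolynomial (Fin (D + 1)) ℤ, v (aeval y P) ≤ 1 := by
    intro P
    rw [← evY_sub y c l hl0]; exact hle _
  have hvQ : ∀ Q : MvPolynomial (Fin (D + 1)) ℤ, aeval z Q ≠ 0 → v (aeval y Q) = 1 := by
    intro Q hQ
    apply le_antisymm (hvP Q)
    by_contra h
    push Not at h
    rw [← evY_sub y c l hl0, hlt, piY_sub l z c hc, C_eq_zero] at h
    exact hQ h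
  have hvR : ∀ a ρ, Res y z a ρ → v a ≤ 1 := by
    rintro a ρ ⟨P, Q, h1, h2, _⟩
    have h3 := congrArg v h2
    rw [map_mul, hvQ Q h1, mul_one] at h3
    rw [h3]; exact hvP P
  have hY : ∀ j, v (Yt y c l j) ≤ 1 := by
    intro j
    refine Fin.cases ?_ (fun i => ?_) j
    · simp [Yt]
    · have h1 : Yt y c l i.succ = evY y c l (X i.succ) := by simp [Yt, evY]
      rw [h1]; exact hle _
  have hsum : ∀ (f : Fin (D + 1) → F) (r : ℝ), 0 ≤ r → (∀ j, v (f j) ≤ r) → v (∑ j, f j) ≤ r := by
    intro f r hr hf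
    have : ∀ t : Finset (Fin (D + 1)), v (∑ j ∈ t, f j) ≤ r := by
      intro t
      induction t using Finset.induction_on with
      | empty => simpa using hr
      | insert a t ha ih =>
        rw [Finset.sum_insert ha]
        exact (hna _ _).trans (max_le (hf a) ih)
    exact this _
  have hR0 : ∀ a, Res y z a 0 → ∃ (o : Fin (D + 1) → F) (ρ : Fin (D + 1) → κ),
      (∀ j, Res y z (o j) (ρ j)) ∧ a = l * ∑ j, o j * Yt y c l j :=
    fun a h => res_zero y z g hgy l hl0 spec c hl hc hz hz' a h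
  have hvsum : ∀ (o : Fin (D + 1) → F) (ρ : Fin (D + 1) → κ), (∀ j, Res y z (o j) (ρ j)) →
      v (∑ j, o j * Yt y c l j) ≤ 1 := by
    intro o ρ h
    apply hsum _ _ zero_le_one
    intro j
    rw [map_mul]
    exact mul_le_one₀ (hvR _ _ (h j)) (v.nonneg _) (hY j)
  -- the orbit of the generators
  have horb : ∀ (n : ℤ) (i : Fin D), ∃ (o : Fin (D + 1) → F) (ρ : Fin (D + 1) → κ),
      (∀ j, Res y z (o j) (ρ j)) ∧ (s ^ n) (Yt y c l i.succ) = ∑ j, o j * Yt y c l j := by
    intro n i
    have h1 : Res y z ((s ^ n) (y i.succ) - (c i : F)) 0 := by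
      have h2 := (resId_zpow spec hs hs' n i.succ : Res y z ((s ^ n) (y i.succ)) (z i.succ))
      have h3 := Res.sub h2 (Res.int (c i))
      rwa [hc, sub_self] at h3
    obtain ⟨o, ρ, ho, h4⟩ := hR0 _ h1
    refine ⟨o, ρ, ho, ?_⟩
    have h5 : (s ^ n) (Yt y c l i.succ) = ((s ^ n) (y i.succ) - (c i : F)) / (l : F) := by
      simp [Yt, map_div₀, map_sub]
    rw [h5, h4, mul_div_cancel_left₀ _ hl0]
  -- the invariant ring
  let B : F → Prop := fun x => ∀ n : ℤ, v ((s ^ n) x) ≤ 1
  have hBR : ∀ a ρ, Res y z a ρ → B a := fun a ρ h n =>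
    hvR _ _ (Res.map spec (resId_zpow spec hs hs' n) h)
  have hBY : ∀ j, B (Yt y c l j) := by
    intro j
    refine Fin.cases ?_ (fun i => ?_) j
    · intro n; simp [Yt]
    · intro n
      obtain ⟨o, ρ, ho, h1⟩ := horb n i
      rw [h1]; exact hvsum o ρ ho
  have hBmul : ∀ a b, B a → B b → B (a * b) := by
    intro a b ha hb n
    rw [map_mul, map_mul]
    exact mul_le_one₀ (ha n) (v.nonneg _) (hb n)
  have hBsum : ∀ f : Fin (D + 1) → F, (∀ j, B (f j)) → B (∑ j, f j) := by
    intro f hf n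
    rw [map_sum]
    exact hsum _ _ zero_le_one (fun j => hf j n)
  -- pigeonhole
  choose o ρ ho hoY using fun (n : ℕ) (i : Fin D) => horb (n : ℤ) i
  obtain ⟨a', b', hab', hρ'⟩ := Finite.exists_ne_map_eq_of_infinite (fun n : ℕ => ρ n)
  obtain ⟨a, b, hab, hρ⟩ : ∃ a b : ℕ, a < b ∧ ρ a = ρ b := by
    rcases lt_or_gt_of_ne hab' with h | h
    · exact ⟨a', b', h, hρ'⟩
    · exact ⟨b', a', h, hρ'.symm⟩
  obtain ⟨m, hm, rfl⟩ : ∃ m, 0 < m ∧ b = a + m := ⟨b - a, by omega, by omega⟩
  have hgam : ∀ i : Fin D, ∃ γ, B γ ∧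
      Yt y c l i.succ - (s ^ m) (Yt y c l i.succ) = (l : F) * γ := by
    intro i
    have h1 : ∀ j, ∃ β, B β ∧ o a i j - o (a + m) i j = (l : F) * β := by
      intro j
      have h2 := (ho a i j).sub (ho (a + m) i j)
      rw [hρ, sub_self] at h2
      obtain ⟨o', ρ', ho', h3⟩ := hR0 _ h2
      exact ⟨_, hBsum _ fun k => hBmul _ _ (hBR _ _ (ho' k)) (hBY k), h3⟩
    choose β hβ hβ' using h1
    have h3 : (s ^ a) (Yt y c l i.succ) - (s ^ (a + m)) (Yt y c l i.succ) =
        (l : F) * ∑ j, β j * Yt y c l j := by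
      have e1 := hoY a i
      have e2 := hoY (a + m) i
      rw [zpow_natCast] at e1 e2
      rw [e1, e2, ← Finset.sum_sub_distrib, Finset.mul_sum]
      apply Finset.sum_congr rfl
      intro j _
      rw [← sub_mul, hβ', mul_assoc]
    refine ⟨(s ^ (-(a : ℤ))) (∑ j, β j * Yt y c l j), ?_, ?_⟩
    · intro n
      have h4 := hBsum _ (fun k => hBmul _ _ (hβ k) (hBY k)) (n + -(a : ℤ))
      rw [zpow_add] at h4
      exact h4
    · have h4 := congrArg (s ^ (-(a : ℤ))) h3
      rw [map_sub, map_mul, map_natCast] at h4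
      rw [← h4]
      have e1 : (s ^ (-(a : ℤ))) ((s ^ a) (Yt y c l i.succ)) = Yt y c l i.succ := by
        rw [← RingAut.mul_apply, ← zpow_natCast, ← zpow_add, neg_add_cancel, zpow_zero]; rfl
      have e2 : (s ^ (-(a : ℤ))) ((s ^ (a + m)) (Yt y c l i.succ)) = (s ^ m) (Yt y c l i.succ) := by
        rw [← RingAut.mul_apply, ← zpow_natCast, ← zpow_natCast, ← zpow_add]
        congr 2
        push_cast; ring
      rw [e1, e2]
  refine ⟨m, hm, ?_⟩
  set t : RingAut F := s ^ m with ht
  -- the set of elements of `O` which are almost fixed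
  let T : F → Prop := fun x => v x ≤ 1 ∧ v (t x - x) ≤ v (l : F)
  have hvneg : ∀ x, v (-x) = v x := fun x => v.map_neg x
  have hTadd : ∀ x x', T x → T x' → T (x + x') := by
    intro x x' hx hx'
    refine ⟨(hna _ _).trans (max_le hx.1 hx'.1), ?_⟩
    have : t (x + x') - (x + x') = (t x - x) + (t x' - x') := by rw [map_add]; ring
    rw [this]
    exact (hna _ _).trans (max_le hx.2 hx'.2)
  have hTmul : ∀ x x', T x → T x' → T (x * x') := by
    intro x x' hx hx'
    have htx : v (t x) ≤ 1 := by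
      have h1 : t x = (t x - x) + x := by ring
      rw [h1]
      exact (hna _ _).trans (max_le (hx.2.trans hvl.le) hx.1)
    refine ⟨?_, ?_⟩
    · rw [map_mul]; exact mul_le_one₀ hx.1 (v.nonneg _) hx'.1
    have : t (x * x') - x * x' = t x * (t x' - x') + (t x - x) * x' := by rw [map_mul]; ring
    rw [this]
    refine (hna _ _).trans (max_le ?_ ?_)
    · rw [map_mul]
      exact (mul_le_mul htx hx'.2 (v.nonneg _) zero_le_one).trans (one_mul _).le
    · rw [map_mul]
      exact (mul_le_mul hx.2 hx'.1 (v.nonneg _) hvl0.le).trans (mul_one _).le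
  have hTP : ∀ P, T (evY y c l P) := by
    intro P
    induction P using MvPolynomial.induction_on with
    | C a =>
      have h1 : evY y c l (C a) = (a : F) := by
        rw [← algebraMap_eq, AlgHom.commutes]; simp
      refine ⟨hle _, ?_⟩
      rw [h1, map_intCast, sub_self, map_zero]
      exact hvl0.le
    | add p q hp hq => rw [map_add]; exact hTadd _ _ hp hq
    | mul_X p i hp =>
      rw [map_mul]
      refine hTmul _ _ hp ?_
      refine ⟨hle _, ?_⟩
      refine Fin.cases ?_ (fun j => ?_) i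
      · have h1 : evY y c l (X 0) = y 0 := by simp [evY]
        rw [h1]
        have h2 : Res y z (t (y 0) - y 0) 0 := by
          have h3 := (resId_pow spec hs m 0 : Res y z ((s ^ m) (y 0)) (z 0))
          have h5 : Res y z (y 0) (z 0) := by
            have := Res.poly (y := y) (z := z) (X 0)
            rwa [aeval_X, aeval_X] at this
          have h4 := Res.sub h3 h5
          rwa [sub_self] at h4
        obtain ⟨o', ρ', ho', h3⟩ := hR0 _ h2
        rw [h3, map_mul]
        exact (mul_le_mul le_rfl (hvsum _ _ ho') (v.nonneg _) hvl0.le).trans (mul_one _).le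
      · have h1 : evY y c l (X j.succ) = Yt y c l j.succ := by simp [Yt, evY]
        rw [h1]
        obtain ⟨γ, hγ, h2⟩ := hgam j
        rw [← hvneg, neg_sub, h2, map_mul]
        have h3 := hγ 0
        rw [zpow_zero] at h3
        exact (mul_le_mul le_rfl h3 (v.nonneg _) hvl0.le).trans (mul_one _).le
  have hTO : ∀ x, v x ≤ 1 → v (t x - x) ≤ v (l : F) := by
    intro x hx
    obtain ⟨P, Q, hQ, hPQ⟩ := hrep x hx
    have hvQ1 : v (evY y c l Q) = 1 := by
      apply le_antisymm (hle Q)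
      by_contra h
      push Not at h
      exact hQ ((hlt Q).1 h)
    have hvtQ : v (t (evY y c l Q)) = 1 := by
      apply le_antisymm
      · have h1 : t (evY y c l Q) = (t (evY y c l Q) - evY y c l Q) + evY y c l Q := by ring
        rw [h1]
        exact (hna _ _).trans (max_le ((hTP Q).2.trans hvl.le) hvQ1.le)
      · by_contra h
        push Not at h
        have h1 : evY y c l Q = t (evY y c l Q) + -(t (evY y c l Q) - evY y c l Q) := by ring
        have h2 : v (evY y c l Q) < 1 := by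
          rw [h1]
          refine (hna _ _).trans_lt (max_lt h ?_)
          rw [hvneg]; exact (hTP Q).2.trans_lt hvl
        linarith
    have h1 : (t x - x) * t (evY y c l Q) =
        (t (evY y c l P) - evY y c l P) + -(x * (t (evY y c l Q) - evY y c l Q)) := by
      rw [← hPQ, map_mul]; ring
    have h2 := congrArg v h1
    rw [map_mul, hvtQ, mul_one] at h2
    rw [h2]
    refine (hna _ _).trans (max_le (hTP P).2 ?_)
    rw [hvneg, map_mul]
    exact (mul_le_mul hx (hTP Q).2 (v.nonneg _) zero_le_one).trans (one_mul _).le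
  have hunit : ∀ x, v x = 1 → v (t x) = 1 := by
    intro x hx
    have h0 := hTO x hx.le
    apply le_antisymm
    · have h1 : t x = (t x - x) + x := by ring
      rw [h1]
      exact (hna _ _).trans (max_le (h0.trans hvl.le) hx.le)
    · by_contra h
      push Not at h
      have h1 : x = t x + -(t x - x) := by ring
      have h2 : v x < 1 := by
        rw [h1]
        refine (hna _ _).trans_lt (max_lt ?_ ?_)
        · have : t (t x + -(t x - x)) = t x := by congr 1; ring
          exact h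
        · rw [hvneg]; exact h0.trans_lt hvl
      linarith
  have hfac : ∀ x, x ≠ 0 → ∃ (n : ℤ) (u : F), v u = 1 ∧ x = (l : F) ^ n * u := by
    intro x hx
    obtain ⟨n, hn⟩ := hpow x hx
    refine ⟨n, x / (l : F) ^ n, ?_, ?_⟩
    · rw [map_div₀, map_zpow₀, hn, div_self (zpow_ne_zero _ hvl0.ne')]
    · rw [mul_div_cancel₀ _ (zpow_ne_zero _ hl0)]
  constructor
  · intro x
    rcases eq_or_ne x 0 with rfl | hx
    · rw [map_zero]
    · obtain ⟨n, u, hu, rfl⟩ := hfac x hx
      rw [map_mul, map_zpow₀, map_natCast, map_mul, map_mul, hunit u hu, hu]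
  · intro x
    rcases eq_or_ne x 0 with rfl | hx
    · simp
    · obtain ⟨n, u, hu, rfl⟩ := hfac x hx
      rw [map_mul, map_zpow₀, map_natCast, ← mul_sub, map_mul, map_mul, hu, mul_one, mul_comm]
      exact mul_le_mul_of_nonneg_right (hTO u hu.le) (v.nonneg _)

end Pool.Agent.MR3
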