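import Pool.Agent.MR3.Elim

set_option autoImplicit false

namespace Pool.Agent.MR3.PresM

open MvPolynomial Finset Pool.Agent.MR3

/-- generation and closure -/
lemma genBy_of_closure {F : Type} [Field F] {σ : Type} (y : σ → F)
    (h : Subfield.closure (Set.range y) = ⊤) : GenBy y := by
  have hsub : ∀ a ∈ Subring.closure (Set.range y), ∃ P : MvPolynomial σ ℤ, aeval y P = a := by
    have : Subring.closure (Set.range y) ≤
        ((aeval y : MvPolynomial σ ℤ →ₐ[ℤ] F) : MvPolynomial σ ℤ →+* F).range := by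
      rw [Subring.closure_le]
      rintro _ ⟨i, rfl⟩
      exact ⟨X i, by simp⟩
    intro a ha
    obtain ⟨P, hP⟩ := this ha
    exact ⟨P, hP⟩
  intro z
  have hz : z ∈ Subfield.closure (Set.range y) := by rw [h]; trivial
  rw [Subfield.mem_closure_iff] at hz
  obtain ⟨a, ha, b, hb, hab⟩ := hz
  obtain ⟨P, hP⟩ := hsub a ha
  obtain ⟨Q, hQ⟩ := hsub b hb
  by_cases hb0 : b = 0
  · refine ⟨0, 1, by simp, ?_⟩
    rw [← hab, hb0]
    simp
  · refine ⟨P, Q, by rwa [hQ], ?_⟩
    rw [hP, hQ, ← hab]
    field_simp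

lemma closure_of_genBy {F : Type} [Field F] {σ : Type} (y : σ → F) (h : GenBy y) :
    Subfield.closure (Set.range y) = ⊤ := by
  rw [eq_top_iff]
  intro z _
  obtain ⟨P, Q, hQ, hz⟩ := h z
  have hmem : ∀ P : MvPolynomial σ ℤ, aeval y P ∈ Subfield.closure (Set.range y) := by
    intro P
    induction P using MvPolynomial.induction_on with
    | C a => simp
    | add p q hp hq => rw [map_add]; exact add_mem hp hq
    | mul_X p i hp =>
      rw [map_mul, aeval_X]
      exact mul_mem hp (Subfield.subset_closure ⟨i, rfl⟩)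
  have : z = aeval y P / aeval y Q := by field_simp; exact hz
  rw [this]
  exact div_mem (hmem P) (hmem Q)

/-- principal kernel -/
lemma principal {F : Type} [Field F] (D : ℕ) (y : Fin (D + 1) → F)
    (hind : ∀ r : MvPolynomial (Fin D) ℤ, aeval (fun i => y (Fin.succ i)) r = 0 → r = 0)
    (hne : ∃ P : MvPolynomial (Fin (D + 1)) ℤ, P ≠ 0 ∧ aeval y P = 0) :
    ∃ f : MvPolynomial (Fin (D + 1)) ℤ, f ≠ 0 ∧ ∀ P, aeval y P = 0 ↔ f ∣ P := by
  obtain ⟨P0, hP0, hP0y⟩ := hne
  let I : Ideal (MvPolynomial (Fin (D + 1)) ℤ) :=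
    RingHom.ker ((aeval y : MvPolynomial (Fin (D + 1)) ℤ →ₐ[ℤ] F) :
      MvPolynomial (Fin (D + 1)) ℤ →+* F)
  have hI : ∀ P, P ∈ I ↔ aeval y P = 0 := fun P => Iff.rfl
  have hprime : I.IsPrime := RingHom.ker_isPrime _
  have hIne : I ≠ ⊥ := by
    intro h
    apply hP0
    have : P0 ∈ I := hP0y
    rw [h] at this
    simpa using this
  obtain ⟨f, hfI, hf⟩ := hprime.exists_mem_prime_of_ne_bot hIne
  refine ⟨f, hf.ne_zero, fun P => ⟨fun hP => ?_, ?_⟩⟩
  · by_contra hndvd
    let G := finSuccEquiv ℤ D f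
    let H := finSuccEquiv ℤ D P
    have hGp : Prime G := (MulEquiv.prime_iff (finSuccEquiv ℤ D).toMulEquiv).mpr hf
    have hGdeg : 0 < G.natDegree := by
      rw [Nat.pos_iff_ne_zero]
      intro h0
      obtain ⟨r, hr⟩ := Polynomial.natDegree_eq_zero.mp h0
      have h1 : aeval y f = aeval (fun i => y (Fin.succ i)) r := by
        rw [ElimM.aeval_finSucc]
        change Polynomial.eval₂ _ _ G = _
        rw [← hr, Polynomial.eval₂_C]
        rfl
      have h2 : r = 0 := hind r (by rw [← h1]; exact hfI)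
      apply hGp.ne_zero
      rw [← hr, h2, map_zero]
    have hres : Polynomial.resultant G H G.natDegree H.natDegree = 0 := by
      obtain ⟨p, q, -, -, hbez⟩ := Polynomial.exists_mul_add_mul_eq_C_resultant
        (m := G.natDegree) (n := H.natDegree) G H le_rfl le_rfl
        (Or.inl (by omega))
      apply hind
      have h1 := congrArg (Polynomial.eval₂ ((aeval (fun i => y (Fin.succ i)) :
        MvPolynomial (Fin D) ℤ →ₐ[ℤ] F) : MvPolynomial (Fin D) ℤ →+* F) (y 0)) hbez
      rw [Polynomial.eval₂_add, Polynomial.eval₂_mul, Polynomial.eval₂_mul, Polynomial.eval₂_C] at h1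
      have h2 : Polynomial.eval₂ ((aeval (fun i => y (Fin.succ i)) :
        MvPolynomial (Fin D) ℤ →ₐ[ℤ] F) : MvPolynomial (Fin D) ℤ →+* F) (y 0) G = 0 := by
        rw [← ElimM.aeval_finSucc]; exact hfI
      have h3 : Polynomial.eval₂ ((aeval (fun i => y (Fin.succ i)) :
        MvPolynomial (Fin D) ℤ →ₐ[ℤ] F) : MvPolynomial (Fin D) ℤ →+* F) (y 0) H = 0 := by
        rw [← ElimM.aeval_finSucc]; exact hP
      rw [h2, h3, zero_mul, zero_mul, zero_add] at h1
      exact h1.symm
    obtain ⟨p, q, hpq, hp, hq, hrel⟩ := ElimM.exists_syzygy G H _ _ le_rfl le_rfl hres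
    have hGH : ¬ G ∣ H := by
      rintro ⟨u, hu⟩
      apply hndvd
      refine ⟨(finSuccEquiv ℤ D).symm u, ?_⟩
      apply (finSuccEquiv ℤ D).injective
      rw [map_mul, AlgEquiv.apply_symm_apply]
      exact hu
    have hGp' : G ∣ H * p := by
      refine ⟨-q, ?_⟩
      linear_combination hrel
    have hp0 : p = 0 := by
      rcases hGp.dvd_or_dvd hGp' with h | h
      · exact absurd h hGH
      · by_contra hpne
        have hle := Polynomial.natDegree_le_of_dvd h hpne
        have hlt := (Polynomial.natDegree_lt_iff_degree_lt hpne).mpr hp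
        omega
    have hq0 : q = 0 := by
      rw [hp0, mul_zero, add_zero] at hrel
      rcases mul_eq_zero.mp hrel with h2 | h2
      · exact absurd h2 hGp.ne_zero
      · exact h2
    rcases hpq with h | h
    · exact h hp0
    · exact h hq0
  · rintro ⟨u, rfl⟩
    rw [map_mul]
    have : aeval y f = 0 := hfI
    rw [this, zero_mul]

lemma exists_basis {F : Type} [Field F] [CharZero F] {σ : Type} [Finite σ] (x : σ → F)
    (hx : GenBy x) : ∃ (D : ℕ) (t : Fin D → F), IsTranscendenceBasis ℤ t := by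
  classical
  have hmem : ∀ P : MvPolynomial σ ℤ, aeval x P ∈ Algebra.adjoin ℤ (Set.range x) := by
    intro P
    rw [Algebra.adjoin_range_eq_range_aeval]
    exact ⟨P, rfl⟩
  have hfaith : FaithfulSMul ℤ F := by
    refine ⟨fun {a b} h => ?_⟩
    have := h 1
    simpa using this
  have halg : Algebra.IsAlgebraic (Algebra.adjoin ℤ (Set.range x)) F := by
    refine ⟨fun z => ?_⟩
    obtain ⟨P, Q, hQ, hz⟩ := hx z
    have h1 : IsAlgebraic (Algebra.adjoin ℤ (Set.range x)) (aeval x P) :=
      isAlgebraic_algebraMap (⟨aeval x P, hmem P⟩ : Algebra.adjoin ℤ (Set.range x))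
    have h2 : IsAlgebraic (Algebra.adjoin ℤ (Set.range x)) (aeval x Q) :=
      isAlgebraic_algebraMap (⟨aeval x Q, hmem Q⟩ : Algebra.adjoin ℤ (Set.range x))
    have h3 : z = aeval x P * (aeval x Q)⁻¹ := by
      field_simp
      exact hz
    rw [h3]
    exact h1.mul h2.inv
  obtain ⟨t, hts, ht⟩ := exists_isTranscendenceBasis_subset (R := ℤ) (A := F) (Set.range x)
  have hfin : t.Finite := (Set.finite_range x).subset hts
  have : Finite t := hfin.to_subtype
  obtain ⟨D, ⟨e⟩⟩ := Finite.exists_equiv_fin t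
  exact ⟨D, (fun i => ((e.symm i : t) : F)), ht.comp_equiv e.symm⟩

lemma exists_primitive {F : Type} [Field F] [CharZero F] {σ : Type} [Finite σ] (x : σ → F)
    (hx : GenBy x) {D : ℕ} (t : Fin D → F) (ht : IsTranscendenceBasis ℤ t) :
    ∃ θ : F, Subfield.closure (Set.range (Fin.cons θ t : Fin (D + 1) → F)) = ⊤ := by
  classical
  obtain ⟨K, hK⟩ : ∃ K : Subfield F, K = Subfield.closure (Set.range t) := ⟨_, rfl⟩
  have hAK : ∀ a ∈ Algebra.adjoin ℤ (Set.range t), a ∈ K := by
    intro a ha
    rw [Algebra.adjoin_range_eq_range_aeval] at ha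
    obtain ⟨P, rfl⟩ := ha
    change aeval t P ∈ K
    induction P using MvPolynomial.induction_on with
    | C a => simp
    | add p q hp hq => rw [map_add]; exact add_mem hp hq
    | mul_X p i hp =>
      rw [map_mul, aeval_X]
      refine mul_mem hp ?_
      rw [hK]
      exact Subfield.subset_closure ⟨i, rfl⟩
  have halgA : Algebra.IsAlgebraic (Algebra.adjoin ℤ (Set.range t)) F := ht.isAlgebraic
  have halg : ∀ z : F, IsAlgebraic K z := by
    intro z
    obtain ⟨p, hp, hpz⟩ := halgA.isAlgebraic z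
    let j : Algebra.adjoin ℤ (Set.range t) →+* K :=
      { toFun := fun a => ⟨a.1, hAK a.1 a.2⟩
        map_one' := rfl
        map_mul' := fun _ _ => rfl
        map_zero' := rfl
        map_add' := fun _ _ => rfl }
    have hj : Function.Injective j := by
      intro a b hab
      exact Subtype.ext (congrArg (fun k : K => (k : F)) hab)
    refine ⟨p.map j, (Polynomial.map_ne_zero_iff hj).mpr hp, ?_⟩
    rw [Polynomial.aeval_def, Polynomial.eval₂_map]
    exact hpz
  have htop : IntermediateField.adjoin K (Set.range x) = ⊤ := by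
    rw [eq_top_iff]
    intro z _
    have hz : z ∈ Subfield.closure (Set.range x) := by
      rw [closure_of_genBy x hx]; trivial
    have hle : Subfield.closure (Set.range x) ≤
        (IntermediateField.adjoin K (Set.range x)).toSubfield := by
      rw [Subfield.closure_le]
      exact IntermediateField.subset_adjoin K _
    exact hle hz
  have hfd1 : FiniteDimensional K (IntermediateField.adjoin K (Set.range x)) :=
    IntermediateField.finiteDimensional_adjoin (fun z _ => (halg z).isIntegral)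
  rw [htop] at hfd1
  have hfd : FiniteDimensional K F :=
    (IntermediateField.topEquiv (F := K) (E := F)).toLinearEquiv.finiteDimensional
  have hsep : Algebra.IsSeparable K F := inferInstance
  obtain ⟨θ, hθ⟩ := Field.exists_primitive_element K F
  refine ⟨θ, ?_⟩
  obtain ⟨L, hL⟩ : ∃ L : Subfield F,
    L = Subfield.closure (Set.range (Fin.cons θ t : Fin (D + 1) → F)) := ⟨_, rfl⟩
  rw [← hL]
  have hKL : K ≤ L := by
    rw [hK, hL, Subfield.closure_le]
    rintro _ ⟨i, rfl⟩
    exact Subfield.subset_closure ⟨i.succ, by simp⟩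
  have hθL : θ ∈ L := by
    rw [hL]
    exact Subfield.subset_closure ⟨0, by simp⟩
  let L' : IntermediateField K F := Subfield.toIntermediateField L (fun k => hKL k.2)
  have hle : IntermediateField.adjoin K {θ} ≤ L' := by
    rw [IntermediateField.adjoin_simple_le_iff]
    exact hθL
  rw [eq_top_iff]
  intro z _
  have hz : z ∈ IntermediateField.adjoin K {θ} := by
    rw [hθ]; trivial
  exact hle hz

lemma exists_rel {F : Type} [Field F] {D : ℕ} (t : Fin D → F) (ht : IsTranscendenceBasis ℤ t)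
    (θ : F) : ∃ P : MvPolynomial (Fin (D + 1)) ℤ, P ≠ 0 ∧
      aeval (Fin.cons θ t : Fin (D + 1) → F) P = 0 := by
  have halgA : Algebra.IsAlgebraic (Algebra.adjoin ℤ (Set.range t)) F := ht.isAlgebraic
  obtain ⟨p, hp, hpz⟩ := halgA.isAlgebraic θ
  let e := ht.1.aevalEquiv
  refine ⟨(finSuccEquiv ℤ D).symm
    (p.map ((e.symm : _ ≃ₐ[ℤ] _) : Algebra.adjoin ℤ (Set.range t) →+* MvPolynomial (Fin D) ℤ)),
    ?_, ?_⟩
  · intro h
    have h1 := (map_eq_zero_iff (finSuccEquiv ℤ D).symm (finSuccEquiv ℤ D).symm.injective).mp h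
    exact (Polynomial.map_ne_zero_iff e.symm.injective).mpr hp h1
  · rw [ElimM.aeval_finSucc, AlgEquiv.apply_symm_apply, Polynomial.eval₂_map]
    rw [Polynomial.aeval_def] at hpz
    have : ((aeval fun i : Fin D => (Fin.cons θ t : Fin (D + 1) → F) i.succ :
        MvPolynomial (Fin D) ℤ →ₐ[ℤ] F) : MvPolynomial (Fin D) ℤ →+* F).comp
        ((e.symm : _ ≃ₐ[ℤ] _) : Algebra.adjoin ℤ (Set.range t) →+* MvPolynomial (Fin D) ℤ) =
        algebraMap (Algebra.adjoin ℤ (Set.range t)) F := by
      ext a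
      have h1 := ht.1.algebraMap_aevalEquiv (e.symm a)
      rw [show ht.1.aevalEquiv (e.symm a) = a from e.apply_symm_apply a] at h1
      rw [h1]
      simp
    rw [this]
    simpa using hpz

theorem main : Stmt_Pres := by
  intro F _ _ σ _ x hx
  obtain ⟨D, t, ht⟩ := exists_basis x hx
  obtain ⟨θ, hθ⟩ := exists_primitive x hx t ht
  obtain ⟨f, hf0, hf⟩ := principal D (Fin.cons θ t : Fin (D + 1) → F) (by
    intro r hr
    have hr' : aeval t r = 0 := by simpa using hr
    exact (injective_iff_map_eq_zero (aeval t : MvPolynomial (Fin D) ℤ →ₐ[ℤ] F)).mp ht.1 r hr')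
    (exists_rel t ht θ)
  refine ⟨D, Fin.cons θ t, f, genBy_of_closure _ hθ, hf0, fun P => ?_⟩
  constructor
  · intro h
    exact ⟨1, one_ne_zero, by simpa using (hf P).mp h⟩
  · rintro ⟨n, hn, h⟩
    have h1 := (hf _).mpr h
    rw [map_mul] at h1
    rcases mul_eq_zero.mp h1 with h2 | h2
    · simp [hn] at h2
    · exact h2

end Pool.Agent.MR3.PresM

namespace Pool.Agent.MR3

theorem Pres_proof : Stmt_Pres := PresM.main

end Pool.Agent.MR3
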