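import Pool.Agent.MR3.Defs

set_option autoImplicit false

/-!
# MR3 module Primes (helper46)
-/

namespace Pool.Agent.MR3

open Finset ArithmeticFunction ArithmeticFunction.vonMangoldt

/-- primes `3 mod 8` below `n` -/
def prs (n : ℕ) : Finset ℕ := (Icc 1 n).filter (fun l => l.Prime ∧ l % 8 = 3)

theorem fact_le (j : ℕ) : j.factorial ≤ 2 ^ 2 ^ j := by
  induction j with
  | zero => norm_num
  | succ j ih =>
    rw [Nat.factorial_succ]
    have h1 : j + 1 ≤ 2 ^ 2 ^ j := by
      have h2 : j < 2 ^ j := Nat.lt_two_pow_self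
      have h3 : 2 ^ j < 2 ^ 2 ^ j := Nat.lt_two_pow_self
      omega
    calc (j + 1) * j.factorial ≤ 2 ^ 2 ^ j * 2 ^ 2 ^ j := Nat.mul_le_mul h1 ih
      _ = 2 ^ 2 ^ (j + 1) := by rw [← pow_add]; congr 1; ring

theorem Primes_proof : Stmt_Primes := by
  intro K
  by_contra hcon
  push Not at hcon
  have hcount : ∀ j, (prs (2 ^ 2 ^ j)).card ≤ 2 * K ^ (j + 1) := by
    intro j
    have hsub : prs (2 ^ 2 ^ j) ⊆ range (K ^ (j + 1)) ∪
        (Icc (K ^ (j + 1)) (2 ^ 2 ^ j)).filter (fun l => l.Prime ∧ l % 8 = 3) := by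
      intro l hl
      unfold prs at hl
      rw [mem_filter, mem_Icc] at hl
      rw [mem_union, mem_range, mem_filter, mem_Icc]
      by_cases h : l < K ^ (j + 1)
      · exact Or.inl h
      · exact Or.inr ⟨⟨by omega, hl.1.2⟩, hl.2⟩
    have h1 := (card_le_card hsub).trans (card_union_le _ _)
    rw [card_range] at h1
    have h2 := hcon j
    omega
  have hunit : IsUnit (3 : ZMod 8) := by decide
  apply not_summable_residueClass_prime_div (q := 8) (a := 3) hunit
  set f : ℕ → ℝ := fun n => (if n.Prime then residueClass (3 : ZMod 8) n else 0) / n with hf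
  have hf0 : ∀ n, 0 ≤ f n := by
    intro n
    rw [hf]
    dsimp only
    split_ifs
    · exact div_nonneg (residueClass_nonneg _ n) (Nat.cast_nonneg n)
    · simp
  have hfle : ∀ n, f n ≤ if n.Prime ∧ n % 8 = 3 then Real.log n / n else 0 := by
    intro n
    rw [hf]
    dsimp only
    by_cases hp : n.Prime
    · by_cases h8 : n % 8 = 3
      · rw [if_pos hp, if_pos ⟨hp, h8⟩]
        apply div_le_div_of_nonneg_right _ (Nat.cast_nonneg n)
        exact (residueClass_le _ n).trans vonMangoldt_le_log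
      · rw [if_pos hp, if_neg (fun h => h8 h.2)]
        have : residueClass (3 : ZMod 8) n = 0 := by
          apply Set.indicator_of_notMem
          intro h
          apply h8
          have h' : (n : ZMod 8) = ((3 : ℕ) : ZMod 8) := h
          rw [ZMod.natCast_eq_natCast_iff'] at h'
          exact h'
        rw [this, zero_div]
    · rw [if_neg hp, if_neg (fun h => hp h.1), zero_div]
  -- block bound
  set b : ℕ → ℝ := fun j => 4 * (K : ℝ) ^ 2 * ((2 * (K : ℝ)) ^ j / (j.factorial : ℝ)) with hb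
  have hbs : Summable b := (Real.summable_pow_div_factorial (2 * (K : ℝ))).mul_left _
  have hb0 : ∀ j, 0 ≤ b j := by
    intro j; rw [hb]; positivity
  have hblock : ∀ j, ∑ n ∈ Ioc (2 ^ 2 ^ j) (2 ^ 2 ^ (j + 1)), f n ≤ b j := by
    intro j
    have hX : (0 : ℝ) < 2 ^ 2 ^ j := by positivity
    set c : ℝ := 2 ^ (j + 1) / 2 ^ 2 ^ j with hc
    have hc0 : 0 ≤ c := by positivity
    calc ∑ n ∈ Ioc (2 ^ 2 ^ j) (2 ^ 2 ^ (j + 1)), f n
        ≤ ∑ n ∈ Ioc (2 ^ 2 ^ j) (2 ^ 2 ^ (j + 1)), (if n.Prime ∧ n % 8 = 3 then c else 0) := by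
          apply sum_le_sum
          intro n hn
          rw [mem_Ioc] at hn
          refine (hfle n).trans ?_
          split_ifs with h
          · have hn1 : (2 : ℝ) ^ 2 ^ j ≤ n := by exact_mod_cast hn.1.le
            have hn0 : (0 : ℝ) < n := by linarith
            have hlog : Real.log n ≤ 2 ^ (j + 1) := by
              have h1 : Real.log (n : ℝ) ≤ Real.log ((2 : ℝ) ^ 2 ^ (j + 1)) := by
                apply Real.log_le_log hn0
                exact_mod_cast hn.2
              rw [Real.log_pow] at h1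
              have h2 := Real.log_two_lt_d9
              push_cast at h1
              have h3 : (0 : ℝ) < 2 ^ (j + 1) := by positivity
              nlinarith
            rw [hc]
            exact div_le_div₀ (by positivity) hlog hX hn1
          · exact le_refl _
      _ = ((Ioc (2 ^ 2 ^ j) (2 ^ 2 ^ (j + 1))).filter (fun n => n.Prime ∧ n % 8 = 3)).card * c := by
          rw [← sum_filter, sum_const, nsmul_eq_mul]
      _ ≤ (2 * (K : ℝ) ^ (j + 2)) * c := by
          apply mul_le_mul_of_nonneg_right _ hc0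
          have h1 : ((Ioc (2 ^ 2 ^ j) (2 ^ 2 ^ (j + 1))).filter (fun n => n.Prime ∧ n % 8 = 3)).card
              ≤ (prs (2 ^ 2 ^ (j + 1))).card := by
            apply card_le_card
            intro n hn
            rw [mem_filter, mem_Ioc] at hn
            unfold prs
            rw [mem_filter, mem_Icc]
            exact ⟨⟨by have := hn.2.1.pos; omega, hn.1.2⟩, hn.2⟩
          have h2 := h1.trans (hcount (j + 1))
          have h3 : ((((Ioc (2 ^ 2 ^ j) (2 ^ 2 ^ (j + 1))).filter
              (fun n => n.Prime ∧ n % 8 = 3)).card : ℕ) : ℝ) ≤ ((2 * K ^ (j + 1 + 1) : ℕ) : ℝ) := by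
            exact_mod_cast h2
          push_cast at h3
          exact h3
      _ ≤ b j := by
          rw [hc, hb]
          dsimp only
          have h1 : (1 : ℝ) / 2 ^ 2 ^ j ≤ 1 / (j.factorial : ℝ) := by
            apply one_div_le_one_div_of_le (by positivity)
            exact_mod_cast fact_le j
          have h2 : (2 * (K : ℝ) ^ (j + 2)) * (2 ^ (j + 1) / 2 ^ 2 ^ j)
              = (4 * (K : ℝ) ^ 2 * (2 * (K : ℝ)) ^ j) * (1 / 2 ^ 2 ^ j) := by
            rw [mul_pow]; ring
          have h3 : 4 * (K : ℝ) ^ 2 * ((2 * (K : ℝ)) ^ j / (j.factorial : ℝ))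
              = (4 * (K : ℝ) ^ 2 * (2 * (K : ℝ)) ^ j) * (1 / (j.factorial : ℝ)) := by ring
          rw [h2, h3]
          exact mul_le_mul_of_nonneg_left h1 (by positivity)
  -- partial sums
  have hpart : ∀ J, ∑ n ∈ Icc 0 (2 ^ 2 ^ J), f n ≤ ∑ n ∈ Icc 0 2, f n + ∑ j ∈ range J, b j := by
    intro J
    induction J with
    | zero => simp
    | succ J ih =>
      have hle : 2 ^ 2 ^ J ≤ 2 ^ 2 ^ (J + 1) :=
        Nat.pow_le_pow_right (by norm_num) (Nat.pow_le_pow_right (by norm_num) (by omega))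
      have hu : Icc 0 (2 ^ 2 ^ (J + 1)) = Icc 0 (2 ^ 2 ^ J) ∪ Ioc (2 ^ 2 ^ J) (2 ^ 2 ^ (J + 1)) := by
        ext n
        simp only [mem_union, mem_Icc, mem_Ioc]
        omega
      have hd : Disjoint (Icc 0 (2 ^ 2 ^ J)) (Ioc (2 ^ 2 ^ J) (2 ^ 2 ^ (J + 1))) := by
        rw [Finset.disjoint_left]
        intro n hn hn'
        rw [mem_Icc] at hn
        rw [mem_Ioc] at hn'
        omega
      rw [hu, sum_union hd, sum_range_succ]
      have := hblock J
      linarith
  apply summable_of_sum_range_le (c := ∑ n ∈ Icc 0 2, f n + ∑' j, b j) hf0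
  intro n
  have h1 : n ≤ 2 ^ 2 ^ n := by
    have h2 : n < 2 ^ n := Nat.lt_two_pow_self
    have h3 : 2 ^ n < 2 ^ 2 ^ n := Nat.lt_two_pow_self
    omega
  have h2 : ∑ i ∈ range n, f i ≤ ∑ i ∈ Icc 0 (2 ^ 2 ^ n), f i := by
    apply sum_le_sum_of_subset_of_nonneg
    · intro i hi
      rw [mem_range] at hi
      rw [mem_Icc]
      omega
    · intro i _ _
      exact hf0 i
  have h3 := hpart n
  have h4 : ∑ j ∈ range n, b j ≤ ∑' j, b j := hbs.sum_le_tsum _ fun j _ => hb0 j
  linarith

end Pool.Agent.MR3
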