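import Pool.Agent.MR3.Defs

set_option autoImplicit false

/-!
# The frozen statement from unbounded rational minimum rank
-/

namespace Pool.Agent.MR3

/-- the sign of a point relative to a line -/
noncomputable def sg (p l : ℝ × ℝ) : SignType := SignType.sign (p.2 - l.1 * p.1 - l.2)

/-- the rank of the submatrix with rows `P` and columns `L` -/
noncomputable def Rk {α β : Type} (P : Finset α) (L : Finset β) (B : α → β → ℚ) : ℕ :=
  Matrix.rank (Matrix.of (fun (p : P) (l : L) => B p.1 l.1))

/-- all rational realisations have rank at least `k` -/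
def HH (k : ℕ) (P L : Finset (ℝ × ℝ)) : Prop :=
  ∀ B : ℝ × ℝ → ℝ × ℝ → ℚ, (∀ p ∈ P, ∀ l ∈ L, SignType.sign (B p l) = sg p l) → k ≤ Rk P L B

theorem Rk_comm {α β : Type} (P : Finset α) (L : Finset β) (B : α → β → ℚ) :
    Rk P L B = Rk L P (fun l p => B p l) := by
  unfold Rk
  rw [← Matrix.rank_transpose]
  rfl

theorem Rk_congr {α β : Type} (P : Finset α) (L : Finset β) (B B' : α → β → ℚ)
    (h : ∀ p ∈ P, ∀ l ∈ L, B p l = B' p l) : Rk P L B = Rk P L B' := by
  unfold Rk
  congr 1
  ext p l
  exact h p.1 p.2 l.1 l.2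

theorem Rk_erase {α β : Type} [DecidableEq α] (P : Finset α) (L : Finset β) (B : α → β → ℚ)
    (p : α) : Rk P L B ≤ Rk (P.erase p) L B + 1 := by
  unfold Rk
  rw [Matrix.rank_eq_finrank_span_row, Matrix.rank_eq_finrank_span_row]
  have hle : Submodule.span ℚ (Set.range (Matrix.of (fun (p : P) (l : L) => B p.1 l.1)).row) ≤
      Submodule.span ℚ (Set.range
        (Matrix.of (fun (p : (P.erase p : Finset α)) (l : L) => B p.1 l.1)).row) ⊔
        Submodule.span ℚ {(fun l : L => B p l.1)} := by
    rw [Submodule.span_le]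
    rintro x ⟨q, rfl⟩
    by_cases hq : q.1 = p
    · apply Submodule.mem_sup_right
      apply Submodule.subset_span
      simp only [Set.mem_singleton_iff]
      ext l
      simp [Matrix.row, hq]
    · apply Submodule.mem_sup_left
      apply Submodule.subset_span
      exact ⟨⟨q.1, Finset.mem_erase.2 ⟨hq, q.2⟩⟩, rfl⟩
  refine (Submodule.finrank_mono hle).trans ?_
  refine (Submodule.finrank_add_le_finrank_add_finrank _ _).trans ?_
  have h1 : Module.finrank ℚ (Submodule.span ℚ {(fun l : L => B p l.1)}) ≤ 1 :=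
    (finrank_span_le_card ({(fun l : L => B p l.1)} : Set (L → ℚ))).trans (by simp)
  omega

theorem Rk_erase' {α β : Type} [DecidableEq β] (P : Finset α) (L : Finset β) (B : α → β → ℚ)
    (l : β) : Rk P L B ≤ Rk P (L.erase l) B + 1 := by
  rw [Rk_comm P L, Rk_comm P (L.erase l)]
  exact Rk_erase L P _ l

theorem Rk_le_card {α β : Type} (P : Finset α) (L : Finset β) (B : α → β → ℚ) :
    Rk P L B ≤ P.card := by
  unfold Rk
  refine (Matrix.rank_le_card_height _).trans ?_
  simp

/-- rational number with a given sign -/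
def toQ (s : SignType) : ℚ := if s = 1 then 1 else if s = -1 then -1 else 0

theorem sign_toQ (s : SignType) : SignType.sign (toQ s) = s := by
  rcases s with _ | _ | _
  · show SignType.sign (toQ 0) = 0
    simp [toQ]
  · show SignType.sign (toQ (-1)) = -1
    simp [toQ]
  · show SignType.sign (toQ 1) = 1
    simp [toQ]

theorem descend (k : ℕ) (P3 L3 : Finset (ℝ × ℝ)) (h3 : P3.card < k) :
    ∀ (N : ℕ) (P L : Finset (ℝ × ℝ)), P.card + L.card = N → P3 ⊆ P → L3 ⊆ L → HH k P L →
      ∃ P' L' : Finset (ℝ × ℝ), P3 ⊆ P' ∧ L3 ⊆ L' ∧ HH k P' L' ∧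
        ∃ B : ℝ × ℝ → ℝ × ℝ → ℚ, (∀ p ∈ P', ∀ l ∈ L', SignType.sign (B p l) = sg p l) ∧
          Rk P' L' B = k := by
  classical
  intro N
  induction N with
  | zero =>
    intro P L hN hP hL hH
    have hP0 : P.card = 0 := by omega
    have h1 := hH (fun p l => toQ (sg p l)) (fun p _ l _ => sign_toQ _)
    have h2 := Rk_le_card P L (fun p l => toQ (sg p l))
    have h4 := Finset.card_le_card hP
    omega
  | succ N ih =>
    intro P L hN hP hL hH
    by_cases hex : ∃ B : ℝ × ℝ → ℝ × ℝ → ℚ,
        (∀ p ∈ P, ∀ l ∈ L, SignType.sign (B p l) = sg p l) ∧ Rk P L B ≤ k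
    · obtain ⟨B, hB, hBk⟩ := hex
      exact ⟨P, L, hP, hL, hH, B, hB, le_antisymm hBk (hH B hB)⟩
    · push Not at hex
      by_cases hPP : P = P3
      · by_cases hLL : L = L3
        · exfalso
          have h1 := hH (fun p l => toQ (sg p l)) (fun p _ l _ => sign_toQ _)
          have h2 := Rk_le_card P L (fun p l => toQ (sg p l))
          rw [hPP] at h2 h1
          omega
        · obtain ⟨l, hl, hl3⟩ : ∃ l ∈ L, l ∉ L3 := by
            by_contra hcon
            push Not at hcon
            exact hLL (Finset.Subset.antisymm hcon hL)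
          refine ih P (L.erase l) ?_ hP ?_ ?_
          · rw [Finset.card_erase_of_mem hl]
            have : 0 < L.card := Finset.card_pos.2 ⟨l, hl⟩
            omega
          · intro x hx
            exact Finset.mem_erase.2 ⟨fun h => hl3 (h ▸ hx), hL hx⟩
          · intro B hB
            have h1 := hex (fun p l' => if l' = l then toQ (sg p l) else B p l') (by
              intro p hp l' hl'
              by_cases h : l' = l
              · simp only [h, if_true]
                exact sign_toQ _
              · simp only [h, if_false]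
                exact hB p hp l' (Finset.mem_erase.2 ⟨h, hl'⟩))
            have h2 := Rk_erase' P L (fun p l' => if l' = l then toQ (sg p l) else B p l') l
            have h4 : Rk P (L.erase l) (fun p l' => if l' = l then toQ (sg p l) else B p l') =
                Rk P (L.erase l) B := by
              apply Rk_congr
              intro p hp l' hl'
              simp [(Finset.mem_erase.1 hl').1]
            omega
      · obtain ⟨p, hp, hp3⟩ : ∃ p ∈ P, p ∉ P3 := by
          by_contra hcon
          push Not at hcon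
          exact hPP (Finset.Subset.antisymm hcon hP)
        refine ih (P.erase p) L ?_ ?_ hL ?_
        · rw [Finset.card_erase_of_mem hp]
          have : 0 < P.card := Finset.card_pos.2 ⟨p, hp⟩
          omega
        · intro x hx
          exact Finset.mem_erase.2 ⟨fun h => hp3 (h ▸ hx), hP hx⟩
        · intro B hB
          have h1 := hex (fun p' l => if p' = p then toQ (sg p l) else B p' l) (by
            intro p' hp' l hl
            by_cases h : p' = p
            · simp only [h, if_true]
              exact sign_toQ _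
            · simp only [h, if_false]
              exact hB p' (Finset.mem_erase.2 ⟨h, hp'⟩) l hl)
          have h2 := Rk_erase P L (fun p' l => if p' = p then toQ (sg p l) else B p' l) p
          have h4 : Rk (P.erase p) L (fun p' l => if p' = p then toQ (sg p l) else B p' l) =
              Rk (P.erase p) L B := by
            apply Rk_congr
            intro p' hp' l hl
            simp [(Finset.mem_erase.1 hp').1]
          omega

/-- a matrix of rank at most `R` factors through `ℚ ^ R` -/
theorem factor {m n : Type} [Fintype m] [Fintype n] (B : Matrix m n ℚ) (R : ℕ) (h : B.rank ≤ R) :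
    ∃ (v : m → Fin R → ℚ) (w : n → Fin R → ℚ), ∀ i j, B i j = dotProduct (v i) (w j) := by
  rw [Matrix.rank_eq_finrank_span_row] at h
  obtain ⟨r, f, hr, hspan⟩ : ∃ (r : ℕ) (f : Fin r → (n → ℚ)), r ≤ R ∧
      Submodule.span ℚ (Set.range f) = Submodule.span ℚ (Set.range B.row) := by
    obtain ⟨f, -, hf, -⟩ := Submodule.exists_fun_fin_finrank_span_eq ℚ (Set.range B.row)
    exact ⟨_, f, h, hf⟩
  let g : Fin R → (n → ℚ) := fun i => if hi : i.1 < r then f ⟨i.1, hi⟩ else 0
  have hg : ∀ i, ∃ c : Fin R → ℚ, ∑ a, c a • g a = B.row i := by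
    intro i
    rw [← Submodule.mem_span_range_iff_exists_fun]
    have h1 : B.row i ∈ Submodule.span ℚ (Set.range f) := by
      rw [hspan]; exact Submodule.subset_span ⟨i, rfl⟩
    refine Submodule.span_mono ?_ h1
    rintro x ⟨a, rfl⟩
    refine ⟨⟨a.1, lt_of_lt_of_le a.2 hr⟩, ?_⟩
    simp [g]
  choose c hc using hg
  refine ⟨c, fun j a => g a j, ?_⟩
  intro i j
  have := congrFun (hc i) j
  simp only [Finset.sum_apply, Pi.smul_apply, smul_eq_mul, Matrix.row] at this
  simp only [dotProduct]
  exact this.symm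

theorem sg_eq_zero (p l : ℝ × ℝ) : sg p l = 0 ↔ Inc p l := by
  unfold sg Inc
  rw [sign_eq_zero_iff]
  constructor
  · intro h; linarith
  · intro h; linarith

theorem HH_of_not_FRep (k : ℕ) (P L : Finset (ℝ × ℝ)) (h : ¬ FRep ℝ ℚ k P L)
    (P' L' : Finset (ℝ × ℝ)) (hP : P ⊆ P') (hL : L ⊆ L') : HH (k + 1) P' L' := by
  classical
  intro B hB
  by_contra hcon
  apply h
  obtain ⟨v, w, hvw⟩ := factor (Matrix.of (fun (p : P') (l : L') => B p.1 l.1)) k (by
    have : Rk P' L' B ≤ k := by omega
    exact this)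
  refine ⟨fun p => if hp : p ∈ P' then v ⟨p, hp⟩ else 0,
    fun l => if hl : l ∈ L' then w ⟨l, hl⟩ else 0, ?_⟩
  intro p hp l hl
  have hp' := hP hp
  have hl' := hL hl
  simp only [hp', hl', dif_pos]
  rw [← hvw ⟨p, hp'⟩ ⟨l, hl'⟩, ← sg_eq_zero, ← hB p hp' l hl', sign_eq_zero_iff]
  rfl

/-- the points of the block -/
def bP : Fin 3 → ℝ × ℝ := ![(0, 0), (1, 0), (0, 1)]

/-- the lines of the block -/
def bL : Fin 3 → ℝ × ℝ := ![(0, 1), (1, 0), (0, 0)]

theorem block_rank {K : Type} [Field K] [LinearOrder K] [IsStrictOrderedRing K] {m n : ℕ}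
    (B : Matrix (Fin m) (Fin n) K) (r : Fin 3 → Fin m) (c : Fin 3 → Fin n)
    (h : ∀ i j, SignType.sign (B (r i) (c j)) = sg (bP i) (bL j)) : 3 ≤ B.rank := by
  refine le_trans ?_ (Matrix.rank_submatrix_le B r c)
  have hz : ∀ i j, (B (r i) (c j) = 0 ↔ Inc (bP i) (bL j)) := by
    intro i j
    rw [← sg_eq_zero, ← h i j, sign_eq_zero_iff]
  have hdet : (B.submatrix r c).det ≠ 0 := by
    rw [Matrix.det_fin_three]
    have h01 : B (r 0) (c 1) = 0 := by rw [hz]; simp [Inc, bP, bL]
    have h02 : B (r 0) (c 2) = 0 := by rw [hz]; simp [Inc, bP, bL]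
    have h12 : B (r 1) (c 2) = 0 := by rw [hz]; simp [Inc, bP, bL]
    have h00 : B (r 0) (c 0) ≠ 0 := by rw [Ne, hz]; simp [Inc, bP, bL]
    have h11 : B (r 1) (c 1) ≠ 0 := by rw [Ne, hz]; simp [Inc, bP, bL]
    have h22 : B (r 2) (c 2) ≠ 0 := by rw [Ne, hz]; simp [Inc, bP, bL]
    simp only [Matrix.submatrix_apply, h01, h02, h12, mul_zero, zero_mul, sub_zero, add_zero]
    exact mul_ne_zero (mul_ne_zero h00 h11) h22
  rw [Matrix.rank_of_det_ne_zero hdet]
  simp

theorem Reduction_proof : Stmt_Reduction := by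
  intro hun k hk
  classical
  obtain ⟨P0, L0, h0⟩ := hun (k - 1)
  let P3 : Finset (ℝ × ℝ) := Finset.univ.image bP
  let L3 : Finset (ℝ × ℝ) := Finset.univ.image bL
  have hH : HH k (P0 ∪ P3) (L0 ∪ L3) := by
    have := HH_of_not_FRep (k - 1) P0 L0 h0 (P0 ∪ P3) (L0 ∪ L3) Finset.subset_union_left
      Finset.subset_union_left
    have hk1 : k - 1 + 1 = k := by omega
    rwa [hk1] at this
  have hc3 : P3.card < k := by
    have : P3.card ≤ 3 := by
      refine Finset.card_image_le.trans ?_
      simp
    omega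
  obtain ⟨P, L, hP, hL, hHPL, B, hB, hBk⟩ := descend k P3 L3 hc3 _ (P0 ∪ P3) (L0 ∪ L3) rfl
    Finset.subset_union_right Finset.subset_union_right hH
  let e := P.equivFin
  let f := L.equivFin
  have hPm : ∀ i, bP i ∈ P := fun i => hP (Finset.mem_image_of_mem _ (Finset.mem_univ i))
  have hLm : ∀ i, bL i ∈ L := fun i => hL (Finset.mem_image_of_mem _ (Finset.mem_univ i))
  have hblock : ∀ (K : Type) [Field K] [LinearOrder K] [IsStrictOrderedRing K]
      (B : Matrix (Fin P.card) (Fin L.card) K),
      (∀ i j, SignType.sign (B i j) = sg (e.symm i).1 (f.symm j).1) → 3 ≤ B.rank := by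
    intro K _ _ _ B hB
    refine block_rank B (fun i => e ⟨bP i, hPm i⟩) (fun j => f ⟨bL j, hLm j⟩) ?_
    intro i j
    rw [hB]
    simp
  refine ⟨P.card, L.card, fun i j => sg (e.symm i).1 (f.symm j).1, ?_, hblock ℝ, ?_, ?_⟩
  · refine ⟨Matrix.of (fun i j => (e.symm i).1.2 - (f.symm j).1.1 * (e.symm i).1.1 -
      (f.symm j).1.2), fun i j => rfl, ?_⟩
    apply le_antisymm
    · have hfac : (Matrix.of (fun i j => (e.symm i).1.2 - (f.symm j).1.1 * (e.symm i).1.1 -
          (f.symm j).1.2) : Matrix (Fin P.card) (Fin L.card) ℝ) =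
          (Matrix.of (fun i (a : Fin 3) => (![(e.symm i).1.2, -(e.symm i).1.1, -1] : Fin 3 → ℝ) a)) *
          (Matrix.of (fun (a : Fin 3) j => (![1, (f.symm j).1.1, (f.symm j).1.2] : Fin 3 → ℝ) a)) := by
        ext i j
        simp only [Matrix.mul_apply, Matrix.of_apply, Fin.sum_univ_three]
        simp
        ring
      rw [hfac]
      refine (Matrix.rank_mul_le_left _ _).trans ?_
      refine (Matrix.rank_le_card_width _).trans ?_
      simp
    · exact hblock ℝ _ (fun i j => rfl)
  · refine ⟨(Matrix.of (fun (p : P) (l : L) => B p.1 l.1)).submatrix e.symm f.symm, ?_, ?_⟩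
    · intro i j
      exact hB _ (e.symm i).2 _ (f.symm j).2
    · rw [Matrix.rank_submatrix]
      exact hBk
  · intro B' hB'
    let B'' : ℝ × ℝ → ℝ × ℝ → ℚ := fun p l =>
      if hp : p ∈ P then (if hl : l ∈ L then B' (e ⟨p, hp⟩) (f ⟨l, hl⟩) else 0) else 0
    have h1 := hHPL B'' (by
      intro p hp l hl
      simp only [B'', hp, hl, dif_pos]
      rw [hB']
      simp)
    have h2 : (Matrix.of (fun (p : P) (l : L) => B'' p.1 l.1)) = B'.submatrix e f := by
      ext p l
      simp [B'']
    have h4 : Rk P L B'' = B'.rank := by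
      unfold Rk
      rw [h2, Matrix.rank_submatrix]
    omega

end Pool.Agent.MR3
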