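import Pool.Agent.MR3.Defs

set_option autoImplicit false

/-!
# Restriction to the subfield generated by the base coordinates
-/

namespace Pool.Agent.MR3

open MvPolynomial

namespace Restrict

theorem map_aeval' {σ F F' : Type} [Field F] [Field F'] (e : F →+* F') (x : σ → F)
    (P : MvPolynomial σ ℤ) : e (aeval x P) = aeval (fun i => e (x i)) P := by
  have h := MvPolynomial.map_aeval x e P
  rw [h]
  rw [aeval_def, coe_eval₂Hom]
  congr 1
  exact RingHom.ext_int _ _

/-- the subfield generated by a family -/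
def gen {σ F : Type} [Field F] (x : σ → F) : Subfield F where
  carrier := {z | ∃ P Q : MvPolynomial σ ℤ, aeval x Q ≠ 0 ∧ z * aeval x Q = aeval x P}
  zero_mem' := ⟨0, 1, by simp, by simp⟩
  one_mem' := ⟨1, 1, by simp, by simp⟩
  add_mem' := by
    rintro a b ⟨P, Q, hQ, h⟩ ⟨P', Q', hQ', h'⟩
    refine ⟨P * Q' + P' * Q, Q * Q', ?_, ?_⟩
    · rw [map_mul]; exact mul_ne_zero hQ hQ'
    · rw [map_mul, map_add, map_mul, map_mul, ← h, ← h']; ring
  mul_mem' := by
    rintro a b ⟨P, Q, hQ, h⟩ ⟨P', Q', hQ', h'⟩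
    refine ⟨P * P', Q * Q', ?_, ?_⟩
    · rw [map_mul]; exact mul_ne_zero hQ hQ'
    · rw [map_mul, map_mul, ← h, ← h']; ring
  neg_mem' := by
    rintro a ⟨P, Q, hQ, h⟩
    refine ⟨-P, Q, hQ, ?_⟩
    rw [map_neg, ← h]; ring
  inv_mem' := by
    rintro a ⟨P, Q, hQ, h⟩
    by_cases ha : a = 0
    · subst ha
      exact ⟨0, 1, by simp, by simp⟩
    · refine ⟨Q, P, ?_, ?_⟩
      · rw [← h]; exact mul_ne_zero ha hQ
      · rw [← h, ← mul_assoc, inv_mul_cancel₀ ha, one_mul]

theorem mem_gen {σ F : Type} [Field F] (x : σ → F) (i : σ) : x i ∈ gen x :=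
  ⟨X i, 1, by simp, by simp⟩

theorem genBy_gen {σ F : Type} [Field F] (x : σ → F) :
    GenBy (fun i => (⟨x i, mem_gen x i⟩ : gen x)) := by
  rintro ⟨z, P, Q, hQ, h⟩
  have e : ∀ R : MvPolynomial σ ℤ,
      ((aeval (fun i => (⟨x i, mem_gen x i⟩ : gen x)) R : gen x) : F) = aeval x R := by
    intro R
    exact map_aeval' (gen x).subtype _ R
  refine ⟨P, Q, ?_, ?_⟩
  · intro h0
    apply hQ
    rw [← e, h0]
    rfl
  · apply Subtype.ext
    refine Eq.trans ?_ (h.trans (e P).symm)
    change z * ((aeval (fun i => (⟨x i, mem_gen x i⟩ : gen x)) Q : gen x) : F) = _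
    rw [e]

/-- `EC` passes to subfields -/
theorem EC.comap {F F' : Type} [Field F] [Field F'] (e : F' →+* F) (h : EC F) : EC F' := by
  intro σ _ x s hs
  obtain ⟨z, hz, hz'⟩ := h σ (fun i => e (x i)) s (by
    rw [← map_aeval']
    exact fun h0 => hs ((map_eq_zero e).mp h0))
  refine ⟨z, fun p hp => hz p ?_, hz'⟩
  rw [← map_aeval', hp, map_zero]

theorem map_dotProduct' {F F' : Type} [Field F] [Field F'] (e : F' →+* F) {n : ℕ}
    (x y : Fin n → F') :
    e (dotProduct x y) = dotProduct (fun i => e (x i)) (fun i => e (y i)) := by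
  simp [dotProduct]

theorem linearIndependent_descend {F F' : Type} [Field F] [Field F'] (e : F' →+* F) {n m : ℕ}
    (x : Fin m → Fin n → F') (h : LinearIndependent F (fun i j => e (x i j))) :
    LinearIndependent F' x := by
  rw [Fintype.linearIndependent_iff] at h ⊢
  intro g hg i
  have := h (fun i => e (g i)) (by
    funext j
    have h1 := congrFun hg j
    simp only [Finset.sum_apply, Pi.smul_apply, smul_eq_mul, Pi.zero_apply] at h1 ⊢
    have h2 := congrArg e h1
    simpa using h2) i
  exact (map_eq_zero e).mp this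

/-- `k` independent vectors of `F ^ (k + 1)` have a one-dimensional orthogonal complement -/
theorem orth_unique {F : Type} [Field F] {k : ℕ} (x : Fin k → Fin (k + 1) → F)
    (hx : LinearIndependent F x) (a b : Fin (k + 1) → F) (ha : a ≠ 0)
    (hax : ∀ i, dotProduct (x i) a = 0) (hbx : ∀ i, dotProduct (x i) b = 0) :
    ∃ c : F, c • a = b := by
  set M : Matrix (Fin k) (Fin (k + 1)) F := Matrix.of x with hM
  have hr : M.rank = k := by
    have := LinearIndependent.rank_matrix (M := M) hx
    simpa using this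
  have hk : Module.finrank F (LinearMap.ker M.mulVecLin) = 1 := by
    have h1 := LinearMap.finrank_range_add_finrank_ker M.mulVecLin
    have h2 : Module.finrank F (LinearMap.range M.mulVecLin) = k := hr
    rw [h2, Module.finrank_fin_fun] at h1
    omega
  have ha' : a ∈ LinearMap.ker M.mulVecLin := by
    rw [LinearMap.mem_ker, Matrix.mulVecLin_apply]
    funext i
    exact hax i
  have hb' : b ∈ LinearMap.ker M.mulVecLin := by
    rw [LinearMap.mem_ker, Matrix.mulVecLin_apply]
    funext i
    exact hbx i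
  have hne : (⟨a, ha'⟩ : LinearMap.ker M.mulVecLin) ≠ 0 := by
    intro h
    exact ha (congrArg Subtype.val h)
  obtain ⟨c, hc⟩ := (finrank_eq_one_iff_of_nonzero' _ hne).mp hk ⟨b, hb'⟩
  exact ⟨c, congrArg Subtype.val hc⟩

/-- existence of a non-zero orthogonal vector -/
theorem exists_orth {F : Type} [Field F] {k : ℕ} (x : Fin k → Fin (k + 1) → F) :
    ∃ a : Fin (k + 1) → F, a ≠ 0 ∧ ∀ i, dotProduct (x i) a = 0 := by
  set M : Matrix (Fin k) (Fin (k + 1)) F := Matrix.of x with hM
  have hker : 0 < Module.finrank F (LinearMap.ker M.mulVecLin) := by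
    have h1 := LinearMap.finrank_range_add_finrank_ker M.mulVecLin
    have h2 : Module.finrank F (LinearMap.range M.mulVecLin) ≤ k := by
      have := M.rank_le_height
      exact this
    rw [Module.finrank_fin_fun] at h1
    omega
  obtain ⟨⟨a, ha⟩, hne⟩ := Module.finrank_pos_iff_exists_ne_zero.mp hker
  refine ⟨a, fun h => hne (Subtype.ext h), fun i => ?_⟩
  rw [LinearMap.mem_ker, Matrix.mulVecLin_apply] at ha
  exact congrFun ha i

/-- the normalised orthogonal vector of `k` independent vectors with coordinates in a subfield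
has coordinates in the subfield -/
theorem orth_mem {F : Type} [Field F] (K : Subfield F) {k : ℕ} (x : Fin k → Fin (k + 1) → F)
    (hx : LinearIndependent F x) (hK : ∀ i j, x i j ∈ K) (b : Fin (k + 1) → F) (hb : b 0 = 1)
    (hbx : ∀ i, dotProduct (x i) b = 0) : ∀ j, b j ∈ K := by
  obtain ⟨a, ha, hax⟩ := exists_orth (F := K) (fun i j => (⟨x i j, hK i j⟩ : K))
  have hax' : ∀ i, dotProduct (x i) (fun j => (a j : F)) = 0 := by
    intro i
    have h1 := congrArg K.subtype (hax i)
    rw [map_dotProduct', map_zero] at h1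
    exact h1
  have ha' : (fun j => (a j : F)) ≠ 0 := by
    intro h
    apply ha
    funext j
    exact Subtype.ext (congrFun h j)
  obtain ⟨c, hc⟩ := orth_unique x hx _ b ha' hax' hbx
  have h0 : c * (a 0 : F) = 1 := by
    rw [← hb, ← hc]
    rfl
  have hcK : c ∈ K := by
    rw [eq_inv_of_mul_eq_one_left h0]
    exact K.inv_mem (a 0).2
  intro j
  rw [← hc]
  exact K.mul_mem hcK (a j).2

theorem inc_pt {A : Type} [CommRing A] (l : A × A) (x : A) : Inc (pt l x) l := rfl

end Restrict

theorem Restrict_proof (hC : Stmt_Circuit) : Stmt_Restrict := by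
  intro A _ F _ k S ι c v w hEC hrep hgood hgen
  have hw : IsWRep v w := ⟨hrep.1, hrep.2.1, fun p l h => (hrep.2.2 p l).mpr h⟩
  have hv : ∀ p i, v p i ∈ Restrict.gen (bt c v) := by
    intro p i
    obtain ⟨t, ht⟩ := hgen p
    obtain ⟨P, -, hP0, hP⟩ := hC A F k S ι c v w hw hgood t p ht
    exact ⟨P i, P 0, hP0, hP F v w hw (fun Q h => h) i⟩
  have hwm : ∀ l i, w l i ∈ Restrict.gen (bt c v) := by
    intro l
    obtain ⟨f, hf, hind⟩ := hgood.2 l 0
    refine Restrict.orth_mem _ _ hind (fun i j => hv _ j) _ (hrep.2.1 l) ?_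
    intro i
    exact (hrep.2.2 _ _).mpr (Restrict.inc_pt l _)
  let K := Restrict.gen (bt c v)
  let v' : A × A → Fin (k + 1) → K := fun p i => ⟨v p i, hv p i⟩
  let w' : A × A → Fin (k + 1) → K := fun l i => ⟨w l i, hwm l i⟩
  refine ⟨K, inferInstance, K.subtype, v', w', Restrict.EC.comap K.subtype hEC, ?_, ?_, ?_,
    fun _ _ => rfl, fun _ _ => rfl⟩
  · refine ⟨fun p => Subtype.ext (hrep.1 p), fun l => Subtype.ext (hrep.2.1 l), fun p l => ?_⟩
    rw [← hrep.2.2 p l]
    have h1 := Restrict.map_dotProduct' K.subtype (v' p) (w' l)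
    constructor
    · intro h
      rw [h, map_zero] at h1
      exact h1.symm
    · intro h
      apply Subtype.ext
      exact h1.trans h
  · refine ⟨fun p a0 => ?_, fun l x0 => ?_⟩
    · obtain ⟨f, hf, hind⟩ := hgood.1 p a0
      exact ⟨f, hf, Restrict.linearIndependent_descend K.subtype _ hind⟩
    · obtain ⟨f, hf, hind⟩ := hgood.2 l x0
      exact ⟨f, hf, Restrict.linearIndependent_descend K.subtype _ hind⟩
  · exact Restrict.genBy_gen (bt c v)

end Pool.Agent.MR3
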