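import Pool.Agent.MR3.GenAlpha

set_option autoImplicit false

namespace Pool.Agent.MR3

section Height

variable {B : Type} [CommRing B] {ι : Type} [Fintype ι] (b : Module.Basis ι ℤ B)

/-- the coordinates are bounded by `u` -/
def HB (u : ℤ) (x : B) : Prop := ∀ j, |b.repr x j| ≤ u

theorem HB_mono {u v : ℤ} (h : u ≤ v) {x : B} (hx : HB b u x) : HB b v x :=
  fun j => (hx j).trans h

theorem HB_add {u v : ℤ} {x y : B} (hx : HB b u x) (hy : HB b v y) : HB b (u + v) (x + y) := by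
  intro j
  rw [map_add, Finsupp.add_apply]
  exact (abs_add_le _ _).trans (add_le_add (hx j) (hy j))

theorem HB_neg {u : ℤ} {x : B} (hx : HB b u x) : HB b u (-x) := by
  intro j
  rw [map_neg, Finsupp.neg_apply, abs_neg]
  exact hx j

theorem HB_smul {u : ℤ} (M : ℤ) (hM : 0 ≤ M) {x : B} (hx : HB b u x) :
    HB b (M * u) ((M : B) * x) := by
  intro j
  have : (M : B) * x = M • x := by rw [zsmul_eq_mul]
  rw [this, map_smul, Finsupp.smul_apply, smul_eq_mul, abs_mul, abs_of_nonneg hM]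
  exact mul_le_mul_of_nonneg_left (hx j) hM

theorem exists_HB_mul : ∃ c : ℤ, 1 ≤ c ∧ ∀ (u v : ℤ) (x y : B), 0 ≤ u → 0 ≤ v →
    HB b u x → HB b v y → HB b (c * u * v) (x * y) := by
  classical
  refine ⟨1 + ∑ k, ∑ i, ∑ j, |b.repr (b i * b j) k|, ?_, ?_⟩
  · have : 0 ≤ ∑ k, ∑ i, ∑ j, |b.repr (b i * b j) k| :=
      Finset.sum_nonneg fun _ _ => Finset.sum_nonneg fun _ _ => Finset.sum_nonneg fun _ _ =>
        abs_nonneg _
    linarith
  · intro u v x y hu hv hx hy k
    have e : x * y = ∑ i, ∑ j, (b.repr x i * b.repr y j) • (b i * b j) := by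
      conv_lhs => rw [← b.sum_repr x, ← b.sum_repr y]
      rw [Finset.sum_mul_sum]
      refine Finset.sum_congr rfl fun i _ => Finset.sum_congr rfl fun j _ => ?_
      rw [smul_mul_smul_comm]
    have e2 : b.repr (x * y) k
        = ∑ i, ∑ j, (b.repr x i * b.repr y j) * b.repr (b i * b j) k := by
      rw [e]
      simp only [map_sum, map_smul, Finsupp.coe_finsetSum, Finset.sum_apply,
        Finsupp.smul_apply, smul_eq_mul]
    rw [e2]
    have h1 : |∑ i, ∑ j, (b.repr x i * b.repr y j) * b.repr (b i * b j) k|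
        ≤ ∑ i, ∑ j, u * v * |b.repr (b i * b j) k| := by
      refine (Finset.abs_sum_le_sum_abs _ _).trans (Finset.sum_le_sum fun i _ => ?_)
      refine (Finset.abs_sum_le_sum_abs _ _).trans (Finset.sum_le_sum fun j _ => ?_)
      rw [abs_mul, abs_mul]
      exact mul_le_mul_of_nonneg_right (mul_le_mul (hx i) (hy j) (abs_nonneg _) hu)
        (abs_nonneg _)
    have h2 : ∑ i, ∑ j, u * v * |b.repr (b i * b j) k|
        = u * v * ∑ i, ∑ j, |b.repr (b i * b j) k| := by
      simp only [Finset.mul_sum]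
    have h3 : ∑ i, ∑ j, |b.repr (b i * b j) k| ≤ ∑ k, ∑ i, ∑ j, |b.repr (b i * b j) k| :=
      Finset.single_le_sum (f := fun k => ∑ i, ∑ j, |b.repr (b i * b j) k|)
        (fun _ _ => Finset.sum_nonneg fun _ _ => Finset.sum_nonneg fun _ _ => abs_nonneg _)
        (Finset.mem_univ k)
    have huv : 0 ≤ u * v := mul_nonneg hu hv
    calc |∑ i, ∑ j, (b.repr x i * b.repr y j) * b.repr (b i * b j) k|
        ≤ u * v * ∑ i, ∑ j, |b.repr (b i * b j) k| := h1.trans h2.le
      _ ≤ u * v * (1 + ∑ k, ∑ i, ∑ j, |b.repr (b i * b j) k|) :=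
          mul_le_mul_of_nonneg_left (h3.trans (by linarith)) huv
      _ = _ := by ring

variable {A : Type} [CommRing A] (φ : B →+* A) {q : ℕ} (γ : Fin q → A)

/-- combinations of the `γ i` with coefficients of height at most `T` -/
def YT (T : ℤ) (a : A) : Prop :=
  ∃ y : Fin q → B, (∀ i, HB b T (y i)) ∧ a = ∑ i, φ (y i) * γ i

theorem YT_mono {T T' : ℤ} (h : T ≤ T') {a : A} (ha : YT b φ γ T a) : YT b φ γ T' a := by
  obtain ⟨y, hy, rfl⟩ := ha
  exact ⟨y, fun i => HB_mono b h (hy i), rfl⟩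

theorem YT_add {T T' : ℤ} {a a' : A} (ha : YT b φ γ T a) (ha' : YT b φ γ T' a') :
    YT b φ γ (T + T') (a + a') := by
  obtain ⟨y, hy, rfl⟩ := ha
  obtain ⟨y', hy', rfl⟩ := ha'
  refine ⟨fun i => y i + y' i, fun i => HB_add b (hy i) (hy' i), ?_⟩
  simp [add_mul, Finset.sum_add_distrib]

theorem YT_neg {T : ℤ} {a : A} (ha : YT b φ γ T a) : YT b φ γ T (-a) := by
  obtain ⟨y, hy, rfl⟩ := ha
  exact ⟨fun i => - y i, fun i => HB_neg b (hy i), by simp⟩

theorem YT_sub {T T' : ℤ} {a a' : A} (ha : YT b φ γ T a) (ha' : YT b φ γ T' a') :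
    YT b φ γ (T + T') (a - a') := by
  rw [sub_eq_add_neg]
  exact YT_add b φ γ ha (YT_neg b φ γ ha')

theorem YT_smul {T : ℤ} (M : ℤ) (hM : 0 ≤ M) {a : A} (ha : YT b φ γ T a) :
    YT b φ γ (M * T) ((M : A) * a) := by
  obtain ⟨y, hy, rfl⟩ := ha
  refine ⟨fun i => (M : B) * y i, fun i => HB_smul b M hM (hy i), ?_⟩
  simp [Finset.mul_sum, mul_assoc]

theorem YT_one (hγ : ∃ i0, γ i0 = 1) {T : ℤ} (hT : 0 ≤ T) {x : B} (hx : HB b T x) :
    YT b φ γ T (φ x) := by
  classical
  obtain ⟨i0, hi0⟩ := hγ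
  refine ⟨fun i => if i = i0 then x else 0, fun i => ?_, ?_⟩
  · by_cases h : i = i0
    · simpa [h] using hx
    · intro j
      simpa [h] using hT
  · rw [Finset.sum_eq_single i0]
    · simp [hi0]
    · intro i _ hi
      simp [hi]
    · intro h
      exact absurd (Finset.mem_univ _) h

theorem YT_mul {c : ℤ} (hc : ∀ (u v : ℤ) (x y : B), 0 ≤ u → 0 ≤ v →
    HB b u x → HB b v y → HB b (c * u * v) (x * y)) {u T : ℤ} (hu : 0 ≤ u) (hT : 0 ≤ T)
    {x : B} (hx : HB b u x) {a : A} (ha : YT b φ γ T a) : YT b φ γ (c * u * T) (φ x * a) := by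
  obtain ⟨y, hy, rfl⟩ := ha
  refine ⟨fun i => x * y i, fun i => hc _ _ _ _ hu hT hx (hy i), ?_⟩
  simp [Finset.mul_sum, mul_assoc]

theorem YT_split (M : ℤ) (hM : 0 < M) {a : A} (ha : YT b φ γ (M * M) a) :
    ∃ u v, YT b φ γ M u ∧ YT b φ γ M v ∧ a = (M : A) * u + v := by
  classical
  obtain ⟨y, hy, rfl⟩ := ha
  refine ⟨∑ i, φ (∑ j, (b.repr (y i) j / M) • b j) * γ i,
    ∑ i, φ (∑ j, (b.repr (y i) j % M) • b j) * γ i,
    ⟨fun i => ∑ j, (b.repr (y i) j / M) • b j, fun i j => ?_, rfl⟩,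
    ⟨fun i => ∑ j, (b.repr (y i) j % M) • b j, fun i j => ?_, rfl⟩, ?_⟩
  · rw [b.repr_sum_self]
    have := hy i j
    rw [abs_le] at this ⊢
    constructor
    · rw [Int.le_ediv_iff_mul_le hM]
      linarith [this.1]
    · exact (Int.ediv_le_ediv hM this.2).trans (by rw [Int.mul_ediv_cancel _ hM.ne'])
  · rw [b.repr_sum_self, abs_of_nonneg (Int.emod_nonneg _ hM.ne')]
    exact (Int.emod_lt_of_pos _ hM).le
  · rw [Finset.mul_sum, ← Finset.sum_add_distrib]
    refine Finset.sum_congr rfl fun i _ => ?_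
    rw [← mul_assoc, ← add_mul]
    congr 1
    have : y i = (M : B) * (∑ j, (b.repr (y i) j / M) • b j)
        + ∑ j, (b.repr (y i) j % M) • b j := by
      conv_lhs => rw [← b.sum_repr (y i)]
      rw [← zsmul_eq_mul, Finset.smul_sum, ← Finset.sum_add_distrib]
      refine Finset.sum_congr rfl fun j _ => ?_
      rw [smul_smul, ← add_smul]
      congr 1
      exact (Int.mul_ediv_add_emod _ _).symm
    conv_lhs => rw [this]
    simp

end Height

theorem Scheme_proof : Stmt_Scheme := by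
  intro B _ ι _ b S hS q
  obtain ⟨c, hc1, hc⟩ := exists_HB_mul b
  obtain ⟨T0, hT01, hT0⟩ : ∃ T0 : ℤ, 1 ≤ T0 ∧ ∀ s ∈ S, HB b T0 s := by
    classical
    obtain ⟨T0, hT0⟩ := (hS.image (fun s => ∑ j, |b.repr s j|)).bddAbove
    refine ⟨max 1 T0, le_max_left _ _, fun s hs j => ?_⟩
    refine le_trans ?_ (le_max_right _ _)
    refine le_trans ?_ (hT0 (Set.mem_image_of_mem _ hs))
    exact Finset.single_le_sum (f := fun j => |b.repr s j|) (fun _ _ => abs_nonneg _)
      (Finset.mem_univ j)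
  -- constants
  set K1 : ℤ := 1 + c * T0 + T0 + c * T0 * T0 with hK1
  set C' : ℤ := (c * T0 + 1) * K1 with hC'
  set H : ℤ := C' + T0 + 2 * (c * T0 * T0) + 1 + c * T0 with hH
  have hcT : 1 ≤ c * T0 := by nlinarith
  have hcTT : 1 ≤ c * T0 * T0 := by nlinarith
  have hK1' : 1 ≤ K1 := by rw [hK1]; linarith
  have hC'1 : 1 ≤ C' := by rw [hC']; nlinarith
  have hH1 : 1 ≤ H := by rw [hH]; linarith
  refine ⟨(C' * (H * 2)).toNat, ?_⟩
  intro A _ φ γ hγ C t hbase
  -- one round
  have round : ∀ (t : ℕ) (M : ℤ), 1 ≤ M →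
      (∀ x ∈ S, ∀ a, YT b φ γ (C' * M) a → (φ x, a) ∈ (Known (φ '' S) C t).1) →
      ∀ (X Y : ℤ) (x : B) (a : A), 0 ≤ X → 0 ≤ Y → HB b X x → YT b φ γ Y a →
        Y + c * T0 * X + T0 * M + c * T0 * T0 ≤ M * M →
        (φ x, a) ∈ (Known (φ '' S) C (t + 4)).1 := by
    intro t M hM hP
    have hM0 : 0 ≤ M := by linarith
    -- lines
    have h1 : ∀ a d, YT b φ γ (K1 * M) a → YT b φ γ (K1 * M) d →
        (a, d) ∈ (Known (φ '' S) C (t + 1)).2 := by
      intro a d ha hd
      refine known_line (φ '' S) C 0 ?_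
      rintro _ ⟨s, hs, rfl⟩
      have h2 := YT_add b φ γ (YT_mul b φ γ hc (by linarith) (by positivity) (hT0 s hs) ha) hd
      have h3 := hP s hs _ (YT_mono b φ γ (le_of_eq (by rw [hC']; ring)) h2)
      simpa [pt, mul_comm] using h3
    -- points of abscissa `M + s'`
    have h2 : ∀ s' ∈ S, ∀ a, YT b φ γ (M * M) a →
        ((M : A) + φ s', a) ∈ (Known (φ '' S) C (t + 2)).1 := by
      intro s' hs' a ha
      obtain ⟨u, v, hu, hv, rfl⟩ := YT_split b φ γ M (by linarith) ha
      refine known_point (φ '' S) C u ?_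
      rintro _ ⟨s, hs, rfl⟩
      have e : thr ((M : A) + φ s', (M : A) * u + v) (u + φ s)
          = (u + φ s, v - φ s' * u - (M : A) * φ s - φ (s * s')) := by
        simp only [thr, map_mul, Prod.mk.injEq, true_and]
        ring
      rw [e]
      have hs1 := YT_one b φ γ hγ (by linarith) (hT0 s hs)
      refine h1 _ _ ?_ ?_
      · refine YT_mono b φ γ ?_ (YT_add b φ γ hu hs1)
        rw [hK1]
        nlinarith
      · have h3 := YT_sub b φ γ (YT_sub b φ γ (YT_sub b φ γ hv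
          (YT_mul b φ γ hc (by linarith) hM0 (hT0 s' hs') hu)) (YT_smul b φ γ M hM0 hs1))
          (YT_one b φ γ hγ (by positivity)
            (hc T0 T0 _ _ (by linarith) (by linarith) (hT0 s hs) (hT0 s' hs')))
        refine YT_mono b φ γ ?_ h3
        rw [hK1]
        nlinarith
    -- lines of slope in `S`
    have h3 : ∀ s ∈ S, ∀ (Z : ℤ) (d : A), 0 ≤ Z → YT b φ γ Z d →
        Z + T0 * M + c * T0 * T0 ≤ M * M → (φ s, d) ∈ (Known (φ '' S) C (t + 3)).2 := by
      intro s hs Z d hZ hd hle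
      refine known_line (φ '' S) C (M : A) ?_
      rintro _ ⟨s', hs', rfl⟩
      have hs1 := YT_one b φ γ hγ (by linarith) (hT0 s hs)
      have h4 := YT_add b φ γ (YT_add b φ γ (YT_smul b φ γ M hM0 hs1)
          (YT_one b φ γ hγ (by positivity)
            (hc T0 T0 _ _ (by linarith) (by linarith) (hT0 s hs) (hT0 s' hs')))) hd
      have h5 := h2 s' hs' _ (YT_mono b φ γ (by nlinarith) h4)
      have e : pt (φ s, d) ((M : A) + φ s')
          = ((M : A) + φ s', (M : A) * φ s + φ (s * s') + d) := by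
        simp only [pt, map_mul, Prod.mk.injEq, true_and]
        ring
      rw [e]
      exact h5
    intro X Y x a hX hY hx ha hle
    refine known_point (φ '' S) C 0 ?_
    rintro _ ⟨s, hs, rfl⟩
    have e : thr (φ x, a) (0 + φ s) = (φ s, a - φ (s * x)) := by
      simp only [thr, map_mul, Prod.mk.injEq, zero_add, true_and]
    rw [e]
    have h4 := YT_sub b φ γ ha (YT_one b φ γ hγ (x := s * x) (by positivity)
      (hc T0 X _ _ (by linarith) hX (hT0 s hs) hx))
    exact h3 s hs (Y + c * T0 * X) _ (by positivity) h4 hle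
  -- iteration
  have iter : ∀ j : ℕ, ∀ x ∈ S, ∀ a, YT b φ γ (C' * (H * 2 ^ 2 ^ j)) a →
      (φ x, a) ∈ (Known (φ '' S) C (t + 4 * j)).1 := by
    intro j
    induction j with
    | zero =>
      rintro x hx a ⟨y, hy, rfl⟩
      refine hbase x hx y fun i j => ?_
      rw [Int.toNat_of_nonneg (by positivity)]
      simpa using hy i j
    | succ j ih =>
      intro x hx a ha
      have hw : (1 : ℤ) ≤ 2 ^ 2 ^ j := one_le_pow₀ (by norm_num)
      have hw2 : (2 : ℤ) ^ 2 ^ (j + 1) = 2 ^ 2 ^ j * 2 ^ 2 ^ j := by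
        rw [pow_succ 2 j, mul_two, pow_add]
      rw [hw2] at ha
      set w : ℤ := 2 ^ 2 ^ j with hwdef
      have := round (t + 4 * j) (H * w) (by nlinarith) ih T0 (C' * (H * (w * w))) x a
        (by linarith) (by positivity) (hT0 x hx) ha (by
          have e1 : H * w * (H * w) = C' * (H * (w * w)) + (T0 * H) * (w * w)
              + 2 * (c * T0 * T0) * H * (w * w) + (1 + c * T0) * H * (w * w) := by
            rw [hH]; ring
          rw [e1]
          have hww : w ≤ w * w := by nlinarith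
          have h5 : T0 * (H * w) ≤ (T0 * H) * (w * w) := by
            rw [← mul_assoc]
            exact mul_le_mul_of_nonneg_left hww (by positivity)
          have h6 : 2 * (c * T0 * T0) ≤ 2 * (c * T0 * T0) * H * (w * w) := by
            have : 1 ≤ H * (w * w) := by nlinarith
            nlinarith
          have h7 : 0 ≤ (1 + c * T0) * H * (w * w) := by positivity
          linarith)
      have e : t + 4 * (j + 1) = t + 4 * j + 4 := by ring
      rw [e]
      exact this
  intro j x y hx hy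
  have hw : (1 : ℤ) ≤ 2 ^ 2 ^ j := one_le_pow₀ (by norm_num)
  have e : t + 4 * (j + 1) = t + 4 * j + 4 := by ring
  rw [e]
  have hX : HB b (T0 * 2 ^ 2 ^ j) x := by
    rcases hx with hx | hx
    · exact HB_mono b (by nlinarith) (hT0 x hx)
    · exact HB_mono b (by nlinarith) hx
  have ha : YT b φ γ (2 ^ 2 ^ j) (∑ i, φ (y i) * γ i) := ⟨y, hy, rfl⟩
  refine round (t + 4 * j) (H * 2 ^ 2 ^ j) (by nlinarith) (iter j) (T0 * 2 ^ 2 ^ j) (2 ^ 2 ^ j) x _
    (by positivity) (by positivity) hX ha ?_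
  set w : ℤ := 2 ^ 2 ^ j with hwdef
  have e1 : H * w * (H * w) = C' * H * (w * w) + (T0 * H) * (w * w)
      + 2 * (c * T0 * T0) * H * (w * w) + (1 + c * T0) * H * (w * w) := by
    rw [hH]; ring
  rw [e1]
  have hww : w ≤ w * w := by nlinarith
  have h5 : T0 * (H * w) ≤ (T0 * H) * (w * w) := by
    rw [← mul_assoc]
    exact mul_le_mul_of_nonneg_left hww (by positivity)
  have hHww : w ≤ H * (w * w) := by nlinarith
  have h6 : c * T0 * T0 + c * T0 * (T0 * w) ≤ 2 * (c * T0 * T0) * H * (w * w) := by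
    have h8 : 1 ≤ H * (w * w) := by nlinarith
    have h9 : (c * T0 * T0) * w ≤ (c * T0 * T0) * (H * (w * w)) :=
      mul_le_mul_of_nonneg_left hHww (by positivity)
    nlinarith
  have h7 : w ≤ (1 + c * T0) * H * (w * w) := by nlinarith
  have h8 : 0 ≤ C' * H * (w * w) := by positivity
  linarith

end Pool.Agent.MR3
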