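import Pool.Agent.MR3.Defs

set_option autoImplicit false

/-!
Module Spec: relations at the generic point hold at the closed point.
-/

namespace Pool.Agent.MR3

open MvPolynomial

theorem prime_C_nat {σ : Type} (l : ℕ) (hl : l.Prime) :
    Prime (C (l : ℤ) : MvPolynomial σ ℤ) := by
  rw [MvPolynomial.prime_C_iff]
  exact Nat.prime_iff_prime_int.1 hl

theorem spec_of_kerGen {D : ℕ} {F : Type} [Field F] {y : Fin (D + 1) → F}
    {g : MvPolynomial (Fin (D + 1)) ℤ} (hg : KerGen y g) {l : ℕ} {κ : Type} [Field κ] [CharP κ l]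
    {z : Fin (D + 1) → κ} (hl : l.Prime) (hz : aeval z g = 0) (hz' : aeval z (pderiv 0 g) ≠ 0)
    {P : MvPolynomial (Fin (D + 1)) ℤ} (hP : aeval y P = 0) : aeval z P = 0 := by
  have hlk : ((l : ℤ) : κ) = 0 := by
    rw [Int.cast_natCast]; exact CharP.cast_eq_zero κ l
  have hgl : ¬ (C (l : ℤ)) ∣ g := by
    rintro ⟨g', rfl⟩
    apply hz'
    rw [Derivation.leibniz, pderiv_C, smul_zero, add_zero, smul_eq_mul, map_mul, aeval_C]
    have : (algebraMap ℤ κ) (l : ℤ) = 0 := by
      rw [eq_intCast]; exact hlk
    rw [this, zero_mul]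
  have key : ∀ (N : ℕ) (n : ℤ) (P h : MvPolynomial (Fin (D + 1)) ℤ), n.natAbs = N → n ≠ 0 →
      C n * P = g * h → aeval z P = 0 := by
    intro N
    induction N using Nat.strong_induction_on with
    | _ N ih =>
      intro n P h hN hn hP
      by_cases hln : (l : ℤ) ∣ n
      · obtain ⟨n', rfl⟩ := hln
        have h1 : C (l : ℤ) ∣ g * h := by
          rw [← hP, C_mul, mul_assoc]
          exact dvd_mul_right _ _
        rcases (prime_C_nat l hl).dvd_or_dvd h1 with h2 | h2
        · exact absurd h2 hgl
        · obtain ⟨h', rfl⟩ := h2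
          have hn' : n' ≠ 0 := by
            rintro rfl
            simp at hn
          refine ih n'.natAbs ?_ n' P h' rfl hn' ?_
          · rw [← hN, Int.natAbs_mul, Int.natAbs_natCast]
            have h3 : 0 < n'.natAbs := Int.natAbs_pos.2 hn'
            have h4 := hl.two_le
            nlinarith
          · have h5 : C (l : ℤ) * (C n' * P) = C (l : ℤ) * (g * h') := by
              rw [← mul_assoc, ← C_mul, hP]; ring
            exact mul_left_cancel₀ (prime_C_nat l hl).ne_zero h5
      · have h1 : aeval z (C n * P) = 0 := by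
          rw [hP, map_mul, hz, zero_mul]
        rw [map_mul, aeval_C, eq_intCast] at h1
        rcases mul_eq_zero.1 h1 with h2 | h2
        · rw [CharP.intCast_eq_zero_iff κ l] at h2
          exact absurd h2 hln
        · exact h2
  obtain ⟨n, hn, h, hh⟩ := (hg P).1 hP
  exact key _ n P h rfl hn hh

theorem Spec_proof : Stmt_Spec := by
  intro D F _ y g hg l κ _ _ z hl hz hz' P hP
  exact spec_of_kerGen hg hl hz hz' hP

end Pool.Agent.MR3
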