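import Pool.Agent.MR3.Defs

set_option autoImplicit false

/-!
# Module StageP: all points good (Gallai's theorem and an ultralimit)
-/

namespace Pool.Agent.MR3

namespace StageP

open MvPolynomial

/-- an `EC` field has characteristic zero -/
theorem ec_charZero {F : Type} [Field F] (h : EC F) : CharZero F := by
  refine charZero_of_inj_zero ?_
  intro n hn
  obtain ⟨z, hz, -⟩ := h Empty (fun e => e.elim) 1 (by simp)
  have h1 := hz (n : MvPolynomial Empty ℤ) (by simp [hn])
  simpa using h1

theorem ec_infinite {F : Type} [Field F] (h : EC F) : Infinite F := by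
  haveI := ec_charZero h
  exact Infinite.of_injective (fun n : ℕ => (n : F)) Nat.cast_injective

/-- the ultralimit of a family of representations -/
def ul {A : Type} {F : Type} {k : ℕ} {I : Type} (U : Ultrafilter I)
    (v : I → A × A → Fin (k + 1) → F) : A × A → Fin (k + 1) → Filter.Germ (U : Filter I) F :=
  fun p j => ((fun i => v i p j : I → F) : Filter.Germ (U : Filter I) F)

theorem ul_rep (hU : Stmt_Ultra) {A : Type} [CommRing A] {F : Type} [Field F] {k : ℕ} {I : Type}
    (U : Ultrafilter I) (v w : I → A × A → Fin (k + 1) → F) (h : ∀ i, IsRep (v i) (w i)) :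
    IsRep (ul U v) (ul U w) := by
  refine ⟨?_, ?_, ?_⟩
  · intro p
    show ((fun i => v i p 0 : I → F) : Filter.Germ (U : Filter I) F) = 1
    have : (fun i => v i p 0 : I → F) = fun _ => 1 := by
      funext i
      exact (h i).1 p
    rw [this]
    rfl
  · intro p
    show ((fun i => w i p 0 : I → F) : Filter.Germ (U : Filter I) F) = 1
    have : (fun i => w i p 0 : I → F) = fun _ => 1 := by
      funext i
      exact (h i).2.1 p
    rw [this]
    rfl
  · intro p l
    have h1 := (hU F I U (k + 1)).1 (fun i => v i p) (fun i => w i l)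
    refine h1.trans ?_
    constructor
    · intro h2
      obtain ⟨i, hi⟩ := h2.exists
      exact ((h i).2.2 p l).1 hi
    · intro h2
      exact Filter.Eventually.of_forall (fun i => ((h i).2.2 p l).2 h2)

theorem ul_ind (hU : Stmt_Ultra) {A : Type} [CommRing A] {F : Type} [Field F] {k : ℕ} {I : Type}
    (U : Ultrafilter I) (w : I → A × A → Fin (k + 1) → F) {S : Set A} (hS : S.Finite)
    (ℓ : (Fin k → A) → Fin k → A × A)
    (h : ∀ᶠ i in (U : Filter I), ∃ f : Fin k → A, (∀ j, f j ∈ S) ∧
      LinearIndependent F (fun j => w i (ℓ f j))) :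
    ∃ f : Fin k → A, (∀ j, f j ∈ S) ∧
      LinearIndependent (Filter.Germ (U : Filter I) F) (fun j => ul U w (ℓ f j)) := by
  have hfin : (Set.pi Set.univ (fun _ : Fin k => S)).Finite := Set.Finite.pi' (fun _ => hS) |>.subset (by
    intro f hf j
    exact hf j (Set.mem_univ _))
  have h2 : (⋃ f ∈ Set.pi Set.univ (fun _ : Fin k => S),
      {i | LinearIndependent F (fun j => w i (ℓ f j))}) ∈ U := by
    filter_upwards [h] with i hi
    obtain ⟨f, hf, hfi⟩ := hi
    simp only [Set.mem_iUnion]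
    exact ⟨f, fun j _ => hf j, hfi⟩
  rw [Ultrafilter.finite_biUnion_mem_iff hfin] at h2
  obtain ⟨f, hf, hfi⟩ := h2
  refine ⟨f, fun j => hf j (Set.mem_univ _), ?_⟩
  exact (hU F I U (k + 1)).2 k (fun i j => w i (ℓ f j)) hfi

/-- goodness status of a point -/
def PG {A : Type} [CommRing A] {F : Type} [Field F] {k : ℕ} (S : Set A)
    (w : A × A → Fin (k + 1) → F) (p : A × A) (a : A × A) : Prop :=
  ∃ f : Fin k → A, (∀ i, f i ∈ S) ∧ LinearIndependent F (fun i => w (thr p (a.1 + a.2 * f i)))

/-- the copy map on points -/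
def al {A : Type} [CommRing A] (a : A × A) (p : A × A) : A × A := (p.1, a.1 * p.1 + a.2 * p.2)

/-- the homothety on points -/
def ho {A : Type} [CommRing A] (d : ℕ) (t : A × A) (p : A × A) : A × A := d • p + t

/-- the homothety on lines -/
def hoL {A : Type} [CommRing A] (d : ℕ) (t : A × A) (l : A × A) : A × A :=
  (l.1, (d : A) * l.2 + t.2 - l.1 * t.1)

/-- the copy map on lines -/
def alL {A : Type} [CommRing A] (a : A × A) (l : A × A) : A × A := (a.1 + a.2 * l.1, a.2 * l.2)

theorem inc_ho {A : Type} [CommRing A] [IsDomain A] [CharZero A] {d : ℕ} (hd : 0 < d)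
    (t p l : A × A) : Inc (ho d t p) (hoL d t l) ↔ Inc p l := by
  have hd' : (d : A) ≠ 0 := by exact_mod_cast hd.ne'
  have e1 : (ho d t p).1 = (d : A) * p.1 + t.1 := by simp [ho]
  have e2 : (ho d t p).2 = (d : A) * p.2 + t.2 := by simp [ho]
  unfold Inc
  rw [e1, e2]
  simp only [hoL]
  constructor
  · intro h
    have : (d : A) * p.2 = (d : A) * (l.1 * p.1 + l.2) := by linear_combination h
    exact mul_left_cancel₀ hd' this
  · intro h
    linear_combination (d : A) * h

theorem inc_al {A : Type} [CommRing A] [IsDomain A] {a : A × A} (ha : a.2 ≠ 0)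
    (p l : A × A) : Inc (al a p) (alL a l) ↔ Inc p l := by
  unfold Inc
  simp only [al, alL]
  constructor
  · intro h
    have : a.2 * p.2 = a.2 * (l.1 * p.1 + l.2) := by linear_combination h
    exact mul_left_cancel₀ ha this
  · intro h
    linear_combination a.2 * h

theorem eq_thr {A : Type} [CommRing A] {p l : A × A} (h : Inc p l) : l = thr p l.1 := by
  unfold Inc at h
  refine Prod.ext rfl ?_
  simp only [thr]
  linear_combination -h

theorem hoL_thr {A : Type} [CommRing A] (d : ℕ) (t p : A × A) (a : A) :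
    hoL d t (thr p a) = thr (ho d t p) a := by
  have e1 : (ho d t p).1 = (d : A) * p.1 + t.1 := by simp [ho]
  have e2 : (ho d t p).2 = (d : A) * p.2 + t.2 := by simp [ho]
  refine Prod.ext rfl ?_
  simp only [thr, hoL, e1, e2]
  ring

theorem rep_ho {A : Type} [CommRing A] [IsDomain A] [CharZero A] {F : Type} [Field F] {k : ℕ}
    {v w : A × A → Fin (k + 1) → F} (h : IsRep v w) {d : ℕ} (hd : 0 < d) (t : A × A) :
    IsRep (fun p => v (ho d t p)) (fun l => w (hoL d t l)) :=
  ⟨fun p => h.1 _, fun l => h.2.1 _, fun p l => (h.2.2 _ _).trans (inc_ho hd t p l)⟩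

theorem rep_al {A : Type} [CommRing A] [IsDomain A] {F : Type} [Field F] {k : ℕ}
    {v w : A × A → Fin (k + 1) → F} (h : IsRep v w) {a : A × A} (ha : a.2 ≠ 0) :
    IsRep (fun p => v (al a p)) (fun l => w (alL a l)) :=
  ⟨fun p => h.1 _, fun l => h.2.1 _, fun p l => (h.2.2 _ _).trans (inc_al ha p l)⟩

/-- some point of `P` is thick -/
theorem thick_point (hT : Stmt_Thick) (hE : Stmt_ECRep) {A : Type} [CommRing A]
    {k : ℕ} {P L : Finset (A × A)} (hPL : ¬ FRep A ℚ k P L)
    {F : Type} [Field F] (hF : EC F) {v w : A × A → Fin (k + 1) → F} (h : IsRep v w) :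
    ∃ p ∈ P, ∃ f : Fin k → A × A, (∀ i, f i ∈ L ∧ Inc p (f i)) ∧
      LinearIndependent F (fun i => w (f i)) := by
  haveI := ec_infinite hF
  by_contra hcon
  push Not at hcon
  apply hPL
  obtain ⟨v', w', h'⟩ := hT F k (A × A) (A × A) P L Inc v w (fun p _ l _ => h.2.2 p l) (by
    rintro p hp ⟨f, hf1, hf2⟩
    exact hcon p hp f hf1 hf2)
  obtain ⟨v'', w'', h''⟩ := hE F hF k (A × A) (A × A) P L Inc v' w' h'
  exact ⟨v'', w'', h''⟩

/-- every copy of `P` contains a good point -/
theorem copy_good (hT : Stmt_Thick) (hE : Stmt_ECRep) {A : Type} [CommRing A] [IsDomain A]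
    [CharZero A] {k : ℕ} {P L : Finset (A × A)} (hPL : ¬ FRep A ℚ k P L) {S : Set A}
    (hL : ∀ l ∈ L, l.1 ∈ S) {F : Type} [Field F] (hF : EC F) {v w : A × A → Fin (k + 1) → F}
    (h : IsRep v w) {a : A × A} (ha : a.2 ≠ 0) {d : ℕ} (hd : 0 < d) (t : A × A) :
    ∃ p ∈ P, PG S w (ho d t (al a p)) a := by
  obtain ⟨p, hp, f, hf1, hf2⟩ := thick_point hT hE hPL hF (rep_al (rep_ho h hd t) ha)
  refine ⟨p, hp, fun i => (f i).1, fun i => hL _ (hf1 i).1, ?_⟩
  have : (fun i => w (thr (ho d t (al a p)) (a.1 + a.2 * (f i).1))) =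
      fun i => w (hoL d t (alL a (f i))) := by
    funext i
    have h1 : Inc (al a p) (alL a (f i)) := (inc_al ha p (f i)).2 (hf1 i).2
    have h2 := eq_thr h1
    rw [h2, hoL_thr]
    rfl
  rw [this]
  exact hf2

/-- Gallai step: for finitely many requests there is a homothety satisfying all of them -/
theorem gallai_step (hT : Stmt_Thick) (hE : Stmt_ECRep) {A : Type} [CommRing A] [IsDomain A]
    [CharZero A] {k : ℕ} {P L : Finset (A × A)} (hPL : ¬ FRep A ℚ k P L) {S : Set A}
    (hL : ∀ l ∈ L, l.1 ∈ S) {F : Type} [Field F] (hF : EC F) {v w : A × A → Fin (k + 1) → F}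
    (h : IsRep v w) (R : Finset ((A × A) × (A × A))) :
    ∃ v' w' : A × A → Fin (k + 1) → F, IsRep v' w' ∧
      ∀ x ∈ R, x.2.2 ≠ 0 → PG S w' x.1 x.2 := by
  classical
  set J : Finset (A × A) := (R.image Prod.snd).filter (fun a => a.2 ≠ 0) with hJ
  set T : Finset (A × A) := R.image Prod.fst ∪ J.biUnion (fun a => P.image (al a)) with hTdef
  obtain ⟨d, hd, t, c, hc⟩ := Combinatorics.exists_mono_homothetic_copy (κ := J → Prop) T
    (fun q a => PG S w q a.1)
  refine ⟨fun p => v (ho d t p), fun l => w (hoL d t l), rep_ho h hd t, ?_⟩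
  rintro ⟨q, a⟩ hx ha
  have haJ : a ∈ J := by
    rw [hJ, Finset.mem_filter, Finset.mem_image]
    exact ⟨⟨(q, a), hx, rfl⟩, ha⟩
  obtain ⟨p, hp, hpg⟩ := copy_good hT hE hPL hL hF h ha hd t
  have h1 := hc (al a p) (by
    rw [hTdef, Finset.mem_union, Finset.mem_biUnion]
    exact Or.inr ⟨a, haJ, Finset.mem_image_of_mem _ hp⟩)
  have h2 := hc q (by
    rw [hTdef, Finset.mem_union, Finset.mem_image]
    exact Or.inl ⟨(q, a), hx, rfl⟩)
  have h3 := congrFun (h2.trans h1.symm) ⟨a, haJ⟩
  have h4 : PG S w (ho d t q) a := by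
    have h5 : PG S w (d • q + t) a = PG S w (d • (al a p) + t) a := h3
    show PG S w (d • q + t) a
    rw [h5]
    exact hpg
  obtain ⟨f, hf1, hf2⟩ := h4
  refine ⟨f, hf1, ?_⟩
  simp only [hoL_thr]
  exact hf2

end StageP

open StageP in
theorem StageP_proof (hT : Stmt_Thick) (hE : Stmt_ECRep) (hG : Stmt_ECGerm) (hU : Stmt_Ultra) :
    Stmt_StageP := by
  intro A _ _ _ k P L hPL S hS hL F _ hF v w h
  classical
  have key := fun R => gallai_step hT hE hPL hL hF h (S := S) R
  choose vR wR hrep hgood using key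
  set U : Ultrafilter (Finset ((A × A) × (A × A))) := Ultrafilter.of Filter.atTop with hUdef
  refine ⟨Filter.Germ (U : Filter (Finset ((A × A) × (A × A)))) F, inferInstance,
    hG.2 F hF _ U, ul U vR, ul U wR, ul_rep hU U vR wR hrep, ?_⟩
  intro p a0 a1 ha1
  refine ul_ind hU U wR hS (fun f i => thr p (a0 + a1 * f i)) ?_
  have h1 : ∀ᶠ i in (U : Filter (Finset ((A × A) × (A × A)))), {(p, (a0, a1))} ≤ i :=
    Ultrafilter.of_le Filter.atTop (Filter.eventually_ge_atTop _)
  filter_upwards [h1] with i hi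
  exact hgood i (p, (a0, a1)) (hi (Finset.mem_singleton_self _)) ha1

end Pool.Agent.MR3
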