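import Pool.Agent.MR3.Defs
import Pool.Agent.MR3.StageP

set_option autoImplicit false

/-!
# Module StageL: all lines good (Gallai's theorem for lines and an ultralimit)
-/

namespace Pool.Agent.MR3

namespace StageL

open MvPolynomial StageP

/-- goodness status of a line -/
def LG {A : Type} [CommRing A] {F : Type} [Field F] {k : ℕ} (S : Set A)
    (v : A × A → Fin (k + 1) → F) (l : A × A) (x0 : A) : Prop :=
  ∃ f : Fin k → A, (∀ i, f i ∈ S) ∧ LinearIndependent F (fun i => v (pt l (x0 + f i)))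

/-- the translation on points -/
def be {A : Type} [CommRing A] (x0 : A) (p : A × A) : A × A := (p.1 + x0, p.2)

/-- the translation on lines -/
def beL {A : Type} [CommRing A] (x0 : A) (l : A × A) : A × A := (l.1, l.2 - l.1 * x0)

/-- the homothety on lines -/
def H {A : Type} [CommRing A] (d : ℕ) (t : A × A) (l : A × A) : A × A := d • l + t

/-- the action of a homothety of the plane of lines on points -/
def HP {A : Type} [CommRing A] (d : ℕ) (t : A × A) (p : A × A) : A × A :=
  (p.1, (d : A) * p.2 + t.1 * p.1 + t.2)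

theorem inc_H {A : Type} [CommRing A] [IsDomain A] [CharZero A] {d : ℕ} (hd : 0 < d)
    (t p l : A × A) : Inc (HP d t p) (H d t l) ↔ Inc p l := by
  have hd' : (d : A) ≠ 0 := by exact_mod_cast hd.ne'
  have e1 : (H d t l).1 = (d : A) * l.1 + t.1 := by simp [H]
  have e2 : (H d t l).2 = (d : A) * l.2 + t.2 := by simp [H]
  unfold Inc
  rw [e1, e2]
  simp only [HP]
  constructor
  · intro h
    have : (d : A) * p.2 = (d : A) * (l.1 * p.1 + l.2) := by linear_combination h
    exact mul_left_cancel₀ hd' this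
  · intro h
    linear_combination (d : A) * h

theorem inc_be {A : Type} [CommRing A] (x0 : A) (p l : A × A) :
    Inc (be x0 p) (beL x0 l) ↔ Inc p l := by
  unfold Inc
  simp only [be, beL]
  constructor
  · intro h
    linear_combination h
  · intro h
    linear_combination h

theorem eq_pt {A : Type} [CommRing A] {p l : A × A} (h : Inc p l) : p = pt l p.1 := by
  unfold Inc at h
  refine Prod.ext rfl ?_
  simp only [pt]
  exact h

theorem HP_pt {A : Type} [CommRing A] (d : ℕ) (t l : A × A) (x : A) :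
    HP d t (pt l x) = pt (H d t l) x := by
  have e1 : (H d t l).1 = (d : A) * l.1 + t.1 := by simp [H]
  have e2 : (H d t l).2 = (d : A) * l.2 + t.2 := by simp [H]
  refine Prod.ext rfl ?_
  simp only [pt, HP, e1, e2]
  ring

theorem H_thr {A : Type} [CommRing A] (d : ℕ) (t p : A × A) (a : A) :
    H d t (thr p a) = thr (HP d t p) ((d : A) * a + t.1) := by
  have e1 : (H d t (thr p a)).1 = (d : A) * (thr p a).1 + t.1 := by simp [H]
  have e2 : (H d t (thr p a)).2 = (d : A) * (thr p a).2 + t.2 := by simp [H]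
  refine Prod.ext ?_ ?_
  · rw [e1]
    simp only [thr]
  · rw [e2]
    simp only [thr, HP]
    ring

theorem rep_H {A : Type} [CommRing A] [IsDomain A] [CharZero A] {F : Type} [Field F] {k : ℕ}
    {v w : A × A → Fin (k + 1) → F} (h : IsRep v w) {d : ℕ} (hd : 0 < d) (t : A × A) :
    IsRep (fun p => v (HP d t p)) (fun l => w (H d t l)) :=
  ⟨fun _ => h.1 _, fun _ => h.2.1 _, fun p l => (h.2.2 _ _).trans (inc_H hd t p l)⟩

theorem rep_be {A : Type} [CommRing A] {F : Type} [Field F] {k : ℕ}
    {v w : A × A → Fin (k + 1) → F} (h : IsRep v w) (x0 : A) :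
    IsRep (fun p => v (be x0 p)) (fun l => w (beL x0 l)) :=
  ⟨fun _ => h.1 _, fun _ => h.2.1 _, fun p l => (h.2.2 _ _).trans (inc_be x0 p l)⟩

/-- goodness of points is preserved -/
theorem goodP_H {A : Type} [CommRing A] [IsDomain A] [CharZero A] {F : Type} [Field F] {k : ℕ}
    {S : Set A} {w : A × A → Fin (k + 1) → F} (h : GoodP S w) {d : ℕ} (hd : 0 < d) (t : A × A) :
    GoodP S (fun l => w (H d t l)) := by
  have hd' : (d : A) ≠ 0 := by exact_mod_cast hd.ne'
  intro p a0 a1 ha1
  obtain ⟨f, hf1, hf2⟩ := h (HP d t p) ((d : A) * a0 + t.1) ((d : A) * a1) (mul_ne_zero hd' ha1)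
  refine ⟨f, hf1, ?_⟩
  have e : (fun i => w (H d t (thr p (a0 + a1 * f i)))) =
      fun i => w (thr (HP d t p) ((d : A) * a0 + t.1 + (d : A) * a1 * f i)) := by
    funext i
    rw [H_thr]
    congr 2
    ring
  show LinearIndependent F (fun i => w (H d t (thr p (a0 + a1 * f i))))
  rw [e]
  exact hf2

theorem dot_comm' {F : Type} [Field F] {r : ℕ} (x y : Fin r → F) :
    dotProduct x y = dotProduct y x := dotProduct_comm x y

/-- some line of `L` is thick -/
theorem thick_line (hT : Stmt_Thick) (hE : Stmt_ECRep) {A : Type} [CommRing A]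
    {k : ℕ} {P L : Finset (A × A)} (hPL : ¬ FRep A ℚ k P L)
    {F : Type} [Field F] (hF : EC F) {v w : A × A → Fin (k + 1) → F} (h : IsRep v w) :
    ∃ l ∈ L, ∃ f : Fin k → A × A, (∀ i, f i ∈ P ∧ Inc (f i) l) ∧
      LinearIndependent F (fun i => v (f i)) := by
  haveI := ec_infinite hF
  by_contra hcon
  push Not at hcon
  apply hPL
  obtain ⟨w', v', h'⟩ := hT F k (A × A) (A × A) L P (fun l p => Inc p l) w v
    (fun l _ p _ => by rw [dotProduct_comm]; exact h.2.2 p l) (by
    rintro l hl ⟨f, hf1, hf2⟩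
    exact hcon l hl f hf1 hf2)
  obtain ⟨w'', v'', h''⟩ := hE F hF k (A × A) (A × A) L P (fun l p => Inc p l) w' v' h'
  exact ⟨v'', w'', fun p hp l hl => by rw [dotProduct_comm]; exact h'' l hl p hp⟩

/-- every copy of `L` contains a good line -/
theorem copy_good (hT : Stmt_Thick) (hE : Stmt_ECRep) {A : Type} [CommRing A] [IsDomain A]
    [CharZero A] {k : ℕ} {P L : Finset (A × A)} (hPL : ¬ FRep A ℚ k P L) {S : Set A}
    (hP : ∀ p ∈ P, p.1 ∈ S) {F : Type} [Field F] (hF : EC F) {v w : A × A → Fin (k + 1) → F}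
    (h : IsRep v w) (x0 : A) {d : ℕ} (hd : 0 < d) (t : A × A) :
    ∃ l ∈ L, LG S v (H d t (beL x0 l)) x0 := by
  obtain ⟨l, hl, f, hf1, hf2⟩ := thick_line hT hE hPL hF (rep_be (rep_H h hd t) x0)
  refine ⟨l, hl, fun i => (f i).1, fun i => hP _ (hf1 i).1, ?_⟩
  have : (fun i => v (pt (H d t (beL x0 l)) (x0 + (f i).1))) =
      fun i => v (HP d t (be x0 (f i))) := by
    funext i
    have h1 : Inc (be x0 (f i)) (beL x0 l) := (inc_be x0 (f i) l).2 (hf1 i).2
    have h2 := eq_pt h1
    rw [h2, HP_pt]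
    have e : (be x0 (f i)).1 = x0 + (f i).1 := by simp [be, add_comm]
    rw [e]
  rw [this]
  exact hf2

/-- Gallai step: for finitely many requests there is a homothety satisfying all of them -/
theorem gallai_step (hT : Stmt_Thick) (hE : Stmt_ECRep) {A : Type} [CommRing A] [IsDomain A]
    [CharZero A] {k : ℕ} {P L : Finset (A × A)} (hPL : ¬ FRep A ℚ k P L) {S : Set A}
    (hP : ∀ p ∈ P, p.1 ∈ S) {F : Type} [Field F] (hF : EC F) {v w : A × A → Fin (k + 1) → F}
    (h : IsRep v w) (hgp : GoodP S w) (R : Finset ((A × A) × A)) :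
    ∃ v' w' : A × A → Fin (k + 1) → F, IsRep v' w' ∧ GoodP S w' ∧
      ∀ x ∈ R, LG S v' x.1 x.2 := by
  classical
  set J : Finset A := R.image Prod.snd with hJ
  set T : Finset (A × A) := R.image Prod.fst ∪ J.biUnion (fun x0 => L.image (beL x0)) with hTdef
  obtain ⟨d, hd, t, c, hc⟩ := Combinatorics.exists_mono_homothetic_copy (κ := J → Prop) T
    (fun q x0 => LG S v q x0.1)
  refine ⟨fun p => v (HP d t p), fun l => w (H d t l), rep_H h hd t, goodP_H hgp hd t, ?_⟩
  rintro ⟨q, x0⟩ hx
  have haJ : x0 ∈ J := by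
    rw [hJ, Finset.mem_image]
    exact ⟨(q, x0), hx, rfl⟩
  obtain ⟨l, hl, hlg⟩ := copy_good hT hE hPL hP hF h x0 hd t
  have h1 := hc (beL x0 l) (by
    rw [hTdef, Finset.mem_union, Finset.mem_biUnion]
    exact Or.inr ⟨x0, haJ, Finset.mem_image_of_mem _ hl⟩)
  have h2 := hc q (by
    rw [hTdef, Finset.mem_union, Finset.mem_image]
    exact Or.inl ⟨(q, x0), hx, rfl⟩)
  have h3 := congrFun (h2.trans h1.symm) ⟨x0, haJ⟩
  have h4 : LG S v (H d t q) x0 := by
    have h5 : LG S v (d • q + t) x0 = LG S v (d • (beL x0 l) + t) x0 := h3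
    show LG S v (d • q + t) x0
    rw [h5]
    exact hlg
  obtain ⟨f, hf1, hf2⟩ := h4
  refine ⟨f, hf1, ?_⟩
  simp only [HP_pt]
  exact hf2

end StageL

open StageP StageL in
theorem StageL_proof (hT : Stmt_Thick) (hE : Stmt_ECRep) (hG : Stmt_ECGerm) (hU : Stmt_Ultra) :
    Stmt_StageL := by
  intro A _ _ _ k P L hPL S hS hP F _ hF v w h hgp
  classical
  have key := fun R => StageL.gallai_step hT hE hPL hP hF h hgp R
  choose vR wR hrep hgoodP hgood using key
  set U : Ultrafilter (Finset ((A × A) × A)) := Ultrafilter.of Filter.atTop with hUdef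
  refine ⟨Filter.Germ (U : Filter (Finset ((A × A) × A))) F, inferInstance,
    hG.2 F hF _ U, ul U vR, ul U wR, ul_rep hU U vR wR hrep, ?_, ?_⟩
  · intro p a0
    refine ul_ind hU U wR hS (fun f i => thr p (a0 + f i)) ?_
    refine Filter.Eventually.of_forall (fun i => ?_)
    obtain ⟨f, hf1, hf2⟩ := hgoodP i p a0 1 one_ne_zero
    refine ⟨f, hf1, ?_⟩
    simpa only [one_mul] using hf2
  · intro l x0
    refine ul_ind hU U vR hS (fun f i => pt l (x0 + f i)) ?_
    have h1 : ∀ᶠ i in (U : Filter (Finset ((A × A) × A))), {(l, x0)} ≤ i :=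
      Ultrafilter.of_le Filter.atTop (Filter.eventually_ge_atTop _)
    filter_upwards [h1] with i hi
    exact hgood i (l, x0) (hi (Finset.mem_singleton_self _))

end Pool.Agent.MR3
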