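import Pool.Agent.MR3.Avoid

set_option autoImplicit false

/-!
# The thick lemma
-/

namespace Pool.Agent.MR3

/-- in the kernel of a map to a small space there is a vector independent of a given one -/
theorem exists_indep_orth {F : Type} [Field F] {k : ℕ} (s : Set (Fin (k + 1) → F))
    (hs : ¬ ∃ f : Fin k → (Fin (k + 1) → F), (∀ i, f i ∈ s) ∧ LinearIndependent F f)
    (v : Fin (k + 1) → F) :
    ∃ u : Fin (k + 1) → F, (∀ x ∈ s, dotProduct u x = 0) ∧ u ∉ Submodule.span F {v} := by
  obtain ⟨m, f, hfs, hspan, hli⟩ : ∃ (m : ℕ) (f : Fin m → Fin (k + 1) → F), (∀ i, f i ∈ s) ∧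
      Submodule.span F (Set.range f) = Submodule.span F s ∧ LinearIndependent F f :=
    ⟨_, Submodule.exists_fun_fin_finrank_span_eq F s⟩
  have hmk : m < k := by
    by_contra hcon
    push Not at hcon
    exact hs ⟨fun i => f (Fin.castLE hcon i), fun i => hfs _,
      hli.comp _ (Fin.castLE_injective hcon)⟩
  let T : (Fin (k + 1) → F) →ₗ[F] (Fin m → F) :=
    { toFun := fun u i => dotProduct u (f i)
      map_add' := by intro x y; ext i; simp [add_dotProduct]
      map_smul' := by intro c x; ext i; simp [smul_dotProduct] }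
  have hker : 2 ≤ Module.finrank F (LinearMap.ker T) := by
    have h1 := LinearMap.finrank_range_add_finrank_ker T
    have h2 : Module.finrank F (LinearMap.range T) ≤ m := by
      refine (Submodule.finrank_le _).trans ?_
      simp
    simp only [Module.finrank_fintype_fun_eq_card, Fintype.card_fin] at h1
    omega
  have hnle : ¬ (LinearMap.ker T ≤ Submodule.span F {v}) := by
    intro hle
    have h1 := Submodule.finrank_mono hle
    have h2 : Module.finrank F (Submodule.span F {v}) ≤ 1 :=
      (finrank_span_le_card ({v} : Set (Fin (k + 1) → F))).trans (by simp)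
    omega
  obtain ⟨u, hu, hnu⟩ := SetLike.not_le_iff_exists.mp hnle
  refine ⟨u, ?_, hnu⟩
  intro x hx
  have hx2 : x ∈ Submodule.span F (Set.range f) := by
    rw [hspan]; exact Submodule.subset_span hx
  have hTu : ∀ i, dotProduct u (f i) = 0 := by
    intro i
    have : T u = 0 := hu
    exact congrFun this i
  refine Submodule.span_induction ?_ ?_ ?_ ?_ hx2
  · rintro y ⟨i, rfl⟩
    exact hTu i
  · simp
  · intro y z _ _ hy hz
    rw [dotProduct_add, hy, hz, add_zero]
  · intro c y _ hy
    rw [dotProduct_smul, hy, smul_zero]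

theorem Thick_proof : Stmt_Thick := by
  intro F _ _ k α β P L I v w hvw hthin
  classical
  have hex : ∀ p : α, ∃ u : Fin (k + 1) → F, p ∈ P →
      ((∀ l ∈ L, I p l → dotProduct u (w l) = 0) ∧ u ∉ Submodule.span F {v p}) := by
    intro p
    by_cases hp : p ∈ P
    · have := exists_indep_orth (F := F) (k := k) {x | ∃ l ∈ L, I p l ∧ w l = x} (by
        rintro ⟨f, hf, hli⟩
        choose g hgL hgI hgw using hf
        apply hthin p hp
        refine ⟨g, fun i => ⟨hgL i, hgI i⟩, ?_⟩
        have : (fun i => w (g i)) = f := funext hgw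
        rw [this]; exact hli) (v p)
      obtain ⟨u, hu, hnu⟩ := this
      exact ⟨u, fun _ => ⟨fun l hl hI => hu _ ⟨l, hl, hI, rfl⟩, hnu⟩⟩
    · exact ⟨0, fun h => absurd h hp⟩
  choose u hu using hex
  let b : α → β → (Fin (k + 1) → F) := fun p l =>
    dotProduct (v p) (w l) • u p - dotProduct (u p) (w l) • v p
  have hb : ∀ p ∈ P, ∀ l ∈ L, ¬ I p l → b p l ≠ 0 := by
    intro p hp l hl hI h0
    have h1 : dotProduct (v p) (w l) ≠ 0 := fun h => hI ((hvw p hp l hl).1 h)
    apply (hu p hp).2
    rw [Submodule.mem_span_singleton]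
    refine ⟨(dotProduct (v p) (w l))⁻¹ * dotProduct (u p) (w l), ?_⟩
    have h2 : dotProduct (v p) (w l) • u p = dotProduct (u p) (w l) • v p := sub_eq_zero.1 h0
    rw [mul_smul, ← h2, smul_smul, inv_mul_cancel₀ h1, one_smul]
  let s : Set (Fin (k + 1) → F) :=
    insert (Pi.single 0 1) {x | ∃ p ∈ P, ∃ l ∈ L, ¬ I p l ∧ b p l = x}
  have hsfin : s.Finite := by
    apply Set.Finite.insert
    have : {x | ∃ p ∈ P, ∃ l ∈ L, ¬ I p l ∧ b p l = x} ⊆
        ((fun q : α × β => b q.1 q.2) '' ((P ×ˢ L : Finset (α × β)) : Set (α × β))) := by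
      rintro x ⟨p, hp, l, hl, -, rfl⟩
      exact ⟨(p, l), by simp [hp, hl], rfl⟩
    exact (Set.Finite.image _ (Finset.finite_toSet _)).subset this
  obtain ⟨ψ, hψ⟩ := exists_avoid s hsfin (by
    intro x hx
    rcases hx with rfl | ⟨p, hp, l, hl, hI, rfl⟩
    · intro h
      have := congrFun h 0
      simp at this
    · exact hb p hp l hl hI)
  have hψ0 : ψ 0 ≠ 0 := by
    have := hψ (Pi.single 0 1) (Set.mem_insert _ _)
    simpa using this
  let v1 : α → Fin (k + 1) → F := fun p => dotProduct ψ (u p) • v p - dotProduct ψ (v p) • u p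
  have hv1 : ∀ p, dotProduct ψ (v1 p) = 0 := by
    intro p
    simp only [v1, dotProduct_sub, dotProduct_smul, smul_eq_mul]
    ring
  refine ⟨fun p i => v1 p i.succ, fun l i => w l i.succ - ψ i.succ / ψ 0 * w l 0, ?_⟩
  intro p hp l hl
  rw [← dot_drop ψ (v1 p) (w l) hψ0 (hv1 p)]
  have hval : dotProduct (v1 p) (w l) = dotProduct ψ (b p l) := by
    simp only [v1, b, dotProduct_sub, dotProduct_smul, sub_dotProduct, smul_dotProduct, smul_eq_mul]
    ring
  rw [hval]
  constructor
  · intro h
    by_contra hI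
    exact hψ (b p l) (Set.mem_insert_of_mem _ ⟨p, hp, l, hl, hI, rfl⟩) h
  · intro hI
    have h1 : dotProduct (v p) (w l) = 0 := (hvw p hp l hl).2 hI
    have h2 : dotProduct (u p) (w l) = 0 := (hu p hp).1 l hl hI
    simp [b, h1, h2]

end Pool.Agent.MR3
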