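import Pool.Agent.MR3.Defs

/-!
# Module Tower
-/

set_option autoImplicit false

namespace Pool.Agent.MR3.Tower

open Polynomial

theorem fi_monic_deg (n : ℕ) : (fi n).Monic ∧ (fi n).natDegree = 2 ^ n := by
  induction n with
  | zero => exact ⟨monic_X, by simp [fi]⟩
  | succ n ih =>
    have h2 : (X ^ 2 - C 2 : ℤ[X]).natDegree = 2 := natDegree_X_pow_sub_C
    have h3 : (X ^ 2 - C 2 : ℤ[X]).Monic := monic_X_pow_sub_C 2 (by norm_num)
    refine ⟨ih.1.comp h3 (by rw [h2]; norm_num), ?_⟩
    change ((fi n).comp (X ^ 2 - C 2)).natDegree = _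
    rw [natDegree_comp, h2, ih.2, pow_succ]

theorem fi_eval_two (n : ℕ) : (fi n).eval 2 = 2 := by
  induction n with
  | zero => simp [fi]
  | succ n ih =>
    change ((fi n).comp (X ^ 2 - C 2)).eval 2 = 2
    rw [eval_comp]
    simp only [eval_sub, eval_pow, eval_X, eval_C]
    norm_num
    exact ih

theorem fi_eval_neg_two (n : ℕ) : (fi (n + 1)).eval (-2) = 2 := by
  change ((fi n).comp (X ^ 2 - C 2)).eval (-2) = 2
  rw [eval_comp]
  simp only [eval_sub, eval_pow, eval_X, eval_C]
  norm_num
  exact fi_eval_two n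

open IntermediateField in
theorem norm_two_add {E L : Type} [Field E] [CharZero E] [Field L] [Algebra E L] (x : L) (n : ℕ)
    (hx : minpoly E x = (fi n).map (Int.castRingHom E)) :
    Algebra.norm E (2 + AdjoinSimple.gen E x) = 2 := by
  have hint : IsIntegral E x := by
    by_contra hcon
    rw [minpoly.eq_zero hcon] at hx
    have := ((fi_monic_deg n).1.map (Int.castRingHom E)).ne_zero
    exact this hx.symm
  let pb := adjoin.powerBasis hint
  have hgen : pb.gen = AdjoinSimple.gen E x := adjoin.powerBasis_gen hint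
  have hdim : pb.dim = 2 ^ n := by
    change (minpoly E x).natDegree = 2 ^ n
    rw [hx, (fi_monic_deg n).1.natDegree_map, (fi_monic_deg n).2]
  have hcp : (Algebra.leftMulMatrix pb.basis pb.gen).charpoly =
      (fi n).map (Int.castRingHom E) := by
    rw [charpoly_leftMulMatrix, hgen, minpoly_gen, hx]
  have hev : ((fi n).map (Int.castRingHom E)).eval (-2) =
      ((Matrix.scalar _ (-2 : E)) - Algebra.leftMulMatrix pb.basis pb.gen).det := by
    rw [← hcp, Matrix.eval_charpoly]
  have hev2 : ((fi n).map (Int.castRingHom E)).eval (-2) = ((fi n).eval (-2) : ℤ) := by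
    have : (-2 : E) = Int.castRingHom E (-2) := by simp
    rw [this, eval_map, eval₂_hom]
    simp
  have hM : Algebra.leftMulMatrix pb.basis (2 + AdjoinSimple.gen E x) =
      -((Matrix.scalar _ (-2 : E)) - Algebra.leftMulMatrix pb.basis pb.gen) := by
    rw [map_add, ← hgen]
    have : (2 : E⟮x⟯) = algebraMap E E⟮x⟯ 2 := (map_ofNat (algebraMap E E⟮x⟯) 2).symm
    rw [this, AlgHom.commutes, neg_sub, sub_eq_add_neg, add_comm]
    congr 1
    rw [← map_neg, neg_neg]
    rfl
  rw [Algebra.norm_eq_matrix_det pb.basis, hM, Matrix.det_neg, ← hev, hev2, Fintype.card_fin, hdim]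
  cases n with
  | zero => simp [fi]
  | succ n =>
    rw [fi_eval_neg_two]
    have : Even (2 ^ (n + 1)) := by rw [pow_succ]; exact even_iff_two_dvd.2 ⟨2 ^ n, by ring⟩
    rw [this.neg_one_pow]
    simp

theorem fi_irreducible (E : Type) [Field E] [CharZero E] (h2 : ¬ ∃ x : E, x ^ 2 = 2) (n : ℕ) :
    Irreducible ((fi n).map (Int.castRingHom E)) := by
  induction n with
  | zero => simpa [fi] using (irreducible_X : Irreducible (X : E[X]))
  | succ n ih =>
    have e1 : (fi (n + 1)).map (Int.castRingHom E) =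
        ((fi n).map (Int.castRingHom E)).comp (X ^ 2 - C 2) := by
      change ((fi n).comp (X ^ 2 - C 2)).map _ = _
      rw [Polynomial.map_comp, Polynomial.map_sub, Polynomial.map_pow, map_X, map_C]
      simp
    rw [e1]
    refine Polynomial.irreducible_comp ((fi_monic_deg n).1.map _)
      (monic_X_pow_sub_C 2 (by norm_num)) ih ?_
    intro L _ _ x hx
    have e2 : (X ^ 2 - C 2 : E[X]).map (algebraMap E (IntermediateField.adjoin E {x})) -
        C (IntermediateField.AdjoinSimple.gen E x) =
        X ^ 2 - C (2 + IntermediateField.AdjoinSimple.gen E x) := by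
      rw [Polynomial.map_sub, Polynomial.map_pow, map_X, map_C, C_add, sub_sub]
      rw [map_ofNat (algebraMap E (IntermediateField.adjoin E {x})) 2]
    rw [e2]
    apply X_pow_sub_C_irreducible_of_prime Nat.prime_two
    intro b hb
    apply h2
    refine ⟨Algebra.norm E b, ?_⟩
    rw [← map_pow, hb, norm_two_add x n hx]

/-- the real roots -/
noncomputable def et : ℕ → ℝ
  | 0 => 0
  | n + 1 => √(2 + et n)

theorem et_nonneg (n : ℕ) : 0 ≤ et n := by
  cases n with
  | zero => exact le_rfl
  | succ n => exact Real.sqrt_nonneg _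

theorem et_sq (n : ℕ) : et (n + 1) ^ 2 - 2 = et n := by
  change √(2 + et n) ^ 2 - 2 = et n
  rw [Real.sq_sqrt (by have := et_nonneg n; linarith)]
  ring

theorem fi_et (n : ℕ) : (fi n).eval₂ (Int.castRingHom ℝ) (et n) = 0 := by
  induction n with
  | zero => simp [fi, et]
  | succ n ih =>
    change ((fi n).comp (X ^ 2 - C 2)).eval₂ _ _ = 0
    rw [eval₂_comp]
    simp only [eval₂_sub, eval₂_pow, eval₂_X, eval₂_C]
    have : et (n + 1) ^ 2 - (Int.castRingHom ℝ) 2 = et n := by
      rw [← et_sq n]; simp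
    rw [this, ih]

/-- the real embedding -/
noncomputable def re (n : ℕ) : Tw n →+* ℝ := AdjoinRoot.lift (Int.castRingHom ℝ) (et n) (fi_et n)

theorem re_inj (n : ℕ) : Function.Injective (re n) := by
  have hirr : Irreducible ((fi n).map (Int.castRingHom ℚ)) := by
    apply fi_irreducible ℚ
    rintro ⟨x, hx⟩
    apply irrational_sqrt_two
    refine ⟨|x|, ?_⟩
    have : √2 = |(x : ℝ)| := by
      rw [← Real.sqrt_sq_eq_abs]
      congr 1
      exact_mod_cast hx.symm
    rw [this]
    push_cast
    rfl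
  rw [injective_iff_map_eq_zero]
  intro a ha
  obtain ⟨p, rfl⟩ := AdjoinRoot.mk_surjective a
  unfold re at ha
  rw [AdjoinRoot.lift_mk] at ha
  have hq : (p.map (Int.castRingHom ℚ)).eval₂ (algebraMap ℚ ℝ) (et n) = 0 := by
    rw [eval₂_map, RingHom.ext_int ((algebraMap ℚ ℝ).comp (Int.castRingHom ℚ)) (Int.castRingHom ℝ)]
    exact ha
  have hmin : minpoly ℚ (et n) = (fi n).map (Int.castRingHom ℚ) := by
    refine (minpoly.eq_of_irreducible_of_monic hirr ?_ ((fi_monic_deg n).1.map _)).symm
    rw [aeval_def, eval₂_map,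
      RingHom.ext_int ((algebraMap ℚ ℝ).comp (Int.castRingHom ℚ)) (Int.castRingHom ℝ)]
    exact fi_et n
  have hdvd : (fi n).map (Int.castRingHom ℚ) ∣ p.map (Int.castRingHom ℚ) := by
    rw [← hmin]
    exact minpoly.dvd ℚ _ hq
  rw [map_dvd_map _ (RingHom.injective_int (Int.castRingHom ℚ)) (fi_monic_deg n).1] at hdvd
  rwa [AdjoinRoot.mk_eq_zero]

/-- the inclusion -/
noncomputable def up (n : ℕ) : Tw n →+* Tw (n + 1) :=
  AdjoinRoot.lift (Int.castRingHom _) (AdjoinRoot.root (fi (n + 1)) ^ 2 - 2) (by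
    have h := AdjoinRoot.eval₂_root (fi (n + 1))
    change ((fi n).comp (X ^ 2 - C 2)).eval₂ (AdjoinRoot.of (fi (n + 1))) _ = 0 at h
    rw [eval₂_comp] at h
    simp only [eval₂_sub, eval₂_pow, eval₂_X, eval₂_C] at h
    rw [map_ofNat (AdjoinRoot.of (fi (n + 1))) 2] at h
    rw [RingHom.ext_int (Int.castRingHom _) (AdjoinRoot.of (fi (n + 1)))]
    exact h)

theorem up_inj (n : ℕ) : Function.Injective (up n) := by
  have h : (re (n + 1)).comp (up n) = re n := by
    apply AdjoinRoot.ringHom_ext
    · exact RingHom.ext_int _ _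
    · simp only [RingHom.comp_apply, up, re, AdjoinRoot.lift_root, map_sub, map_pow]
      rw [← et_sq n, map_ofNat]
  have h2 : Function.Injective ((re (n + 1)).comp (up n)) := by
    rw [h]; exact re_inj n
  exact Function.Injective.of_comp h2

theorem prime_map_equiv {R S : Type} [CommRing R] [CommRing S] (e : R ≃+* S) (q : R[X])
    (h : Prime (q.map (e : R →+* S))) : Prime q := by
  rw [← MulEquiv.prime_iff (Polynomial.mapEquiv e)]
  exact h

end Pool.Agent.MR3.Tower

namespace Pool.Agent.MR3

open Polynomial Tower TensorProduct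

theorem Tower_proof : Stmt_Tower := by
  refine ⟨fi_monic_deg, fun n => ⟨re n, re_inj n⟩, ?_, ?_⟩
  · intro m n hmn
    induction n, hmn using Nat.le_induction with
    | base => exact ⟨RingHom.id _, Function.injective_id⟩
    | succ n hmn ih =>
      obtain ⟨φ, hφ⟩ := ih
      exact ⟨(up n).comp φ, (up_inj n).comp hφ⟩
  · intro n E _ _ h2
    have hirr := fi_irreducible E h2 n
    let e := AdjoinRoot.tensorAlgEquiv (R := ℤ) (S := ℤ) (T := E) (fi n) _ rfl
    have hq := prime_map_equiv (Algebra.TensorProduct.rid ℤ E E).toRingEquiv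
      ((fi n).map (Algebra.TensorProduct.includeRight (R := ℤ) (A := E) (B := ℤ)).toRingHom) (by
        rw [Polynomial.map_map, RingHom.ext_int (RingHom.comp _ _) (Int.castRingHom E)]
        exact hirr.prime)
    have := AdjoinRoot.isDomain_of_prime hq
    exact e.toRingEquiv.toMulEquiv.isDomain _

end Pool.Agent.MR3
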