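import Pool.Agent.MR3.Defs

set_option autoImplicit false

namespace Pool.Agent.MR3

namespace Ultra

open Filter

variable {F : Type} [Field F] {I : Type} (U : Ultrafilter I)

/-- coercion to the germ as ring hom -/
noncomputable def gh : (I → F) →+* Germ (U : Filter I) F := Germ.coeRingHom (U : Filter I)

theorem gh_apply (x : I → F) : gh U x = ((x : I → F) : Germ (U : Filter I) F) := rfl

theorem gh_surj (z : Germ (U : Filter I) F) : ∃ x : I → F, gh U x = z := by
  induction z using Germ.inductionOn with
  | _ f => exact ⟨f, rfl⟩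

theorem gh_eq_zero (x : I → F) : gh U x = 0 ↔ ∀ᶠ i in (U : Filter I), x i = 0 := by
  rw [← map_zero (gh U)]
  rw [gh_apply, gh_apply]
  exact Germ.coe_eq

theorem dot (m : ℕ) (x y : I → Fin m → F) :
    dotProduct (fun j => ((fun i => x i j : I → F) : Germ (U : Filter I) F))
        (fun j => ((fun i => y i j : I → F) : Germ (U : Filter I) F)) =
      gh U (fun i => dotProduct (x i) (y i)) := by
  have h : (fun i => dotProduct (x i) (y i)) =
      ∑ j, (fun i => x i j) * (fun i => y i j) := by
    funext i
    simp [dotProduct, Finset.sum_apply]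
  rw [h, map_sum]
  simp only [map_mul]
  rfl

end Ultra

theorem Ultra_proof : Stmt_Ultra := by
  intro F _ I U m
  refine ⟨fun x y => ?_, fun n x hx => ?_⟩
  · rw [Ultra.dot, Ultra.gh_eq_zero]
  · rw [Fintype.linearIndependent_iff]
    intro g hg
    choose c hc using fun a => Ultra.gh_surj U (g a)
    have h1 : ∀ j : Fin m, ∀ᶠ i in (U : Filter I), ∑ a, c a i * x i a j = 0 := by
      intro j
      have h2 := congrFun hg j
      simp only [Finset.sum_apply, Pi.smul_apply, smul_eq_mul, Pi.zero_apply] at h2
      have h3 : Ultra.gh U (fun i => ∑ a, c a i * x i a j) = 0 := by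
        have h4 : (fun i => ∑ a, c a i * x i a j) =
            ∑ a, (c a) * (fun i => x i a j) := by
          funext i
          simp [Finset.sum_apply]
        rw [h4, map_sum]
        simp only [map_mul, hc]
        exact h2
      exact (Ultra.gh_eq_zero U _).1 h3
    have h5 : ∀ᶠ i in (U : Filter I), ∀ j : Fin m, ∑ a, c a i * x i a j = 0 :=
      Filter.eventually_all.2 h1
    intro a
    rw [← hc a, Ultra.gh_eq_zero]
    filter_upwards [hx, h5] with i hi h6
    rw [Fintype.linearIndependent_iff] at hi
    refine hi (fun a => c a i) ?_ a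
    funext j
    simp only [Finset.sum_apply, Pi.smul_apply, smul_eq_mul, Pi.zero_apply]
    exact h6 j

end Pool.Agent.MR3
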