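import Pool.Agent.MR3.Main
import Pool.Agent.MR3.Glue
import Pool.Agent.MR3.Change
import Pool.Agent.MR3.Circuit
import Pool.Agent.MR3.Count
import Pool.Agent.MR3.CountA
import Pool.Agent.MR3.CountB
import Pool.Agent.MR3.ECGerm
import Pool.Agent.MR3.ECRep
import Pool.Agent.MR3.Elim
import Pool.Agent.MR3.GenAlpha
import Pool.Agent.MR3.Homog
import Pool.Agent.MR3.Init
import Pool.Agent.MR3.Lie
import Pool.Agent.MR3.LieAlg
import Pool.Agent.MR3.LieLim
import Pool.Agent.MR3.Lift
import Pool.Agent.MR3.MinPrime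
import Pool.Agent.MR3.Norm
import Pool.Agent.MR3.OddProj
import Pool.Agent.MR3.Pigeon
import Pool.Agent.MR3.PlaceA
import Pool.Agent.MR3.PlaceB1
import Pool.Agent.MR3.PlaceB2
import Pool.Agent.MR3.Pres
import Pool.Agent.MR3.Primes
import Pool.Agent.MR3.Reduction
import Pool.Agent.MR3.Restrict
import Pool.Agent.MR3.Scheme
import Pool.Agent.MR3.Spec
import Pool.Agent.MR3.StageL
import Pool.Agent.MR3.StageP
import Pool.Agent.MR3.Thick
import Pool.Agent.MR3.Tower
import Pool.Agent.MR3.Ultra

set_option autoImplicit false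

/-!
# The final theorem from the modules
-/

namespace Pool.Agent.MR3

theorem final :
    ∀ k : ℕ, 4 ≤ k → ∃ m n : ℕ, ∃ A : Matrix (Fin m) (Fin n) SignType,
      (∃ B : Matrix (Fin m) (Fin n) ℝ, (∀ i j, SignType.sign (B i j) = A i j) ∧ B.rank = 3) ∧
      (∀ B : Matrix (Fin m) (Fin n) ℝ, (∀ i j, SignType.sign (B i j) = A i j) → 3 ≤ B.rank) ∧
      (∃ B : Matrix (Fin m) (Fin n) ℚ, (∀ i j, SignType.sign (B i j) = A i j) ∧ B.rank = k) ∧
      (∀ B : Matrix (Fin m) (Fin n) ℚ, (∀ i j, SignType.sign (B i j) = A i j) → k ≤ B.rank) := by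
  have hU := Ultra_proof
  have hG := ECGerm_proof
  have hR := ECRep_proof
  have hT := Thick_proof
  have hC := Circuit_proof
  have hcount := Count_proof Elim_proof (CountA_proof Primes_proof) CountB_proof
  exact Reduction_proof (unbounded (Init_proof Norm_proof) (StageP_proof hT hR hG hU)
    (StageL_proof hT hR hG hU) hC Scheme_proof GenAlpha_proof
    (Homog_proof hG hU hC Subst_proof MinPrime_proof) (Restrict_proof hC)
    (Lift_proof Determ_proof) Change_proof (Odd_of Pres_proof OddProj_proof)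
    (Pigeon_proof hcount Subst_proof Spec_proof)
    (Place_of PlaceA_proof PlaceB1_proof PlaceB2_proof) (Lie_proof LieLim_proof LieAlg_proof) Tower_proof)

end Pool.Agent.MR3
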