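import Pool.Agent.MR3.Defs

set_option autoImplicit false

/-!
# Avoiding finitely many hyperplanes over an infinite field
-/

namespace Pool.Agent.MR3

/-- the vectors orthogonal to `b` -/
def orthTo {F : Type} [Field F] {n : ℕ} (b : Fin n → F) : Submodule F (Fin n → F) where
  carrier := {x | dotProduct x b = 0}
  add_mem' := by
    intro x y hx hy
    simp only [Set.mem_ofPred_eq] at *
    rw [add_dotProduct, hx, hy, add_zero]
  zero_mem' := by simp
  smul_mem' := by
    intro c x hx
    simp only [Set.mem_ofPred_eq] at *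
    rw [smul_dotProduct, hx, smul_zero]

theorem exists_avoid {F : Type} [Field F] [Infinite F] {n : ℕ} (s : Set (Fin n → F))
    (hs : s.Finite) (h0 : ∀ b ∈ s, b ≠ 0) : ∃ x : Fin n → F, ∀ b ∈ s, dotProduct x b ≠ 0 := by
  by_contra hcon
  push Not at hcon
  have : Finite s := hs
  have hcov : (⋃ b : s, ((orthTo b.1 : Submodule F (Fin n → F)) : Set (Fin n → F))) = Set.univ := by
    ext x
    simp only [Set.mem_iUnion, Set.mem_univ, iff_true]
    obtain ⟨b, hb, hxb⟩ := hcon x
    exact ⟨⟨b, hb⟩, hxb⟩
  obtain ⟨b, hb⟩ := Subspace.exists_eq_top_of_iUnion_eq_univ hcov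
  apply h0 b.1 b.2
  ext i
  have : (Pi.single i (1 : F)) ∈ orthTo b.1 := by rw [hb]; trivial
  have h2 : dotProduct (Pi.single i (1 : F)) b.1 = 0 := this
  simpa using h2

/-- the trick for dropping the coordinate `0` on the hyperplane orthogonal to `g` -/
theorem dot_drop {F : Type} [Field F] {k : ℕ} (g x w : Fin (k + 1) → F) (hg : g 0 ≠ 0)
    (hx : dotProduct g x = 0) :
    dotProduct x w =
      dotProduct (fun i : Fin k => x i.succ) (fun i : Fin k => w i.succ - g i.succ / g 0 * w 0) := by
  simp only [dotProduct, Fin.sum_univ_succ] at *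
  have hx0 : x 0 = - (∑ i : Fin k, g i.succ * x i.succ) / g 0 := by
    field_simp
    linear_combination hx
  rw [hx0]
  have : ∀ i : Fin k, x i.succ * (w i.succ - g i.succ / g 0 * w 0) =
      x i.succ * w i.succ - (g i.succ * x i.succ) * (w 0 / g 0) := by
    intro i
    field_simp
  rw [Finset.sum_congr rfl (fun i _ => this i), Finset.sum_sub_distrib, ← Finset.sum_mul]
  field_simp
  ring

end Pool.Agent.MR3
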