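import Mathlib

set_option autoImplicit false

/-!
# MP_d42559_co (frozen S11677): definitions and the interface statements `Stmt_*`

The paper proof, module by module, is in `/team-store/MP_d42559_co_PROOF.md`.
Each file `Pool/Agent/MR3/<Module>.lean` proves `Stmt_<Module>` (other `Stmt_*` may be hypotheses).
-/

namespace Pool.Agent.MR3

open MvPolynomial

/-! ## Incidence geometry over a commutative ring -/

/-- the point `p = (x,y)` lies on the line `l = [a,b]` : `y = a x + b` -/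
def Inc {A : Type} [CommRing A] (p l : A × A) : Prop := p.2 = l.1 * p.1 + l.2

/-- the line of slope `a` through the point `p` -/
def thr {A : Type} [CommRing A] (p : A × A) (a : A) : A × A := (a, p.2 - a * p.1)

/-- the point of the line `l` with abscissa `x` -/
def pt {A : Type} [CommRing A] (l : A × A) (x : A) : A × A := (x, l.1 * x + l.2)

/-- the finite configuration `(P, L)` has a faithful representation in `F ^ r` -/
def FRep (A : Type) [CommRing A] (F : Type) [Field F] (r : ℕ) (P L : Finset (A × A)) : Prop :=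
  ∃ v w : A × A → Fin r → F, ∀ p ∈ P, ∀ l ∈ L, (dotProduct (v p) (w l) = 0 ↔ Inc p l)

/-- normalised weak representation of the whole plane -/
def IsWRep {A : Type} [CommRing A] {F : Type} [Field F] {k : ℕ}
    (v w : A × A → Fin (k + 1) → F) : Prop :=
  (∀ p, v p 0 = 1) ∧ (∀ l, w l 0 = 1) ∧ ∀ p l, Inc p l → dotProduct (v p) (w l) = 0

/-- normalised faithful representation of the whole plane -/
def IsRep {A : Type} [CommRing A] {F : Type} [Field F] {k : ℕ}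
    (v w : A × A → Fin (k + 1) → F) : Prop :=
  (∀ p, v p 0 = 1) ∧ (∀ l, w l 0 = 1) ∧ ∀ p l, (dotProduct (v p) (w l) = 0 ↔ Inc p l)

/-- all points are good for all translates of `a1 * S` (`a1 ≠ 0`) -/
def GoodP {A : Type} [CommRing A] {F : Type} [Field F] {k : ℕ} (S : Set A)
    (w : A × A → Fin (k + 1) → F) : Prop :=
  ∀ p (a0 a1 : A), a1 ≠ 0 → ∃ f : Fin k → A, (∀ i, f i ∈ S) ∧
    LinearIndependent F (fun i => w (thr p (a0 + a1 * f i)))

/-- goodness of all points and all lines -/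
def Good {A : Type} [CommRing A] {F : Type} [Field F] {k : ℕ} (S : Set A)
    (v w : A × A → Fin (k + 1) → F) : Prop :=
  (∀ p (a0 : A), ∃ f : Fin k → A, (∀ i, f i ∈ S) ∧
    LinearIndependent F (fun i => w (thr p (a0 + f i)))) ∧
  (∀ l (x0 : A), ∃ f : Fin k → A, (∀ i, f i ∈ S) ∧
    LinearIndependent F (fun i => v (pt l (x0 + f i))))

/-- points and lines known after `t` rounds, starting from the points of `C` -/
def Known {A : Type} [CommRing A] (S : Set A) (C : Set (A × A)) : ℕ → Set (A × A) × Set (A × A)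
  | 0 => (C, ∅)
  | t + 1 =>
    ({p | p ∈ (Known S C t).1 ∨ ∃ a0, ∀ s ∈ S, thr p (a0 + s) ∈ (Known S C t).2},
     {l | l ∈ (Known S C t).2 ∨ ∃ x0, ∀ s ∈ S, pt l (x0 + s) ∈ (Known S C t).1})

/-- the Heisenberg group acting on points, `g = (u, v, w)` : `(x, y) ↦ (x + u, y + v x + w)` -/
def hP {A : Type} [CommRing A] (g : A × A × A) (p : A × A) : A × A :=
  (p.1 + g.1, p.2 + g.2.1 * p.1 + g.2.2)

/-- the Heisenberg group acting on lines -/
def hL {A : Type} [CommRing A] (g : A × A × A) (l : A × A) : A × A :=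
  (l.1 + g.2.1, l.2 + g.2.2 - (l.1 + g.2.1) * g.1)

/-! ## Existentially closed fields and complexity -/

/-- every point over `F` specialises to a rational point outside a given non-zero hypersurface -/
def EC (F : Type) [Field F] : Prop :=
  ∀ (σ : Type) [Finite σ] (x : σ → F) (s : MvPolynomial σ ℤ), aeval x s ≠ 0 →
    ∃ z : σ → ℚ, (∀ e : MvPolynomial σ ℤ, aeval x e = 0 → aeval z e = 0) ∧ aeval z s ≠ 0

/-- `F` is generated as a field by the family `x` -/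
def GenBy {σ : Type} {F : Type} [Field F] (x : σ → F) : Prop :=
  ∀ z : F, ∃ P Q : MvPolynomial σ ℤ, aeval x Q ≠ 0 ∧ z * aeval x Q = aeval x P

/-- the `ℓ¹` norm of an integer polynomial -/
noncomputable def nrm {σ : Type} (P : MvPolynomial σ ℤ) : ℕ :=
  ∑ m ∈ P.support, (P.coeff m).natAbs

/-- size bound: total degree and base two logarithm of the norm are at most `lam` -/
def Sz {σ : Type} (lam : ℕ) (P : MvPolynomial σ ℤ) : Prop :=
  P.totalDegree ≤ lam ∧ nrm P ≤ 2 ^ lam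

/-- the tuple `z` is a tuple of rational functions of `x` of size `lam` with a common denominator -/
def RatT {σ τ : Type} {F : Type} [Field F] (x : σ → F) (lam : ℕ) (z : τ → F) : Prop :=
  ∃ (Q : MvPolynomial σ ℤ) (P : τ → MvPolynomial σ ℤ), Sz lam Q ∧ (∀ k, Sz lam (P k)) ∧
    aeval x Q ≠ 0 ∧ ∀ k, z k * aeval x Q = aeval x (P k)

/-- the powers of the automorphism `s` have low (polylogarithmic) complexity -/
def LC {σ : Type} {F : Type} [Field F] (x : σ → F) (s : RingAut F) : Prop :=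
  ∃ K : ℕ, ∀ (j : ℕ) (n : ℤ), n.natAbs ≤ 2 ^ 2 ^ j → RatT x (K ^ (j + 1)) (fun i => (s ^ n) (x i))

/-- the coordinates of the representation at the base points `c` -/
def bt {A : Type} {F : Type} {k : ℕ} {ι : Type} (c : ι → A × A) (v : A × A → Fin (k + 1) → F) :
    ι × Fin (k + 1) → F :=
  fun x => v (c x.1) x.2

/-- `g` generates (over `ℚ`) the ideal of relations of `y` -/
def KerGen {D : ℕ} {F : Type} [Field F] (y : Fin (D + 1) → F)
    (g : MvPolynomial (Fin (D + 1)) ℤ) : Prop :=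
  ∀ P : MvPolynomial (Fin (D + 1)) ℤ, aeval y P = 0 ↔ ∃ n : ℤ, n ≠ 0 ∧ g ∣ C n * P

/-- the automorphism `s` maps each generator `y k` into the local ring of the closed point `z`,
with the same residue -/
def ResId {σ : Type} {F κ : Type} [Field F] [Field κ] (y : σ → F) (z : σ → κ) (s : RingAut F) :
    Prop :=
  ∀ k, ∃ P Q : MvPolynomial σ ℤ, aeval z Q ≠ 0 ∧ s (y k) * aeval y Q = aeval y P ∧
    z k * aeval z Q = aeval z P

/-- `s` is an isometry which is congruent to the identity modulo `l` -/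
def Near {F : Type} [Field F] (v : AbsoluteValue F ℝ) (l : ℕ) (s : RingAut F) : Prop :=
  (∀ x, v (s x) = v x) ∧ ∀ x, v (s x - x) ≤ v (l : F) * v x

/-! ## The interface statements -/

/-- M1: the frozen statement from unbounded rational minimum rank -/
def Stmt_Reduction : Prop :=
  (∀ R : ℕ, ∃ P L : Finset (ℝ × ℝ), ¬ FRep ℝ ℚ R P L) →
    ∀ k : ℕ, 4 ≤ k → ∃ m n : ℕ, ∃ A : Matrix (Fin m) (Fin n) SignType,
      (∃ B : Matrix (Fin m) (Fin n) ℝ, (∀ i j, SignType.sign (B i j) = A i j) ∧ B.rank = 3) ∧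
      (∀ B : Matrix (Fin m) (Fin n) ℝ, (∀ i j, SignType.sign (B i j) = A i j) → 3 ≤ B.rank) ∧
      (∃ B : Matrix (Fin m) (Fin n) ℚ, (∀ i j, SignType.sign (B i j) = A i j) ∧ B.rank = k) ∧
      (∀ B : Matrix (Fin m) (Fin n) ℚ, (∀ i j, SignType.sign (B i j) = A i j) → k ≤ B.rank)

/-- thick lemma -/
def Stmt_Thick : Prop :=
  ∀ (F : Type) [Field F] [Infinite F] (k : ℕ) (α β : Type) (P : Finset α) (L : Finset β)
    (I : α → β → Prop) (v : α → Fin (k + 1) → F) (w : β → Fin (k + 1) → F),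
    (∀ p ∈ P, ∀ l ∈ L, (dotProduct (v p) (w l) = 0 ↔ I p l)) →
    (∀ p ∈ P, ¬ ∃ f : Fin k → β, (∀ i, f i ∈ L ∧ I p (f i)) ∧
      LinearIndependent F (fun i => w (f i))) →
    ∃ (v' : α → Fin k → F) (w' : β → Fin k → F),
      ∀ p ∈ P, ∀ l ∈ L, (dotProduct (v' p) (w' l) = 0 ↔ I p l)

/-- normalisation -/
def Stmt_Norm : Prop :=
  ∀ (F : Type) [Field F] [Infinite F] (k : ℕ) (α β : Type) (P : Finset α) (L : Finset β)
    (I : α → β → Prop) (v : α → Fin (k + 1) → F) (w : β → Fin (k + 1) → F),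
    (∀ p ∈ P, ∀ l ∈ L, (dotProduct (v p) (w l) = 0 ↔ I p l)) →
    (∀ p ∈ P, ∃ l ∈ L, ¬ I p l) → (∀ l ∈ L, ∃ p ∈ P, ¬ I p l) →
    ∃ (v' : α → Fin (k + 1) → F) (w' : β → Fin (k + 1) → F),
      (∀ p ∈ P, v' p 0 = 1) ∧ (∀ l ∈ L, w' l 0 = 1) ∧
      ∀ p ∈ P, ∀ l ∈ L, (dotProduct (v' p) (w' l) = 0 ↔ I p l)

/-- `ℚ` is `EC`, and ultrapowers of `EC` fields are `EC` -/
def Stmt_ECGerm : Prop :=
  EC ℚ ∧ ∀ (F : Type) [Field F], EC F → ∀ (I : Type) (U : Ultrafilter I),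
    EC (Filter.Germ (U : Filter I) F)

/-- a finite faithful representation over an `EC` field gives a rational one -/
def Stmt_ECRep : Prop :=
  ∀ (F : Type) [Field F], EC F → ∀ (r : ℕ) (α β : Type) (P : Finset α) (L : Finset β)
    (I : α → β → Prop) (v : α → Fin r → F) (w : β → Fin r → F),
    (∀ p ∈ P, ∀ l ∈ L, (dotProduct (v p) (w l) = 0 ↔ I p l)) →
    ∃ (v' : α → Fin r → ℚ) (w' : β → Fin r → ℚ),
      ∀ p ∈ P, ∀ l ∈ L, (dotProduct (v' p) (w' l) = 0 ↔ I p l)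

/-- facts about ultralimits of families of vectors -/
def Stmt_Ultra : Prop :=
  ∀ (F : Type) [Field F] (I : Type) (U : Ultrafilter I) (m : ℕ),
    (∀ x y : I → Fin m → F,
      (dotProduct (fun j => ((fun i => x i j : I → F) : Filter.Germ (U : Filter I) F))
        (fun j => ((fun i => y i j : I → F) : Filter.Germ (U : Filter I) F)) = 0 ↔
        ∀ᶠ i in (U : Filter I), dotProduct (x i) (y i) = 0)) ∧
    (∀ (n : ℕ) (x : I → Fin n → Fin m → F),
      (∀ᶠ i in (U : Filter I), LinearIndependent F (x i)) →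
      LinearIndependent (Filter.Germ (U : Filter I) F)
        (fun a j => ((fun i => x i a j : I → F) : Filter.Germ (U : Filter I) F)))

/-- a normalised faithful representation of the whole plane over an `EC` field -/
def Stmt_Init : Prop :=
  ∀ (A : Type) [CommRing A] [IsDomain A] [CharZero A] (k : ℕ),
    (∀ P L : Finset (A × A), FRep A ℚ (k + 1) P L) →
    ∃ (F : Type) (_ : Field F), EC F ∧ ∃ v w : A × A → Fin (k + 1) → F, IsRep v w

/-- all points good -/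
def Stmt_StageP : Prop :=
  ∀ (A : Type) [CommRing A] [IsDomain A] [CharZero A] (k : ℕ) (P L : Finset (A × A)),
    ¬ FRep A ℚ k P L → ∀ S : Set A, S.Finite → (∀ l ∈ L, l.1 ∈ S) →
    ∀ (F : Type) [Field F], EC F → ∀ v w : A × A → Fin (k + 1) → F, IsRep v w →
    ∃ (F' : Type) (_ : Field F'), EC F' ∧ ∃ v' w' : A × A → Fin (k + 1) → F',
      IsRep v' w' ∧ GoodP S w'

/-- all points and all lines good -/
def Stmt_StageL : Prop :=
  ∀ (A : Type) [CommRing A] [IsDomain A] [CharZero A] (k : ℕ) (P L : Finset (A × A)),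
    ¬ FRep A ℚ k P L → ∀ S : Set A, S.Finite → (∀ p ∈ P, p.1 ∈ S) →
    ∀ (F : Type) [Field F], EC F → ∀ v w : A × A → Fin (k + 1) → F, IsRep v w → GoodP S w →
    ∃ (F' : Type) (_ : Field F'), EC F' ∧ ∃ v' w' : A × A → Fin (k + 1) → F',
      IsRep v' w' ∧ Good S v' w'

/-- base points of the generation scheme -/
def bp {B A : Type} [CommRing B] [CommRing A] (φ : B →+* A) {q : ℕ} (γ : Fin q → A)
    (e : B × (Fin q → B)) : A × A :=
  (φ e.1, ∑ i, φ (e.2 i) * γ i)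

/-- the squaring scheme -/
def Stmt_Scheme : Prop :=
  ∀ (B : Type) [CommRing B] (ι : Type) [Fintype ι] (b : Module.Basis ι ℤ B) (S : Set B),
    S.Finite → ∀ q : ℕ, ∃ T : ℕ, ∀ (A : Type) [CommRing A] (φ : B →+* A) (γ : Fin q → A),
    (∃ i0, γ i0 = 1) → ∀ (C : Set (A × A)) (t : ℕ),
    (∀ x ∈ S, ∀ y : Fin q → B, (∀ i j, |b.repr (y i) j| ≤ T) →
      bp φ γ (x, y) ∈ (Known (φ '' S) C t).1) →
    ∀ (j : ℕ) (x : B) (y : Fin q → B), (x ∈ S ∨ ∀ j', |b.repr x j'| ≤ 2 ^ 2 ^ j) →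
      (∀ i j', |b.repr (y i) j'| ≤ 2 ^ 2 ^ j) →
      bp φ γ (x, y) ∈ (Known (φ '' S) C (t + 4 * (j + 1))).1

/-- the degree scheme -/
def Stmt_GenAlpha : Prop :=
  ∀ (B A : Type) [CommRing B] [CommRing A] (φ : B →+* A) (α : A) (S : Set B) (C : Set (A × A)),
    S.Finite → (∀ a : A, ∃ h : Polynomial B, a = h.eval₂ φ α) →
    (∀ x ∈ S, ∀ y : Fin 3 → B, ∃ t, bp φ (fun i => α ^ (i : ℕ)) (x, y) ∈ (Known (φ '' S) C t).1) →
    ∀ p : A × A, ∃ t, p ∈ (Known (φ '' S) C t).1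

/-- circuits: known points are given by polynomials in the coordinates of the base points,
of controlled size, and the formulas remain valid for all less special representations -/
def Stmt_Circuit : Prop :=
  ∀ (A : Type) [CommRing A] (F : Type) [Field F] (k : ℕ) (S : Set A) (ι : Type) (c : ι → A × A)
    (v w : A × A → Fin (k + 1) → F), IsWRep v w → Good S v w →
    ∀ t, ∀ p ∈ (Known S (Set.range c) t).1,
      ∃ P : Fin (k + 1) → MvPolynomial (ι × Fin (k + 1)) ℤ,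
        (∀ i, Sz ((k ^ 2 + k + 1) ^ (t + 1)) (P i)) ∧ aeval (bt c v) (P 0) ≠ 0 ∧
        ∀ (F' : Type) [Field F'] (v' w' : A × A → Fin (k + 1) → F'), IsWRep v' w' →
          (∀ Q : MvPolynomial (ι × Fin (k + 1)) ℤ, aeval (bt c v') Q = 0 →
            aeval (bt c v) Q = 0) →
          ∀ i, v' p i * aeval (bt c v') (P 0) = aeval (bt c v') (P i)

/-- determinacy: two normalised representations which agree on a generating set of points, one of
them good, are equal -/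
def Stmt_Determ : Prop :=
  ∀ (A : Type) [CommRing A] (F : Type) [Field F] (k : ℕ) (S : Set A) (C : Set (A × A))
    (v w v' w' : A × A → Fin (k + 1) → F), IsWRep v w → Good S v w → IsWRep v' w' →
    (∀ p : A × A, ∃ t, p ∈ (Known S C t).1) → (∀ p ∈ C, v p = v' p) → v = v' ∧ w = w'

/-- minimal primes and ultrafilters -/
def Stmt_MinPrime : Prop :=
  ∀ (R : Type) [CommRing R] [IsNoetherianRing R] (G : Type) (p : G → Ideal R),
    (∀ g, (p g).IsPrime) → ∃ T : Finset (Ideal R),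
      (∀ q ∈ T, q.IsPrime ∧ (⨅ g, p g) ≤ q ∧ ∀ q' ∈ T, q' ≤ q → q' = q) ∧
      (∀ q : Ideal R, q.IsPrime → (⨅ g, p g) ≤ q → ∃ q' ∈ T, q' ≤ q) ∧
      (∀ q ∈ T, ∃ U : Ultrafilter G, ∀ h : R, (h ∈ q ↔ ∀ᶠ g in (U : Filter G), h ∈ p g))

/-- homogeneity: after an ultralimit, translates of the representation by the multiples `M u` have
the same ideal of relations -/
def Stmt_Homog : Prop :=
  ∀ (A : Type) [CommRing A] (F : Type) [Field F] (k : ℕ) (S : Set A) (ι : Type) [Fintype ι]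
    (c : ι → A × A) (v w : A × A → Fin (k + 1) → F), EC F → S.Finite → IsRep v w → Good S v w →
    (∀ p : A × A, ∃ t, p ∈ (Known S (Set.range c) t).1) →
    ∃ (F' : Type) (_ : Field F'), EC F' ∧ ∃ v' w' : A × A → Fin (k + 1) → F',
      IsRep v' w' ∧ Good S v' w' ∧ ∃ M : ℕ, 0 < M ∧ ∀ u : A,
        (∀ Q : MvPolynomial (ι × Fin (k + 1)) ℤ, aeval (bt c v') Q = 0 ↔
          aeval (bt c (fun p => v' (hP (M * u, 0, 0) p))) Q = 0) ∧
        (∀ Q : MvPolynomial (ι × Fin (k + 1)) ℤ, aeval (bt c v') Q = 0 ↔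
          aeval (bt c (fun p => v' (hP (0, M * u, 0) p))) Q = 0)

/-- restriction to the subfield generated by the base coordinates -/
def Stmt_Restrict : Prop :=
  ∀ (A : Type) [CommRing A] (F : Type) [Field F] (k : ℕ) (S : Set A) (ι : Type)
    (c : ι → A × A) (v w : A × A → Fin (k + 1) → F), EC F → IsRep v w → Good S v w →
    (∀ p : A × A, ∃ t, p ∈ (Known S (Set.range c) t).1) →
    ∃ (F' : Type) (_ : Field F') (e : F' →+* F) (v' w' : A × A → Fin (k + 1) → F'),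
      EC F' ∧ IsRep v' w' ∧ Good S v' w' ∧ GenBy (bt c v') ∧
      (∀ p i, e (v' p i) = v p i) ∧ ∀ p i, e (w' p i) = w p i

/-- lifting of an element of the Heisenberg group to an automorphism of the field -/
def Stmt_Lift : Prop :=
  ∀ (A : Type) [CommRing A] (F : Type) [Field F] (k : ℕ) (S : Set A) (ι : Type)
    (c : ι → A × A) (v w : A × A → Fin (k + 1) → F), IsRep v w → Good S v w →
    (∀ p : A × A, ∃ t, p ∈ (Known S (Set.range c) t).1) → GenBy (bt c v) →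
    ∀ g : A × A × A,
      (∀ Q : MvPolynomial (ι × Fin (k + 1)) ℤ, aeval (bt c v) Q = 0 ↔
          aeval (bt c (fun p => v (hP g p))) Q = 0) →
      ∃ s : RingAut F, (∀ p i, s (v p i) = v (hP g p) i) ∧ ∀ l i, s (w l i) = w (hL g l) i

/-- substitution in polynomials of controlled size -/
def Stmt_Subst : Prop :=
  ∀ (σ τ : Type) (lam mu : ℕ) (P : MvPolynomial σ ℤ) (p : σ → MvPolynomial τ ℤ)
    (q : MvPolynomial τ ℤ), Sz mu P → (∀ i, Sz lam (p i)) → Sz lam q →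
    ∃ R : MvPolynomial τ ℤ, Sz (mu * lam + mu) R ∧
      ∀ (F : Type) [Field F] (x : τ → F) (y : σ → F), (∀ i, y i * aeval x q = aeval x (p i)) →
        aeval x R = (aeval x q) ^ mu * aeval y P

/-- low complexity does not depend on the generators -/
def Stmt_Change : Prop :=
  ∀ (F : Type) [Field F] (σ τ : Type) [Finite σ] [Finite τ] (x : σ → F) (y : τ → F),
    GenBy x → GenBy y → ∀ s : RingAut F, LC x s → LC y s

/-- odd degree presentation of a finitely generated `EC` field -/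
def Stmt_Odd : Prop :=
  ∀ (F : Type) [Field F] (σ : Type) [Finite σ] (x : σ → F), EC F → GenBy x →
    ∃ (D : ℕ) (y : Fin (D + 1) → F) (g : MvPolynomial (Fin (D + 1)) ℤ),
      GenBy y ∧ Odd (degreeOf 0 g) ∧ KerGen y g

/-- presentation of a finitely generated field of characteristic zero with principal ideal of
relations (transcendence basis + primitive element) -/
def Stmt_Pres : Prop :=
  ∀ (F : Type) [Field F] [CharZero F] (σ : Type) [Finite σ] (x : σ → F), GenBy x →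
    ∃ (D : ℕ) (y : Fin (D + 1) → F) (f : MvPolynomial (Fin (D + 1)) ℤ),
      GenBy y ∧ f ≠ 0 ∧ KerGen y f

/-- projection from a rational point -/
def Stmt_OddProj : Prop :=
  ∀ (F : Type) [Field F], EC F → ∀ (D : ℕ) (y : Fin (D + 1) → F)
    (f : MvPolynomial (Fin (D + 1)) ℤ), GenBy y → f ≠ 0 → KerGen y f →
    ∃ (y' : Fin (D + 1) → F) (g : MvPolynomial (Fin (D + 1)) ℤ),
      GenBy y' ∧ Odd (degreeOf 0 g) ∧ KerGen y' g

/-- elimination with control of the size -/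
def Stmt_Elim : Prop :=
  ∀ (D : ℕ) (F : Type) [Field F] (y : Fin (D + 1) → F)
    (g : MvPolynomial (Fin (D + 1)) ℤ), 0 < degreeOf 0 g → KerGen y g →
    ∃ C : ℕ, ∀ (lam : ℕ) (Q : MvPolynomial (Fin (D + 1)) ℤ), Sz lam Q → aeval y Q ≠ 0 →
      ∃ N : MvPolynomial (Fin D) ℤ, N ≠ 0 ∧ Sz (C * (lam + 1) ^ C) N ∧
        ∀ (κ : Type) [Field κ] (z : Fin (D + 1) → κ), aeval z g = 0 → aeval z Q = 0 →
          aeval (fun i => z (Fin.succ i)) N = 0

/-- many primes congruent to `3` modulo `8` -/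
def Stmt_Primes : Prop :=
  ∀ K : ℕ, ∃ j : ℕ, K ^ (j + 1) ≤
    ((Finset.Icc (K ^ (j + 1)) (2 ^ 2 ^ j)).filter (fun l => l.Prime ∧ l % 8 = 3)).card

/-- a typical point modulo `l` for low complexity families of polynomials -/
def Stmt_CountA : Prop :=
  ∀ (D t K E : ℕ) (N : Fin t → ℕ → MvPolynomial (Fin D) ℤ) (N0 : MvPolynomial (Fin D) ℤ),
    (∀ i n, N i n ≠ 0) → N0 ≠ 0 → (∀ i n j, n ≤ 2 ^ 2 ^ j → Sz (K ^ (j + 1)) (N i n)) →
    ∃ (j l M : ℕ) (s : Fin D → ZMod l), l.Prime ∧ l % 8 = 3 ∧ l ≤ 2 ^ 2 ^ j ∧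
      M = 2 * (2 ^ 2 ^ j) ^ E ∧ aeval s N0 ≠ 0 ∧
      ∀ i, 2 * Nat.card {n : Fin M // aeval s (N i n) = 0} < M

/-- odd degree residue fields -/
def Stmt_CountB : Prop :=
  ∀ (l : ℕ) [Fact l.Prime], l % 8 = 3 → ∀ p : Polynomial (ZMod l), Odd p.natDegree →
    ∃ (κ : Type) (_ : Field κ) (_ : Fintype κ) (_ : Algebra (ZMod l) κ) (a : κ),
      Polynomial.aeval a p = 0 ∧ Fintype.card κ ≤ l ^ p.natDegree ∧ ¬ ∃ b : κ, b ^ 2 = 2

/-- a typical closed point for low complexity families of polynomials -/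
def Stmt_Count : Prop :=
  ∀ (D : ℕ) (F : Type) [Field F] (y : Fin (D + 1) → F) (g : MvPolynomial (Fin (D + 1)) ℤ),
    Odd (degreeOf 0 g) → KerGen y g → ∀ (t K : ℕ)
    (Q : Fin t → ℕ → MvPolynomial (Fin (D + 1)) ℤ), (∀ i n, aeval y (Q i n) ≠ 0) →
    (∀ i n j, n ≤ 2 ^ 2 ^ j → Sz (K ^ (j + 1)) (Q i n)) →
    ∃ (l : ℕ) (κ : Type) (_ : Field κ) (_ : Fintype κ) (_ : CharP κ l) (z : Fin (D + 1) → κ)
      (c : Fin D → ℤ) (M : ℕ), l.Prime ∧ l % 8 = 3 ∧ (∀ i : Fin D, z i.succ = (c i : κ)) ∧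
      aeval z g = 0 ∧ aeval z (pderiv 0 g) ≠ 0 ∧ (¬ ∃ a : κ, a ^ 2 = 2) ∧
      2 * Fintype.card κ ^ (D + 1) ≤ M ∧
      ∀ i, 2 * Nat.card {n : Fin M // aeval z (Q i n) = 0} < M

/-- pigeonhole at the typical closed point -/
def Stmt_Pigeon : Prop :=
  ∀ (D : ℕ) (F : Type) [Field F] (y : Fin (D + 1) → F) (g : MvPolynomial (Fin (D + 1)) ℤ),
    Odd (degreeOf 0 g) → KerGen y g → GenBy y → ∀ (t : ℕ) (s : Fin t → RingAut F),
    (∀ i, LC y (s i)) →
    ∃ (l : ℕ) (κ : Type) (_ : Field κ) (_ : Fintype κ) (_ : CharP κ l) (z : Fin (D + 1) → κ)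
      (c : Fin D → ℤ), l.Prime ∧ l % 8 = 3 ∧ (∀ i : Fin D, z i.succ = (c i : κ)) ∧
      aeval z g = 0 ∧ aeval z (pderiv 0 g) ≠ 0 ∧ (¬ ∃ a : κ, a ^ 2 = 2) ∧
      ∀ i, ∃ m : ℕ, 0 < m ∧ ResId y z ((s i) ^ m) ∧ ResId y z (((s i) ^ m)⁻¹)

/-- evaluation at `(y 0, (y (i+1) - c i)/l)` -/
noncomputable def evY {D : ℕ} {F : Type} [Field F] (y : Fin (D + 1) → F) (c : Fin D → ℤ) (l : ℕ) :
    MvPolynomial (Fin (D + 1)) ℤ →ₐ[ℤ] F :=
  aeval (Fin.cases (y 0) (fun i => (y i.succ - (c i : F)) / (l : F)))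

/-- the reduction map: variable `0` goes to `z 0`, the others to independent variables -/
noncomputable def piY {D : ℕ} {κ : Type} [Field κ] (z : Fin (D + 1) → κ) :
    MvPolynomial (Fin (D + 1)) ℤ →ₐ[ℤ] MvPolynomial (Fin D) κ :=
  aeval (Fin.cases (C (z 0)) (fun i => X i))

/-- relations at the generic point hold at the closed point -/
def Stmt_Spec : Prop :=
  ∀ (D : ℕ) (F : Type) [Field F] (y : Fin (D + 1) → F) (g : MvPolynomial (Fin (D + 1)) ℤ),
    KerGen y g → ∀ (l : ℕ) (κ : Type) [Field κ] [CharP κ l] (z : Fin (D + 1) → κ), l.Prime →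
    aeval z g = 0 → aeval z (pderiv 0 g) ≠ 0 →
    ∀ P : MvPolynomial (Fin (D + 1)) ℤ, aeval y P = 0 → aeval z P = 0

/-- the discrete absolute value of the exceptional divisor of the closed point `z` -/
def Stmt_PlaceA : Prop :=
  ∀ (D : ℕ) (F : Type) [Field F] [CharZero F] (y : Fin (D + 1) → F)
    (g : MvPolynomial (Fin (D + 1)) ℤ),
    KerGen y g → GenBy y → ∀ (l : ℕ) (κ : Type) [Field κ] [Fintype κ] [CharP κ l]
    (z : Fin (D + 1) → κ) (c : Fin D → ℤ), l.Prime → (∀ i : Fin D, z i.succ = (c i : κ)) →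
    aeval z g = 0 → aeval z (pderiv 0 g) ≠ 0 →
    ∃ v : AbsoluteValue F ℝ, (∀ a b, v (a + b) ≤ max (v a) (v b)) ∧ v (l : F) < 1 ∧
      (∀ a, a ≠ 0 → ∃ n : ℤ, v a = v (l : F) ^ n) ∧
      (∀ P, v (evY y c l P) ≤ 1) ∧ (∀ P, v (evY y c l P) < 1 ↔ piY z P = 0) ∧
      (∀ a, v a ≤ 1 → ∃ P Q, piY z Q ≠ 0 ∧ a * evY y c l Q = evY y c l P)

/-- `2` is not a square modulo the maximal ideal -/
def Stmt_PlaceB1 : Prop :=
  ∀ (D : ℕ) (F : Type) [Field F] [CharZero F] (y : Fin (D + 1) → F) (l : ℕ) (κ : Type) [Field κ]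
    (z : Fin (D + 1) → κ) (c : Fin D → ℤ) (v : AbsoluteValue F ℝ), (¬ ∃ a : κ, a ^ 2 = 2) →
    (∀ a b, v (a + b) ≤ max (v a) (v b)) →
    (∀ P, v (evY y c l P) ≤ 1) → (∀ P, v (evY y c l P) < 1 ↔ piY z P = 0) →
    (∀ a, v a ≤ 1 → ∃ P Q, piY z Q ≠ 0 ∧ a * evY y c l Q = evY y c l P) →
    ∀ a, 1 ≤ v (a ^ 2 - 2)

/-- the action on the place -/
def Stmt_PlaceB2 : Prop :=
  ∀ (D : ℕ) (F : Type) [Field F] [CharZero F] (y : Fin (D + 1) → F)
    (g : MvPolynomial (Fin (D + 1)) ℤ),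
    KerGen y g → GenBy y → ∀ (l : ℕ) (κ : Type) [Field κ] [Fintype κ] [CharP κ l]
    (z : Fin (D + 1) → κ) (c : Fin D → ℤ), l.Prime → (∀ i : Fin D, z i.succ = (c i : κ)) →
    aeval z g = 0 → aeval z (pderiv 0 g) ≠ 0 →
    ∀ v : AbsoluteValue F ℝ, (∀ a b, v (a + b) ≤ max (v a) (v b)) → v (l : F) < 1 →
      (∀ a, a ≠ 0 → ∃ n : ℤ, v a = v (l : F) ^ n) →
      (∀ P, v (evY y c l P) ≤ 1) → (∀ P, v (evY y c l P) < 1 ↔ piY z P = 0) →
      (∀ a, v a ≤ 1 → ∃ P Q, piY z Q ≠ 0 ∧ a * evY y c l Q = evY y c l P) →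
      ∀ s : RingAut F, ResId y z s → ResId y z s⁻¹ → ∃ m : ℕ, 0 < m ∧ Near v l (s ^ m)

/-- the place attached to a closed point -/
def Stmt_Place : Prop :=
  ∀ (D : ℕ) (F : Type) [Field F] [CharZero F] (y : Fin (D + 1) → F)
    (g : MvPolynomial (Fin (D + 1)) ℤ),
    KerGen y g → GenBy y → ∀ (l : ℕ) (κ : Type) [Field κ] [Fintype κ] [CharP κ l]
    (z : Fin (D + 1) → κ) (c : Fin D → ℤ), l.Prime → (∀ i : Fin D, z i.succ = (c i : κ)) →
    aeval z g = 0 → aeval z (pderiv 0 g) ≠ 0 → (¬ ∃ a : κ, a ^ 2 = 2) →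
    ∃ v : AbsoluteValue F ℝ, (∀ x y, v (x + y) ≤ max (v x) (v y)) ∧ v (l : F) < 1 ∧
      (∀ x, 1 ≤ v (x ^ 2 - 2)) ∧
      ∀ s : RingAut F, ResId y z s → ResId y z s⁻¹ → ∃ m : ℕ, 0 < m ∧ Near v l (s ^ m)

/-- the logarithm of an automorphism which is congruent to the identity modulo `l` -/
def Stmt_LieLim : Prop :=
  ∀ (E : Type) [NormedField E] [CompleteSpace E] [CharZero E] (l : ℕ),
    (∀ x y : E, ‖x + y‖ ≤ max ‖x‖ ‖y‖) → l.Prime → 3 ≤ l → ‖(l : E)‖ < 1 →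
    ∃ d : RingAut E → Derivation ℤ E E,
      ∀ s : RingAut E, (∀ x, ‖s x‖ = ‖x‖) → (∀ x, ‖s x - x‖ ≤ ‖(l : E)‖ * ‖x‖) →
        (∀ x, ‖d s x‖ ≤ ‖x‖) ∧ (d s = 0 → s = 1) ∧
        ∀ s' : RingAut E, (∀ x, ‖s' x‖ = ‖x‖) → (∀ x, ‖s' x - x‖ ≤ ‖(l : E)‖ * ‖x‖) →
          (s * s' = s' * s → d (s * s') = d s + d s') ∧
          ∀ r : RingAut E, (∀ x, ‖r x‖ = ‖x‖) → (∀ x, ‖r x - x‖ ≤ ‖(l : E)‖ * ‖x‖) →
            r * s = s * r → r * s' = s' * r → s' * s = r * (s * s') → ⁅d s', d s⁆ = d r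

/-- linear algebra -/
def Stmt_LieAlg : Prop :=
  ∀ (E : Type) [Field E] [CharZero E] (A : Type) [CommRing A] [Module.Free ℤ A]
    [Module.Finite ℤ A], IsDomain (TensorProduct ℤ E A) →
    ∀ (ι : Type) [Fintype ι] (y : ι → E) (a b r : A →+ Derivation ℤ E E),
      (∀ D ∈ Submodule.span E (Set.range a ∪ Set.range b ∪ Set.range r),
        (∀ i, D (y i) = 0) → D = 0) →
      (∀ u v, ⁅b v, a u⁆ = r (u * v)) → 2 * Fintype.card ι < Module.finrank ℤ A →
      ∀ w, r w = 0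

/-- the Lie theorem for the field `F` with an absolute value -/
def Stmt_Lie : Prop :=
  ∀ (F : Type) [Field F] [CharZero F] (v : AbsoluteValue F ℝ) (l : ℕ),
    (∀ x y, v (x + y) ≤ max (v x) (v y)) → l.Prime → 3 ≤ l → v (l : F) < 1 →
    (∀ x, 1 ≤ v (x ^ 2 - 2)) →
    ∀ (ι : Type) [Fintype ι] (y : ι → F), GenBy y →
    ∀ (A : Type) [CommRing A] [Module.Free ℤ A] [Module.Finite ℤ A],
      (∀ (E : Type) [Field E] [CharZero E], (¬ ∃ x : E, x ^ 2 = 2) →
        IsDomain (TensorProduct ℤ E A)) →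
      ∀ a b r : A → RingAut F, (∀ u v, a (u + v) = a u * a v) → (∀ u v, b (u + v) = b u * b v) →
        (∀ u v, r (u + v) = r u * r v) → (∀ u v, b v * a u = r (u * v) * (a u * b v)) →
        (∀ u v, r u * a v = a v * r u) → (∀ u v, r u * b v = b v * r u) →
        (∀ u, Near v l (a u) ∧ Near v l (b u) ∧ Near v l (r u)) →
        2 * Fintype.card ι < Module.finrank ℤ A → ∀ w, r w = 1

/-- the iterates of `x ^ 2 - 2` -/
noncomputable def fi : ℕ → Polynomial ℤ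
  | 0 => Polynomial.X
  | n + 1 => (fi n).comp (Polynomial.X ^ 2 - Polynomial.C 2)

/-- the tower of real rings -/
abbrev Tw (n : ℕ) : Type := AdjoinRoot (fi n)

/-- facts about the tower -/
def Stmt_Tower : Prop :=
  (∀ n, (fi n).Monic ∧ (fi n).natDegree = 2 ^ n) ∧
  (∀ n, ∃ φ : Tw n →+* ℝ, Function.Injective φ) ∧
  (∀ m n, m ≤ n → ∃ φ : Tw m →+* Tw n, Function.Injective φ) ∧
  (∀ n (E : Type) [Field E] [CharZero E], (¬ ∃ x : E, x ^ 2 = 2) →
    IsDomain (TensorProduct ℤ E (Tw n)))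

end Pool.Agent.MR3
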