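import Pool.Agent.MR3.Size

set_option autoImplicit false

/-!
# Lifts of elements of the Heisenberg group, low complexity of their powers
-/

namespace Pool.Agent.MR3

open MvPolynomial

section group

variable {A : Type} [CommRing A]

/-- product in the Heisenberg group -/
def hm (g g' : A × A × A) : A × A × A :=
  (g.1 + g'.1, g.2.1 + g'.2.1, g.2.2 + g'.2.2 + g.2.1 * g'.1)

theorem hP_hm (g g' : A × A × A) (p : A × A) : hP g (hP g' p) = hP (hm g g') p := by
  obtain ⟨x, y⟩ := p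
  obtain ⟨u, v, w⟩ := g
  obtain ⟨u', v', w'⟩ := g'
  simp only [hP, hm]
  ext <;> simp <;> ring

variable {F : Type} [Field F] {k : ℕ} {v : A × A → Fin (k + 1) → F}

/-- `s` lifts the element `g` -/
def Lifts (v : A × A → Fin (k + 1) → F) (s : RingAut F) (g : A × A × A) : Prop :=
  ∀ p i, s (v p i) = v (hP g p) i

theorem Lifts.mul {s s' : RingAut F} {g g' : A × A × A} (h : Lifts v s g) (h' : Lifts v s' g') :
    Lifts v (s * s') (hm g g') := by
  intro p i
  rw [RingAut.mul_apply, h' p i, h, hP_hm]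

theorem Lifts.one : Lifts v 1 (0, 0, 0) := by
  intro p i
  rw [RingAut.one_apply]
  congr 1
  simp [hP]

/-- lifts are unique -/
theorem Lifts.unique {ι : Type} {c : ι → A × A} (hgen : GenBy (bt c v)) {s s' : RingAut F}
    {g : A × A × A} (h : Lifts v s g) (h' : Lifts v s' g) : s = s' := by
  have hX : ∀ x, s (bt c v x) = s' (bt c v x) := fun x => by
    rw [bt, h, h']
  have hP : ∀ P : MvPolynomial (ι × Fin (k + 1)) ℤ,
      s (aeval (bt c v) P) = s' (aeval (bt c v) P) := by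
    intro P
    induction P using MvPolynomial.induction_on with
    | C a => simp
    | add p q hp hq => rw [map_add, map_add, map_add, hp, hq]
    | mul_X p i hp => rw [map_mul, map_mul, map_mul, hp, aeval_X, hX]
  ext z
  obtain ⟨P, Q, hQ, hz⟩ := hgen z
  have h1 : s z * s (aeval (bt c v) Q) = s' z * s (aeval (bt c v) Q) := by
    calc s z * s (aeval (bt c v) Q) = s (z * aeval (bt c v) Q) := (map_mul _ _ _).symm
      _ = s' (z * aeval (bt c v) Q) := by rw [hz, hP]
      _ = s' z * s (aeval (bt c v) Q) := by rw [map_mul, hP]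
  have h2 : s (aeval (bt c v) Q) ≠ 0 := by simpa using hQ
  exact mul_right_cancel₀ h2 h1

theorem Lifts.inv {s : RingAut F} {g g' : A × A × A}
    (h : Lifts v s g) (hg : hm g g' = (0, 0, 0)) : Lifts v s⁻¹ g' := by
  intro p i
  have h1 : s (v (hP g' p) i) = v p i := by
    rw [h, hP_hm, hg]
    congr 1
    simp [hP]
  rw [← h1, ← RingAut.mul_apply, inv_mul_cancel, RingAut.one_apply]

end group

section near

variable {F : Type} [Field F] {v : AbsoluteValue F ℝ} {l : ℕ}

theorem Near.one : Near v l (1 : RingAut F) := by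
  refine ⟨fun x => rfl, fun x => ?_⟩
  simp only [RingAut.one_apply, sub_self, map_zero]
  positivity

theorem Near.mul (hna : ∀ x y, v (x + y) ≤ max (v x) (v y)) {s s' : RingAut F}
    (h : Near v l s) (h' : Near v l s') : Near v l (s * s') := by
  refine ⟨fun x => by rw [RingAut.mul_apply, h.1, h'.1], fun x => ?_⟩
  rw [RingAut.mul_apply]
  have h1 : s (s' x) - x = (s (s' x) - s' x) + (s' x - x) := by ring
  rw [h1]
  refine (hna _ _).trans (max_le ?_ (h'.2 x))
  have := h.2 (s' x)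
  rwa [h'.1] at this

theorem Near.inv {s : RingAut F} (h : Near v l s) : Near v l s⁻¹ := by
  have h0 : ∀ x, s (s⁻¹ x) = x := fun x => by
    rw [← RingAut.mul_apply, mul_inv_cancel, RingAut.one_apply]
  have h1 : ∀ x, v (s⁻¹ x) = v x := fun x => by
    rw [← h.1 (s⁻¹ x), h0]
  refine ⟨h1, fun x => ?_⟩
  have := h.2 (s⁻¹ x)
  rw [h0, h1] at this
  rw [show s⁻¹ x - x = -(x - s⁻¹ x) by ring, map_neg_eq_map]
  exact this

theorem Near.pow (hna : ∀ x y, v (x + y) ≤ max (v x) (v y)) {s : RingAut F}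
    (h : Near v l s) (n : ℕ) : Near v l (s ^ n) := by
  induction n with
  | zero => rw [pow_zero]; exact Near.one
  | succ n ih => rw [pow_succ]; exact ih.mul hna h

end near

section complexity

/-- common denominators -/
theorem ratT_common {A F : Type} [CommRing A] [Field F] {k : ℕ} {ι : Type} [Fintype ι]
    (X : ι × Fin (k + 1) → F) (z : ι → Fin (k + 1) → F)
    (P : ι → Fin (k + 1) → MvPolynomial (ι × Fin (k + 1)) ℤ) (lam : ℕ)
    (hP : ∀ e i, Sz lam (P e i)) (h0 : ∀ e, aeval X (P e 0) ≠ 0)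
    (h : ∀ e i, z e i * aeval X (P e 0) = aeval X (P e i)) :
    RatT X (Fintype.card ι * lam) (fun x : ι × Fin (k + 1) => z x.1 x.2) := by
  classical
  refine ⟨∏ e, P e 0, fun x => P x.1 x.2 * ∏ e ∈ Finset.univ.erase x.1, P e 0, ?_, ?_, ?_, ?_⟩
  · have := Sz.prod' Finset.univ (fun e => P e 0) lam (fun e _ => hP e 0)
    simpa using this
  · intro x
    have h1 := Sz.prod' (Finset.univ.erase x.1) (fun e => P e 0) lam (fun e _ => hP e 0)
    have h2 := (hP x.1 x.2).mul h1
    refine h2.mono ?_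
    rw [Finset.card_erase_of_mem (Finset.mem_univ _), Finset.card_univ]
    have hpos : 0 < Fintype.card ι := Fintype.card_pos_iff.mpr ⟨x.1⟩
    obtain ⟨m, hm⟩ := Nat.exists_eq_succ_of_ne_zero hpos.ne'
    rw [hm]
    simp only [Nat.succ_eq_add_one, Nat.add_sub_cancel]
    rw [Nat.add_mul]
    omega
  · rw [map_prod]
    exact Finset.prod_ne_zero_iff.mpr fun e _ => h0 e
  · intro x
    rw [map_mul, ← h, ← Finset.mul_prod_erase Finset.univ _ (Finset.mem_univ x.1), map_mul, mul_assoc]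

/-- low complexity of the powers of a lift -/
theorem lc_of_lifts (hcirc : Stmt_Circuit) (hsch : Stmt_Scheme)
    {A F : Type} [CommRing A] [Field F] {k : ℕ} {S : Set A} (hS : S.Finite)
    {ι : Type} [Fintype ι] {c : ι → A × A} {v w : A × A → Fin (k + 1) → F}
    (hrep : IsWRep v w) (hgood : Good S v w)
    (hgen : ∀ p : A × A, ∃ t, p ∈ (Known S (Set.range c) t).1)
    {κ : Type} [Fintype κ] (b : Module.Basis κ ℤ A) (s : RingAut F) (g : ℤ → A × A × A)
    (hlift : ∀ n : ℤ, Lifts v (s ^ n) (g n)) (N : ℕ)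
    (hN : ∀ n e i, |b.repr (hP (g n) (c e)).1 i| ≤ N * (|n| + 1) ∧
      |b.repr (hP (g n) (c e)).2 i| ≤ N * (|n| + 1)) :
    LC (bt c v) s := by
  classical
  have hmono : ∀ t t' : ℕ, t ≤ t' → ∀ p, p ∈ (Known S (Set.range c) t).1 →
      p ∈ (Known S (Set.range c) t').1 := by
    intro t t' h
    induction h with
    | refl => exact fun p hp => hp
    | step _ ih => exact fun p hp => Or.inl (ih p hp)
  obtain ⟨T, hT⟩ := hsch A κ b S hS 1
  -- a common time for the base of the scheme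
  have hfinB : {a : A | ∀ j, |b.repr a j| ≤ (T : ℤ)}.Finite := by
    have hfin : (Set.univ.pi fun _ : κ => Set.Icc (-(T : ℤ)) T).Finite :=
      Set.Finite.pi fun _ => Set.finite_Icc _ _
    refine Set.Finite.subset (hfin.preimage
      (f := fun a : A => (fun j => b.repr a j : κ → ℤ)) ?_) ?_
    · intro a _ a' _ haa
      apply b.repr.injective
      ext j
      exact congrFun haa j
    · intro a ha
      simp only [Set.mem_preimage, Set.mem_pi, Set.mem_univ, forall_const, Set.mem_Icc]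
      intro j
      exact abs_le.mp (ha j)
  obtain ⟨t0, ht0⟩ : ∃ t0, ∀ x ∈ S, ∀ a ∈ {a : A | ∀ j, |b.repr a j| ≤ (T : ℤ)},
      (x, a) ∈ (Known S (Set.range c) t0).1 := by
    choose tt htt using hgen
    have hfin : (S ×ˢ {a : A | ∀ j, |b.repr a j| ≤ (T : ℤ)}).Finite := hS.prod hfinB
    refine ⟨hfin.toFinset.sup tt, fun x hx a ha => ?_⟩
    refine hmono _ _ ?_ _ (htt (x, a))
    exact Finset.le_sup (f := tt) (by simpa using ⟨hx, ha⟩)
  have hid : (RingHom.id A) '' S = S := by simp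
  have hT' := hT A (RingHom.id A) (fun _ => 1) ⟨0, rfl⟩ (Set.range c) t0
  rw [hid] at hT'
  have hT2 := hT' (by
    intro x hx y hy
    have := ht0 x hx (y 0) (fun j => hy 0 j)
    simpa [bp] using this)
  have key : ∀ (j : ℕ) (x y : A), (∀ i, |b.repr x i| ≤ 2 ^ 2 ^ j) → (∀ i, |b.repr y i| ≤ 2 ^ 2 ^ j) →
      (x, y) ∈ (Known S (Set.range c) (t0 + 4 * (j + 1))).1 := by
    intro j x y hx hy
    have := hT2 j x (fun _ => y) (Or.inr hx) (fun _ i => hy i)
    simpa [bp] using this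
  -- the constant
  obtain ⟨h, hh⟩ : ∃ h : ℕ, ∀ j : ℕ, N * (2 ^ 2 ^ j + 1) ≤ 2 ^ 2 ^ (j + h) := by
    refine ⟨N + 1, fun j => ?_⟩
    have h1 : N ≤ 2 ^ N := Nat.lt_two_pow_self.le
    have h2 : 2 ^ 2 ^ j + 1 ≤ 2 ^ (2 ^ j + 1) := by
      rw [pow_succ]
      have : 1 ≤ 2 ^ 2 ^ j := Nat.one_le_two_pow
      omega
    calc N * (2 ^ 2 ^ j + 1) ≤ 2 ^ N * 2 ^ (2 ^ j + 1) := Nat.mul_le_mul h1 h2
      _ = 2 ^ (N + (2 ^ j + 1)) := (pow_add 2 N (2 ^ j + 1)).symm
      _ ≤ 2 ^ 2 ^ (j + (N + 1)) := by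
        apply Nat.pow_le_pow_right (by norm_num)
        have h3 : N + 1 + 2 ^ j ≤ 2 ^ j * 2 ^ (N + 1) := by
          have h4 : N + 1 + 1 ≤ 2 ^ (N + 1) := Nat.lt_two_pow_self
          have h5 : 1 ≤ 2 ^ j := Nat.one_le_two_pow
          nlinarith
        rw [pow_add]
        omega
  set q := k ^ 2 + k + 1 with hq
  have hq1 : 1 ≤ q := by omega
  refine ⟨(Fintype.card ι + 1) * q ^ (t0 + 4 * h + 1) * q ^ 4, fun j n hn => ?_⟩
  have hmem : ∀ e, hP (g n) (c e) ∈ (Known S (Set.range c) (t0 + 4 * (j + h + 1))).1 := by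
    intro e
    have hb : (N : ℤ) * (|n| + 1) ≤ 2 ^ 2 ^ (j + h) := by
      have h1 : (|n| : ℤ) ≤ 2 ^ 2 ^ j := by
        rw [Int.abs_eq_natAbs]
        exact_mod_cast hn
      have h2 : ((N * (2 ^ 2 ^ j + 1) : ℕ) : ℤ) ≤ ((2 ^ 2 ^ (j + h) : ℕ) : ℤ) := by
        exact_mod_cast hh j
      push_cast at h2
      refine le_trans ?_ h2
      have h3 : (0 : ℤ) ≤ N := Int.natCast_nonneg _
      nlinarith
    exact key (j + h) _ _ (fun i => (hN n e i).1.trans hb) (fun i => (hN n e i).2.trans hb)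
  choose P hP1 hP2 hP3 using fun e => hcirc A F k S ι c v w hrep hgood
    (t0 + 4 * (j + h + 1)) (hP (g n) (c e)) (hmem e)
  have hr := ratT_common (A := A) (bt c v) (fun e => v (hP (g n) (c e))) P
    (q ^ (t0 + 4 * (j + h + 1) + 1)) hP1 hP2
    (fun e i => hP3 e F v w hrep (fun Q hQ => hQ) i)
  have hfun : (fun x : ι × Fin (k + 1) => (s ^ n) (bt c v x)) =
      fun x : ι × Fin (k + 1) => v (hP (g n) (c x.1)) x.2 := by
    funext x
    exact hlift n (c x.1) x.2
  rw [hfun]
  obtain ⟨Q, P', hQ, hP', hne, heq⟩ := hr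
  have hle : Fintype.card ι * q ^ (t0 + 4 * (j + h + 1) + 1) ≤
      ((Fintype.card ι + 1) * q ^ (t0 + 4 * h + 1) * q ^ 4) ^ (j + 1) := by
    have e1 : q ^ (t0 + 4 * (j + h + 1) + 1) = q ^ (t0 + 4 * h + 1) * (q ^ 4) ^ (j + 1) := by
      rw [← pow_mul, ← pow_add]
      congr 1
      ring
    rw [e1, mul_pow]
    have e2 : Fintype.card ι * q ^ (t0 + 4 * h + 1) ≤
        ((Fintype.card ι + 1) * q ^ (t0 + 4 * h + 1)) ^ (j + 1) := by
      calc Fintype.card ι * q ^ (t0 + 4 * h + 1)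
          ≤ (Fintype.card ι + 1) * q ^ (t0 + 4 * h + 1) :=
            Nat.mul_le_mul_right _ (Nat.le_succ _)
        _ = ((Fintype.card ι + 1) * q ^ (t0 + 4 * h + 1)) ^ 1 := (pow_one _).symm
        _ ≤ _ := by
          apply Nat.pow_le_pow_right
          · have : 0 < q ^ (t0 + 4 * h + 1) := Nat.pow_pos hq1
            positivity
          · omega
    rw [← mul_assoc]
    exact Nat.mul_le_mul_right _ e2
  exact ⟨Q, P', hQ.mono hle, fun x => (hP' x).mono hle, hne, heq⟩

end complexity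

end Pool.Agent.MR3
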