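import Pool.Agent.MR3.Lifts

set_option autoImplicit false

/-!
# Final assembly
-/

namespace Pool.Agent.MR3

open MvPolynomial

/-- pull back of finite representations along injective ring homomorphisms -/
theorem FRep.comap {A B : Type} [CommRing A] [CommRing B] (φ : A →+* B)
    (hφ : Function.Injective φ) {F : Type} [Field F] {r : ℕ} (P L : Finset (A × A))
    (h : FRep B F r (P.map ⟨Prod.map φ φ, Function.Injective.prodMap hφ hφ⟩)
      (L.map ⟨Prod.map φ φ, Function.Injective.prodMap hφ hφ⟩)) : FRep A F r P L := by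
  obtain ⟨v, w, hvw⟩ := h
  refine ⟨fun p => v (Prod.map φ φ p), fun l => w (Prod.map φ φ l), fun p hp l hl => ?_⟩
  refine (hvw _ (Finset.mem_map.mpr ⟨p, hp, rfl⟩) _ (Finset.mem_map.mpr ⟨l, hl, rfl⟩)).trans ?_
  simp only [Function.Embedding.coeFn_mk, Inc, Prod.map_fst, Prod.map_snd, ← map_mul, ← map_add]
  exact hφ.eq_iff

/-- the typical closed point theorem -/
theorem tcp (hchange : Stmt_Change) (hodd : Stmt_Odd) (hpig : Stmt_Pigeon) (hplace : Stmt_Place)
    (F : Type) [Field F] [CharZero F] (hEC : EC F) (σ : Type) [Finite σ] (x : σ → F)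
    (hx : GenBy x) (t : ℕ) (s : Fin t → RingAut F) (hs : ∀ i, LC x (s i)) :
    ∃ (v : AbsoluteValue F ℝ) (l : ℕ), (∀ x y, v (x + y) ≤ max (v x) (v y)) ∧ l.Prime ∧ 3 ≤ l ∧
      v (l : F) < 1 ∧ (∀ x, 1 ≤ v (x ^ 2 - 2)) ∧ ∃ m : ℕ, 0 < m ∧ ∀ i, Near v l ((s i) ^ m) := by
  obtain ⟨D, y, g, hy, hg, hker⟩ := hodd F σ x hEC hx
  obtain ⟨l, κ, _, _, _, z, c, hl, hl8, hz, hgz, hdz, h2, hres⟩ :=
    hpig D F y g hg hker hy t s (fun i => hchange F σ (Fin (D + 1)) x y hx hy (s i) (hs i))
  obtain ⟨v, hna, hvl, hv2, hact⟩ := hplace D F y g hker hy l κ z c hl hz hgz hdz h2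
  refine ⟨v, l, hna, hl, by omega, hvl, hv2, ?_⟩
  choose m hm hm1 hm2 using hres
  choose m' hm' hnear using fun i => hact ((s i) ^ m i) (hm1 i) (hm2 i)
  refine ⟨∏ i, (m i * m' i), Finset.prod_pos fun i _ => Nat.mul_pos (hm i) (hm' i), fun i => ?_⟩
  rw [← Finset.mul_prod_erase Finset.univ _ (Finset.mem_univ i), pow_mul, pow_mul]
  exact (hnear i).pow hna _

theorem known_mono {A : Type} [CommRing A] (S : Set A) (C : Set (A × A)) (t t' : ℕ) (h : t ≤ t') :
    ∀ p, p ∈ (Known S C t).1 → p ∈ (Known S C t').1 := by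
  induction h with
  | refl => exact fun p hp => hp
  | step _ ih => exact fun p hp => Or.inl (ih p hp)

/-- the core: a good representation of the plane over a large ring is impossible -/
theorem core (hcirc : Stmt_Circuit) (hsch : Stmt_Scheme) (hhom : Stmt_Homog)
    (hres : Stmt_Restrict) (hlift : Stmt_Lift)
    (hchange : Stmt_Change) (hodd : Stmt_Odd) (hpig : Stmt_Pigeon) (hplace : Stmt_Place)
    (hlie : Stmt_Lie)
    (A : Type) [CommRing A] [IsDomain A] [CharZero A] [Module.Free ℤ A] [Module.Finite ℤ A]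
    (hA : ∀ (E : Type) [Field E] [CharZero E], (¬ ∃ x : E, x ^ 2 = 2) →
        IsDomain (TensorProduct ℤ E A))
    (F : Type) [Field F] (hEC : EC F) (k : ℕ) (S : Set A) (hS : S.Finite)
    (ι : Type) [Fintype ι] (c : ι → A × A) (v w : A × A → Fin (k + 1) → F)
    (hrep : IsRep v w) (hgood : Good S v w)
    (hgen : ∀ p : A × A, ∃ t, p ∈ (Known S (Set.range c) t).1)
    (hcard : 2 * Fintype.card (ι × Fin (k + 1)) < Module.finrank ℤ A) : False := by
  classical
  obtain ⟨F3, _, hEC3, v3, w3, hrep3, hgood3, M, hM, hker3⟩ :=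
    hhom A F k S ι c v w hEC hS hrep hgood hgen
  obtain ⟨F4, _, e, v4, w4, hEC4, hrep4, hgood4, hgen4, hev, hew⟩ :=
    hres A F3 k S ι c v3 w3 hEC3 hrep3 hgood3 hgen
  have hchar : CharZero F4 := by
    refine ⟨fun a b hab => ?_⟩
    by_contra hne
    have h1 : aeval (fun i : Empty => (i.elim : F4)) (C ((a : ℤ) - b) : MvPolynomial Empty ℤ) = 0 := by
      simp [hab]
    obtain ⟨z, hz, -⟩ := hEC4 Empty (fun i => i.elim) 1 (by simp)
    have h2 := hz _ h1
    simp only [map_sub, map_natCast] at h2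
    have : (a : ℚ) = b := by linarith
    exact hne (by exact_mod_cast this)
  have hcomap : ∀ (f : A × A → A × A) (Q : MvPolynomial (ι × Fin (k + 1)) ℤ),
      e (aeval (bt c (fun p => v4 (f p))) Q) = aeval (bt c (fun p => v3 (f p))) Q := by
    intro f Q
    have h1 : e (aeval (bt c (fun p => v4 (f p))) Q) =
        aeval (fun x => e (bt c (fun p => v4 (f p)) x)) Q := by
      induction Q using MvPolynomial.induction_on with
      | C a => simp
      | add p q hp hq => rw [map_add, map_add, map_add, hp, hq]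
      | mul_X p i hp => rw [map_mul, map_mul, map_mul, hp, aeval_X, aeval_X]
    rw [h1]
    congr 2
    funext x
    simp [bt, hev]
  have hker4 : ∀ (f : A × A → A × A),
      (∀ Q : MvPolynomial (ι × Fin (k + 1)) ℤ, aeval (bt c v3) Q = 0 ↔
          aeval (bt c (fun p => v3 (f p))) Q = 0) →
      (∀ Q : MvPolynomial (ι × Fin (k + 1)) ℤ, aeval (bt c v4) Q = 0 ↔
          aeval (bt c (fun p => v4 (f p))) Q = 0) := by
    intro f hf Q
    have h1 := hcomap id Q
    have h2 := hcomap f Q
    simp only [id] at h1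
    rw [← map_eq_zero e, ← map_eq_zero e (a := aeval (bt c (fun p => v4 (f p))) Q), h2, h1]
    exact hf Q
  -- lifts
  have hT : ∀ u : A, ∃ s : RingAut F4, Lifts v4 s (M * u, 0, 0) := fun u =>
    (hlift A F4 k S ι c v4 w4 hrep4 hgood4 hgen hgen4 (M * u, 0, 0)
      (hker4 _ (hker3 u).1)).imp fun s hs => hs.1
  have hU : ∀ u : A, ∃ s : RingAut F4, Lifts v4 s (0, M * u, 0) := fun u =>
    (hlift A F4 k S ι c v4 w4 hrep4 hgood4 hgen hgen4 (0, M * u, 0)
      (hker4 _ (hker3 u).2)).imp fun s hs => hs.1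
  choose sT hsT using hT
  choose sU hsU using hU
  have huniq : ∀ {s s' : RingAut F4} {g : A × A × A}, Lifts v4 s g → Lifts v4 s' g → s = s' :=
    fun h h' => Lifts.unique hgen4 h h'
  have hTadd : ∀ u u', sT (u + u') = sT u * sT u' := fun u u' => by
    refine huniq (hsT _) ?_
    have := (hsT u).mul (hsT u')
    simp only [hm] at this
    convert this using 2
    · ring
    · simp
  have hUadd : ∀ u u', sU (u + u') = sU u * sU u' := fun u u' => by
    refine huniq (hsU _) ?_
    have := (hsU u).mul (hsU u')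
    simp only [hm] at this
    convert this using 2
    · simp
    · ext <;> simp; ring
  -- homomorphisms
  let hTm : Multiplicative A →* RingAut F4 :=
    { toFun := fun u => sT (Multiplicative.toAdd u)
      map_one' := by
        have := hTadd 0 0
        rw [add_zero] at this
        exact (mul_eq_left.mp this.symm)
      map_mul' := fun u u' => hTadd _ _ }
  let hUm : Multiplicative A →* RingAut F4 :=
    { toFun := fun u => sU (Multiplicative.toAdd u)
      map_one' := by
        have := hUadd 0 0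
        rw [add_zero] at this
        exact (mul_eq_left.mp this.symm)
      map_mul' := fun u u' => hUadd _ _ }
  have hTz : ∀ (n : ℤ) (u : A), sT u ^ n = sT (n • u) := fun n u => by
    have := map_zpow hTm (Multiplicative.ofAdd u) n
    exact this.symm
  have hUz : ∀ (n : ℤ) (u : A), sU u ^ n = sU (n • u) := fun n u => by
    have := map_zpow hUm (Multiplicative.ofAdd u) n
    exact this.symm
  have hTn : ∀ (n : ℕ) (u : A), sT u ^ n = sT (n • u) := fun n u => by
    have := map_pow hTm (Multiplicative.ofAdd u) n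
    exact this.symm
  have hUn : ∀ (n : ℕ) (u : A), sU u ^ n = sU (n • u) := fun n u => by
    have := map_pow hUm (Multiplicative.ofAdd u) n
    exact this.symm
  -- a basis of A
  let b := Module.Free.chooseBasis ℤ A
  let κ := Module.Free.ChooseBasisIndex ℤ A
  have hbd : ∀ a : A, ∃ N : ℕ, ∀ i, |b.repr a i| ≤ N := by
    intro a
    refine ⟨∑ i, (b.repr a i).natAbs, fun i => ?_⟩
    rw [Int.abs_eq_natAbs]
    exact_mod_cast Finset.single_le_sum (f := fun i => (b.repr a i).natAbs)
      (fun _ _ => Nat.zero_le _) (Finset.mem_univ i)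
  choose nb hnb using hbd
  have hlcT : ∀ u : A, LC (bt c v4) (sT u) := by
    intro u
    refine lc_of_lifts hcirc hsch hS ⟨hrep4.1, hrep4.2.1, fun p l h => (hrep4.2.2 p l).mpr h⟩
      hgood4 hgen b (sT u) (fun n => (M * (n • u), 0, 0))
      (fun n => by rw [hTz]; exact hsT _)
      (∑ e, (nb (c e).1 + nb (c e).2) + nb (M * u)) (fun n e' i => ?_)
    have h1 := hnb (c e').1 i
    have h2 := hnb (c e').2 i
    have h3 := hnb (M * u) i
    have h4 : nb (c e').1 + nb (c e').2 ≤ ∑ e, (nb (c e).1 + nb (c e).2) :=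
      Finset.single_le_sum (f := fun e => nb (c e).1 + nb (c e).2)
        (fun _ _ => Nat.zero_le _) (Finset.mem_univ e')
    have h5 : ((nb (c e').1 : ℤ) + nb (c e').2) ≤ ((∑ e, (nb (c e).1 + nb (c e).2) : ℕ) : ℤ) := by
      exact_mod_cast h4
    have h6 : (0 : ℤ) ≤ |n| := abs_nonneg n
    have h7 : (0 : ℤ) ≤ nb (M * u) := Int.natCast_nonneg _
    have h8 : (0 : ℤ) ≤ nb (c e').1 := Int.natCast_nonneg _
    have h9 : (0 : ℤ) ≤ nb (c e').2 := Int.natCast_nonneg _
    constructor
    · have e1 : (hP (M * (n • u), 0, 0) (c e')).1 = (c e').1 + n • (M * u) := by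
        simp only [hP, zsmul_eq_mul]; ring
      rw [e1, map_add, map_zsmul, Finsupp.add_apply, Finsupp.smul_apply, smul_eq_mul]
      refine (abs_add_le _ _).trans ?_
      rw [abs_mul]
      push_cast at h5 ⊢
      nlinarith
    · have e1 : (hP (M * (n • u), 0, 0) (c e')).2 = (c e').2 := by
        simp [hP]
      rw [e1]
      push_cast at h5 ⊢
      nlinarith
  have hlcU : ∀ u : A, LC (bt c v4) (sU u) := by
    intro u
    refine lc_of_lifts hcirc hsch hS ⟨hrep4.1, hrep4.2.1, fun p l h => (hrep4.2.2 p l).mpr h⟩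
      hgood4 hgen b (sU u) (fun n => (0, M * (n • u), 0))
      (fun n => by rw [hUz]; exact hsU _)
      (∑ e, (nb (c e).1 + nb (c e).2 + nb (M * u * (c e).1))) (fun n e' i => ?_)
    have h1 := hnb (c e').1 i
    have h2 := hnb (c e').2 i
    have h3 := hnb (M * u * (c e').1) i
    have h4 : nb (c e').1 + nb (c e').2 + nb (M * u * (c e').1) ≤
        ∑ e, (nb (c e).1 + nb (c e).2 + nb (M * u * (c e).1)) :=
      Finset.single_le_sum (f := fun e => nb (c e).1 + nb (c e).2 + nb (M * u * (c e).1))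
        (fun _ _ => Nat.zero_le _) (Finset.mem_univ e')
    have h5 : ((nb (c e').1 : ℤ) + nb (c e').2 + nb (M * u * (c e').1)) ≤
        ((∑ e, (nb (c e).1 + nb (c e).2 + nb (M * u * (c e).1)) : ℕ) : ℤ) := by
      exact_mod_cast h4
    have h6 : (0 : ℤ) ≤ |n| := abs_nonneg n
    have h7 : (0 : ℤ) ≤ nb (M * u * (c e').1) := Int.natCast_nonneg _
    have h8 : (0 : ℤ) ≤ nb (c e').1 := Int.natCast_nonneg _
    have h9 : (0 : ℤ) ≤ nb (c e').2 := Int.natCast_nonneg _
    constructor
    · have e1 : (hP (0, M * (n • u), 0) (c e')).1 = (c e').1 := by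
        simp [hP]
      rw [e1]
      push_cast at h5 ⊢
      nlinarith
    · have e1 : (hP (0, M * (n • u), 0) (c e')).2 = (c e').2 + n • (M * u * (c e').1) := by
        simp only [hP, zsmul_eq_mul]; ring
      rw [e1, map_add, map_zsmul, Finsupp.add_apply, Finsupp.smul_apply, smul_eq_mul]
      refine (abs_add_le _ _).trans ?_
      rw [abs_mul]
      push_cast at h5 ⊢
      nlinarith
  -- the finite family of automorphisms
  let eq := Fintype.equivFin (κ ⊕ κ)
  let s : Fin (Fintype.card (κ ⊕ κ)) → RingAut F4 := fun i =>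
    Sum.elim (fun j => sT (b j)) (fun j => sU (b j)) (eq.symm i)
  obtain ⟨va, l, hna, hl, hl3, hvl, hv2, m, hm0, hnear⟩ :=
    tcp hchange hodd hpig hplace F4 hEC4 (ι × Fin (k + 1)) (bt c v4) hgen4 _ s (by
      intro i
      show LC (bt c v4) (Sum.elim (fun j => sT (b j)) (fun j => sU (b j)) (eq.symm i))
      rcases eq.symm i with j | j
      · exact hlcT _
      · exact hlcU _)
  have hnT : ∀ j : κ, Near va l (sT (b j) ^ m) := fun j => by
    have := hnear (eq (Sum.inl j))
    simpa [s] using this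
  have hnU : ∀ j : κ, Near va l (sU (b j) ^ m) := fun j => by
    have := hnear (eq (Sum.inr j))
    simpa [s] using this
  have hspan : ∀ (t : A → RingAut F4), (∀ u u', t (u + u') = t u * t u') →
      (∀ j, Near va l (t (b j))) → ∀ u, Near va l (t u) := by
    intro t ht hj u
    have ht0 : t 0 = 1 := by
      have := ht 0 0
      rw [add_zero] at this
      exact (mul_eq_left.mp this.symm)
    have htneg : ∀ u, t (-u) = (t u)⁻¹ := fun u => by
      rw [eq_inv_iff_mul_eq_one, ← ht, neg_add_cancel, ht0]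
    have hu : u ∈ Submodule.span ℤ (Set.range b) := by
      rw [b.span_eq]; trivial
    induction hu using Submodule.span_induction with
    | mem x hx =>
      obtain ⟨j, rfl⟩ := hx
      exact hj j
    | zero => rw [ht0]; exact Near.one
    | add x y _ _ hx hy => rw [ht]; exact hx.mul hna hy
    | smul n x _ hx =>
      have hnat : ∀ n : ℕ, Near va l (t ((n : ℤ) • x)) := by
        intro n
        induction n with
        | zero => simp only [Nat.cast_zero, zero_smul]; rw [ht0]; exact Near.one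
        | succ n ih =>
          rw [Nat.cast_succ, add_smul, one_smul, ht]
          exact ih.mul hna hx
      obtain ⟨n', rfl | rfl⟩ := n.eq_nat_or_neg
      · exact hnat n'
      · rw [neg_smul, htneg]
        exact (hnat n').inv
  -- the rescaled homomorphisms
  have haN : ∀ u, Near va l (sT (m • u)) := by
    apply hspan (fun u => sT (m • u))
    · intro u u'
      rw [smul_add, hTadd]
    · intro j
      rw [← hTn]
      exact hnT j
  have hbN : ∀ u, Near va l (sU (m • u)) := by
    apply hspan (fun u => sU (m • u))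
    · intro u u'
      rw [smul_add, hUadd]
    · intro j
      rw [← hUn]
      exact hnU j
  let a : A → RingAut F4 := fun u => sT (m • u)
  let b' : A → RingAut F4 := fun u => sU (m • u)
  let r : A → RingAut F4 := fun u => b' u * a 1 * ((b' u)⁻¹ * (a 1)⁻¹)
  have hla : ∀ u, Lifts v4 (a u) (M * (m • u), 0, 0) := fun u => hsT _
  have hlb : ∀ u, Lifts v4 (b' u) (0, M * (m • u), 0) := fun u => hsU _
  have hr : ∀ u, Lifts v4 (r u) (0, 0, (M * (m : A)) ^ 2 * u) := by
    intro u
    have h1 : Lifts v4 (b' u)⁻¹ (0, -(M * (m • u)), 0) := by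
      refine (hlb u).inv ?_
      simp [hm]
    have h2 : Lifts v4 (a 1)⁻¹ (-(M * (m • (1 : A))), 0, 0) := by
      refine (hla 1).inv ?_
      simp [hm]
    have h3 := ((hlb u).mul (hla 1)).mul (h1.mul h2)
    simp only [hm] at h3
    show Lifts v4 (b' u * a 1 * ((b' u)⁻¹ * (a 1)⁻¹)) _
    convert h3 using 2
    · simp
    · ext
      · simp
      · simp only [nsmul_eq_mul]; ring
  have hfin := hlie F4 va l hna hl hl3 hvl hv2 (ι × Fin (k + 1)) (bt c v4) hgen4 A hA a b' r
    (fun u u' => by show sT (m • (u + u')) = _; rw [smul_add, hTadd])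
    (fun u u' => by show sU (m • (u + u')) = _; rw [smul_add, hUadd])
    (fun u u' => by
      refine huniq (hr _) ?_
      have := (hr u).mul (hr u')
      simp only [hm] at this
      convert this using 2
      · simp
      · ext
        · simp
        · simp only []; ring)
    (fun u u' => by
      refine huniq ((hlb u').mul (hla u)) ?_
      have := (hr (u * u')).mul ((hla u).mul (hlb u'))
      simp only [hm] at this ⊢
      convert this using 2
      · simp
      · ext
        · simp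
        · simp only [nsmul_eq_mul]; ring)
    (fun u u' => by
      refine huniq ((hr u).mul (hla u')) ?_
      have := (hla u').mul (hr u)
      simp only [hm] at this ⊢
      convert this using 2
      · simp
      · ext
        · simp
        · simp only []; ring)
    (fun u u' => by
      refine huniq ((hr u).mul (hlb u')) ?_
      have := (hlb u').mul (hr u)
      simp only [hm] at this ⊢
      convert this using 2
      ext
      · simp
      · simp only []; ring)
    (fun u => ⟨haN u, hbN u, ((hbN u).mul hna (haN 1)).mul hna ((hbN u).inv.mul hna (haN 1).inv)⟩)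
    hcard 1
  have h1 := hr 1
  rw [hfin] at h1
  have h2 : v4 (0, 0) = v4 (0, (M * (m : A)) ^ 2) := by
    funext i
    have := h1 (0, 0) i
    rw [RingAut.one_apply] at this
    rw [this]
    congr 1
    simp [hP]
  have h3 : dotProduct (v4 (0, 0)) (w4 (0, 0)) = 0 := by
    rw [hrep4.2.2]
    simp [Inc]
  rw [h2, hrep4.2.2] at h3
  simp only [Inc, mul_zero, add_zero] at h3
  have h4 : (M : A) * (m : A) ≠ 0 := by
    apply mul_ne_zero
    · exact_mod_cast hM.ne'
    · exact_mod_cast hm0.ne'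
  exact h4 (pow_eq_zero_iff (two_ne_zero) |>.mp h3)

/-- unboundedness of the rational dimension -/
theorem unbounded (hinit : Stmt_Init) (hP : Stmt_StageP) (hL : Stmt_StageL)
    (hcirc : Stmt_Circuit) (hsch : Stmt_Scheme) (halpha : Stmt_GenAlpha) (hhom : Stmt_Homog)
    (hres : Stmt_Restrict) (hlift : Stmt_Lift)
    (hchange : Stmt_Change) (hodd : Stmt_Odd) (hpig : Stmt_Pigeon) (hplace : Stmt_Place)
    (hlie : Stmt_Lie) (htow : Stmt_Tower) :
    ∀ R : ℕ, ∃ P L : Finset (ℝ × ℝ), ¬ FRep ℝ ℚ R P L := by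
  classical
  obtain ⟨hmon, hreal, hstep, hdom⟩ := htow
  by_contra hcon
  push Not at hcon
  obtain ⟨R, hR⟩ := hcon
  have hex : ∃ r : ℕ, ∀ n, ∀ P L : Finset (Tw n × Tw n), FRep (Tw n) ℚ r P L := by
    refine ⟨R, fun n P L => ?_⟩
    obtain ⟨φ, hφ⟩ := hreal n
    exact FRep.comap φ hφ P L (hR _ _)
  have hntr : ∀ n, Nontrivial (Tw n) := fun n => by
    obtain ⟨φ, hφ⟩ := hreal n
    exact ⟨0, 1, fun h => by simpa using congrArg φ h⟩
  have h0 : ¬ ∀ n, ∀ P L : Finset (Tw n × Tw n), FRep (Tw n) ℚ 0 P L := by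
    intro h
    have := hntr 0
    obtain ⟨v, w, hvw⟩ := h 0 {(0, 0)} {(0, 1)}
    have := (hvw (0, 0) (by simp) (0, 1) (by simp)).mp (by simp [dotProduct])
    simp [Inc] at this
  obtain ⟨k, hk1, hk2⟩ : ∃ k, (∀ n, ∀ P L : Finset (Tw n × Tw n), FRep (Tw n) ℚ (k + 1) P L) ∧
      ¬ ∀ n, ∀ P L : Finset (Tw n × Tw n), FRep (Tw n) ℚ k P L := by
    have hfind := Nat.find_spec hex
    have hmin := fun m (hm : m < Nat.find hex) => Nat.find_min hex hm
    rcases hr : Nat.find hex with _ | k
    · rw [hr] at hfind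
      exact absurd hfind h0
    · rw [hr] at hfind hmin
      exact ⟨k, hfind, hmin k (Nat.lt_succ_self k)⟩
  push Not at hk2
  obtain ⟨m, P, L, hPL⟩ := hk2
  -- the finite set S and the base
  have hfree : ∀ n, Module.Free ℤ (Tw n) := fun n =>
    Module.Free.of_basis (AdjoinRoot.powerBasis' (hmon n).1).basis
  have hfinM : ∀ n, Module.Finite ℤ (Tw n) := fun n =>
    (AdjoinRoot.powerBasis' (hmon n).1).finite
  have hrank : ∀ n, Module.finrank ℤ (Tw n) = 2 ^ n := fun n => by
    rw [(AdjoinRoot.powerBasis' (hmon n).1).finrank, AdjoinRoot.powerBasis'_dim, (hmon n).2]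
  let b := (AdjoinRoot.powerBasis' (hmon m).1).basis
  let S : Set (Tw m) := (Prod.fst '' (P : Set (Tw m × Tw m))) ∪ (Prod.fst '' (L : Set (Tw m × Tw m)))
  have hSfin : S.Finite := (P.finite_toSet.image _).union (L.finite_toSet.image _)
  obtain ⟨T, hT⟩ := hsch (Tw m) _ b S hSfin 3
  have hfinB : {a : Tw m | ∀ j, |b.repr a j| ≤ (T : ℤ)}.Finite := by
    have hfin : (Set.univ.pi fun _ : Fin (AdjoinRoot.powerBasis' (hmon m).1).dim =>
      Set.Icc (-(T : ℤ)) T).Finite := Set.Finite.pi fun _ => Set.finite_Icc _ _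
    refine Set.Finite.subset (hfin.preimage
      (f := fun a : Tw m => (fun j => b.repr a j : _ → ℤ)) ?_) ?_
    · intro a _ a' _ haa
      apply b.repr.injective
      ext j
      exact congrFun haa j
    · intro a ha
      simp only [Set.mem_preimage, Set.mem_pi, Set.mem_univ, forall_const, Set.mem_Icc]
      intro j
      exact abs_le.mp (ha j)
  let E : Set (Tw m × (Fin 3 → Tw m)) :=
    S ×ˢ (Set.univ.pi fun _ : Fin 3 => {a : Tw m | ∀ j, |b.repr a j| ≤ (T : ℤ)})
  have hE : E.Finite := hSfin.prod (Set.Finite.pi fun _ => hfinB)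
  let ι : Type := ↥E
  let _ : Fintype ι := hE.fintype
  obtain ⟨n, hmn, hn⟩ : ∃ n, m ≤ n ∧ 2 * Fintype.card (ι × Fin (k + 1)) < 2 ^ n := by
    refine ⟨max m (2 * Fintype.card (ι × Fin (k + 1))), le_max_left _ _, ?_⟩
    exact lt_of_lt_of_le Nat.lt_two_pow_self (Nat.pow_le_pow_right (by norm_num) (le_max_right _ _))
  obtain ⟨φ, hφ⟩ := hstep m n hmn
  obtain ⟨ρ, hρ⟩ := hreal n
  have : IsDomain (Tw n) := hρ.isDomain ρ
  have : CharZero (Tw n) := ⟨fun a b hab => by simpa using congrArg ρ hab⟩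
  have := hfree n
  have := hfinM n
  let P' := P.map ⟨Prod.map φ φ, Function.Injective.prodMap hφ hφ⟩
  let L' := L.map ⟨Prod.map φ φ, Function.Injective.prodMap hφ hφ⟩
  have hno : ¬ FRep (Tw n) ℚ k P' L' := fun h => hPL (FRep.comap φ hφ P L h)
  have hS'fin : (φ '' S).Finite := hSfin.image _
  obtain ⟨F0, _, hF0, v0, w0, hr0⟩ := hinit (Tw n) k (hk1 n)
  obtain ⟨F1, _, hF1, v1, w1, hr1, hg1⟩ := hP (Tw n) k P' L' hno (φ '' S) hS'fin (by
    intro l hl
    obtain ⟨l', hl', rfl⟩ := Finset.mem_map.mp hl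
    exact ⟨l'.1, Or.inr ⟨l', hl', rfl⟩, rfl⟩) F0 hF0 v0 w0 hr0
  obtain ⟨F2, _, hF2, v2, w2, hr2, hg2⟩ := hL (Tw n) k P' L' hno (φ '' S) hS'fin (by
    intro p hp
    obtain ⟨p', hp', rfl⟩ := Finset.mem_map.mp hp
    exact ⟨p'.1, Or.inl ⟨p', hp', rfl⟩, rfl⟩) F1 hF1 v1 w1 hr1 hg1
  let γ : Fin 3 → Tw n := fun i => (AdjoinRoot.root (fi n)) ^ (i : ℕ)
  let c : ι → Tw n × Tw n := fun e => bp φ γ e.1
  have hbase : ∀ x ∈ S, ∀ y : Fin 3 → Tw m, ∃ t,
      bp φ γ (x, y) ∈ (Known (φ '' S) (Set.range c) t).1 := by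
    intro x hx y
    have h1 := hT (Tw n) φ γ ⟨0, by simp [γ]⟩ (Set.range c) 0 (by
      intro x hx y hy
      refine ⟨⟨(x, y), ?_⟩, rfl⟩
      exact ⟨hx, fun i _ => hy i⟩)
    have hbd : ∃ N : ℕ, ∀ i j, |b.repr (y i) j| ≤ N := by
      refine ⟨∑ i, ∑ j, (b.repr (y i) j).natAbs, fun i j => ?_⟩
      rw [Int.abs_eq_natAbs]
      have h2 : (b.repr (y i) j).natAbs ≤ ∑ j, (b.repr (y i) j).natAbs :=
        Finset.single_le_sum (f := fun j => (b.repr (y i) j).natAbs)
          (fun _ _ => Nat.zero_le _) (Finset.mem_univ j)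
      have h3 : ∑ j, (b.repr (y i) j).natAbs ≤ ∑ i, ∑ j, (b.repr (y i) j).natAbs :=
        Finset.single_le_sum (f := fun i => ∑ j, (b.repr (y i) j).natAbs)
          (fun _ _ => Nat.zero_le _) (Finset.mem_univ i)
      exact_mod_cast h2.trans h3
    obtain ⟨N, hN⟩ := hbd
    refine ⟨_, h1 N x y (Or.inl hx) fun i j => (hN i j).trans ?_⟩
    have h2 : N ≤ 2 ^ 2 ^ N :=
      Nat.lt_two_pow_self.le.trans (Nat.pow_le_pow_right (by norm_num) Nat.lt_two_pow_self.le)
    exact_mod_cast h2
  have hgen := halpha (Tw m) (Tw n) φ (AdjoinRoot.root (fi n)) S (Set.range c) hSfin (by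
    intro a
    obtain ⟨h, rfl⟩ := AdjoinRoot.mk_surjective a
    refine ⟨h.map (Int.castRingHom (Tw m)), ?_⟩
    rw [Polynomial.eval₂_map, ← AdjoinRoot.aeval_eq, Polynomial.aeval_def]
    congr 1
    exact Subsingleton.elim _ _) hbase
  exact core hcirc hsch hhom hres hlift hchange hodd hpig hplace hlie (Tw n) (hdom n) F2 hF2 k
    (φ '' S) hS'fin ι c v2 w2 hr2 hg2 hgen (by rw [hrank]; exact hn)

end Pool.Agent.MR3
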