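import Pool.Agent.MR3.Defs

set_option autoImplicit false

/-!
# MR3 module MinPrime (helper46)
-/

namespace Pool.Agent.MR3

open Filter

theorem MinPrime_proof : Stmt_MinPrime := by
  intro R _ _ G p hp
  set I : Ideal R := ⨅ g, p g with hI
  have hfin : I.minimalPrimes.Finite := Ideal.finite_minimalPrimes_of_isNoetherianRing R I
  have hrad : I.IsRadical := Ideal.isRadical_iInf _ fun g => (hp g).isRadical
  have hInf : sInf I.minimalPrimes = I := by
    rw [Ideal.sInf_minimalPrimes, hrad.radical]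
  refine ⟨hfin.toFinset, ?_, ?_, ?_⟩
  · intro q hq
    rw [Set.Finite.mem_toFinset] at hq
    refine ⟨hq.1.1, hq.1.2, fun q' hq' hle => ?_⟩
    rw [Set.Finite.mem_toFinset] at hq'
    exact le_antisymm hle (hq.2 ⟨hq'.1.1, hq'.1.2⟩ hle)
  · intro q hq hIq
    have := hq
    obtain ⟨q', hq', hle⟩ := Ideal.exists_minimalPrimes_le hIq
    exact ⟨q', by rw [Set.Finite.mem_toFinset]; exact hq', hle⟩
  · intro q hq
    rw [Set.Finite.mem_toFinset] at hq
    have hqp : q.IsPrime := hq.1.1
    -- the separating element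
    obtain ⟨s, hs, hsq⟩ : ∃ s, (∀ q' ∈ I.minimalPrimes, q' ≠ q → s ∈ q') ∧ s ∉ q := by
      by_contra hcon
      push Not at hcon
      have h1 : (hfin.toFinset.erase q).inf id ≤ q := by
        intro x hx
        apply hcon x
        intro q' hq' hne
        have h2 : (hfin.toFinset.erase q).inf id ≤ q' :=
          Finset.inf_le (f := id) (Finset.mem_erase.2 ⟨hne, by
            rw [Set.Finite.mem_toFinset]; exact hq'⟩)
        exact h2 hx
      obtain ⟨q', hq', hle⟩ := (Ideal.IsPrime.inf_le' hqp).1 h1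
      rw [Finset.mem_erase, Set.Finite.mem_toFinset] at hq'
      exact hq'.1 (le_antisymm hle (hq.2 ⟨hq'.2.1.1, hq'.2.1.2⟩ hle))
    have hsI : ∀ x ∈ q, s * x ∈ I := by
      intro x hx
      rw [← hInf, Submodule.mem_sInf]
      intro q' hq'
      by_cases h : q' = q
      · rw [h]; exact q.mul_mem_left s hx
      · exact Ideal.mul_mem_right x q' (hs q' hq' h)
    let E : {h : R // h ∉ q} → Set G := fun h => {g | q ≤ p g ∧ (h : R) ∉ p g}
    have hE : ∀ h, (E h).Nonempty := by
      intro h
      have h1 : s * (h : R) ∉ q := fun hcon => (hqp.mem_or_mem hcon).elim hsq h.2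
      have h2 : s * (h : R) ∉ I := fun hcon => h1 (hq.1.2 hcon)
      have h3 : ∃ g, s * (h : R) ∉ p g := by
        by_contra hcon
        push Not at hcon
        exact h2 ((Submodule.mem_iInf _).2 hcon)
      obtain ⟨g, hg⟩ := h3
      refine ⟨g, fun x hx => ?_, fun hcon => hg ((p g).mul_mem_left s hcon)⟩
      have h4 : s * x ∈ p g := (iInf_le p g) (hsI x hx)
      exact ((hp g).mem_or_mem h4).resolve_left fun hcon => hg ((p g).mul_mem_right _ hcon)
    have hdir : Directed (· ≥ ·) (fun h => 𝓟 (E h)) := by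
      intro h h'
      refine ⟨⟨(h : R) * h', fun hcon => (hqp.mem_or_mem hcon).elim h.2 h'.2⟩, ?_, ?_⟩
      · simp only [ge_iff_le, le_principal_iff, mem_principal]
        intro g hg
        exact ⟨hg.1, fun hcon => hg.2 ((p g).mul_mem_right _ hcon)⟩
      · simp only [ge_iff_le, le_principal_iff, mem_principal]
        intro g hg
        exact ⟨hg.1, fun hcon => hg.2 ((p g).mul_mem_left _ hcon)⟩
    have : Nonempty {h : R // h ∉ q} := ⟨⟨s, hsq⟩⟩
    have : NeBot (⨅ h, 𝓟 (E h)) := iInf_neBot_of_directed' hdir fun h => principal_neBot_iff.2 (hE h)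
    let U := Ultrafilter.of (⨅ h, 𝓟 (E h))
    have hU : ∀ h, E h ∈ (U : Filter G) := fun h =>
      Ultrafilter.of_le _ (mem_iInf_of_mem h (mem_principal_self _))
    refine ⟨U, fun h => ⟨fun hh => ?_, fun hh => ?_⟩⟩
    · filter_upwards [hU ⟨s, hsq⟩] with g hg
      exact hg.1 hh
    · by_contra hcon
      have h1 : ∀ᶠ g in (U : Filter G), False := by
        filter_upwards [hU ⟨h, hcon⟩, hh] with g hg hg'
        exact hg.2 hg'
      exact (Filter.eventually_false_iff_eq_bot.1 h1 ▸ U.neBot).ne rfl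

end Pool.Agent.MR3
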