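import Pool.Agent.MR3.PlaceA
import Pool.Agent.MR3.PlaceB1
import Pool.Agent.MR3.PlaceB2

set_option autoImplicit false

/-!
Module Place: the place attached to a closed point.
-/

namespace Pool.Agent.MR3

theorem Place_proof : Stmt_Place := by
  intro D F _ _ y g hg hgen l κ _ _ _ z c hl hc hz hz' h2
  obtain ⟨v, hna, hvl, hpow, hle, hlt, hrep⟩ := PlaceA_proof D F y g hg hgen l κ z c hl hc hz hz'
  exact ⟨v, hna, hvl, PlaceB1_proof D F y l κ z c v h2 hna hle hlt hrep, fun s hs hs' =>
    PlaceB2_proof D F y g hg hgen l κ z c hl hc hz hz' v hna hvl hpow hle hlt hrep s hs hs'⟩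

end Pool.Agent.MR3
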