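import Pool.Agent.MR3.Spec

set_option autoImplicit false

/-!
Auxiliary lemmas for the modules PlaceA and PlaceB2.
-/

namespace Pool.Agent.MR3.PlaceAux

open MvPolynomial

theorem mem_aeval_sub {σ R : Type} [CommRing R] (I : Ideal R) (f f' : σ → R)
    (h : ∀ i, f i - f' i ∈ I) (g : MvPolynomial σ ℤ) : aeval f g - aeval f' g ∈ I := by
  induction g using MvPolynomial.induction_on with
  | C a => simp
  | add p q hp hq =>
    rw [map_add, map_add, add_sub_add_comm]
    exact I.add_mem hp hq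
  | mul_X p i hp =>
    rw [map_mul, map_mul, aeval_X, aeval_X]
    have : aeval f p * f i - aeval f' p * f' i =
        (aeval f p - aeval f' p) * f i + aeval f' p * (f i - f' i) := by ring
    rw [this]
    exact I.add_mem (I.mul_mem_right _ hp) (I.mul_mem_left _ (h i))

/-- restriction of a polynomial to the line `X (i+1) = c i` -/
noncomputable def res {D : ℕ} (c : Fin D → ℤ) :
    MvPolynomial (Fin (D + 1)) ℤ →ₐ[ℤ] Polynomial ℤ :=
  aeval (Fin.cases Polynomial.X (fun i => Polynomial.C (c i)))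

/-- the embedding of the polynomials in one variable -/
noncomputable def emb (D : ℕ) : Polynomial ℤ →ₐ[ℤ] MvPolynomial (Fin (D + 1)) ℤ :=
  Polynomial.aeval (X 0)

theorem res_X_zero {D : ℕ} (c : Fin D → ℤ) : res c (X 0) = Polynomial.X := by simp [res]

theorem res_X_succ {D : ℕ} (c : Fin D → ℤ) (i : Fin D) :
    res c (X i.succ) = Polynomial.C (c i) := by simp [res]

theorem aeval_res {D : ℕ} {κ : Type} [Field κ] (z : Fin (D + 1) → κ) (c : Fin D → ℤ)
    (hc : ∀ i : Fin D, z i.succ = (c i : κ)) (P : MvPolynomial (Fin (D + 1)) ℤ) :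
    Polynomial.aeval (z 0) (res c P) = aeval z P := by
  have : ((Polynomial.aeval (z 0)).comp (res c) : MvPolynomial (Fin (D + 1)) ℤ →ₐ[ℤ] κ) =
      aeval z := by
    apply MvPolynomial.algHom_ext
    intro i
    refine Fin.cases ?_ (fun j => ?_) i
    · simp [res]
    · simp [res, hc]
  rw [← this]; rfl

theorem aeval_der_res {D : ℕ} {κ : Type} [Field κ] (z : Fin (D + 1) → κ) (c : Fin D → ℤ)
    (hc : ∀ i : Fin D, z i.succ = (c i : κ)) (P : MvPolynomial (Fin (D + 1)) ℤ) :
    Polynomial.aeval (z 0) (Polynomial.derivative (res c P)) = aeval z (pderiv 0 P) := by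
  induction P using MvPolynomial.induction_on with
  | C a => simp [res]
  | add p q hp hq => simp [hp, hq]
  | mul_X p i hp =>
    rw [map_mul, Polynomial.derivative_mul, map_add, map_mul, map_mul, hp, aeval_res z c hc,
      Derivation.leibniz, map_add, smul_eq_mul, smul_eq_mul, map_mul, map_mul, aeval_X]
    refine Fin.cases ?_ (fun j => ?_) i
    · rw [res_X_zero, Polynomial.derivative_X, map_one, aeval_res z c hc,
        pderiv_X_self, map_one]
      ring
    · rw [res_X_succ, Polynomial.derivative_C, map_zero, aeval_res z c hc,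
        pderiv_X_of_ne (Fin.succ_ne_zero j), map_zero]
      ring

theorem emb_res_sub_mem {D : ℕ} (c : Fin D → ℤ) (P : MvPolynomial (Fin (D + 1)) ℤ) :
    P - emb D (res c P) ∈
      Ideal.span (Set.range fun i : Fin D => (X i.succ - C (c i) : MvPolynomial (Fin (D + 1)) ℤ)) := by
  have h1 : emb D (res c P) = aeval (Fin.cases (X 0) (fun i => C (c i)) :
      Fin (D + 1) → MvPolynomial (Fin (D + 1)) ℤ) P := by
    have : ((emb D).comp (res c) : MvPolynomial (Fin (D + 1)) ℤ →ₐ[ℤ] _) =
        aeval (Fin.cases (X 0) (fun i => C (c i)) :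
          Fin (D + 1) → MvPolynomial (Fin (D + 1)) ℤ) := by
      apply MvPolynomial.algHom_ext
      intro i
      refine Fin.cases ?_ (fun j => ?_) i
      · simp [res, emb]
      · simp [res, emb]
    rw [← this]; rfl
  have h2 : P = aeval (X : Fin (D + 1) → MvPolynomial (Fin (D + 1)) ℤ) P := by simp
  rw [h1]
  nth_rw 1 [h2]
  apply mem_aeval_sub
  intro i
  refine Fin.cases ?_ (fun j => ?_) i
  · simp
  · exact Ideal.subset_span ⟨j, rfl⟩

/-- the one variable lemma -/
theorem exists_psi {D : ℕ} (g : MvPolynomial (Fin (D + 1)) ℤ) (l : ℕ) {κ : Type} [Field κ]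
    [Fintype κ] [CharP κ l] (z : Fin (D + 1) → κ) (c : Fin D → ℤ) (hl : l.Prime)
    (hc : ∀ i : Fin D, z i.succ = (c i : κ)) (hz : aeval z g = 0)
    (hz' : aeval z (pderiv 0 g) ≠ 0) :
    ∃ ψ : Polynomial ℤ, Polynomial.aeval (z 0) ψ ≠ 0 ∧ ∀ p : Polynomial ℤ,
      Polynomial.aeval (z 0) p = 0 → ∃ q r, ψ * p = res c g * q + Polynomial.C (l : ℤ) * r := by
  have : Fact l.Prime := ⟨hl⟩
  let _ : Algebra (ZMod l) κ := ZMod.algebra κ l
  have hmap : ∀ p : Polynomial ℤ, Polynomial.aeval (z 0) p =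
      Polynomial.aeval (z 0) (p.map (Int.castRingHom (ZMod l))) := by
    intro p
    rw [Polynomial.aeval_def, Polynomial.aeval_def, Polynomial.eval₂_map]
    congr 1
    exact RingHom.ext_int _ _
  have hint : IsIntegral (ZMod l) (z 0) := IsIntegral.of_finite _ _
  set φ := minpoly (ZMod l) (z 0) with hφ
  have h1 : φ ∣ (res c g).map (Int.castRingHom (ZMod l)) := by
    apply minpoly.dvd
    rw [← hmap, aeval_res z c hc, hz]
  obtain ⟨ψ', hψ'⟩ := h1
  obtain ⟨ψ, hψ⟩ := Polynomial.map_surjective (Int.castRingHom (ZMod l))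
    (ZMod.ringHom_surjective _) ψ'
  have hder : Polynomial.aeval (z 0) ((res c g).map (Int.castRingHom (ZMod l))).derivative ≠ 0 := by
    rw [Polynomial.derivative_map, ← hmap, aeval_der_res z c hc]
    exact hz'
  refine ⟨ψ, ?_, ?_⟩
  · rw [hmap, hψ]
    intro h2
    apply hder
    rw [hψ', Polynomial.derivative_mul, map_add, map_mul, map_mul, h2, minpoly.aeval]
    ring
  · intro p hp
    rw [hmap] at hp
    obtain ⟨q', hq'⟩ := minpoly.dvd (ZMod l) (z 0) hp
    obtain ⟨q, hq⟩ := Polynomial.map_surjective (Int.castRingHom (ZMod l))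
      (ZMod.ringHom_surjective _) q'
    refine ⟨q, ?_⟩
    have h3 : (ψ * p - res c g * q).map (Int.castRingHom (ZMod l)) = 0 := by
      rw [Polynomial.map_sub, Polynomial.map_mul, Polynomial.map_mul, hψ, hq, hq', hψ', ← hφ]
      ring
    have h4 : Polynomial.C (l : ℤ) ∣ ψ * p - res c g * q := by
      rw [Polynomial.C_dvd_iff_dvd_coeff]
      intro i
      have h5 := congrArg (fun f => Polynomial.coeff f i) h3
      simp only [Polynomial.coeff_map, Polynomial.coeff_zero, eq_intCast] at h5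
      exact (ZMod.intCast_zmod_eq_zero_iff_dvd _ _).1 h5
    obtain ⟨r, hr⟩ := h4
    exact ⟨r, by rw [← hr]; ring⟩

/-- the several variable lemma -/
theorem exists_psi_mv {D : ℕ} (G ψ : Polynomial ℤ) (l : ℕ) {κ : Type} [Field κ]
    (z : Fin (D + 1) → κ)
    (h : ∀ p : Polynomial ℤ, Polynomial.aeval (z 0) p = 0 →
      ∃ q r, ψ * p = G * q + Polynomial.C (l : ℤ) * r)
    (P : MvPolynomial (Fin (D + 1)) ℤ) (hP : piY z P = 0) :
    ∃ P1 P2, emb D ψ * P = emb D G * P1 + C (l : ℤ) * P2 := by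
  let Φ : MvPolynomial (Fin D) (Polynomial ℤ) →+* MvPolynomial (Fin (D + 1)) ℤ :=
    eval₂Hom (emb D).toRingHom (fun i => X i.succ)
  have hΦC : ∀ p, Φ (C p) = emb D p := fun p => eval₂Hom_C _ _ _
  have hΦX : ∀ i, Φ (X i) = X i.succ := fun i => eval₂Hom_X' _ _ _
  have hsurj : ∀ P : MvPolynomial (Fin (D + 1)) ℤ, ∃ P', Φ P' = P := by
    intro P
    induction P using MvPolynomial.induction_on with
    | C a => exact ⟨C (Polynomial.C a), by rw [hΦC]; simp [emb]⟩
    | add p q hp hq =>
      obtain ⟨p', rfl⟩ := hp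
      obtain ⟨q', rfl⟩ := hq
      exact ⟨p' + q', map_add _ _ _⟩
    | mul_X p i hp =>
      obtain ⟨p', rfl⟩ := hp
      refine Fin.cases ?_ (fun j => ?_) i
      · exact ⟨p' * C Polynomial.X, by rw [map_mul, hΦC]; simp [emb]⟩
      · exact ⟨p' * X j, by rw [map_mul, hΦX]⟩
  have hpi : (piY z).toRingHom.comp Φ = map (Polynomial.aeval (z 0)).toRingHom := by
    apply MvPolynomial.ringHom_ext
    · intro p
      have h1 : ((piY z).comp (emb D) : Polynomial ℤ →ₐ[ℤ] MvPolynomial (Fin D) κ) =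
          ((Algebra.ofId κ (MvPolynomial (Fin D) κ)).restrictScalars ℤ).comp
            (Polynomial.aeval (z 0)) := by
        apply Polynomial.algHom_ext
        simp [piY, emb, MvPolynomial.algebraMap_eq, Algebra.ofId_apply]
      have h2 := congrArg (fun f => f p) h1
      simp only [AlgHom.comp_apply] at h2
      rw [RingHom.comp_apply, hΦC, map_C]
      exact h2
    · intro i
      rw [RingHom.comp_apply, hΦX, map_X]
      simp [piY]
  obtain ⟨P', rfl⟩ := hsurj P
  have hP' : P' ∈ Ideal.map C (RingHom.ker (Polynomial.aeval (z 0) : _ →ₐ[ℤ] κ).toRingHom) := by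
    rw [← MvPolynomial.ker_map, RingHom.mem_ker, ← hpi]
    exact hP
  have key : ∃ P1 P2 : MvPolynomial (Fin D) (Polynomial ℤ),
      C ψ * P' = C G * P1 + C (Polynomial.C (l : ℤ)) * P2 := by
    clear hP
    rw [Ideal.map] at hP'
    induction hP' using Submodule.span_induction with
    | mem x hx =>
      obtain ⟨p, hp, rfl⟩ := hx
      obtain ⟨q, r, hqr⟩ := h p hp
      exact ⟨C q, C r, by rw [← C_mul, ← C_mul, ← C_mul, ← C_add, hqr]⟩
    | zero => exact ⟨0, 0, by simp⟩
    | add x y _ _ hx hy =>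
      obtain ⟨a, b, hab⟩ := hx
      obtain ⟨a', b', hab'⟩ := hy
      exact ⟨a + a', b + b', by rw [mul_add, hab, hab']; ring⟩
    | smul r x _ hx =>
      obtain ⟨a, b, hab⟩ := hx
      exact ⟨r * a, r * b, by rw [smul_eq_mul, mul_left_comm, hab]; ring⟩
  obtain ⟨P1, P2, h12⟩ := key
  refine ⟨Φ P1, Φ P2, ?_⟩
  have h3 := congrArg Φ h12
  rw [map_add, map_mul, map_mul, map_mul, hΦC, hΦC, hΦC] at h3
  rw [h3]
  congr 2
  simp [emb]

end Pool.Agent.MR3.PlaceAux
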